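import Pool.Agent.Helper48K9.Res

/-!
# Levels of line arrangements: gluing groups of lines side by side

The lemmas before `main` are those of `Pool/Agent/W863/AllK.lean`.
-/

namespace K9.AllK

open KLev Finset Filter Topology

/-- an arrangement of `n` lines with distinct slopes and `E` recorded vertices of the `k`-level -/
def HasEv (n E k : ℕ) : Prop :=
  ∃ (A R : Type) (_ : Fintype A) (_ : Fintype R) (P : ℕ) (S : Ev A R k P),
    Function.Injective S.s ∧ Fintype.card A = n ∧ Fintype.card R = E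

lemma bound {α : Type} [Finite α] (f : α → ℝ) : ∃ c, ∀ a, |f a| ≤ c := by
  cases nonempty_fintype α
  refine ⟨∑ a, |f a|, fun a => ?_⟩
  exact Finset.single_le_sum (f := fun a => |f a|) (fun _ _ => abs_nonneg _) (Finset.mem_univ a)

theorem glue {n₁ E₁ n₂ E₂ k : ℕ} (h₁ : HasEv n₁ E₁ k) (h₂ : HasEv n₂ E₂ k) :
    HasEv (n₁ + n₂) (E₁ + E₂) k := by
  classical
  obtain ⟨A₁, R₁, _, _, P₁, S₁, i₁, c₁, d₁⟩ := h₁
  obtain ⟨A₂, R₂, _, _, P₂, S₂, i₂, c₂, d₂⟩ := h₂
  obtain ⟨b1, hb1⟩ := bound S₁.s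
  obtain ⟨b2, hb2⟩ := bound S₁.t
  obtain ⟨b3, hb3⟩ := bound S₁.X
  obtain ⟨b4, hb4⟩ := bound S₂.s
  obtain ⟨b5, hb5⟩ := bound S₂.t
  obtain ⟨b6, hb6⟩ := bound S₂.X
  obtain ⟨c, hc0, g1, g2, g3, g4, g5, g6⟩ : ∃ c : ℝ, 0 ≤ c ∧ b1 ≤ c ∧ b2 ≤ c ∧ b3 ≤ c ∧
      b4 ≤ c ∧ b5 ≤ c ∧ b6 ≤ c := by
    refine ⟨|b1| + |b2| + |b3| + |b4| + |b5| + |b6|, by positivity, ?_, ?_, ?_, ?_, ?_, ?_⟩ <;>
    linarith [le_abs_self b1, le_abs_self b2, le_abs_self b3, le_abs_self b4, le_abs_self b5,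
      le_abs_self b6, abs_nonneg b1, abs_nonneg b2, abs_nonneg b3, abs_nonneg b4, abs_nonneg b5,
      abs_nonneg b6]
  have s1 : ∀ a, -c ≤ S₁.s a ∧ S₁.s a ≤ c := fun a => abs_le.mp ((hb1 a).trans g1)
  have t1 : ∀ a, -c ≤ S₁.t a ∧ S₁.t a ≤ c := fun a => abs_le.mp ((hb2 a).trans g2)
  have x1 : ∀ a, -c ≤ S₁.X a ∧ S₁.X a ≤ c := fun a => abs_le.mp ((hb3 a).trans g3)
  have s2 : ∀ a, -c ≤ S₂.s a ∧ S₂.s a ≤ c := fun a => abs_le.mp ((hb4 a).trans g4)
  have t2 : ∀ a, -c ≤ S₂.t a ∧ S₂.t a ≤ c := fun a => abs_le.mp ((hb5 a).trans g5)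
  have x2 : ∀ a, -c ≤ S₂.X a ∧ S₂.X a ≤ c := fun a => abs_le.mp ((hb6 a).trans g6)
  obtain ⟨M, hM⟩ : ∃ M, M = 2 * c + 1 := ⟨_, rfl⟩
  obtain ⟨K, hK⟩ : ∃ K, K = 6 * (c + 1) ^ 2 + 1 := ⟨_, rfl⟩
  obtain ⟨H, hH⟩ : ∃ H, H = 2 * c ^ 2 + 2 * c + K * c + c * M + 1 := ⟨_, rfl⟩
  have hKc : 2 * c + 1 ≤ K := by rw [hK]; nlinarith
  -- a product bound
  have pr : ∀ u v a b : ℝ, -a ≤ u → u ≤ a → -b ≤ v → v ≤ b → 0 ≤ a → 0 ≤ b →
      -(a * b) ≤ u * v ∧ u * v ≤ a * b := by
    intro u v a b h1 h2 h3 h4 h5 h6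
    have : |u * v| ≤ a * b := by
      rw [abs_mul]
      exact mul_le_mul (abs_le.mpr ⟨h1, h2⟩) (abs_le.mpr ⟨h3, h4⟩) (abs_nonneg _) h5
    exact abs_le.mp this
  -- group 2 below group 1 near `M`
  have low : ∀ r a a', (S₂.s a' - K) * (S₂.X r + M) + (-(S₂.s a' - K) * M + S₂.t a' - H) <
      S₁.s a * (S₂.X r + M) + S₁.t a := by
    intro r a a'
    have e1 := pr (S₂.s a') (S₂.X r) c c (s2 a').1 (s2 a').2 (x2 r).1 (x2 r).2 hc0 hc0
    have e2 := pr (S₂.X r) K c K (x2 r).1 (x2 r).2 (by linarith) le_rfl hc0 (by linarith)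
    have e3 := pr (S₁.s a) (S₂.X r) c c (s1 a).1 (s1 a).2 (x2 r).1 (x2 r).2 hc0 hc0
    have e4 := pr (S₁.s a) M c M (s1 a).1 (s1 a).2 (by linarith) le_rfl hc0 (by linarith)
    have := t2 a'
    have := t1 a
    nlinarith
  -- group 1 below group 2 near `0`
  have upp : ∀ r a a', S₁.s a * S₁.X r + S₁.t a <
      (S₂.s a' - K) * S₁.X r + (-(S₂.s a' - K) * M + S₂.t a' - H) := by
    intro r a a'
    have e1 := pr (S₁.s a) (S₁.X r) c c (s1 a).1 (s1 a).2 (x1 r).1 (x1 r).2 hc0 hc0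
    have := t2 a'
    have := t1 a
    have h1 : (K - c) * (M - c) ≤ (K - S₂.s a') * (M - S₁.X r) := by
      apply mul_le_mul
      · linarith [(s2 a').2]
      · linarith [(x1 r).2]
      · linarith
      · linarith [(s2 a').2]
    have h2 : (K - c) * (M - c) = K * c + K - c ^ 2 - c := by rw [hM]; ring
    have h3 : c * M = 2 * c ^ 2 + c := by rw [hM]; ring
    nlinarith
  refine ⟨A₁ ⊕ A₂, R₁ ⊕ R₂, inferInstance, inferInstance, Fintype.card (R₁ ⊕ R₂), {
    s := Sum.elim S₁.s (fun a => S₂.s a - K)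
    t := Sum.elim S₁.t (fun a => -(S₂.s a - K) * M + S₂.t a - H)
    X := Sum.elim S₁.X (fun r => S₂.X r + M)
    a := Sum.elim (fun r => Sum.inl (S₁.a r)) (fun r => Sum.inr (S₂.a r))
    b := Sum.elim (fun r => Sum.inl (S₁.b r)) (fun r => Sum.inr (S₂.b r))
    tie := ?_
    hs := ?_
    hne := ?_
    hcard := ?_
    hX := ?_
    slot := Fintype.equivFin _
    hslot := fun r r' _ h => (Fintype.equivFin _).injective h }, ?_, ?_, ?_⟩
  · rintro (r | r)
    · exact S₁.tie r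
    · simp only [Sum.elim_inr]
      linear_combination S₂.tie r
  · rintro (r | r)
    · exact S₁.hs r
    · simp only [Sum.elim_inr]
      linarith [S₂.hs r]
  · rintro (r | r) (a | a) h1 h2 h3
    · simp only [Sum.elim_inl] at h1 h2 h3
      exact S₁.hne r a (fun h => h1 (congrArg _ h)) (fun h => h2 (congrArg _ h)) h3
    · simp only [Sum.elim_inl, Sum.elim_inr] at h3
      linarith [upp r (S₁.a r) a]
    · simp only [Sum.elim_inl, Sum.elim_inr] at h3
      linarith [low r a (S₂.a r)]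
    · simp only [Sum.elim_inr] at h1 h2 h3
      apply S₂.hne r a (fun h => h1 (congrArg _ h)) (fun h => h2 (congrArg _ h))
      linear_combination h3
  · rintro (r | r)
    · refine (Fintype.sum_sum_type _).trans ?_
      refine (congrArg₂ (· + ·) (Eq.trans (Finset.sum_congr rfl fun i _ => ?_) (S₁.hcard r))
        (Finset.sum_eq_zero fun i _ => if_neg ?_)).trans (add_zero k)
      · simp only [Sum.elim_inl]
        congr
      · exact not_lt.mpr (upp r (S₁.a r) i).le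
    · refine (Fintype.sum_sum_type _).trans ?_
      refine (congrArg₂ (· + ·) (Finset.sum_eq_zero fun i _ => if_neg ?_)
        (Eq.trans (Finset.sum_congr rfl fun i _ => ?_) (S₂.hcard r))).trans (zero_add k)
      · exact not_lt.mpr (low r i (S₂.a r)).le
      · have : ((S₂.s i - K) * (S₂.X r + M) + (-(S₂.s i - K) * M + S₂.t i - H) <
          (S₂.s (S₂.a r) - K) * (S₂.X r + M) + (-(S₂.s (S₂.a r) - K) * M + S₂.t (S₂.a r) - H)) ↔
          S₂.s i * S₂.X r + S₂.t i < S₂.s (S₂.a r) * S₂.X r + S₂.t (S₂.a r) := by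
          constructor <;> intro h <;> linarith
        by_cases h : S₂.s i * S₂.X r + S₂.t i < S₂.s (S₂.a r) * S₂.X r + S₂.t (S₂.a r)
        · rw [if_pos h]; exact if_pos (this.mpr h)
        · rw [if_neg h]; exact if_neg (fun h' => h (this.mp h'))
  · rintro (r | r) (r' | r') h
    · exact congrArg _ (S₁.hX h)
    · simp only [Sum.elim_inl, Sum.elim_inr] at h
      linarith [(x1 r).2, (x2 r').1]
    · simp only [Sum.elim_inl, Sum.elim_inr] at h
      linarith [(x1 r').2, (x2 r).1]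
    · simp only [Sum.elim_inr] at h
      exact congrArg _ (S₂.hX (by linarith))
  · rintro (a | a) (a' | a') h
    · exact congrArg _ (i₁ h)
    · simp only [Sum.elim_inl, Sum.elim_inr] at h
      linarith [(s1 a).1, (s2 a').2]
    · simp only [Sum.elim_inl, Sum.elim_inr] at h
      linarith [(s1 a').1, (s2 a).2]
    · simp only [Sum.elim_inr] at h
      exact congrArg _ (i₂ (by linarith))
  · rw [Fintype.card_sum, c₁, c₂]
  · rw [Fintype.card_sum, d₁, d₂]

/-- turning an arrangement upside down -/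
theorem flip {n E k k' : ℕ} (h : HasEv n E k) (hk : k + k' + 2 = n) : HasEv n E k' := by
  classical
  obtain ⟨A, R, _, _, P, S, i₁, c₁, d₁⟩ := h
  refine ⟨A, R, inferInstance, inferInstance, Fintype.card R, {
    s := fun a => -S.s a
    t := fun a => -S.t a
    X := S.X
    a := S.b
    b := S.a
    tie := ?_
    hs := ?_
    hne := ?_
    hcard := ?_
    hX := S.hX
    slot := Fintype.equivFin _
    hslot := fun r r' _ h => (Fintype.equivFin _).injective h }, ?_, c₁, d₁⟩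
  · intro r
    linear_combination S.tie r
  · intro r
    linarith [S.hs r]
  · intro r c h1 h2 h3
    apply S.hne r c h2 h1
    linear_combination -h3 - S.tie r
  · intro r
    have hab : S.a r ≠ S.b r := fun h => absurd (congrArg S.s h) (S.hs r).ne'
    have h1 := S.hcard r
    have h2 : ∑ c, ((if S.s c * S.X r + S.t c < S.s (S.a r) * S.X r + S.t (S.a r) then 1 else 0) +
        (if -S.s c * S.X r + -S.t c < -S.s (S.b r) * S.X r + -S.t (S.b r) then 1 else 0) +
        (if c = S.a r then 1 else 0) + (if c = S.b r then 1 else 0)) = ∑ _c : A, 1 := by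
      apply Finset.sum_congr rfl
      intro c _
      have ht := S.tie r
      by_cases ha : c = S.a r
      · subst ha
        rw [if_neg (lt_irrefl _), if_neg (by intro h; linarith), if_pos rfl, if_neg hab]
      · by_cases hb : c = S.b r
        · subst hb
          rw [if_neg (by intro h; linarith), if_neg (lt_irrefl _), if_neg ha, if_pos rfl]
        · rw [if_neg ha, if_neg hb]
          rcases lt_or_gt_of_ne (S.hne r c ha hb) with h | h
          · rw [if_pos h, if_neg (by intro h'; linarith)]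
          · rw [if_neg h.not_gt, if_pos (by linarith)]
    rw [Finset.sum_add_distrib, Finset.sum_add_distrib, Finset.sum_add_distrib,
      Finset.sum_ite_eq' Finset.univ (S.a r), Finset.sum_ite_eq' Finset.univ (S.b r)] at h2
    simp only [Finset.mem_univ, if_true, Finset.sum_const, Finset.card_univ, smul_eq_mul,
      mul_one, c₁] at h2
    have h1' : ∑ c, (if S.s c * S.X r + S.t c < S.s (S.a r) * S.X r + S.t (S.a r) then 1 else 0) =
      k := h1
    rw [h1'] at h2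
    have h3 : ∑ c, (if -S.s c * S.X r + -S.t c < -S.s (S.b r) * S.X r + -S.t (S.b r)
      then 1 else 0) = k' := by omega
    exact h3
  · intro a a' h
    exact i₁ (neg_injective h)

theorem HasEv.le_e {n E k : ℕ} (h : HasEv n E k) : E ≤ Levels.e k n := by
  obtain ⟨A, R, _, _, P, S, i₁, c₁, d₁⟩ := h
  have := Levels.e_ge_ev S i₁
  rwa [c₁, d₁] at this

theorem single {N E P K : ℕ} (h : Has N E P) (hK : N ≤ K + 1) (r : ℕ) :
    HasEv (N + K + 1 + r) E K := by
  obtain ⟨ι, R, _, _, κ, C, -, h3, h4, h5, h6⟩ := h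
  obtain ⟨C'⟩ := pad C (κ + r) (K + 1 - κ)
  have e1 : κ + (K + 1 - κ) = K + 1 := by omega
  rw [e1] at C'
  obtain ⟨S, h7, -⟩ := nice C'
  refine ⟨_, R, inferInstance, inferInstance, P, S, h7, ?_, h4⟩
  simp only [Fintype.card_sum, Fintype.card_fin, h3]
  omega

theorem many {N E P K : ℕ} (h : Has N E P) (hK : N ≤ K + 1) (r j : ℕ) :
    HasEv ((j + 1) * (N + K + 1) + r) ((j + 1) * E) K := by
  induction j with
  | zero => simpa using single h hK r
  | succ j ih =>
    have := glue (single h hK 0) ih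
    have e1 : N + K + 1 + 0 + ((j + 1) * (N + K + 1) + r) = (j + 1 + 1) * (N + K + 1) + r := by
      ring
    have e2 : E + (j + 1) * E = (j + 1 + 1) * E := by ring
    rwa [e1, e2] at this

theorem many' {N E P K n : ℕ} (h : Has N E P) (hK : N ≤ K + 1) (hn : N + K + 1 ≤ n) :
    HasEv n (n / (N + K + 1) * E) K := by
  have h1 : 0 < n / (N + K + 1) := Nat.div_pos hn (by omega)
  have := many h hK (n % (N + K + 1)) (n / (N + K + 1) - 1)
  rw [Nat.sub_add_cancel h1, Nat.div_add_mod'] at this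
  exact this

/-- every level that is not too close to the bottom or the top -/
theorem main (h : RoundsStmt) : ∃ k₀ : ℕ, ∀ n k : ℕ, k₀ ≤ k → k + k₀ ≤ n →
    (n : ℝ) * ((min k (n - k) : ℕ) : ℝ) ^
      (1 / Real.log (Real.log ((min k (n - k) : ℕ) : ℝ)) ^ 5) ≤ (Levels.e k n : ℝ) := by
  obtain ⟨a, ha⟩ := (has_of_rounds h 4).exists_forall_of_atTop
  refine ⟨a + 3, fun n k h1 h2 => ?_⟩
  obtain ⟨x, hx⟩ : ∃ x, x = min k (n - k) := ⟨_, rfl⟩
  rw [← hx]
  obtain ⟨N, E, P, hH, hN, hE⟩ := ha (x - 1) (by omega)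
  have hx0 : (0:ℝ) < x := by
    have : 0 < x := by omega
    exact_mod_cast this
  have hE' := hE x (by exact_mod_cast (by omega : x - 1 ≤ x))
    (by exact_mod_cast (by omega : x ≤ 8 * (x - 1)))
  have key : ∃ g, g ≤ 2 * x ∧ 0 < g ∧ g ≤ n ∧ n / g * E ≤ Levels.e k n := by
    by_cases hk : 2 * k + 1 ≤ n
    · exact ⟨N + k + 1, by omega, by omega, by omega,
        (many' hH (by omega : N ≤ k + 1) (by omega)).le_e⟩
    · refine ⟨N + (n - 2 - k) + 1, by omega, by omega, by omega, ?_⟩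
      exact (flip (many' (n := n) hH (by omega : N ≤ (n - 2 - k) + 1) (by omega))
        (by omega : n - 2 - k + k + 2 = n)).le_e
  obtain ⟨g, g1, g0, g2, g3⟩ := key
  have g4 : n ≤ 4 * x * (n / g) := by
    have h5 : n < (n / g + 1) * g := Nat.lt_mul_of_div_lt (Nat.lt_succ_self _) g0
    have h6 : 1 ≤ n / g := Nat.div_pos g2 g0
    have h7 : (n / g + 1) * g ≤ (2 * (n / g)) * (2 * x) := Nat.mul_le_mul (by omega) g1
    nlinarith
  set δ : ℝ := 1 / Real.log (Real.log (x : ℝ)) ^ 5 with hδ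
  rw [Real.rpow_add hx0, Real.rpow_one] at hE'
  have g5 : (n:ℝ) ≤ 4 * x * ((n / g : ℕ) : ℝ) := by exact_mod_cast g4
  have g6 : (((n / g : ℕ) : ℝ)) * E ≤ Levels.e k n := by exact_mod_cast g3
  have hp : (0:ℝ) ≤ (x:ℝ) ^ δ := Real.rpow_nonneg hx0.le _
  have hd : (0:ℝ) ≤ ((n / g : ℕ) : ℝ) := Nat.cast_nonneg _
  calc (n:ℝ) * (x:ℝ) ^ δ ≤ (4 * x * ((n / g : ℕ) : ℝ)) * (x:ℝ) ^ δ :=
        mul_le_mul_of_nonneg_right g5 hp
    _ = ((n / g : ℕ) : ℝ) * (4 * (x * (x:ℝ) ^ δ)) := by ring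
    _ ≤ ((n / g : ℕ) : ℝ) * E := mul_le_mul_of_nonneg_left hE' hd
    _ ≤ _ := g6

end K9.AllK
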