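import Pool.Agent.Helper48K9.Ctx

/-!
# Assembly 1: metric and combinatorial properties of the composed system
-/

namespace K9

open Finset

section

variable {A D R G F T : Type}
variable {S₁ : Sys A D R} {S₂ : Sys G F T} {m : Pm} {Z Q Nx V₁ V Δ : ℕ}
  {σ : G → ℤ} {ς : F → ℤ} {n : T → ℤ} {τ₁ γ₁ τ₂ γ₂ μ γ' τ' : ℝ} {sl : R → G → ℝ}
  {su : R → F → ℝ}

/-- the composed system attached to a context -/
noncomputable def Ctx.sys [DecidableEq G]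
    (C : Ctx S₁ S₂ m Z Q Nx V₁ V Δ σ ς n τ₁ γ₁ τ₂ γ₂ μ γ' τ' sl su) (K : Finset G) :
    Sys (Idx A D R G (G × Fin V) Nx V) (Idx A D R F (QD F T Nx V₁ V) Nx V) (R × Cell T Nx V₁) :=
  comp S₁ S₂ m ς C.hV C.hσ K sl su

lemma Ctx.dN_pos (C : Ctx S₁ S₂ m Z Q Nx V₁ V Δ σ ς n τ₁ γ₁ τ₂ γ₂ μ γ' τ' sl su)
    (ga : LeafGA) (x : R × Cell T Nx V₁) : 0 < dN S₂ sl x := by
  have h := (ga S₁ S₂ m Z Q Nx V₁ V Δ σ ς n τ₁ γ₁ τ₂ γ₂ μ γ' τ' sl su C x).1
  have h1 := C.g1.pos x.1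
  have h2 := C.g2.pos x.2.2.2
  have h3 := C.e0
  have : 0 < 9 / 10 * (m.del * S₁.d x.1 * S₂.d x.2.2.2) := by positivity
  linarith [h.1]

lemma Ctx.lamZ (C : Ctx S₁ S₂ m Z Q Nx V₁ V Δ σ ς n τ₁ γ₁ τ₂ γ₂ μ γ' τ' sl su) :
    m.lam * Z ≤ 1 / 64 := by
  have h := C.c1
  have hl := C.l0
  have hN : (1:ℝ) ≤ Nx := by exact_mod_cast C.Nx1
  have hZ : (0:ℝ) ≤ Z := Nat.cast_nonneg _
  have hV : (0:ℝ) ≤ V := Nat.cast_nonneg _
  have hQ : (0:ℝ) ≤ Q := Nat.cast_nonneg _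
  have h1 : (Z:ℝ) ≤ Z * Nx := le_mul_of_one_le_right hZ hN
  have h2 : m.lam * Z ≤ m.lam * (V + Z * Nx + Q + 4) :=
    mul_le_mul_of_nonneg_left (by linarith) hl.le
  linarith

/-- pool lines through the own lattice line -/
lemma Ctx.own (C : Ctx S₁ S₂ m Z Q Nx V₁ V Δ σ ς n τ₁ γ₁ τ₂ γ₂ μ γ' τ' sl su)
    (gc : LeafGC) (x : R × Cell T Nx V₁) (z : ℤ) (w τ : ℝ)
    (β : Fin V) (hz : |z| ≤ (Z:ℤ)) (hτ : |τ| ≤ 3 * Z)
    (hw : |w - slI S₁ m x.1 z| ≤ μ * (m.del * S₁.d x.1))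
    (hβ : ((β:ℕ):ℤ) = bet Z Nx V₁ z x.2.1 x.2.2.1)
    (hG : γ₂ * (|(z:ℝ) - S₂.p m.y x.2.2.2| / S₂.d x.2.2.2 + 1) ≤
      |z * S₂.X x.2.2.2 + τ - S₂.Y x.2.2.2|)
    (hcmp : |w - pN m.y S₂ sl x| / dN S₂ sl x + 1 ≤
      2 * (|(z:ℝ) - S₂.p m.y x.2.2.2| / S₂.d x.2.2.2 + 1)) :
    Big S₁ S₂ m Z γ' sl x w (icI S₁ m x.1 z w τ β) ∧
    (hs S₁ S₂ m Z x w (icI S₁ m x.1 z w τ β) < 0 ↔ z * S₂.X x.2.2.2 + τ - S₂.Y x.2.2.2 < 0) := by
  obtain ⟨h1, -⟩ := gc S₁ S₂ m Z Q Nx V₁ V Δ σ ς n τ₁ γ₁ τ₂ γ₂ μ γ' τ' sl su C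
  have h2 := (h1 x x.1 z w τ β hz hτ hw).2.1 rfl hβ
  have hd := C.g2.pos x.2.2.2
  have hγ := C.γ'0
  have hc10 := C.c10
  set H := (z:ℝ) * S₂.X x.2.2.2 + τ - S₂.Y x.2.2.2 with hH
  set G₂ := |(z:ℝ) - S₂.p m.y x.2.2.2| / S₂.d x.2.2.2 + 1 with hG₂
  have hG1 : 1 ≤ G₂ := by
    have : 0 ≤ |(z:ℝ) - S₂.p m.y x.2.2.2| / S₂.d x.2.2.2 := by positivity
    linarith
  have hzR : |(z:ℝ)| ≤ Z := by exact_mod_cast hz
  obtain ⟨b1, b2⟩ := one_add_bd C.l0 hzR C.lamZ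
  set c := m.eps * m.del * m.kap with hc
  have hc0 : 0 < c := by
    have := C.ep0; have := C.e0; have := C.k0; positivity
  have b0 : 0 < 1 + m.lam * z := by linarith
  have hc2 : c / 2 ≤ c / (1 + m.lam * z) :=
    div_le_div_of_nonneg_left hc0.le b0 (by linarith)
  -- size of the main term
  have h3 : 400 * (γ' * G₂) ≤ |c / (1 + m.lam * z) * H| := by
    rw [abs_mul, abs_of_pos (div_pos hc0 b0)]
    have h4 : c / 2 * (γ₂ * G₂) ≤ c / (1 + m.lam * z) * |H| :=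
      mul_le_mul hc2 hG (by have := C.γ₂0; positivity) (by positivity)
    have h5 : 1000 * γ' * G₂ ≤ c * γ₂ * G₂ :=
      mul_le_mul_of_nonneg_right (by rw [hc]; exact hc10) (by linarith)
    nlinarith
  have hγG : γ' ≤ γ' * G₂ := le_mul_of_one_le_right hγ.le hG1
  have h0 : c / (1 + m.lam * z) * H ≠ 0 := by
    intro h0; rw [h0, abs_zero] at h3; linarith
  have h4 := sgn_of_pert (c := 1/400) (by norm_num) h0
    (E := hs S₁ S₂ m Z x w (icI S₁ m x.1 z w τ β) - c / (1 + m.lam * z) * H)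
    (h2.trans (by linarith))
  rw [show c / (1 + m.lam * z) * H + (hs S₁ S₂ m Z x w (icI S₁ m x.1 z w τ β) -
    c / (1 + m.lam * z) * H) = hs S₁ S₂ m Z x w (icI S₁ m x.1 z w τ β) by ring] at h4
  refine ⟨?_, ?_⟩
  · unfold Big
    have h5 := mul_le_mul_of_nonneg_left hcmp hγ.le
    have h6 := h4.2
    linarith
  · rw [h4.1]
    have h7 : 0 < c / (1 + m.lam * z) := div_pos hc0 b0
    constructor
    · intro h8
      by_contra h9
      push Not at h9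
      exact absurd h8 (not_lt.mpr (mul_nonneg h7.le h9))
    · intro h8; exact mul_neg_of_pos_of_neg h7 h8

variable [DecidableEq G] (C : Ctx S₁ S₂ m Z Q Nx V₁ V Δ σ ς n τ₁ γ₁ τ₂ γ₂ μ γ' τ' sl su)
  (K : Finset G)

lemma Ctx.sys_d (x : R × Cell T Nx V₁) : (C.sys K).d x = dN S₂ sl x := rfl

lemma Ctx.sys_p (x : R × Cell T Nx V₁) : (C.sys K).p m.y x = pN m.y S₂ sl x := rfl

lemma Ctx.a0 (x : R × Cell T Nx V₁) : (C.sys K).hA x ((C.sys K).a x) = 0 := by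
  unfold Sys.hA Sys.h
  simp only [Ctx.sys, comp]
  ring

lemma Ctx.b0 (ga : LeafGA) (x : R × Cell T Nx V₁) :
    (C.sys K).hA x ((C.sys K).b x) = 0 := by
  have hd := C.dN_pos ga x
  unfold Sys.hA Sys.h
  simp only [Ctx.sys, comp]
  have hd' : nS S₁ Nx V sl (Sum.inr (Sum.inl (x.1, (S₂.a x.2.2.2,
      bF C.hV C.hσ (S₂.a x.2.2.2) x.2.1 x.2.2.1)))) - nS S₁ Nx V sl (Sum.inr (Sum.inl (x.1,
      (S₂.b x.2.2.2, bF C.hV C.hσ (S₂.b x.2.2.2) x.2.1 x.2.2.1)))) ≠ 0 := hd.ne'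
  field_simp
  ring

/-- the lines of a new event pass close to the ideal point -/
lemma Ctx.near (gc : LeafGC) (x : R × Cell T Nx V₁) :
    |hs S₁ S₂ m Z x ((C.sys K).s ((C.sys K).a x)) ((C.sys K).t ((C.sys K).a x))| ≤ γ' ∧
    |hs S₁ S₂ m Z x ((C.sys K).s ((C.sys K).b x)) ((C.sys K).t ((C.sys K).b x))| ≤ γ' := by
  obtain ⟨h1, -⟩ := gc S₁ S₂ m Z Q Nx V₁ V Δ σ ς n τ₁ γ₁ τ₂ γ₂ μ γ' τ' sl su C
  constructor
  · have h2 := (h1 x x.1 (σ (S₂.a x.2.2.2)) (sl x.1 (S₂.a x.2.2.2)) (S₂.t (S₂.a x.2.2.2))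
      (bF C.hV C.hσ (S₂.a x.2.2.2) x.2.1 x.2.2.1) (C.hσ _) (C.ht _) (C.rs _ _)).2.1 rfl
      (bF_val C.hV C.hσ _ _ _)
    have h3 := C.g2.a0 x.2.2.2
    unfold Sys.hA Sys.h at h3
    rw [C.sσ] at h3
    rw [h3, mul_zero, sub_zero] at h2
    exact h2
  · have h2 := (h1 x x.1 (σ (S₂.b x.2.2.2)) (sl x.1 (S₂.b x.2.2.2)) (S₂.t (S₂.b x.2.2.2))
      (bF C.hV C.hσ (S₂.b x.2.2.2) x.2.1 x.2.2.1) (C.hσ _) (C.ht _) (C.rs _ _)).2.1 rfl
      (bF_val C.hV C.hσ _ _ _)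
    have h3 := C.g2.b0 x.2.2.2
    unfold Sys.hA Sys.h at h3
    rw [C.sσ] at h3
    rw [h3, mul_zero, sub_zero] at h2
    exact h2

lemma Ctx.tr (ga : LeafGA) (gc : LeafGC) (x : R × Cell T Nx V₁) (s t : ℝ) :
    |(C.sys K).X x - xX S₁ S₂ m Z x| * dN S₂ sl x ≤ 2 * γ' ∧
    |(C.sys K).h x s t - hs S₁ S₂ m Z x s t| ≤
      3 * γ' * (|s - pN m.y S₂ sl x| / dN S₂ sl x + 1) := by
  have h1 := C.near K gc x
  have ha := C.a0 K x
  have hb := C.b0 K ga x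
  exact transfer (y := m.y) (s := s) (t := t) (C.dN_pos ga x) C.y0.le (by linarith [C.y1]) ha hb
    h1.1 h1.2

/-- large heights keep their sign -/
lemma Ctx.big (ga : LeafGA) (gc : LeafGC) (x : R × Cell T Nx V₁) (s t : ℝ)
    (h : Big S₁ S₂ m Z γ' sl x s t) :
    γ' * (|s - pN m.y S₂ sl x| / dN S₂ sl x + 1) ≤ |(C.sys K).h x s t| ∧
    ((C.sys K).h x s t < 0 ↔ hs S₁ S₂ m Z x s t < 0) := by
  have h1 := (C.tr K ga gc x s t).2
  have hd := C.dN_pos ga x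
  have hγ := C.γ'0
  unfold Big at h
  set G := |s - pN m.y S₂ sl x| / dN S₂ sl x + 1 with hG
  have hG1 : 1 ≤ G := by
    have : 0 ≤ |s - pN m.y S₂ sl x| / dN S₂ sl x := by positivity
    linarith
  have hγG : 0 < γ' * G := by positivity
  have h0 : hs S₁ S₂ m Z x s t ≠ 0 := by
    intro h0
    rw [h0, abs_zero] at h
    linarith
  have h2 := sgn_of_pert (c := 3/20) (by norm_num) h0
    (E := (C.sys K).h x s t - hs S₁ S₂ m Z x s t) (by linarith)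
  rw [show hs S₁ S₂ m Z x s t + ((C.sys K).h x s t - hs S₁ S₂ m Z x s t) = (C.sys K).h x s t
    by ring] at h2
  exact ⟨by linarith [h2.2], h2.1⟩

/-- all lines of the composed system -/
lemma Ctx.lineA (ga : LeafGA) (gb : LeafGB) (gc : LeafGC) (x : R × Cell T Nx V₁)
    (q : Idx A D R G (G × Fin V) Nx V) :
    ((C.sys K).hA x q < 0 ↔ belA S₁ S₂ m Z σ K x q) ∧
    (q ≠ (C.sys K).a x → q ≠ (C.sys K).b x →
      γ' * (|(C.sys K).s q - pN m.y S₂ sl x| / dN S₂ sl x + 1) ≤ |(C.sys K).hA x q|) := by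
  obtain ⟨c1, c2⟩ := gc S₁ S₂ m Z Q Nx V₁ V Δ σ ς n τ₁ γ₁ τ₂ γ₂ μ γ' τ' sl su C
  have hga := ga S₁ S₂ m Z Q Nx V₁ V Δ σ ς n τ₁ γ₁ τ₂ γ₂ μ γ' τ' sl su C x
  rcases q with ⟨c, i', q, b⟩ | ⟨e₁, q⟩ | ⟨d, q⟩
  · -- bundle lines
    obtain ⟨w, hw⟩ : ∃ w : ℤ, posG Nx V σ K q i' = w + 1 / 2 := by
      unfold posG
      by_cases h : q.1 ∈ K
      · rw [if_pos h]; exact ⟨σ q.1 * (i':ℕ) + (q.2:ℕ) - 1, by push_cast; ring⟩
      · rw [if_neg h]; exact ⟨σ q.1 * (i':ℕ) + (q.2:ℕ), by push_cast; ring⟩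
    have hpos : |posG Nx V σ K q i'| ≤ V + Z * Nx + 1 := by
      unfold posG
      have h1 : |(σ q.1:ℝ)| ≤ Z := by exact_mod_cast C.hσ q.1
      have h2 : (((i':ℕ)):ℝ) ≤ Nx := by exact_mod_cast i'.2.le
      have h3 : (((q.2:ℕ)):ℝ) ≤ V := by exact_mod_cast q.2.2.le
      have h4 : |(σ q.1:ℝ) * ((i':ℕ):ℝ)| ≤ Z * Nx := by
        rw [abs_mul, abs_of_nonneg (Nat.cast_nonneg (i':ℕ) : (0:ℝ) ≤ ((i':ℕ):ℝ))]
        exact mul_le_mul h1 h2 (Nat.cast_nonneg _) (Nat.cast_nonneg _)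
      have h4' := abs_le.mp h4
      have h5 : (0:ℝ) ≤ ((q.2:ℕ):ℝ) := Nat.cast_nonneg _
      rw [abs_le]; push_cast
      split_ifs <;> constructor <;> linarith
    have h1 := gb S₁ S₂ m Z Q Nx V₁ V Δ σ ς n τ₁ γ₁ τ₂ γ₂ μ γ' τ' sl su C x c i' w _ b hw hpos
    have h2 := C.big K ga gc x _ _ h1.2
    exact ⟨h2.2.trans h1.1, fun _ _ => h2.1⟩
  · -- pool lines
    obtain ⟨α, β⟩ := q
    obtain ⟨d1, d2, d3⟩ := c1 x e₁ (σ α) (sl e₁ α) (S₂.t α) β (C.hσ α) (C.ht α) (C.rs e₁ α)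
    by_cases he : e₁ = x.1
    · by_cases hβ : ((β:ℕ):ℤ) = bet Z Nx V₁ (σ α) x.2.1 x.2.2.1
      · by_cases hαa : α = S₂.a x.2.2.2
        · have hq : (Sum.inr (Sum.inl (e₁, (α, β))) : Idx A D R G (G × Fin V) Nx V) =
              (C.sys K).a x := by
            subst he hαa
            have : β = bF C.hV C.hσ (S₂.a x.2.2.2) x.2.1 x.2.2.1 := by
              apply Fin.ext
              have h1 := bF_val C.hV C.hσ (S₂.a x.2.2.2) x.2.1 x.2.2.1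
              unfold bet at hβ
              rw [← hβ] at h1
              exact_mod_cast h1.symm
            subst this; rfl
          refine ⟨?_, fun h => absurd hq h⟩
          rw [hq, C.a0 K x]
          refine iff_of_false (lt_irrefl _) ?_
          rw [← hq]
          rintro (⟨-, h1 | ⟨-, h1⟩⟩ | ⟨h1, -⟩)
          · exact absurd hβ h1.ne
          · simp only [hαa] at h1
            rw [C.g2.a0] at h1; exact lt_irrefl _ h1
          · exact h1 he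
        · by_cases hαb : α = S₂.b x.2.2.2
          · have hq : (Sum.inr (Sum.inl (e₁, (α, β))) : Idx A D R G (G × Fin V) Nx V) =
                (C.sys K).b x := by
              subst he hαb
              have : β = bF C.hV C.hσ (S₂.b x.2.2.2) x.2.1 x.2.2.1 := by
                apply Fin.ext
                have h1 := bF_val C.hV C.hσ (S₂.b x.2.2.2) x.2.1 x.2.2.1
                unfold bet at hβ
                rw [← hβ] at h1
                exact_mod_cast h1.symm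
              subst this; rfl
            refine ⟨?_, fun _ h => absurd hq h⟩
            rw [hq, C.b0 K ga x]
            refine iff_of_false (lt_irrefl _) ?_
            rw [← hq]
            rintro (⟨-, h1 | ⟨-, h1⟩⟩ | ⟨h1, -⟩)
            · exact absurd hβ h1.ne
            · simp only [hαb] at h1
              rw [C.g2.b0] at h1; exact lt_irrefl _ h1
            · exact h1 he
          · -- another line of the inner system
            have h1 := C.g2.gA x.2.2.2 α hαa hαb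
            have h2 := hga.2.2.2.2.2.2.1 α
            unfold Sys.hA Sys.h at h1
            rw [C.sσ] at h1 h2
            subst he
            obtain ⟨h3, h4⟩ := C.own gc x (σ α) (sl x.1 α) (S₂.t α) β (C.hσ α) (C.ht α)
              (C.rs _ α) hβ h1 h2
            have h5 := C.big K ga gc x _ _ h3
            refine ⟨?_, fun _ _ => h5.1⟩
            refine (h5.2.trans h4).trans ?_
            have h6 : (S₂.hA x.2.2.2 α < 0 ↔ (σ α:ℝ) * S₂.X x.2.2.2 + S₂.t α - S₂.Y x.2.2.2 < 0) := by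
              unfold Sys.hA Sys.h; rw [C.sσ]
            rw [← h6]
            constructor
            · intro h7; exact Or.inl ⟨rfl, Or.inr ⟨hβ, h7⟩⟩
            · rintro (⟨-, h7 | ⟨-, h7⟩⟩ | ⟨h7, -⟩)
              · exact absurd hβ h7.ne
              · exact h7
              · exact absurd rfl h7
      · obtain ⟨h1, h2⟩ := d1 he hβ
        have h3 := C.big K ga gc x _ _ h2
        refine ⟨?_, fun _ _ => h3.1⟩
        refine (h3.2.trans h1).trans ?_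
        constructor
        · intro h7; exact Or.inl ⟨he, Or.inl h7⟩
        · rintro (⟨-, h7 | ⟨h7, -⟩⟩ | ⟨h7, -⟩)
          · exact h7
          · exact absurd h7 hβ
          · exact absurd he h7
    · obtain ⟨h1, h2⟩ := d3 he
      have h3 := C.big K ga gc x _ _ h2
      refine ⟨?_, fun _ _ => h3.1⟩
      refine (h3.2.trans h1).trans ?_
      constructor
      · intro h7; exact Or.inr ⟨he, h7⟩
      · rintro (⟨h7, -⟩ | ⟨-, h7⟩)
        · exact absurd h7 he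
        · exact h7
  · obtain ⟨h1, h2⟩ := c2 x d
    have h3 := C.big K ga gc x _ _ h2
    exact ⟨h3.2.trans h1, fun _ _ => h3.1⟩

/-- all auxiliary lines of the composed system -/
lemma Ctx.lineD (ga : LeafGA) (gb : LeafGB) (gc : LeafGC) (x : R × Cell T Nx V₁)
    (q : Idx A D R F (QD F T Nx V₁ V) Nx V) :
    ((C.sys K).hD x q < 0 ↔ belD S₁ S₂ m Z ς x q) ∧
    γ' * (|(C.sys K).u q - pN m.y S₂ sl x| / dN S₂ sl x + 1) ≤ |(C.sys K).hD x q| := by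
  obtain ⟨c1, c2⟩ := gc S₁ S₂ m Z Q Nx V₁ V Δ σ ς n τ₁ γ₁ τ₂ γ₂ μ γ' τ' sl su C
  have hga := ga S₁ S₂ m Z Q Nx V₁ V Δ σ ς n τ₁ γ₁ τ₂ γ₂ μ γ' τ' sl su C x
  rcases q with ⟨c, i', q, b⟩ | ⟨e₁, q⟩ | ⟨d, q⟩
  · -- bundle lines
    have hVR : (V:ℝ) = V₁ + 2 * Z * Nx := by rw [C.hV]; push_cast; ring
    have hZN : (0:ℝ) ≤ Z * Nx := by positivity
    have hi2 : (((i':ℕ)):ℝ) ≤ Nx := by exact_mod_cast i'.2.le
    have hi0 : (0:ℝ) ≤ ((i':ℕ):ℝ) := Nat.cast_nonneg _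
    have key : (∃ w : ℤ, posD S₂ m Z Nx V₁ V ς q i' = w + 1 / 2) ∧
        |posD S₂ m Z Nx V₁ V ς q i'| ≤ V + Z * Nx + 1 := by
      rcases q with ⟨i₁, j₁, r⟩ | ⟨f, β⟩
      · refine ⟨⟨_, rfl⟩, ?_⟩
        have hp : |S₂.p m.y r| ≤ Z := by
          have e : S₂.p m.y r = (1 - m.y) * S₂.s (S₂.a r) + m.y * S₂.s (S₂.b r) := by
            unfold Sys.p Sys.d; ring
          have h1 : |S₂.s (S₂.a r)| ≤ Z := by rw [C.sσ]; exact_mod_cast C.hσ _
          have h2 : |S₂.s (S₂.b r)| ≤ Z := by rw [C.sσ]; exact_mod_cast C.hσ _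
          have hy := C.y0; have hy1 := C.y1
          rw [e]
          refine (abs_add_le _ _).trans ?_
          rw [abs_mul, abs_mul, abs_of_pos hy, abs_of_nonneg (by linarith : 0 ≤ 1 - m.y)]
          nlinarith
        have hi1 : (((i₁:ℕ)):ℝ) ≤ Nx := by exact_mod_cast i₁.2.le
        have hi10 : (0:ℝ) ≤ ((i₁:ℕ):ℝ) := Nat.cast_nonneg _
        have hii : |((i':ℕ):ℝ) - ((i₁:ℕ):ℝ)| ≤ Nx := by
          rw [abs_le]; constructor <;> linarith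
        have hj : (((j₁:ℕ)):ℝ) ≤ V₁ := by exact_mod_cast j₁.2.le
        have hj0 : (0:ℝ) ≤ ((j₁:ℕ):ℝ) := Nat.cast_nonneg _
        have h3 : |S₂.p m.y r * (((i':ℕ):ℝ) - ((i₁:ℕ):ℝ))| ≤ Z * Nx := by
          rw [abs_mul]
          exact mul_le_mul hp hii (abs_nonneg _) (Nat.cast_nonneg _)
        have h3' := abs_le.mp h3
        set v : ℝ := ((Z * Nx + (j₁:ℕ) : ℕ) : ℝ) + S₂.p m.y r * (((i':ℕ):ℝ) - ((i₁:ℕ):ℝ)) with hv
        have hv2 : v ≤ V := by rw [hv]; push_cast; linarith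
        have hv1 : 0 ≤ v := by rw [hv]; push_cast; linarith
        have h4 := Int.floor_le v
        have h5 := Int.lt_floor_add_one v
        show |((⌊v⌋ : ℤ) : ℝ) + 1/2| ≤ V + Z * Nx + 1
        rw [abs_le]; constructor <;> linarith
      · refine ⟨⟨_, rfl⟩, ?_⟩
        have h1 : |(ς f:ℝ)| ≤ Z := by exact_mod_cast C.hς f
        have h3 : (((β:ℕ)):ℝ) ≤ V := by exact_mod_cast β.2.le
        have h4 : |(ς f:ℝ) * ((i':ℕ):ℝ)| ≤ Z * Nx := by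
          rw [abs_mul, abs_of_nonneg hi0]
          exact mul_le_mul h1 hi2 hi0 (Nat.cast_nonneg _)
        have h4' := abs_le.mp h4
        have h5 : (0:ℝ) ≤ ((β:ℕ):ℝ) := Nat.cast_nonneg _
        show |((ς f * (i':ℕ) + (β:ℕ) : ℤ) : ℝ) + 1/2| ≤ V + Z * Nx + 1
        rw [abs_le]; push_cast
        constructor <;> linarith
    obtain ⟨⟨w, hw⟩, hpos⟩ := key
    have h1 := gb S₁ S₂ m Z Q Nx V₁ V Δ σ ς n τ₁ γ₁ τ₂ γ₂ μ γ' τ' sl su C x c i' w _ b hw hpos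
    have h2 := C.big K ga gc x _ _ h1.2
    exact ⟨h2.2.trans h1.1, h2.1⟩
  · -- pool lines
    obtain ⟨f, β⟩ := q
    obtain ⟨d1, d2, d3⟩ := c1 x e₁ (ς f) (su e₁ f) (S₂.v f) β (C.hς f) (C.hv f) (C.ru e₁ f)
    by_cases he : e₁ = x.1
    · by_cases hβ : ((β:ℕ):ℤ) = bet Z Nx V₁ (ς f) x.2.1 x.2.2.1
      · have h1 := C.g2.gD x.2.2.2 f
        have h2 := hga.2.2.2.2.2.2.2.1 f
        unfold Sys.hD Sys.h at h1
        rw [C.uς] at h1 h2
        subst he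
        obtain ⟨h3, h4⟩ := C.own gc x (ς f) (su x.1 f) (S₂.v f) β (C.hς f) (C.hv f)
          (C.ru _ f) hβ h1 h2
        have h5 := C.big K ga gc x _ _ h3
        refine ⟨?_, h5.1⟩
        refine (h5.2.trans h4).trans ?_
        have h6 : (S₂.hD x.2.2.2 f < 0 ↔ (ς f:ℝ) * S₂.X x.2.2.2 + S₂.v f - S₂.Y x.2.2.2 < 0) := by
          unfold Sys.hD Sys.h; rw [C.uς]
        rw [← h6]
        constructor
        · intro h7; exact Or.inl ⟨rfl, Or.inr ⟨hβ, h7⟩⟩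
        · rintro (⟨-, h7 | ⟨-, h7⟩⟩ | ⟨h7, -⟩)
          · exact absurd hβ h7.ne
          · exact h7
          · exact absurd rfl h7
      · obtain ⟨h1, h2⟩ := d1 he hβ
        have h3 := C.big K ga gc x _ _ h2
        refine ⟨?_, h3.1⟩
        refine (h3.2.trans h1).trans ?_
        constructor
        · intro h7; exact Or.inl ⟨he, Or.inl h7⟩
        · rintro (⟨-, h7 | ⟨h7, -⟩⟩ | ⟨h7, -⟩)
          · exact h7
          · exact absurd h7 hβ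
          · exact absurd he h7
    · obtain ⟨h1, h2⟩ := d3 he
      have h3 := C.big K ga gc x _ _ h2
      refine ⟨?_, h3.1⟩
      refine (h3.2.trans h1).trans ?_
      constructor
      · intro h7; exact Or.inr ⟨he, h7⟩
      · rintro (⟨h7, -⟩ | ⟨-, h7⟩)
        · exact absurd h7 he
        · exact h7
  · obtain ⟨h1, h2⟩ := c2 x d
    have h3 := C.big K ga gc x _ _ h2
    exact ⟨h3.2.trans h1, h3.1⟩

end

end K9
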