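import Pool.Agent.Helper48K9.Asm1

/-!
# Assembly 2: `Geo` and `Lev` of the composed system
-/

namespace K9

open Finset

lemma ifc {p q : Prop} {i : Decidable p} {j : Decidable q} (h : p ↔ q) :
    (@ite ℕ p i 1 0) = @ite ℕ q j 1 0 := by
  by_cases hp : p
  · rw [if_pos hp, if_pos (h.mp hp)]
  · rw [if_neg hp, if_neg (fun hq => hp (h.mpr hq))]

section

variable {A D R G F T : Type}
variable {S₁ : Sys A D R} {S₂ : Sys G F T} {m : Pm} {Z Q Nx V₁ V Δ : ℕ}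
  {σ : G → ℤ} {ς : F → ℤ} {n : T → ℤ} {τ₁ γ₁ τ₂ γ₂ μ γ' τ' : ℝ} {sl : R → G → ℝ}
  {su : R → F → ℝ}

variable [DecidableEq G] (C : Ctx S₁ S₂ m Z Q Nx V₁ V Δ σ ς n τ₁ γ₁ τ₂ γ₂ μ γ' τ' sl su)
  (K : Finset G)

/-- pool lines of the composed system -/
lemma Ctx.poolP (ga : LeafGA) (gc : LeafGC) (gd : LeafGD) (ge : LeafGE)
    (x x₁ : R × Cell T Nx V₁) (hx : x₁ ≠ x) :
    ((C.sys K).hP m.y x x₁ < 0 ↔ belP S₁ S₂ m Z x x₁) ∧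
    γ' * (|(C.sys K).p m.y x₁ - (C.sys K).p m.y x| / (C.sys K).d x + 1) ≤
      |(C.sys K).hP m.y x x₁| ∧
    τ' * ((C.sys K).d x₁ * |(C.sys K).X x - (C.sys K).X x₁|) ≤ |(C.sys K).hP m.y x x₁| ∧
    γ' ≤ |(C.sys K).X x - (C.sys K).X x₁| * (C.sys K).d x := by
  have key : ∀ x x₁ : R × Cell T Nx V₁, x₁ ≠ x →
      let t₁ := xY S₁ S₂ m Z x₁ - pN m.y S₂ sl x₁ * xX S₁ S₂ m Z x₁
      (hs S₁ S₂ m Z x (pN m.y S₂ sl x₁) t₁ < 0 ↔ belP S₁ S₂ m Z x x₁) ∧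
      Big S₁ S₂ m Z γ' sl x (pN m.y S₂ sl x₁) t₁ ∧
      4 * (τ' * (dN S₂ sl x₁ * |xX S₁ S₂ m Z x - xX S₁ S₂ m Z x₁|)) ≤
        |hs S₁ S₂ m Z x (pN m.y S₂ sl x₁) t₁| ∧
      16 * γ' ≤ |xX S₁ S₂ m Z x - xX S₁ S₂ m Z x₁| * dN S₂ sl x := by
    intro x x₁ hx
    by_cases he : x₁.1 = x.1
    · exact gd S₁ S₂ m Z Q Nx V₁ V Δ σ ς n τ₁ γ₁ τ₂ γ₂ μ γ' τ' sl su C x x₁ hx he
    · obtain ⟨h1, h2, h3, h4⟩ :=
        ge S₁ S₂ m Z Q Nx V₁ V Δ σ ς n τ₁ γ₁ τ₂ γ₂ μ γ' τ' sl su C x x₁ he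
      refine ⟨h1.trans ?_, h2, h3, h4⟩
      unfold belP
      constructor
      · intro h; exact Or.inl ⟨he, h⟩
      · rintro (⟨-, h⟩ | ⟨h, -⟩ | ⟨h, -⟩)
        · exact h
        · exact absurd h he
        · exact absurd h he
  obtain ⟨k1, k2, k3, k4⟩ := key x x₁ hx
  have k5 := (key x₁ x hx.symm).2.2.2
  have hd := C.dN_pos ga x
  have hd₁ := C.dN_pos ga x₁
  have hγ := C.γ'0
  have hτ := C.τ'0
  set P₁ := pN m.y S₂ sl x₁ with hP₁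
  set t₁ := xY S₁ S₂ m Z x₁ - P₁ * xX S₁ S₂ m Z x₁ with ht₁
  have t1 := C.tr K ga gc x P₁ t₁
  have t2 := C.tr K ga gc x₁ P₁ t₁
  have e0 : hs S₁ S₂ m Z x₁ P₁ t₁ = 0 := by unfold hs; rw [ht₁]; ring
  rw [e0, sub_zero, ← hP₁, sub_self, abs_zero, zero_div, zero_add, mul_one] at t2
  have e1 : (C.sys K).hP m.y x x₁ = (C.sys K).h x P₁ t₁ - (C.sys K).h x₁ P₁ t₁ := by
    unfold Sys.hP Sys.h
    rw [C.sys_p]; ring
  set GG := |P₁ - pN m.y S₂ sl x| / dN S₂ sl x + 1 with hGG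
  have hG1 : 1 ≤ GG := by
    have : 0 ≤ |P₁ - pN m.y S₂ sl x| / dN S₂ sl x := by positivity
    linarith
  have hγG : γ' ≤ γ' * GG := le_mul_of_one_le_right hγ.le hG1
  set Hs := hs S₁ S₂ m Z x P₁ t₁ with hHs
  have k2' : 20 * (γ' * GG) ≤ |Hs| := k2
  have e2 : |(C.sys K).hP m.y x x₁ - Hs| ≤ 3/10 * |Hs| := by
    rw [e1, show (C.sys K).h x P₁ t₁ - (C.sys K).h x₁ P₁ t₁ - Hs =
      ((C.sys K).h x P₁ t₁ - Hs) - (C.sys K).h x₁ P₁ t₁ by ring]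
    have h1 := abs_sub ((C.sys K).h x P₁ t₁ - Hs) ((C.sys K).h x₁ P₁ t₁)
    have h2 := t1.2
    have h3 := t2.2
    linarith
  have h0 : Hs ≠ 0 := by
    intro h0; rw [h0, abs_zero] at k2'; linarith
  have h4 := sgn_of_pert (c := 3/10) (by norm_num) h0 e2
  rw [show Hs + ((C.sys K).hP m.y x x₁ - Hs) = (C.sys K).hP m.y x x₁ by ring] at h4
  -- abscissas
  set DX := |xX S₁ S₂ m Z x - xX S₁ S₂ m Z x₁| with hDX
  have a1 : |(C.sys K).X x - xX S₁ S₂ m Z x| ≤ DX / 8 := by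
    have h1 := t1.1
    by_contra h2
    push Not at h2
    have := mul_lt_mul_of_pos_right h2 hd
    linarith
  have a2 : |(C.sys K).X x₁ - xX S₁ S₂ m Z x₁| ≤ DX / 8 := by
    have h1 := t2.1
    rw [abs_sub_comm (xX S₁ S₂ m Z x₁), ← hDX] at k5
    by_contra h2
    push Not at h2
    have := mul_lt_mul_of_pos_right h2 hd₁
    linarith
  have a3 : |(C.sys K).X x - (C.sys K).X x₁| ≤ 5/4 * DX := by
    have h1 : (C.sys K).X x - (C.sys K).X x₁ = ((C.sys K).X x - xX S₁ S₂ m Z x) -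
      ((C.sys K).X x₁ - xX S₁ S₂ m Z x₁) + (xX S₁ S₂ m Z x - xX S₁ S₂ m Z x₁) := by ring
    rw [h1]
    have h2 := abs_add_le (((C.sys K).X x - xX S₁ S₂ m Z x) -
      ((C.sys K).X x₁ - xX S₁ S₂ m Z x₁)) (xX S₁ S₂ m Z x - xX S₁ S₂ m Z x₁)
    have h3 := abs_sub ((C.sys K).X x - xX S₁ S₂ m Z x) ((C.sys K).X x₁ - xX S₁ S₂ m Z x₁)
    linarith
  have a4 : 3/4 * DX ≤ |(C.sys K).X x - (C.sys K).X x₁| := by
    have h1 : xX S₁ S₂ m Z x - xX S₁ S₂ m Z x₁ = ((C.sys K).X x - (C.sys K).X x₁) -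
      (((C.sys K).X x - xX S₁ S₂ m Z x) - ((C.sys K).X x₁ - xX S₁ S₂ m Z x₁)) := by ring
    have h2 := abs_sub ((C.sys K).X x - (C.sys K).X x₁)
      (((C.sys K).X x - xX S₁ S₂ m Z x) - ((C.sys K).X x₁ - xX S₁ S₂ m Z x₁))
    have h3 := abs_sub ((C.sys K).X x - xX S₁ S₂ m Z x) ((C.sys K).X x₁ - xX S₁ S₂ m Z x₁)
    rw [← h1, ← hDX] at h2
    linarith
  refine ⟨h4.1.trans k1, ?_, ?_, ?_⟩
  · rw [C.sys_p, C.sys_p, C.sys_d, ← hP₁, ← hGG]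
    linarith [h4.2]
  · rw [C.sys_d]
    have h5 : τ' * (dN S₂ sl x₁ * |(C.sys K).X x - (C.sys K).X x₁|) ≤
        τ' * (dN S₂ sl x₁ * (5/4 * DX)) :=
      mul_le_mul_of_nonneg_left (mul_le_mul_of_nonneg_left a3 hd₁.le) hτ.le
    have h6 := h4.2
    have h7 : τ' * (dN S₂ sl x₁ * (5/4 * DX)) = 5/4 * (τ' * (dN S₂ sl x₁ * DX)) := by ring
    have h8 : 0 ≤ |Hs| := abs_nonneg _
    linarith
  · rw [C.sys_d]
    have h5 := mul_le_mul_of_nonneg_right a4 hd.le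
    have h6 : 3/4 * DX * dN S₂ sl x = 3/4 * (DX * dN S₂ sl x) := by ring
    linarith

theorem Ctx.geo (ga : LeafGA) (gb : LeafGB) (gc : LeafGC) (gd : LeafGD) (ge : LeafGE) :
    (C.sys K).Geo m.y τ' γ' where
  pos := fun x => C.dN_pos ga x
  a0 := C.a0 K
  b0 := C.b0 K ga
  gA := fun x q h1 h2 => (C.lineA K ga gb gc x q).2 h1 h2
  gD := fun x q => (C.lineD K ga gb gc x q).2
  gP := fun x x₁ h => (C.poolP K ga gc gd ge x x₁ h).2.1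
  sep := fun x x₁ h => (C.poolP K ga gc gd ge x x₁ h).2.2.1
  xs := fun x x₁ h => (C.poolP K ga gc gd ge x x₁ h).2.2.2

theorem Ctx.lev (ca : CountA) (cd : CountD) (ga : LeafGA) (gb : LeafGB) (gc : LeafGC)
    (gd : LeafGD) (ge : LeafGE)
    [Fintype A] [Fintype D] [Fintype R] [Fintype G] [Fintype F] [Fintype T]
    {k₁ c₁ k₂ c₂ : ℕ} (l1 : S₁.Lev m.y k₁ c₁) (l2 : S₂.Lev m.y k₂ c₂) (hK : K.card = k₂) :
    ∃ k c, (C.sys K).Lev m.y k c := by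
  have hab : ∀ r, S₁.a r ≠ S₁.b r := by
    intro r h
    have := C.g1.pos r
    unfold Sys.d at this
    rw [h, sub_self] at this
    exact lt_irrefl _ this
  classical
  obtain rfl : ‹DecidableEq G› = fun a b => Classical.propDecidable (a = b) :=
    Subsingleton.elim _ _
  obtain ⟨k, hk⟩ := ca S₁ S₂ m Z Nx V₁ V k₁ c₁ k₂ c₂ σ K C.hV C.hσ hK C.g1.a0 C.g1.b0 hab l1 l2
  obtain ⟨c, hc⟩ := cd S₁ S₂ m Z Nx V₁ V k₁ c₁ k₂ c₂ ς C.hV C.hς C.g1.a0 C.g1.b0 hab l1 l2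
  refine ⟨k, c, ⟨fun x => ?_, fun x => ?_⟩⟩
  · rw [← hk x]
    unfold Sys.kA
    exact Finset.sum_congr rfl fun q _ => ifc (C.lineA K ga gb gc x q).1
  · rw [← hc x]
    unfold Sys.kD Sys.rk
    refine congrArg₂ (· + ·) (Finset.sum_congr rfl fun q _ =>
      ifc (C.lineD K ga gb gc x q).1) (Finset.sum_congr rfl fun x₁ _ => ifc ?_)
    constructor
    · rintro ⟨h1, h2⟩; exact ⟨h1, (C.poolP K ga gc gd ge x x₁ h1).1.mp h2⟩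
    · rintro ⟨h1, h2⟩; exact ⟨h1, (C.poolP K ga gc gd ge x x₁ h1).1.mpr h2⟩

end

end K9
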