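import Pool.Agent.Helper48K9.Asm2

/-!
# Assembly 3: box, slope differences of the composed system
-/

namespace K9

open Finset

/-- numerical consequences of the context -/
lemma box_num {lam del kap eps y V Z N Q γ γ₂ γ' : ℝ} (hl : 0 < lam) (hd : 0 < del)
    (hk : 0 < kap) (he : 0 < eps) (hy0 : 0 < y) (hy1 : y ≤ 1/4) (hZ : 1 ≤ Z) (hN : 1 ≤ N)
    (hVN : N ≤ V) (hVZ : Z ≤ V)
    (hNQ : N ≤ Q) (hγ0 : 0 < γ) (hγ1 : γ ≤ 1) (hγ₂ : 0 < γ₂) (hγ₂1 : γ₂ ≤ 1)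
    (hγ' : 0 < γ')
    (c1 : 64 * (lam * (V + Z * N + Q + 4)) ≤ 1) (c2 : 8 * del ≤ lam * y)
    (c3 : 64 * kap ≤ lam * y) (c4 : 1000 * (kap * Z * Q) ≤ 1) (c6 : 64 * (eps * (Q + 8)) ≤ γ)
    (c10 : 1000 * γ' ≤ eps * del * kap * γ₂) :
    lam * V ≤ 1/64 ∧ del * V ≤ 1/2048 ∧ kap * Z ≤ 1/1000 ∧ kap ≤ 1/1000 ∧
    del ≤ 1/2048 ∧ 15 * γ' ≤ eps * del ∧ eps ≤ γ / 576 ∧ γ' ≤ eps ∧
    lam * (Z * N) ≤ 1/64 ∧ lam ≤ 1/256 := by
  have hQ : 1 ≤ Q := hN.trans hNQ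
  have hV : 1 ≤ V := hN.trans hVN
  have hZN : 0 < Z * N := by positivity
  have a1 : lam * V ≤ 1/64 := by
    have : lam * V ≤ lam * (V + Z * N + Q + 4) := mul_le_mul_of_nonneg_left (by linarith) hl.le
    linarith
  have a1' : lam * (Z * N) ≤ 1/64 := by
    have : lam * (Z * N) ≤ lam * (V + Z * N + Q + 4) :=
      mul_le_mul_of_nonneg_left (by linarith) hl.le
    linarith
  have a1'' : lam ≤ 1/256 := by
    have : lam * 4 ≤ lam * (V + Z * N + Q + 4) :=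
      mul_le_mul_of_nonneg_left (by linarith) hl.le
    linarith
  have a2 : del ≤ lam / 32 := by
    have : lam * y ≤ lam * (1/4) := mul_le_mul_of_nonneg_left hy1 hl.le
    linarith
  have a3 : del * V ≤ 1/2048 := by
    have := mul_le_mul_of_nonneg_right a2 (by linarith : (0:ℝ) ≤ V)
    linarith
  have a4 : kap * Z ≤ 1/1000 := by
    have : kap * Z ≤ kap * Z * Q := le_mul_of_one_le_right (by positivity) hQ
    linarith
  have a5 : kap ≤ 1/1000 := by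
    have : kap ≤ kap * Z := le_mul_of_one_le_right hk.le hZ
    linarith
  have a6 : del ≤ 1/2048 := by
    have : del ≤ del * V := le_mul_of_one_le_right hd.le hV
    linarith
  have a7 : 15 * γ' ≤ eps * del := by
    have h1 : eps * del * kap * γ₂ ≤ eps * del * 1 * 1 := by
      have h2 : eps * del * kap ≤ eps * del * 1 :=
        mul_le_mul_of_nonneg_left (by linarith) (by positivity)
      exact mul_le_mul h2 hγ₂1 hγ₂.le (by positivity)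
    linarith
  have a8 : eps ≤ γ / 576 := by
    have : eps * 9 ≤ eps * (Q + 8) := mul_le_mul_of_nonneg_left (by linarith) he.le
    linarith
  have a9 : γ' ≤ eps := by
    have : eps * del ≤ eps * 1 := mul_le_mul_of_nonneg_left (by linarith) he.le
    linarith
  exact ⟨a1, a3, a4, a5, a6, a7, a8, a9, a1', a1''⟩

section

variable {A D R G F T : Type}
variable {S₁ : Sys A D R} {S₂ : Sys G F T} {m : Pm} {Z Q Nx V₁ V Δ : ℕ}
  {σ : G → ℤ} {ς : F → ℤ} {n : T → ℤ} {τ₁ γ₁ τ₂ γ₂ μ γ' τ' : ℝ} {sl : R → G → ℝ}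
  {su : R → F → ℝ}

lemma Ctx.nums (C : Ctx S₁ S₂ m Z Q Nx V₁ V Δ σ ς n τ₁ γ₁ τ₂ γ₂ μ γ' τ' sl su) :
    m.lam * V ≤ 1/64 ∧ m.del * V ≤ 1/2048 ∧ m.kap * Z ≤ 1/1000 ∧ m.kap ≤ 1/1000 ∧
    m.del ≤ 1/2048 ∧ 15 * γ' ≤ m.eps * m.del ∧ m.eps ≤ γ₁ / 576 ∧ γ' ≤ m.eps ∧
    m.lam * (Z * Nx) ≤ 1/64 ∧ m.lam ≤ 1/256 := by
  have hZ : (1:ℝ) ≤ Z := by exact_mod_cast C.Z1
  have hN : (1:ℝ) ≤ Nx := by exact_mod_cast C.Nx1
  have hVR : (V:ℝ) = V₁ + 2 * Z * Nx := by rw [C.hV]; push_cast; ring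
  have hV₁ : (0:ℝ) ≤ V₁ := Nat.cast_nonneg _
  have h1 : (Z:ℝ) ≤ Z * Nx := le_mul_of_one_le_right (by linarith) hN
  have h2 : (Nx:ℝ) ≤ Z * Nx := le_mul_of_one_le_left (by linarith) hZ
  exact box_num C.l0 C.e0 C.k0 C.ep0 C.y0 C.y1 hZ hN (by nlinarith) (by nlinarith)
    (by exact_mod_cast C.NxQ) C.γ₁0 C.γ₁1 C.γ₂0 C.γ₂1 C.γ'0 C.c1 C.c2 C.c3 C.c4 C.c6 C.c10

/-- slopes of the pool lines are in `[-1, 1]` -/
lemma Ctx.s_le (C : Ctx S₁ S₂ m Z Q Nx V₁ V Δ σ ς n τ₁ γ₁ τ₂ γ₂ μ γ' τ' sl su)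
    (hs1 : ∀ c, |S₁.s c| ≤ 1) (e : R) (w : ℝ)
    (hw : |w - S₁.p m.y e| ≤ 2 * (m.del * Z * S₁.d e)) : |w| ≤ 1 := by
  have ha := abs_le.mp (hs1 (S₁.a e))
  have hb := abs_le.mp (hs1 (S₁.b e))
  have hd := C.g1.pos e
  have hw' := abs_le.mp hw
  have hl := C.lamZ
  have hZ : (1:ℝ) ≤ Z := by exact_mod_cast C.Z1
  have hy := C.y0
  have hy1 := C.y1
  have h1 : m.del * Z ≤ m.y / 512 := by
    have h2 := mul_le_mul_of_nonneg_right C.c2 (by linarith : (0:ℝ) ≤ Z)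
    have h3 : m.lam * m.y * Z = m.lam * Z * m.y := by ring
    have h4 := mul_le_mul_of_nonneg_right hl hy.le
    linarith
  have h2 : 2 * (m.del * Z * S₁.d e) ≤ m.y / 256 * S₁.d e := by
    have := mul_le_mul_of_nonneg_right h1 hd.le
    linarith
  have e1 : S₁.p m.y e = S₁.s (S₁.a e) - m.y * S₁.d e := rfl
  have e2 : S₁.s (S₁.a e) = S₁.s (S₁.b e) + S₁.d e := by unfold Sys.d; ring
  have h5 : m.y * S₁.d e ≤ 1/4 * S₁.d e := mul_le_mul_of_nonneg_right hy1 hd.le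
  have h6 : 0 < m.y * S₁.d e := by positivity
  rw [abs_le]
  constructor <;> linarith

/-- intercepts of the pool lines -/
lemma Ctx.t_le (C : Ctx S₁ S₂ m Z Q Nx V₁ V Δ σ ς n τ₁ γ₁ τ₂ γ₂ μ γ' τ' sl su)
    (hB : S₁.Box γ₁) (e : R) (z : ℤ) (w τ : ℝ) (β : Fin V) (hw : |w| ≤ 1) (hz : |z| ≤ (Z:ℤ))
    (hτ : |τ| ≤ 3 * Z) : |icI S₁ m e z w τ β| + γ' ≤ 3 := by
  obtain ⟨n1, n2, n3, n4, n5, n6, n7, n8, n9, n10⟩ := C.nums
  have hX := hB.X1 e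
  have hY := hB.Y1 e
  have hd := C.g1.pos e
  have hγ₁ := C.γ₁0
  have hγ₁1 := C.γ₁1
  have he := C.ep0
  have hdel := C.e0
  have hk := C.k0
  have hq : 0 < γ₁ / S₁.d e := by positivity
  have hzR : |(z:ℝ)| ≤ Z := by exact_mod_cast hz
  obtain ⟨b1, b2⟩ := one_add_bd C.l0 hzR C.lamZ
  have hZV : (Z:ℝ) ≤ V := by
    have : Z ≤ V := by
      rw [C.hV]
      have := C.Nx1
      nlinarith [Nat.zero_le V₁]
    exact_mod_cast this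
  have hβ : ((β:ℕ):ℝ) ≤ V := by exact_mod_cast β.2.le
  have hβ0 : (0:ℝ) ≤ ((β:ℕ):ℝ) := Nat.cast_nonneg _
  have hZ0 : (1:ℝ) ≤ Z := by exact_mod_cast C.Z1
  have h1 : |((β:ℕ):ℝ) + m.kap * τ - z| ≤ 3 * V := by
    have hkt : |m.kap * τ| ≤ 3 / 1000 := by
      rw [abs_mul, abs_of_pos hk]
      have := mul_le_mul_of_nonneg_left hτ hk.le
      linarith
    have hkt' := abs_le.mp hkt
    have hz' := abs_le.mp hzR
    rw [abs_le]; constructor <;> linarith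
  have h2 : |m.eps * m.del * ((((β:ℕ):ℝ) + m.kap * τ - z) / (1 + m.lam * z))| ≤ 1/2 := by
    rw [abs_mul, abs_div, abs_of_pos (by positivity : 0 < m.eps * m.del),
      abs_of_pos (by linarith : 0 < 1 + m.lam * z)]
    have h3 : |((β:ℕ):ℝ) + m.kap * τ - z| / (1 + m.lam * z) ≤ 6 * V := by
      rw [div_le_iff₀ (by linarith)]
      have : (0:ℝ) ≤ V := Nat.cast_nonneg _
      nlinarith
    calc m.eps * m.del * (|((β:ℕ):ℝ) + m.kap * τ - z| / (1 + m.lam * z))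
        ≤ m.eps * m.del * (6 * V) := mul_le_mul_of_nonneg_left h3 (by positivity)
      _ = 6 * (m.eps * (m.del * V)) := by ring
      _ ≤ 6 * (m.eps * 1) := by
          have := mul_le_mul_of_nonneg_left (n2.trans (by norm_num : (1:ℝ)/2048 ≤ 1)) he.le
          linarith
      _ ≤ 1/2 := by linarith
  have h3 : |w * S₁.X e| ≤ 1 := by
    rw [abs_mul]
    have hX0 : |S₁.X e| ≤ 1 := by linarith
    calc |w| * |S₁.X e| ≤ 1 * 1 := mul_le_mul hw hX0 (abs_nonneg _) (by norm_num)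
      _ = 1 := by norm_num
  unfold icI
  have h4 := abs_sub (S₁.Y e + m.eps * m.del * ((((β:ℕ):ℝ) + m.kap * τ - z) / (1 + m.lam * z)))
    (w * S₁.X e)
  have h5 := abs_add_le (S₁.Y e)
    (m.eps * m.del * ((((β:ℕ):ℝ) + m.kap * τ - z) / (1 + m.lam * z)))
  linarith

/-- intercepts of the bundle lines -/
lemma Ctx.b_le (C : Ctx S₁ S₂ m Z Q Nx V₁ V Δ σ ς n τ₁ γ₁ τ₂ γ₂ μ γ' τ' sl su)
    (τ : ℝ) (hτ : |τ| + γ₁ ≤ 3) (i : Fin Nx) (pos : ℝ) (hpos : |pos| ≤ V + Z * Nx + 1)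
    (b : Bool) : |icB m Nx τ i pos b| + γ' ≤ 3 := by
  obtain ⟨n1, n2, n3, n4, n5, n6, n7, n8, n9, n10⟩ := C.nums
  have he := C.ep0
  have hl := C.l0
  have hdel := C.e0
  have hy := C.y0
  have hy1 := C.y1
  have hi : ((i:ℕ):ℝ) + 1 ≤ Nx := by exact_mod_cast i.2
  have hi0 : (0:ℝ) ≤ ((i:ℕ):ℝ) := Nat.cast_nonneg _
  have hNQ : (Nx:ℝ) ≤ Q := by exact_mod_cast C.NxQ
  have c6 := C.c6
  have hp : m.lam * |pos| ≤ 1 := by
    have := mul_le_mul_of_nonneg_left hpos hl.le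
    have h2 : m.lam * (V + Z * Nx + 1) = m.lam * V + m.lam * (Z * Nx) + m.lam := by ring
    linarith
  have h1 : |(m.lam * m.y - m.del) * pos| ≤ 1 := by
    have hc : 0 ≤ m.lam * m.y - m.del := by
      have := C.c2
      have : 0 < m.lam * m.y := by positivity
      linarith
    rw [abs_mul, abs_of_nonneg hc]
    have : m.lam * m.y - m.del ≤ m.lam := by nlinarith
    calc (m.lam * m.y - m.del) * |pos| ≤ m.lam * |pos| :=
          mul_le_mul_of_nonneg_right this (abs_nonneg _)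
      _ ≤ 1 := hp
  have h1' := abs_le.mp h1
  have hτ' := abs_le.mp (le_refl |τ|)
  cases b with
  | false =>
    show |τ - m.eps * (m.y * (((i:ℕ):ℝ) + 1) + (m.lam * m.y - m.del) * pos)| + γ' ≤ 3
    have h2 : |m.y * (((i:ℕ):ℝ) + 1) + (m.lam * m.y - m.del) * pos| ≤ Q + 8 := by
      have h3 : 0 ≤ m.y * (((i:ℕ):ℝ) + 1) := by positivity
      have h4 : m.y * (((i:ℕ):ℝ) + 1) ≤ 1 * Q :=
        mul_le_mul (by linarith) (by linarith) (by positivity) (by norm_num)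
      rw [abs_le]; constructor <;> linarith
    have h5 : |m.eps * (m.y * (((i:ℕ):ℝ) + 1) + (m.lam * m.y - m.del) * pos)| ≤
        m.eps * (Q + 8) := by
      rw [abs_mul, abs_of_pos he]; exact mul_le_mul_of_nonneg_left h2 he.le
    have h6 := abs_sub τ (m.eps * (m.y * (((i:ℕ):ℝ) + 1) + (m.lam * m.y - m.del) * pos))
    have := C.γ₁0
    linarith
  | true =>
    show |τ + m.eps * ((1 - m.y) * (((i:ℕ):ℝ) + 1 + 3/4))| + γ' ≤ 3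
    have h2 : |(1 - m.y) * (((i:ℕ):ℝ) + 1 + 3/4)| ≤ Q + 8 := by
      have h3 : 0 ≤ (1 - m.y) * (((i:ℕ):ℝ) + 1 + 3/4) := mul_nonneg (by linarith) (by positivity)
      have h4 : (1 - m.y) * (((i:ℕ):ℝ) + 1 + 3/4) ≤ 1 * (Q + 1) :=
        mul_le_mul (by linarith) (by linarith) (by positivity) (by norm_num)
      rw [abs_le]; constructor <;> linarith
    have h5 : |m.eps * ((1 - m.y) * (((i:ℕ):ℝ) + 1 + 3/4))| ≤ m.eps * (Q + 8) := by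
      rw [abs_mul, abs_of_pos he]; exact mul_le_mul_of_nonneg_left h2 he.le
    have h6 := abs_add_le τ (m.eps * ((1 - m.y) * (((i:ℕ):ℝ) + 1 + 3/4)))
    have := C.γ₁0
    linarith

/-- positions -/
lemma Ctx.posG_le (C : Ctx S₁ S₂ m Z Q Nx V₁ V Δ σ ς n τ₁ γ₁ τ₂ γ₂ μ γ' τ' sl su)
    [DecidableEq G] (K : Finset G) (q : G × Fin V) (i' : Fin Nx) :
    |posG Nx V σ K q i'| ≤ V + Z * Nx + 1 := by
  unfold posG
  have h1 : |(σ q.1:ℝ)| ≤ Z := by exact_mod_cast C.hσ q.1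
  have h2 : (((i':ℕ)):ℝ) ≤ Nx := by exact_mod_cast i'.2.le
  have h3 : (((q.2:ℕ)):ℝ) ≤ V := by exact_mod_cast q.2.2.le
  have h4 : |(σ q.1:ℝ) * ((i':ℕ):ℝ)| ≤ Z * Nx := by
    rw [abs_mul, abs_of_nonneg (Nat.cast_nonneg (i':ℕ) : (0:ℝ) ≤ ((i':ℕ):ℝ))]
    exact mul_le_mul h1 h2 (Nat.cast_nonneg _) (Nat.cast_nonneg _)
  have h4' := abs_le.mp h4
  have h5 : (0:ℝ) ≤ ((q.2:ℕ):ℝ) := Nat.cast_nonneg _
  rw [abs_le]; push_cast
  split_ifs <;> constructor <;> linarith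

lemma Ctx.posD_le (C : Ctx S₁ S₂ m Z Q Nx V₁ V Δ σ ς n τ₁ γ₁ τ₂ γ₂ μ γ' τ' sl su)
    (q : QD F T Nx V₁ V) (i' : Fin Nx) :
    |posD S₂ m Z Nx V₁ V ς q i'| ≤ V + Z * Nx + 1 := by
  have hVR : (V:ℝ) = V₁ + 2 * Z * Nx := by rw [C.hV]; push_cast; ring
  have hZN : (0:ℝ) ≤ Z * Nx := by positivity
  have hi2 : (((i':ℕ)):ℝ) ≤ Nx := by exact_mod_cast i'.2.le
  have hi0 : (0:ℝ) ≤ ((i':ℕ):ℝ) := Nat.cast_nonneg _
  rcases q with ⟨i₁, j₁, r⟩ | ⟨f, β⟩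
  · have hp : |S₂.p m.y r| ≤ Z := by
      have e : S₂.p m.y r = (1 - m.y) * S₂.s (S₂.a r) + m.y * S₂.s (S₂.b r) := by
        unfold Sys.p Sys.d; ring
      have h1 : |S₂.s (S₂.a r)| ≤ Z := by rw [C.sσ]; exact_mod_cast C.hσ _
      have h2 : |S₂.s (S₂.b r)| ≤ Z := by rw [C.sσ]; exact_mod_cast C.hσ _
      have hy := C.y0; have hy1 := C.y1
      rw [e]
      refine (abs_add_le _ _).trans ?_
      rw [abs_mul, abs_mul, abs_of_pos hy, abs_of_nonneg (by linarith : 0 ≤ 1 - m.y)]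
      nlinarith
    have hi1 : (((i₁:ℕ)):ℝ) ≤ Nx := by exact_mod_cast i₁.2.le
    have hi10 : (0:ℝ) ≤ ((i₁:ℕ):ℝ) := Nat.cast_nonneg _
    have hii : |((i':ℕ):ℝ) - ((i₁:ℕ):ℝ)| ≤ Nx := by
      rw [abs_le]; constructor <;> linarith
    have hj : (((j₁:ℕ)):ℝ) ≤ V₁ := by exact_mod_cast j₁.2.le
    have hj0 : (0:ℝ) ≤ ((j₁:ℕ):ℝ) := Nat.cast_nonneg _
    have h3 : |S₂.p m.y r * (((i':ℕ):ℝ) - ((i₁:ℕ):ℝ))| ≤ Z * Nx := by
      rw [abs_mul]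
      exact mul_le_mul hp hii (abs_nonneg _) (Nat.cast_nonneg _)
    have h3' := abs_le.mp h3
    set v : ℝ := ((Z * Nx + (j₁:ℕ) : ℕ) : ℝ) + S₂.p m.y r * (((i':ℕ):ℝ) - ((i₁:ℕ):ℝ)) with hv
    have hv2 : v ≤ V := by rw [hv]; push_cast; linarith
    have hv1 : 0 ≤ v := by rw [hv]; push_cast; linarith
    have h4 := Int.floor_le v
    have h5 := Int.lt_floor_add_one v
    show |((⌊v⌋ : ℤ) : ℝ) + 1/2| ≤ V + Z * Nx + 1
    rw [abs_le]; constructor <;> linarith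
  · have h1 : |(ς f:ℝ)| ≤ Z := by exact_mod_cast C.hς f
    have h3 : (((β:ℕ)):ℝ) ≤ V := by exact_mod_cast β.2.le
    have h4 : |(ς f:ℝ) * ((i':ℕ):ℝ)| ≤ Z * Nx := by
      rw [abs_mul, abs_of_nonneg hi0]
      exact mul_le_mul h1 hi2 hi0 (Nat.cast_nonneg _)
    have h4' := abs_le.mp h4
    have h5 : (0:ℝ) ≤ ((β:ℕ):ℝ) := Nat.cast_nonneg _
    show |((ς f * (i':ℕ) + (β:ℕ) : ℤ) : ℝ) + 1/2| ≤ V + Z * Nx + 1
    rw [abs_le]; push_cast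
    constructor <;> linarith

/-- coordinates of the new events are bounded -/
lemma Ctx.co_le (C : Ctx S₁ S₂ m Z Q Nx V₁ V Δ σ ς n τ₁ γ₁ τ₂ γ₂ μ γ' τ' sl su)
    (x : R × Cell T Nx V₁) :
    |xi S₂ m x + m.lam * ze S₂ m Z x| ≤ Q + 1 ∧ |m.del * ze S₂ m Z x| ≤ 1/2 := by
  obtain ⟨n1, n2, n3, n4, n5, n6, n7, n8, n9, n10⟩ := C.nums
  have hk := C.k0
  have hl := C.l0
  have hdel := C.e0
  have hi : ((x.2.1:ℕ):ℝ) + 1 ≤ Nx := by exact_mod_cast x.2.1.2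
  have hi0 : (0:ℝ) ≤ ((x.2.1:ℕ):ℝ) := Nat.cast_nonneg _
  have hNQ : (Nx:ℝ) ≤ Q := by exact_mod_cast C.NxQ
  have hj : ((x.2.2.1:ℕ):ℝ) ≤ V₁ := by exact_mod_cast x.2.2.1.2.le
  have hj0 : (0:ℝ) ≤ ((x.2.2.1:ℕ):ℝ) := Nat.cast_nonneg _
  have hVR : (V:ℝ) = V₁ + 2 * Z * Nx := by rw [C.hV]; push_cast; ring
  have hZN : (0:ℝ) ≤ Z * Nx := by positivity
  have hkX : |m.kap * S₂.X x.2.2.2| ≤ 1/1000 := by
    rw [abs_mul, abs_of_pos hk]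
    have := mul_le_mul_of_nonneg_left (C.hX x.2.2.2) hk.le
    linarith
  have hkY : |m.kap * S₂.Y x.2.2.2| ≤ 1/1000 := by
    rw [abs_mul, abs_of_pos hk]
    have := mul_le_mul_of_nonneg_left (C.hY x.2.2.2) hk.le
    linarith
  have hkX' := abs_le.mp hkX
  have hkY' := abs_le.mp hkY
  have hz1 : |ze S₂ m Z x| ≤ V + 1 := by
    unfold ze; push_cast
    rw [abs_le]; constructor <;> linarith
  have hx1 : |xi S₂ m x| ≤ Q + 1/1000 := by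
    unfold xi
    rw [abs_le]; constructor <;> linarith
  have hz2 : |m.lam * ze S₂ m Z x| ≤ 1/16 := by
    rw [abs_mul, abs_of_pos hl]
    have := mul_le_mul_of_nonneg_left hz1 hl.le
    linarith
  refine ⟨?_, ?_⟩
  · have := abs_add_le (xi S₂ m x) (m.lam * ze S₂ m Z x)
    linarith
  · rw [abs_mul, abs_of_pos hdel]
    have := mul_le_mul_of_nonneg_left hz1 hdel.le
    linarith

variable [DecidableEq G] (C : Ctx S₁ S₂ m Z Q Nx V₁ V Δ σ ς n τ₁ γ₁ τ₂ γ₂ μ γ' τ' sl su)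
  (K : Finset G)

/-- new events are in the box -/
lemma Ctx.ev_le (ga : LeafGA) (gc : LeafGC) (hB : S₁.Box γ₁) (x : R × Cell T Nx V₁) :
    |(C.sys K).X x| + γ' / dN S₂ sl x ≤ 1 ∧ |(C.sys K).Y x| + γ' / dN S₂ sl x ≤ 1 := by
  obtain ⟨n1, n2, n3, n4, n5, n6, n7, n8, n9, n10⟩ := C.nums
  obtain ⟨hd1, -, hd2⟩ := (ga S₁ S₂ m Z Q Nx V₁ V Δ σ ς n τ₁ γ₁ τ₂ γ₂ μ γ' τ' sl su C x).1
  obtain ⟨-, ga2, -, ga4, -⟩ := ga S₁ S₂ m Z Q Nx V₁ V Δ σ ς n τ₁ γ₁ τ₂ γ₂ μ γ' τ' sl su C x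
  have hdp := C.dN_pos ga x
  have hd := C.g1.pos x.1
  have hde2 := C.d1 x.1
  have he := C.ep0
  have hdel := C.e0
  have hγ := C.γ'0
  have c6 := C.c6
  have hX := hB.X1 x.1
  have hY := hB.Y1 x.1
  obtain ⟨o1, o2⟩ := C.co_le x
  -- `γ'/dN` is small
  have q1 : γ' / dN S₂ sl x ≤ m.eps / 13 / S₁.d x.1 := by
    rw [div_le_div_iff₀ hdp hd]
    have h1 : m.del * S₁.d x.1 ≤ m.del * S₁.d x.1 * S₂.d x.2.2.2 :=
      le_mul_of_one_le_right (by positivity) hd2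
    have h2 := mul_le_mul_of_nonneg_right n6 hd.le
    have h3 := mul_le_mul_of_nonneg_left (h1.trans (by linarith :
      m.del * S₁.d x.1 * S₂.d x.2.2.2 ≤ 10/9 * dN S₂ sl x)) he.le
    have h4 : m.eps * (m.del * S₁.d x.1) = m.eps * m.del * S₁.d x.1 := by ring
    have h5 : m.eps * (10/9 * dN S₂ sl x) = 10/9 * (m.eps * dN S₂ sl x) := by ring
    have h6 : 0 < m.eps * dN S₂ sl x := by positivity
    have h7 : 15 * γ' * S₁.d x.1 = 15 * (γ' * S₁.d x.1) := by ring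
    have h8 : m.eps / 13 * dN S₂ sl x = (m.eps * dN S₂ sl x) / 13 := by ring
    rw [h8]
    linarith
  have hqd : m.eps / 13 / S₁.d x.1 = (m.eps / S₁.d x.1) / 13 := by ring
  rw [hqd] at q1
  have hε0 : 0 < m.eps / S₁.d x.1 := by positivity
  -- `ε (Q+8)/d ≤ γ₁/d/64`
  have q2 : (m.eps / S₁.d x.1) * (Q + 8) ≤ γ₁ / S₁.d x.1 / 64 := by
    have h1 := div_le_div_of_nonneg_right c6 hd.le
    have h2 : 64 * (m.eps * (Q + 8)) / S₁.d x.1 = 64 * ((m.eps / S₁.d x.1) * (Q + 8)) := by ring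
    linarith
  have hQ0 : (0:ℝ) ≤ Q := Nat.cast_nonneg _
  have hg0 : 0 < γ₁ / S₁.d x.1 := by have := C.γ₁0; positivity
  -- abscissa
  have x1 : |xX S₁ S₂ m Z x| ≤ |S₁.X x.1| + (m.eps / S₁.d x.1) * (Q + 1) := by
    unfold xX Xs
    refine (abs_add_le _ _).trans (add_le_add le_rfl ?_)
    rw [show m.eps * ((xi S₂ m x + m.lam * ze S₂ m Z x) / S₁.d x.1) =
      (m.eps / S₁.d x.1) * (xi S₂ m x + m.lam * ze S₂ m Z x) by ring, abs_mul, abs_of_pos hε0]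
    exact mul_le_mul_of_nonneg_left o1 hε0.le
  have t1 := (C.tr K ga gc x 0 0)
  have x2 : |(C.sys K).X x - xX S₁ S₂ m Z x| ≤ 2 * (γ' / dN S₂ sl x) := by
    rw [← mul_div_assoc, le_div_iff₀ hdp]; exact t1.1
  have x3 : |(C.sys K).X x| ≤ |(C.sys K).X x - xX S₁ S₂ m Z x| + |xX S₁ S₂ m Z x| := by
    have := abs_add_le ((C.sys K).X x - xX S₁ S₂ m Z x) (xX S₁ S₂ m Z x)
    rwa [sub_add_cancel] at this
  -- ordinate
  have hp1 := C.p1 x.1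
  have y1 : |xY S₁ S₂ m Z x| ≤ |S₁.Y x.1| + (m.eps / S₁.d x.1) * (Q + 2) := by
    unfold xY Ys
    refine (abs_add_le _ _).trans (add_le_add le_rfl ?_)
    rw [show m.eps * (S₁.p m.y x.1 * ((xi S₂ m x + m.lam * ze S₂ m Z x) / S₁.d x.1) +
      m.del * ze S₂ m Z x) = (m.eps / S₁.d x.1) * (S₁.p m.y x.1 *
      (xi S₂ m x + m.lam * ze S₂ m Z x) + S₁.d x.1 * (m.del * ze S₂ m Z x)) by
      field_simp, abs_mul, abs_of_pos hε0]
    apply mul_le_mul_of_nonneg_left _ hε0.le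
    refine (abs_add_le _ _).trans ?_
    rw [abs_mul, abs_mul, abs_of_pos hd]
    have h1 : |S₁.p m.y x.1| * |xi S₂ m x + m.lam * ze S₂ m Z x| ≤ 1 * (Q + 1) :=
      mul_le_mul hp1 o1 (abs_nonneg _) (by norm_num)
    have h2 : S₁.d x.1 * |m.del * ze S₂ m Z x| ≤ 2 * (1/2) :=
      mul_le_mul hde2 o2 (abs_nonneg _) (by norm_num)
    linarith
  have y2 : |(C.sys K).Y x - xY S₁ S₂ m Z x| ≤ 12 * (γ' / dN S₂ sl x) := by
    have h1 := t1.2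
    have h2 : (C.sys K).h x 0 0 - hs S₁ S₂ m Z x 0 0 = -((C.sys K).Y x - xY S₁ S₂ m Z x) := by
      unfold Sys.h hs; ring
    rw [h2, abs_neg] at h1
    have hpN : |pN m.y S₂ sl x| ≤ 1 := C.s_le hB.s1 x.1 _ ga4
    have hdN2 : dN S₂ sl x ≤ 2 := by
      have h3 := abs_le.mp (C.s_le hB.s1 x.1 _ (ga2 x.1 (S₂.a x.2.2.2)))
      have h4 := abs_le.mp (C.s_le hB.s1 x.1 _ (ga2 x.1 (S₂.b x.2.2.2)))
      unfold dN
      linarith
    have h5 : |(0:ℝ) - pN m.y S₂ sl x| / dN S₂ sl x + 1 ≤ 4 / dN S₂ sl x := by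
      rw [zero_sub, abs_neg, div_add_one hdp.ne']
      exact div_le_div_of_nonneg_right (by linarith) hdp.le
    calc |(C.sys K).Y x - xY S₁ S₂ m Z x|
        ≤ 3 * γ' * (|(0:ℝ) - pN m.y S₂ sl x| / dN S₂ sl x + 1) := h1
      _ ≤ 3 * γ' * (4 / dN S₂ sl x) := mul_le_mul_of_nonneg_left h5 (by positivity)
      _ = 12 * (γ' / dN S₂ sl x) := by ring
  have y3 : |(C.sys K).Y x| ≤ |(C.sys K).Y x - xY S₁ S₂ m Z x| + |xY S₁ S₂ m Z x| := by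
    have := abs_add_le ((C.sys K).Y x - xY S₁ S₂ m Z x) (xY S₁ S₂ m Z x)
    rwa [sub_add_cancel] at this
  have e1 : (m.eps / S₁.d x.1) * (Q + 8) = (m.eps / S₁.d x.1) * (Q + 1) +
    7 * (m.eps / S₁.d x.1) := by ring
  have e2 : (m.eps / S₁.d x.1) * (Q + 8) = (m.eps / S₁.d x.1) * (Q + 2) +
    6 * (m.eps / S₁.d x.1) := by ring
  constructor <;> linarith

theorem Ctx.box (ga : LeafGA) (gc : LeafGC) (hB : S₁.Box γ₁) (x : R × Cell T Nx V₁) :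
    (C.sys K).Box γ' := by
  obtain ⟨-, ga2, ga3, -⟩ := ga S₁ S₂ m Z Q Nx V₁ V Δ σ ς n τ₁ γ₁ τ₂ γ₂ μ γ' τ' sl su C x
  obtain ⟨n1, n2, n3, n4, n5, n6, n7, n8, n9, n10⟩ := C.nums
  have hγ₁ := C.γ₁0
  refine ⟨?_, ?_, ?_, ?_, fun x => (C.ev_le K ga gc hB x).1, fun x => (C.ev_le K ga gc hB x).2⟩
  · rintro (⟨c, i', q, b⟩ | ⟨e₁, q⟩ | ⟨d, q⟩)
    · exact hB.s1 c
    · exact C.s_le hB.s1 e₁ _ (ga2 e₁ q.1)
    · exact hB.u1 d
  · rintro (⟨c, i', q, b⟩ | ⟨e₁, q⟩ | ⟨d, q⟩)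
    · exact hB.s1 c
    · exact C.s_le hB.s1 e₁ _ (ga3 e₁ q.1)
    · exact hB.u1 d
  · rintro (⟨c, i', q, b⟩ | ⟨e₁, q⟩ | ⟨d, q⟩)
    · exact C.b_le _ (hB.t1 c) i' _ (C.posG_le K q i') b
    · exact C.t_le hB e₁ _ _ _ q.2 (C.s_le hB.s1 e₁ _ (ga2 e₁ q.1)) (C.hσ q.1) (C.ht q.1)
    · have := hB.v1 d
      show |S₁.v d| + γ' ≤ 3
      linarith
  · rintro (⟨c, i', q, b⟩ | ⟨e₁, q⟩ | ⟨d, q⟩)
    · exact C.b_le _ (hB.t1 c) i' _ (C.posD_le q i') b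
    · exact C.t_le hB e₁ _ _ _ q.2 (C.s_le hB.s1 e₁ _ (ga3 e₁ q.1)) (C.hς q.1) (C.hv q.1)
    · have := hB.v1 d
      show |S₁.v d| + γ' ≤ 3
      linarith

end

end K9
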