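import Pool.Agent.Helper48K9.Asm3

/-!
# Assembly 4: the composition step
-/

namespace K9

open Finset

/-- rounding to a multiple of `1/M` with numerator in the class of `ρ` modulo `pr` -/
noncomputable def rnd (pr M : ℕ) (ρ : ℤ) (s : ℝ) : ℝ :=
  ((ρ + pr * ⌊((M:ℝ) * s - ρ) / pr⌋ : ℤ) : ℝ) / M

lemma rnd_near {pr M : ℕ} (hpr : 0 < pr) (hM : 0 < M) (ρ : ℤ) (s : ℝ) :
    |rnd pr M ρ s - s| ≤ pr / M := by
  have hp : (0:ℝ) < pr := by exact_mod_cast hpr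
  have hM' : (0:ℝ) < M := by exact_mod_cast hM
  unfold rnd
  set v := ((M:ℝ) * s - ρ) / pr with hv
  have h1 := Int.floor_le v
  have h2 := Int.lt_floor_add_one v
  have h3 : (M:ℝ) * s = pr * v + ρ := by rw [hv]; field_simp; ring
  have h4 : ((ρ + pr * ⌊v⌋ : ℤ) : ℝ) / M - s = -(pr * (v - ⌊v⌋)) / M := by
    rw [div_sub' hM'.ne', h3]; push_cast; congr 1; ring
  rw [h4, abs_div, abs_neg, abs_of_pos hM']
  apply div_le_div_of_nonneg_right _ hM'.le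
  rw [abs_mul, abs_of_pos hp]
  have h5 : |v - ⌊v⌋| ≤ 1 := by rw [abs_le]; constructor <;> linarith
  calc (pr:ℝ) * |v - ⌊v⌋| ≤ pr * 1 := mul_le_mul_of_nonneg_left h5 hp.le
    _ = pr := mul_one _

lemma rnd_int {pr M : ℕ} (hM : 0 < M) (ρ : ℤ) (s : ℝ) :
    ∃ w : ℤ, (M:ℝ) * rnd pr M ρ s = ((ρ + pr * w : ℤ) : ℝ) := by
  have hM' : (0:ℝ) < M := by exact_mod_cast hM
  exact ⟨⌊((M:ℝ) * s - ρ) / pr⌋, by unfold rnd; field_simp⟩

/-- all events at the same level and slopes bounded: the ordinates are Lipschitz -/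
lemma lip_of_lev {A D R : Type} [Fintype A] [Fintype D] [Fintype R] (S : Sys A D R) {y : ℝ}
    {k c : ℕ} {Z : ℝ} (hl : S.Lev y k c) (ha : ∀ r, S.hA r (S.a r) = 0)
    (hs : ∀ c, |S.s c| ≤ Z) (r r' : R) : |S.Y r - S.Y r'| ≤ Z * |S.X r - S.X r'| := by
  classical
  have key : ∀ r r' : R, S.Y r' - S.Y r ≤ Z * |S.X r - S.X r'| := by
    intro r r'
    by_contra hcon
    push Not at hcon
    have h1 : ∀ c, S.hA r c ≤ 0 → S.hA r' c < 0 := by
      intro c hc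
      unfold Sys.hA Sys.h at *
      have h2 : S.s c * (S.X r' - S.X r) ≤ Z * |S.X r - S.X r'| := by
        calc S.s c * (S.X r' - S.X r) ≤ |S.s c * (S.X r' - S.X r)| := le_abs_self _
          _ = |S.s c| * |S.X r - S.X r'| := by rw [abs_mul, abs_sub_comm (S.X r')]
          _ ≤ Z * |S.X r - S.X r'| := mul_le_mul_of_nonneg_right (hs c) (abs_nonneg _)
      nlinarith
    have h2 : S.kA r < S.kA r' := by
      unfold Sys.kA
      apply Finset.sum_lt_sum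
      · intro c _
        by_cases h : S.hA r c < 0
        · rw [if_pos h, if_pos (h1 c h.le)]
        · rw [if_neg h]; exact Nat.zero_le _
      · refine ⟨S.a r, Finset.mem_univ _, ?_⟩
        rw [if_neg (by rw [ha]; exact lt_irrefl _), if_pos (h1 _ (ha r).le)]
        exact Nat.zero_lt_one
    rw [hl.lA, hl.lA] at h2
    exact lt_irrefl _ h2
  rw [abs_le]
  have h1 := key r r'
  have h2 := key r' r
  rw [abs_sub_comm (S.X r')] at h2
  constructor <;> linarith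

lemma Sys.Geo.mono {A D R : Type} {S : Sys A D R} {y τ γ γ' : ℝ} (hG : S.Geo y τ γ)
    (h : γ' ≤ γ) : S.Geo y τ γ' := by
  have hp := hG.pos
  refine ⟨hG.pos, hG.a0, hG.b0, fun r c h1 h2 => le_trans ?_ (hG.gA r c h1 h2),
    fun r c => le_trans ?_ (hG.gD r c), fun r r' h1 => le_trans ?_ (hG.gP r r' h1),
    hG.sep, fun r r' h1 => le_trans h (hG.xs r r' h1)⟩
  · exact mul_le_mul_of_nonneg_right h (by have := hp r; positivity)
  · exact mul_le_mul_of_nonneg_right h (by have := hp r; positivity)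
  · exact mul_le_mul_of_nonneg_right h (by have := hp r; positivity)

lemma Sys.Box.mono {A D R : Type} {S : Sys A D R} {γ γ' : ℝ} (hB : S.Box γ)
    (hp : ∀ r, 0 < S.d r) (h : γ' ≤ γ) : S.Box γ' := by
  refine ⟨hB.s1, hB.u1, fun c => by linarith [hB.t1 c], fun c => by linarith [hB.v1 c],
    fun r => ?_, fun r => ?_⟩
  · have := div_le_div_of_nonneg_right h (hp r).le
    linarith [hB.X1 r]
  · have := div_le_div_of_nonneg_right h (hp r).le
    linarith [hB.Y1 r]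

section

variable {A D R G F T : Type}
variable {S₁ : Sys A D R} {S₂ : Sys G F T} {m : Pm} {Z Q Nx V₁ V Δ : ℕ}
  {σ : G → ℤ} {ς : F → ℤ} {n : T → ℤ} {τ₁ γ₁ τ₂ γ₂ μ γ' τ' : ℝ} {sl : R → G → ℝ}
  {su : R → F → ℝ}

/-- arithmetic of the slopes of the composed system -/
lemma Ctx.arith [DecidableEq G]
    (C : Ctx S₁ S₂ m Z Q Nx V₁ V Δ σ ς n τ₁ γ₁ τ₂ γ₂ μ γ' τ' sl su)
    (K : Finset G) {pr M₁ M : ℕ} (hM : 0 < M) (hMM : M₁ ∣ M) (hA : S₁.Arith pr M₁) (col : G → ℤ)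
    (hcol : ∀ r, ¬ (pr:ℤ) ∣ col (S₂.a r) - col (S₂.b r))
    (hsl : ∀ e α, sl e α = rnd pr M (col α) (slI S₁ m e (σ α)))
    (hsu : ∀ e f, su e f = rnd pr M 0 (slI S₁ m e (ς f))) :
    (C.sys K).Arith pr M := by
  obtain ⟨w, hw⟩ := hMM
  have lift : ∀ s : ℝ, (∃ z : ℤ, (M₁:ℝ) * s = z) → ∃ z : ℤ, (M:ℝ) * s = z := by
    rintro s ⟨z, hz⟩
    refine ⟨w * z, ?_⟩
    rw [hw]; push_cast; rw [← hz]; ring
  refine ⟨?_, ?_, ?_⟩
  · rintro (⟨c, i', q, b⟩ | ⟨e₁, q⟩ | ⟨d, q⟩)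
    · exact lift _ (hA.si c)
    · obtain ⟨w, hw⟩ := rnd_int (pr := pr) hM (col q.1) (slI S₁ m e₁ (σ q.1))
      refine ⟨col q.1 + pr * w, ?_⟩
      show (M:ℝ) * sl e₁ q.1 = _
      rw [hsl]; exact hw
    · exact lift _ (hA.ui d)
  · rintro (⟨c, i', q, b⟩ | ⟨e₁, q⟩ | ⟨d, q⟩)
    · exact lift _ (hA.si c)
    · obtain ⟨w, hw⟩ := rnd_int (pr := pr) hM 0 (slI S₁ m e₁ (ς q.1))
      refine ⟨0 + pr * w, ?_⟩
      show (M:ℝ) * su e₁ q.1 = _
      rw [hsu]; exact hw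
    · exact lift _ (hA.ui d)
  · intro x z hz hdvd
    rw [C.sys_d] at hz
    unfold dN at hz
    obtain ⟨w₁, hw₁⟩ := rnd_int (pr := pr) hM (col (S₂.a x.2.2.2))
      (slI S₁ m x.1 (σ (S₂.a x.2.2.2)))
    obtain ⟨w₂, hw₂⟩ := rnd_int (pr := pr) hM (col (S₂.b x.2.2.2))
      (slI S₁ m x.1 (σ (S₂.b x.2.2.2)))
    rw [hsl, hsl, mul_sub, hw₁, hw₂] at hz
    have hz' : col (S₂.a x.2.2.2) + pr * w₁ - (col (S₂.b x.2.2.2) + pr * w₂) = z := by
      exact_mod_cast hz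
    apply hcol x.2.2.2
    have e : col (S₂.a x.2.2.2) - col (S₂.b x.2.2.2) = z - pr * (w₁ - w₂) := by linarith
    rw [e]
    exact dvd_sub hdvd (dvd_mul_right _ _)

end

end K9
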