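import Pool.Agent.Helper48K9.Asm4

/-!
# Assembly 5: the composition step, cardinalities
-/

namespace K9

open Finset

/-- cardinality of the new line sets -/
lemma card_bound {A D R G : ℕ} {N₁ B₁ N₂ Z : ℕ} (hA : A ≤ N₁) (hRD : R + D ≤ B₁ * N₁)
    (hG : G ≤ N₂) :
    A * (50 * B₁ * (G * (5100 * Z * B₁) * 2)) + (R * (G * (5100 * Z * B₁)) +
      D * (G * (5100 * Z * B₁))) ≤ N₁ * (N₂ * Z * 515100) * B₁ ^ 2 := by
  have h1 : A * (50 * B₁ * (G * (5100 * Z * B₁) * 2)) + (R * (G * (5100 * Z * B₁)) +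
      D * (G * (5100 * Z * B₁))) = G * (5100 * Z * B₁) * (100 * B₁ * A + (R + D)) := by ring
  rw [h1]
  calc G * (5100 * Z * B₁) * (100 * B₁ * A + (R + D))
      ≤ N₂ * (5100 * Z * B₁) * (100 * B₁ * N₁ + B₁ * N₁) := by gcongr
    _ = N₁ * (N₂ * Z * 515100) * B₁ ^ 2 := by ring

/-- cardinality of the new events and auxiliary lines -/
lemma card_bound2 {A D R T F : ℕ} {N₁ B₁ N₂ B₂ Z : ℕ} (hA : A ≤ N₁) (hRD : R + D ≤ B₁ * N₁)
    (hTF : T + F ≤ B₂ * N₂) :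
    R * (50 * B₁ * (5000 * Z * B₁ * T)) +
      (A * (50 * B₁ * ((50 * B₁ * (5000 * Z * B₁ * T) + F * (5100 * Z * B₁)) * 2)) +
        (R * (F * (5100 * Z * B₁)) +
          D * (50 * B₁ * (5000 * Z * B₁ * T) + F * (5100 * Z * B₁)))) ≤
      50 * B₁ * B₂ * (N₁ * (N₂ * Z * 515100) * B₁ ^ 2) := by
  rcases Nat.eq_zero_or_pos B₁ with h | hB
  · subst h; simp
  have q : 50 * B₁ * (5000 * Z * B₁ * T) + F * (5100 * Z * B₁) ≤
      50 * B₁ * (5100 * Z * B₁) * (T + F) := by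
    have h1 : 50 * B₁ * (5000 * Z * B₁ * T) ≤ 50 * B₁ * (5100 * Z * B₁) * T := by
      calc 50 * B₁ * (5000 * Z * B₁ * T) ≤ 50 * B₁ * (5100 * Z * B₁ * T) := by
            gcongr; norm_num
        _ = 50 * B₁ * (5100 * Z * B₁) * T := by ring
    have h2 : F * (5100 * Z * B₁) ≤ 50 * B₁ * (5100 * Z * B₁) * F := by
      calc F * (5100 * Z * B₁) = 1 * (5100 * Z * B₁) * F := by ring
        _ ≤ 50 * B₁ * (5100 * Z * B₁) * F := by gcongr; omega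
    calc _ ≤ 50 * B₁ * (5100 * Z * B₁) * T + 50 * B₁ * (5100 * Z * B₁) * F := add_le_add h1 h2
      _ = _ := by ring
  set P := 50 * B₁ * (5100 * Z * B₁) * (T + F) with hP
  have r1 : R * (50 * B₁ * (5000 * Z * B₁ * T)) + R * (F * (5100 * Z * B₁)) ≤ R * P := by
    rw [← Nat.mul_add]; exact Nat.mul_le_mul_left _ q
  have r2 : A * (50 * B₁ * ((50 * B₁ * (5000 * Z * B₁ * T) + F * (5100 * Z * B₁)) * 2)) ≤
      A * (50 * B₁ * (P * 2)) := by gcongr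
  have r3 : D * (50 * B₁ * (5000 * Z * B₁ * T) + F * (5100 * Z * B₁)) ≤ D * P := by gcongr
  calc _ ≤ R * P + A * (50 * B₁ * (P * 2)) + D * P := by omega
    _ = P * (100 * B₁ * A + (R + D)) := by ring
    _ ≤ (50 * B₁ * (5100 * Z * B₁) * (B₂ * N₂)) * (100 * B₁ * N₁ + B₁ * N₁) := by
        rw [hP]; gcongr
    _ = 50 * B₁ * B₂ * (N₁ * (N₂ * Z * 515100) * B₁ ^ 2) := by ring

/-- number of events per line -/
lemma card_bound3 {R T : ℕ} {N₁ B₁ N₂ Z : ℕ} {β₁ β₂ : ℝ} (h₁ : 0 ≤ β₁) (h₂ : 0 ≤ β₂)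
    (hR : β₁ * N₁ * 5253 ≤ 2500 * R) (hT : β₂ * N₂ * 5253 ≤ 2500 * T) :
    (β₁ * β₂) * ((N₁ * (N₂ * Z * 515100) * B₁ ^ 2 : ℕ) : ℝ) * 5253 ≤
      2500 * ((R * (50 * B₁ * (5000 * Z * B₁ * T)) : ℕ) : ℝ) := by
  have h0 : 0 ≤ β₁ * N₁ * 5253 := by positivity
  have h0' : 0 ≤ β₂ * N₂ * 5253 := by positivity
  have h3 : (β₁ * N₁ * 5253) * (β₂ * N₂ * 5253) ≤ (2500 * R) * (2500 * T) :=
    mul_le_mul hR hT h0' (by positivity)
  push_cast
  have hw : (0:ℝ) ≤ Z * B₁ ^ 2 := by positivity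
  have h4 := mul_le_mul_of_nonneg_right h3 hw
  have h5 : (0:ℝ) ≤ (R:ℝ) * T * (Z * B₁ ^ 2) := by positivity
  nlinarith

theorem stepAll_of (ca : CountA) (cd : CountD) (ga : LeafGA) (gb : LeafGB) (gc : LeafGC)
    (gd : LeafGD) (ge : LeafGE) (gp : LeafGP) : StepAll := by
  intro pr hpr hpr2 y₀ hy₀
  obtain ⟨K, hK, hgp⟩ := gp pr y₀ hpr2 hy₀
  refine ⟨K, hK, fun y hy hy1 => ?_⟩
  intro N₁ B₁ M₁ Θ₁ H₁ Λ₁ W₁ β₁ N₂ B₂ Z Q Θ₂ H₂ Λ₂ W₂ Δ M β₂ hβ₁ hβ₂ hout hinn hBQ hMM hM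
  obtain ⟨⟨o1, o2, o3, o4, o5, o6, o7⟩, A, D, R, fA, fD, fR, nR, S₁, k₁, c₁, G1, L1, X1, AR1, rg1,
    cA, cRD, cβ⟩ := hout
  obtain ⟨⟨i1, i2, i3, i4, i5, i6, i7, i8, i9⟩, G, F, T, fG, fF, fT, nT, S₂, k₂, c₂, σ, ς, n, col,
    G2, L2, hσ, hς, hXY, rg2, hn, hcol, cG, cTF, cβ2⟩ := hinn
  obtain ⟨lam, del, kap, eps, μ, γ', l0, d0, k0, e0, μ0, γ0, c1, c2, c3, c4, c5, c6, c7, c8, c9,
    c10, c10', cH, c11, c12, cr, cu, cl⟩ :=
    hgp y hy hy1 B₁ Θ₁ H₁ Λ₁ Z Q Θ₂ H₂ Δ M o2 o4 o5 o6 i3 i4 i5 i6 i9 hBQ hM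
  classical
  have hpr0 : 0 < pr := hpr.pos
  have hM0 : 0 < M := by
    have : 0 < K ^ 5 * Λ₁ * Θ₁ * H₂ * Z ^ 2 * Q ^ 6 * Δ ^ 4 * Θ₂ ^ 2 := by positivity
    exact lt_of_lt_of_le this hM
  have hZ0 : (0:ℝ) < Z := by exact_mod_cast i3
  have hΘ₁ : (1:ℝ) ≤ Θ₁ := by exact_mod_cast o4
  have hH₁ : (1:ℝ) ≤ H₁ := by exact_mod_cast o5
  have hΛ₁ : (1:ℝ) ≤ Λ₁ := by exact_mod_cast o6
  have hΘ₂ : (1:ℝ) ≤ Θ₂ := by exact_mod_cast i5
  have hH₂ : (1:ℝ) ≤ H₂ := by exact_mod_cast i6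
  have hΛ₂ : (1:ℝ) ≤ Λ₂ := by exact_mod_cast i7
  have hyp : 0 < y := lt_of_lt_of_le hy₀ hy
  let sl : R → G → ℝ := fun e α => rnd pr M (col α) (slI S₁ ⟨y, lam, del, kap, eps⟩ e (σ α))
  let su : R → F → ℝ := fun e f => rnd pr M 0 (slI S₁ ⟨y, lam, del, kap, eps⟩ e (ς f))
  have hμ : ∀ e, (pr:ℝ) / M ≤ μ * (del * S₁.d e) := fun e => cr.trans
    (mul_le_mul_of_nonneg_left (mul_le_mul_of_nonneg_left (rg1 e).1 d0.le) μ0)
  have C : Ctx S₁ S₂ ⟨y, lam, del, kap, eps⟩ Z Q (50 * B₁) (5000 * Z * B₁) (5100 * Z * B₁) Δ σ ς n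
      (1 / Θ₁) (1 / H₁) (1 / Θ₂) (1 / H₂) μ γ' (1 / ((K * Θ₂ * Q ^ 2 * Δ : ℕ) : ℝ)) sl su :=
    { g1 := G1
      g2 := G2
      sσ := fun α => (hσ α).1
      hσ := fun α => (hσ α).2.1
      ht := fun α => (hσ α).2.2
      uς := fun f => (hς f).1
      hς := fun f => (hς f).2.1
      hv := fun f => (hς f).2.2
      hX := fun r => (hXY r).1
      hY := fun r => (hXY r).2
      hΔ := fun r => (rg2 r).2.2
      hn := hn
      lip := lip_of_lev S₂ L2 G2.a0 (fun c => by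
        rw [(hσ c).1]; exact_mod_cast (hσ c).2.1)
      d1 := fun e => by
        have h1 := abs_le.mp (X1.s1 (S₁.a e))
        have h2 := abs_le.mp (X1.s1 (S₁.b e))
        unfold Sys.d; linarith
      p1 := fun e => by
        have h1 := abs_le.mp (X1.s1 (S₁.a e))
        have h2 := abs_le.mp (X1.s1 (S₁.b e))
        show |S₁.s (S₁.a e) - y * S₁.d e| ≤ 1
        unfold Sys.d
        rw [abs_le]; constructor <;> nlinarith
      hV := by ring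
      Z1 := i3
      Nx1 := by omega
      NxQ := hBQ
      Δ1 := i9
      y0 := hyp
      y1 := hy1
      l0 := l0
      e0 := d0
      k0 := k0
      ep0 := e0
      μ0 := μ0
      τ₁0 := by positivity
      τ₁1 := by rw [div_le_one (by linarith)]; exact hΘ₁
      γ₁0 := by positivity
      γ₁1 := by rw [div_le_one (by linarith)]; exact hH₁
      τ₂0 := by positivity
      τ₂1 := by rw [div_le_one (by linarith)]; exact hΘ₂
      γ₂0 := by positivity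
      γ₂1 := by rw [div_le_one (by linarith)]; exact hH₂
      γ'0 := γ0
      τ'0 := by
        have : 0 < K * Θ₂ * Q ^ 2 * Δ := by positivity
        have : (0:ℝ) < ((K * Θ₂ * Q ^ 2 * Δ : ℕ) : ℝ) := by exact_mod_cast this
        positivity
      c1 := c1
      c2 := c2
      c3 := c3
      c4 := c4
      c5 := c5
      c6 := c6
      c7 := c7
      c8 := c8
      c9 := c9
      c10 := c10
      c10' := c10'
      c11 := c11
      c12 := c12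
      rs := fun e α => (rnd_near hpr0 hM0 _ _).trans (hμ e)
      ru := fun e f => (rnd_near hpr0 hM0 _ _).trans (hμ e) }
  obtain ⟨t₀⟩ := nT
  obtain ⟨K', -, hK'⟩ : ∃ K' ⊆ (Finset.univ : Finset G), K'.card = k₂ := by
    apply Finset.exists_subset_card_eq
    rw [← L2.lA t₀]
    unfold Sys.kA
    calc (∑ c, if S₂.hA t₀ c < 0 then 1 else 0) ≤ ∑ _c : G, 1 :=
          Finset.sum_le_sum fun c _ => by split_ifs <;> omega
      _ = (Finset.univ : Finset G).card := by simp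
  obtain ⟨k, c, hL⟩ := C.lev K' ca cd ga gb gc gd ge L1 L2 hK'
  obtain ⟨e₀⟩ := nR
  have x₀ : R × Cell T (50 * B₁) (5000 * Z * B₁) :=
    (e₀, (⟨0, by positivity⟩, ⟨0, by positivity⟩, t₀))
  have hLL : (((2 * K ^ 2 * Λ₁ * Λ₂ * Θ₁ * Θ₂ * Q ^ 2 * Δ ^ 2 : ℕ) : ℝ)) =
      Λ₁ * Λ₂ * (2 / (del * Z)) := by
    rw [← le_antisymm cl cu]; push_cast; ring
  refine ⟨⟨?_, ?_, hM0, ?_, ?_, ?_, ?_⟩, _, _, _, inferInstance, inferInstance, inferInstance, ⟨x₀⟩,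
    C.sys K', k, c, (C.geo K' ga gb gc gd ge).mono cH, hL,
    (C.box K' ga gc X1 x₀).mono (C.geo K' ga gb gc gd ge).pos cH,
    C.arith K' hM0 hMM AR1 col hcol (fun _ _ => rfl) (fun _ _ => rfl), ?_, ?_, ?_, ?_⟩
  · exact Nat.pos_of_ne_zero (by positivity)
  · exact Nat.pos_of_ne_zero (by positivity)
  · exact Nat.pos_of_ne_zero (by positivity)
  · exact Nat.pos_of_ne_zero (by positivity)
  · exact Nat.pos_of_ne_zero (by positivity)
  · exact Nat.pos_of_ne_zero (by positivity)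
  · intro x
    rw [hLL, C.sys_d]
    obtain ⟨h1, h2, h3⟩ := (ga S₁ S₂ _ Z Q _ _ _ Δ σ ς n _ _ _ _ μ γ' _ sl su C x).1
    obtain ⟨r1, r2⟩ := rg1 x.1
    obtain ⟨r3, r4, -⟩ := rg2 x.2.2.2
    have p1 := G1.pos x.1
    have p2 := G2.pos x.2.2.2
    have hL0 : (0:ℝ) < Λ₁ * Λ₂ := by positivity
    have e1 : 1 / (Λ₁ * Λ₂ * (2 / (del * Z))) = del * (1 / Λ₁ * (Z / Λ₂)) / 2 := by
      field_simp
    have e2 : ((4 * W₁ * W₂ : ℕ) : ℝ) / (Λ₁ * Λ₂ * (2 / (del * Z))) =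
        2 * (del * (W₁ / Λ₁ * (W₂ * Z / Λ₂))) := by
      push_cast; field_simp; ring
    rw [e1, e2]
    have m1 : 1 / (Λ₁:ℝ) * (Z / Λ₂) ≤ S₁.d x.1 * S₂.d x.2.2.2 :=
      mul_le_mul r1 r3 (by positivity) p1.le
    have m2 : S₁.d x.1 * S₂.d x.2.2.2 ≤ W₁ / Λ₁ * (W₂ * Z / Λ₂) :=
      mul_le_mul r2 r4 p2.le (by positivity)
    have m3 := mul_le_mul_of_nonneg_left m1 d0.le
    have m4 := mul_le_mul_of_nonneg_left m2 d0.le
    have e3 : del * (S₁.d x.1 * S₂.d x.2.2.2) = del * S₁.d x.1 * S₂.d x.2.2.2 := by ring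
    have e4 : 0 < del * S₁.d x.1 * S₂.d x.2.2.2 := by positivity
    simp only at h1 h2
    constructor <;> linarith
  · refine le_trans (le_of_eq ?_) (card_bound (A := Fintype.card A) (D := Fintype.card D)
      (R := Fintype.card R) (G := Fintype.card G) cA cRD cG)
    simp only [Fintype.card_sum, Fintype.card_prod, Fintype.card_fin, Fintype.card_bool]
  · refine le_trans (le_of_eq ?_) (card_bound2 (A := Fintype.card A) (D := Fintype.card D)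
      (R := Fintype.card R) (T := Fintype.card T) (F := Fintype.card F) cA cRD cTF)
    simp only [Fintype.card_sum, Fintype.card_prod, Fintype.card_fin, Fintype.card_bool]
  · refine le_trans (card_bound3 hβ₁ hβ₂ cβ cβ2) (le_of_eq ?_)
    simp only [Fintype.card_prod, Fintype.card_fin]

end K9
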