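import Pool.Agent.Helper48K9.Defs
import Pool.Agent.KLev.Base

/-!
# The base block for systems with a compensating family
-/

namespace K9

open Finset Filter Topology

namespace BK

variable {A R : Type} [Fintype A] [Fintype R] {k P : ℕ}

/-- ordinate of an event -/
def Y0 (S0 : KLev.Ev A R k P) (r : R) : ℝ := S0.s (S0.a r) * S0.X r + S0.t (S0.a r)

/-- index type of the auxiliary lines -/
abbrev Dx (R : Type) (w : R → ℕ) : Type := (Σ e : R, Fin (w e)) × Bool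

/-- sign of the slope of an auxiliary line -/
def sg (b : Bool) : ℝ := if b then 1 else -1

/-- the scaled system with auxiliary lines -/
noncomputable def sys (S0 : KLev.Ev A R k P) (lam σ ε : ℝ) (w : R → ℕ) : Sys A (Dx R w) R where
  s := fun c => S0.s c / σ
  t := fun c => lam * S0.t c / σ
  u := fun c => sg c.2
  v := fun c => lam * Y0 S0 c.1.1 / σ - ε - sg c.2 * (lam * S0.X c.1.1)
  X := fun r => lam * S0.X r
  Y := fun r => lam * Y0 S0 r / σ
  a := S0.a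
  b := S0.b

variable (S0 : KLev.Ev A R k P) (lam σ ε : ℝ) (w : R → ℕ)

lemma d_eq (r : R) : (sys S0 lam σ ε w).d r = (S0.s (S0.a r) - S0.s (S0.b r)) / σ := by
  simp only [Sys.d, sys]; ring

lemma d_pos (hσ : 0 < σ) (r : R) : 0 < (sys S0 lam σ ε w).d r := by
  rw [d_eq]; exact div_pos (sub_pos.mpr (S0.hs r)) hσ

lemma hA_eq (r : R) (c : A) : (sys S0 lam σ ε w).hA r c =
    lam / σ * (S0.s c * S0.X r + S0.t c - Y0 S0 r) := by
  simp only [Sys.hA, Sys.h, sys]; ring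

lemma hD_eq (r : R) (c : Dx R w) : (sys S0 lam σ ε w).hD r c =
    sg c.2 * (lam * S0.X r - lam * S0.X c.1.1) + (lam * Y0 S0 c.1.1 / σ - lam * Y0 S0 r / σ) - ε := by
  simp only [Sys.hD, Sys.h, sys]; ring

lemma hP_eq (y : ℝ) (r r' : R) : (sys S0 lam σ ε w).hP y r r' =
    lam / σ * ((S0.s (S0.a r') * S0.X r + S0.t (S0.a r') - Y0 S0 r) -
      y * ((S0.s (S0.a r') - S0.s (S0.b r')) * (S0.X r - S0.X r'))) := by
  simp only [Sys.hP, Sys.h, Sys.p, Sys.d, sys, Y0]; ring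

lemma ev_small {x c : ℝ} (hx : 0 < x) : ∀ᶠ H : ℕ in atTop, 1 / (H:ℝ) * c ≤ x := by
  have h1 : Tendsto (fun H : ℕ => 1 / (H:ℝ) * c) atTop (𝓝 (0 * c)) :=
    (tendsto_const_div_atTop_nhds_zero_nat 1).mul_const c
  rw [zero_mul] at h1
  exact (h1.eventually (gt_mem_nhds hx)).mono (fun _ h => h.le)

/-- finitely many nondegenerate events -/
theorem finite_geo {A D R : Type} [Fintype A] [Fintype D] [Fintype R] (S : Sys A D R) (y : ℝ)
    (hd : ∀ r, 0 < S.d r) (a0 : ∀ r, S.hA r (S.a r) = 0) (b0 : ∀ r, S.hA r (S.b r) = 0)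
    (hA : ∀ r c, c ≠ S.a r → c ≠ S.b r → S.hA r c ≠ 0) (hD : ∀ r c, S.hD r c ≠ 0)
    (hP : ∀ r r', r' ≠ r → S.hP y r r' ≠ 0) (hX : ∀ r r', r' ≠ r → S.X r - S.X r' ≠ 0)
    (s1 : ∀ c, |S.s c| ≤ 1) (u1 : ∀ c, |S.u c| ≤ 1) (t1 : ∀ c, |S.t c| < 3)
    (v1 : ∀ c, |S.v c| < 3) (X1 : ∀ r, |S.X r| < 1) (Y1 : ∀ r, |S.Y r| < 1) :
    ∃ Θ H Λ W : ℕ, 1 ≤ Θ ∧ 1 ≤ H ∧ 1 ≤ Λ ∧ 1 ≤ W ∧ S.Geo y (1 / Θ) (1 / H) ∧ S.Box (1 / H) ∧
      ∀ r, 1 / (Λ:ℝ) ≤ S.d r ∧ S.d r ≤ W / Λ := by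
  obtain ⟨Θ, hΘ1, hΘ⟩ : ∃ Θ : ℕ, 1 ≤ Θ ∧ ∀ r r', r' ≠ r →
      1 / (Θ:ℝ) * (S.d r' * |S.X r - S.X r'|) ≤ |S.hP y r r'| := by
    have h : ∀ᶠ Θ : ℕ in atTop, ∀ r r', r' ≠ r →
        1 / (Θ:ℝ) * (S.d r' * |S.X r - S.X r'|) ≤ |S.hP y r r'| := by
      rw [eventually_all]; intro r
      rw [eventually_all]; intro r'
      by_cases h : r' ≠ r
      · exact (ev_small (abs_pos.mpr (hP r r' h))).mono (fun _ h _ => h)
      · exact Filter.Eventually.of_forall (fun _ h' => absurd h' h)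
    obtain ⟨Θ, h1, h2⟩ := (h.and (eventually_ge_atTop 1)).exists
    exact ⟨Θ, h2, h1⟩
  obtain ⟨Λ, hΛ1, hΛ⟩ : ∃ Λ : ℕ, 1 ≤ Λ ∧ ∀ r, 1 / (Λ:ℝ) ≤ S.d r := by
    have h : ∀ᶠ Λ : ℕ in atTop, ∀ r, 1 / (Λ:ℝ) * 1 ≤ S.d r := by
      rw [eventually_all]; intro r
      exact ev_small (hd r)
    obtain ⟨Λ, h1, h2⟩ := (h.and (eventually_ge_atTop 1)).exists
    exact ⟨Λ, h2, fun r => by simpa using h1 r⟩
  obtain ⟨W, hW1, hW⟩ : ∃ W : ℕ, 1 ≤ W ∧ ∀ r, S.d r * Λ ≤ W := by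
    have h : ∀ᶠ W : ℕ in atTop, ∀ r, S.d r * Λ ≤ W := by
      rw [eventually_all]; intro r
      exact tendsto_natCast_atTop_atTop.eventually (eventually_ge_atTop _)
    obtain ⟨W, h1, h2⟩ := (h.and (eventually_ge_atTop 1)).exists
    exact ⟨W, h2, h1⟩
  have hΛ0 : (0:ℝ) < Λ := by exact_mod_cast hΛ1
  have e1 : ∀ᶠ H : ℕ in atTop, ∀ r c, c ≠ S.a r → c ≠ S.b r →
      1 / (H:ℝ) * (|S.s c - S.p y r| / S.d r + 1) ≤ |S.hA r c| := by
    rw [eventually_all]; intro r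
    rw [eventually_all]; intro c
    by_cases h : c ≠ S.a r ∧ c ≠ S.b r
    · exact (ev_small (abs_pos.mpr (hA r c h.1 h.2))).mono (fun _ h _ _ => h)
    · exact Filter.Eventually.of_forall (fun _ h1 h2 => absurd ⟨h1, h2⟩ h)
  have e2 : ∀ᶠ H : ℕ in atTop, ∀ r c,
      1 / (H:ℝ) * (|S.u c - S.p y r| / S.d r + 1) ≤ |S.hD r c| := by
    rw [eventually_all]; intro r
    rw [eventually_all]; intro c
    exact ev_small (abs_pos.mpr (hD r c))
  have e3 : ∀ᶠ H : ℕ in atTop, ∀ r r', r' ≠ r →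
      1 / (H:ℝ) * (|S.p y r' - S.p y r| / S.d r + 1) ≤ |S.hP y r r'| := by
    rw [eventually_all]; intro r
    rw [eventually_all]; intro r'
    by_cases h : r' ≠ r
    · exact (ev_small (abs_pos.mpr (hP r r' h))).mono (fun _ h _ => h)
    · exact Filter.Eventually.of_forall (fun _ h' => absurd h' h)
  have e4 : ∀ᶠ H : ℕ in atTop, ∀ r r', r' ≠ r → 1 / (H:ℝ) * 1 ≤ |S.X r - S.X r'| * S.d r := by
    rw [eventually_all]; intro r
    rw [eventually_all]; intro r'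
    by_cases h : r' ≠ r
    · exact (ev_small (mul_pos (abs_pos.mpr (hX r r' h)) (hd r))).mono (fun _ h _ => h)
    · exact Filter.Eventually.of_forall (fun _ h' => absurd h' h)
  have e5 : ∀ᶠ H : ℕ in atTop, ∀ c, 1 / (H:ℝ) * 1 ≤ 3 - |S.t c| := by
    rw [eventually_all]; intro c
    exact ev_small (sub_pos.mpr (t1 c))
  have e6 : ∀ᶠ H : ℕ in atTop, ∀ c, 1 / (H:ℝ) * 1 ≤ 3 - |S.v c| := by
    rw [eventually_all]; intro c
    exact ev_small (sub_pos.mpr (v1 c))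
  have e7 : ∀ᶠ H : ℕ in atTop, ∀ r, 1 / (H:ℝ) * (1 / S.d r) ≤ 1 - |S.X r| := by
    rw [eventually_all]; intro c
    exact ev_small (sub_pos.mpr (X1 c))
  have e8 : ∀ᶠ H : ℕ in atTop, ∀ r, 1 / (H:ℝ) * (1 / S.d r) ≤ 1 - |S.Y r| := by
    rw [eventually_all]; intro c
    exact ev_small (sub_pos.mpr (Y1 c))
  obtain ⟨H, h1, h2, h3, h4, h5, h6, h7, h8, h9⟩ := (e1.and (e2.and (e3.and (e4.and (e5.and
    (e6.and (e7.and (e8.and (eventually_ge_atTop 1))))))))).exists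
  refine ⟨Θ, H, Λ, W, hΘ1, h9, hΛ1, hW1, ⟨hd, a0, b0, h1, h2, h3, hΘ, fun r r' h => ?_⟩,
    ⟨s1, u1, fun c => ?_, fun c => ?_, fun r => ?_, fun r => ?_⟩, fun r => ⟨hΛ r, ?_⟩⟩
  · simpa using h4 r r' h
  · have := h5 c; rw [mul_one] at this; linarith
  · have := h6 c; rw [mul_one] at this; linarith
  · have := h7 r; rw [mul_one_div] at this; linarith
  · have := h8 r; rw [mul_one_div] at this; linarith
  · rw [le_div_iff₀ hΛ0]; exact hW r

/-- the number of the auxiliary lines below an event -/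
lemma kD_eq (hsmall : ∀ r r', r' ≠ r →
    |lam * Y0 S0 r' / σ - lam * Y0 S0 r / σ| + ε < |lam * S0.X r - lam * S0.X r'|) (hε : 0 < ε)
    (r : R) : (∀ c, (sys S0 lam σ ε w).hD r c ≠ 0) ∧
      (sys S0 lam σ ε w).kD r = (∑ e, w e) + w r := by
  classical
  have key : ∀ c : Dx R w, c.1.1 ≠ r → (sys S0 lam σ ε w).hD r c ≠ 0 ∧
      ((sys S0 lam σ ε w).hD r c < 0 ↔ sg c.2 * (lam * S0.X r - lam * S0.X c.1.1) < 0) := by
    intro c hc
    have h := hsmall r c.1.1 hc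
    rw [hD_eq]
    obtain ⟨Δ, hΔ⟩ : ∃ Δ, Δ = lam * S0.X r - lam * S0.X c.1.1 := ⟨_, rfl⟩
    obtain ⟨η, hη⟩ : ∃ η, η = lam * Y0 S0 c.1.1 / σ - lam * Y0 S0 r / σ := ⟨_, rfl⟩
    rw [← hΔ, ← hη] at h ⊢
    have h2 : |sg c.2 * Δ| = |Δ| := by
      rw [abs_mul]; unfold sg; split_ifs <;> simp
    rw [← h2] at h
    have h3 := abs_le.mp (le_refl |η|)
    rcases lt_trichotomy (sg c.2 * Δ) 0 with h4 | h4 | h4
    · rw [abs_of_neg h4] at h
      refine ⟨by linarith, ⟨fun _ => h4, fun _ => by linarith⟩⟩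
    · rw [h4, abs_zero] at h
      have := abs_nonneg η
      linarith
    · rw [abs_of_pos h4] at h
      refine ⟨by linarith, ⟨fun h5 => by linarith, fun h5 => by linarith⟩⟩
  have key2 : ∀ c : Dx R w, c.1.1 = r → (sys S0 lam σ ε w).hD r c < 0 := by
    intro c hc
    rw [hD_eq, hc]
    simp [hε]
  refine ⟨fun c => ?_, ?_⟩
  · by_cases hc : c.1.1 = r
    · exact (key2 c hc).ne
    · exact (key c hc).1
  · unfold Sys.kD
    rw [Fintype.sum_prod_type, Fintype.sum_sigma]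
    have h1 : ∀ e : R, ∀ j : Fin (w e), ∑ b : Bool,
        (if (sys S0 lam σ ε w).hD r (⟨e, j⟩, b) < 0 then 1 else 0) = 1 + if e = r then 1 else 0 := by
      intro e j
      rw [Fintype.sum_bool]
      by_cases he : e = r
      · rw [if_pos (key2 (⟨e, j⟩, true) he), if_pos (key2 (⟨e, j⟩, false) he), if_pos he]
      · rw [if_neg he]
        have hX : lam * S0.X r - lam * S0.X e ≠ 0 := by
          intro h0
          have h := hsmall r e he
          rw [h0, abs_zero] at h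
          have := abs_nonneg (lam * Y0 S0 e / σ - lam * Y0 S0 r / σ)
          linarith
        have k1 := (key (⟨e, j⟩, true) he).2
        have k2 := (key (⟨e, j⟩, false) he).2
        simp only [sg, if_true, Bool.false_eq_true, if_false, one_mul, neg_mul] at k1 k2
        rcases lt_or_gt_of_ne hX with h | h
        · rw [if_pos (k1.mpr h), if_neg (fun h' => by have := k2.mp h'; linarith)]
        · rw [if_neg (fun h' => by have := k1.mp h'; linarith), if_pos (k2.mpr (by linarith))]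
    rw [Finset.sum_congr rfl (fun e _ => Finset.sum_congr rfl (fun j _ => h1 e j))]
    simp only [Finset.sum_const, Finset.card_univ, Fintype.card_fin, smul_eq_mul, mul_add, mul_one,
      Finset.sum_add_distrib, mul_ite, mul_zero, Finset.sum_ite_eq', Finset.mem_univ, if_true]

lemma kA_eq (hlam : 0 < lam) (hσ : 0 < σ) (r : R) : (sys S0 lam σ ε w).kA r = k := by
  classical
  have h := S0.hcard r
  refine Eq.trans ?_ h
  unfold Sys.kA
  apply Finset.sum_congr rfl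
  intro c _
  have h1 : (sys S0 lam σ ε w).hA r c < 0 ↔
      S0.s c * S0.X r + S0.t c < S0.s (S0.a r) * S0.X r + S0.t (S0.a r) := by
    rw [hA_eq]
    have h0 : 0 < lam / σ := div_pos hlam hσ
    rw [mul_neg_iff]
    unfold Y0
    constructor
    · rintro (⟨_, h2⟩ | ⟨h2, _⟩)
      · linarith
      · linarith
    · intro h2
      left
      exact ⟨h0, by linarith⟩
  by_cases h2 : (sys S0 lam σ ε w).hA r c < 0
  · rw [if_pos h2, if_pos (h1.mp h2)]
  · rw [if_neg h2, if_neg (fun h3 => h2 (h1.mpr h3))]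

lemma Y0_b (r : R) : S0.s (S0.b r) * S0.X r + S0.t (S0.b r) = Y0 S0 r := by
  unfold Y0; rw [S0.tie]

lemma ev_y {p : ℕ} (hp : 2 ≤ p) {a b : ℝ} (hb : b ≠ 0) :
    ∀ᶠ i : ℕ in atTop, a - 1 / (p:ℝ) ^ i * b ≠ 0 := by
  have hp0 : (0:ℝ) < p := by positivity
  by_cases ha : a = 0
  · refine Filter.Eventually.of_forall (fun i => ?_)
    rw [ha, zero_sub, neg_ne_zero]
    exact mul_ne_zero (by positivity) hb
  · have h1 : Tendsto (fun i : ℕ => (1 / (p:ℝ)) ^ i * b) atTop (𝓝 (0 * b)) := by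
      apply Tendsto.mul_const
      apply tendsto_pow_atTop_nhds_zero_of_lt_one (by positivity)
      rw [div_lt_one hp0]
      exact_mod_cast hp
    rw [zero_mul] at h1
    have h2 := h1.eventually_ne (Ne.symm ha)
    filter_upwards [h2] with i hi h
    apply hi
    rw [div_pow, one_pow]
    linarith

/-- the base block from a finite list of events with integer slopes -/
theorem base_of [Nonempty R] (z : A → ℤ) (hz : ∀ c, S0.s c = z c) (pr : ℕ) (hpr2 : 2 < pr)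
    (hd : ∀ r, z (S0.a r) - z (S0.b r) < pr) (β : ℝ)
    (hβ : β * (Fintype.card A : ℕ) * 5253 ≤ 2500 * Fintype.card R) (hA1 : 1 ≤ Fintype.card A) :
    ∃ (i B M Θ H Λ W : ℕ), 8 ≤ pr ^ i ∧
    Out pr (1 / (pr:ℝ) ^ i) (Fintype.card A) B M Θ H Λ W β := by
  classical
  -- the scale of the slopes
  obtain ⟨m, hm1, hms, hmt, hmY, hmX⟩ : ∃ m : ℕ, 1 ≤ m ∧ (∀ c, |S0.s c| ≤ (m:ℝ)) ∧
      (∀ c, |S0.t c| ≤ (m:ℝ)) ∧ (∀ r, |Y0 S0 r| ≤ (m:ℝ)) ∧
      (∀ r r', r' ≠ r → 2 * |Y0 S0 r' - Y0 S0 r| ≤ m * |S0.X r - S0.X r'|) := by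
    have e1 : ∀ᶠ m : ℕ in atTop, ∀ c, |S0.s c| ≤ (m:ℝ) := by
      rw [eventually_all]; intro c
      exact tendsto_natCast_atTop_atTop.eventually (eventually_ge_atTop _)
    have e2 : ∀ᶠ m : ℕ in atTop, ∀ c, |S0.t c| ≤ (m:ℝ) := by
      rw [eventually_all]; intro c
      exact tendsto_natCast_atTop_atTop.eventually (eventually_ge_atTop _)
    have e3 : ∀ᶠ m : ℕ in atTop, ∀ r, |Y0 S0 r| ≤ (m:ℝ) := by
      rw [eventually_all]; intro c
      exact tendsto_natCast_atTop_atTop.eventually (eventually_ge_atTop _)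
    have e4 : ∀ᶠ m : ℕ in atTop, ∀ r r', r' ≠ r →
        2 * |Y0 S0 r' - Y0 S0 r| ≤ m * |S0.X r - S0.X r'| := by
      rw [eventually_all]; intro r
      rw [eventually_all]; intro r'
      by_cases h : r' ≠ r
      · have hX : 0 < |S0.X r - S0.X r'| := by
          rw [abs_pos, sub_ne_zero]; exact fun h' => h (S0.hX h').symm
        have h2 : ∀ᶠ m : ℕ in atTop, 2 * |Y0 S0 r' - Y0 S0 r| / |S0.X r - S0.X r'| ≤ (m:ℝ) :=
          tendsto_natCast_atTop_atTop.eventually (eventually_ge_atTop _)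
        exact h2.mono (fun m h3 _ => by rwa [div_le_iff₀ hX] at h3)
      · exact Filter.Eventually.of_forall (fun _ h' => absurd h' h)
    obtain ⟨m, h1, h2, h3, h4, h5⟩ := (e1.and (e2.and (e3.and (e4.and (eventually_ge_atTop 1))))).exists
    exact ⟨m, h5, h1, h2, h3, h4⟩
  have hm0 : (0:ℝ) < m := by exact_mod_cast hm1
  -- the scale of the abscissas
  obtain ⟨lam, hl0, hl1, hlX⟩ : ∃ lam : ℝ, 0 < lam ∧ lam ≤ 1 / 2 ∧ ∀ r, |lam * S0.X r| ≤ 1 / 2 := by
    have e1 : ∀ᶠ H : ℕ in atTop, ∀ r, 1 / (H:ℝ) * |S0.X r| ≤ 1 / 2 := by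
      rw [eventually_all]; intro r
      exact ev_small (by norm_num)
    obtain ⟨H, h1, h2⟩ := (e1.and (eventually_ge_atTop 2)).exists
    have hH : (2:ℝ) ≤ H := by exact_mod_cast h2
    have hH0 : (0:ℝ) < H := by linarith
    refine ⟨1 / H, by positivity, one_div_le_one_div_of_le (by norm_num) hH, fun r => ?_⟩
    rw [abs_mul, abs_of_pos (by positivity : (0:ℝ) < 1 / H)]
    exact h1 r
  -- the shift of the auxiliary lines
  obtain ⟨ε, he0, he1, heX⟩ : ∃ ε : ℝ, 0 < ε ∧ ε ≤ 1 / 2 ∧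
      ∀ r r', r' ≠ r → 4 * ε ≤ lam * |S0.X r - S0.X r'| := by
    have e1 : ∀ᶠ H : ℕ in atTop, ∀ r r', r' ≠ r → 1 / (H:ℝ) * 4 ≤ lam * |S0.X r - S0.X r'| := by
      rw [eventually_all]; intro r
      rw [eventually_all]; intro r'
      by_cases h : r' ≠ r
      · have hX : 0 < |S0.X r - S0.X r'| := by
          rw [abs_pos, sub_ne_zero]; exact fun h' => h (S0.hX h').symm
        exact (ev_small (mul_pos hl0 hX)).mono (fun _ h _ => h)
      · exact Filter.Eventually.of_forall (fun _ h' => absurd h' h)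
    obtain ⟨H, h1, h2⟩ := (e1.and (eventually_ge_atTop 2)).exists
    have hH : (2:ℝ) ≤ H := by exact_mod_cast h2
    have hH0 : (0:ℝ) < H := by linarith
    refine ⟨1 / H, by positivity, one_div_le_one_div_of_le (by norm_num) hH, fun r r' h => ?_⟩
    have := h1 r r' h
    linarith
  have hsmall : ∀ r r', r' ≠ r →
      |lam * Y0 S0 r' / m - lam * Y0 S0 r / m| + ε < |lam * S0.X r - lam * S0.X r'| := by
    intro r r' h
    have h1 := hmX r r' h
    have h2 := heX r r' h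
    have e1 : |lam * Y0 S0 r' / m - lam * Y0 S0 r / m| = lam * |Y0 S0 r' - Y0 S0 r| / m := by
      rw [← sub_div, ← mul_sub, abs_div, abs_mul, abs_of_pos hl0, abs_of_pos hm0]
    have e2 : |lam * S0.X r - lam * S0.X r'| = lam * |S0.X r - S0.X r'| := by
      rw [← mul_sub, abs_mul, abs_of_pos hl0]
    rw [e1, e2]
    have h3 : lam * |Y0 S0 r' - Y0 S0 r| / m ≤ lam * |S0.X r - S0.X r'| / 2 := by
      rw [div_le_div_iff₀ hm0 (by norm_num)]
      nlinarith [mul_le_mul_of_nonneg_left h1 hl0.le]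
    nlinarith
  -- the power
  obtain ⟨i, hi8, hiP⟩ : ∃ i : ℕ, 8 ≤ pr ^ i ∧ ∀ r r', r' ≠ r →
      (S0.s (S0.a r') * S0.X r + S0.t (S0.a r') - Y0 S0 r) -
        1 / (pr:ℝ) ^ i * ((S0.s (S0.a r') - S0.s (S0.b r')) * (S0.X r - S0.X r')) ≠ 0 := by
    have e1 : ∀ᶠ i : ℕ in atTop, ∀ r r', r' ≠ r →
      (S0.s (S0.a r') * S0.X r + S0.t (S0.a r') - Y0 S0 r) -
        1 / (pr:ℝ) ^ i * ((S0.s (S0.a r') - S0.s (S0.b r')) * (S0.X r - S0.X r')) ≠ 0 := by
      rw [eventually_all]; intro r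
      rw [eventually_all]; intro r'
      by_cases h : r' ≠ r
      · have hX : S0.X r - S0.X r' ≠ 0 := by
          rw [sub_ne_zero]; exact fun h' => h (S0.hX h').symm
        exact (ev_y (by omega) (mul_ne_zero (sub_pos.mpr (S0.hs r')).ne' hX)).mono (fun _ h _ => h)
      · exact Filter.Eventually.of_forall (fun _ h' => absurd h' h)
    have e2 : ∀ᶠ i : ℕ in atTop, 8 ≤ pr ^ i :=
      (tendsto_pow_atTop_atTop_of_one_lt (by omega : 1 < pr)).eventually (eventually_ge_atTop 8)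
    obtain ⟨i, h1, h2⟩ := (e1.and e2).exists
    exact ⟨i, h2, h1⟩
  obtain ⟨y, hy⟩ : ∃ y : ℝ, y = 1 / (pr:ℝ) ^ i := ⟨_, rfl⟩
  rw [← hy] at hiP
  -- the multiplicities
  obtain ⟨w, hw⟩ : ∃ w : R → ℕ, w = fun r => Fintype.card R - (sys S0 lam m ε (fun _ => 0)).rk y r :=
    ⟨_, rfl⟩
  have hrk : ∀ r, (sys S0 lam m ε w).rk y r = (sys S0 lam m ε (fun _ => 0)).rk y r := by
    intro r
    unfold Sys.rk
    apply Finset.sum_congr rfl
    intro r' _
    rw [hP_eq, hP_eq]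
  have hrk2 : ∀ r, (sys S0 lam m ε (fun _ => 0)).rk y r ≤ Fintype.card R := by
    intro r
    unfold Sys.rk
    calc _ ≤ ∑ _r' : R, 1 := by
          apply Finset.sum_le_sum
          intro r' _
          split_ifs <;> simp
      _ = Fintype.card R := by simp
  obtain ⟨S, hS⟩ : ∃ S : Sys A (Dx R w) R, S = sys S0 lam m ε w := ⟨_, rfl⟩
  have hlm : 0 < lam / m := div_pos hl0 hm0
  obtain ⟨Θ, H, Λ, W, q1, q2, q3, q4, hG, hB, hdd⟩ := finite_geo S y
    (by rw [hS]; exact d_pos S0 lam m ε w hm0)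
    (fun r => by rw [hS, hA_eq]; simp [sys, Y0])
    (fun r => by rw [hS, hA_eq]; simp only [sys]; rw [Y0_b, sub_self, mul_zero])
    (fun r c h1 h2 => by
      rw [hS] at h1 h2 ⊢
      rw [hA_eq]
      exact mul_ne_zero hlm.ne' (sub_ne_zero.mpr (S0.hne r c h1 h2)))
    (fun r c => by rw [hS]; exact (kD_eq S0 lam m ε w hsmall he0 r).1 c)
    (fun r r' h => by rw [hS, hP_eq]; exact mul_ne_zero hlm.ne' (hiP r r' h))
    (fun r r' h => by
      rw [hS]
      simp only [sys]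
      rw [← mul_sub]
      exact mul_ne_zero hl0.ne' (sub_ne_zero.mpr (fun h' => h (S0.hX h').symm)))
    (fun c => by
      rw [hS]
      simp only [sys]
      rw [abs_div, abs_of_pos hm0, div_le_one hm0]
      exact hms c)
    (fun c => by
      rw [hS]
      simp only [sys, sg]
      split_ifs <;> simp)
    (fun c => by
      rw [hS]
      simp only [sys]
      rw [abs_div, abs_mul, abs_of_pos hl0, abs_of_pos hm0, div_lt_iff₀ hm0]
      nlinarith [hmt c, abs_nonneg (S0.t c)])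
    (fun c => by
      rw [hS]
      simp only [sys]
      have h1 : |lam * Y0 S0 c.1.1 / m| ≤ 1 / 2 := by
        rw [abs_div, abs_mul, abs_of_pos hl0, abs_of_pos hm0, div_le_iff₀ hm0]
        nlinarith [hmY c.1.1, abs_nonneg (Y0 S0 c.1.1)]
      have h2 : |sg c.2 * (lam * S0.X c.1.1)| ≤ 1 / 2 := by
        rw [abs_mul]
        have h3 : |sg c.2| = 1 := by unfold sg; split_ifs <;> simp
        rw [h3, one_mul]
        exact hlX _
      rw [abs_lt]
      have h4 := abs_le.mp h1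
      have h5 := abs_le.mp h2
      constructor <;> linarith [h4.1, h4.2, h5.1, h5.2])
    (fun r => by
      rw [hS]
      simp only [sys]
      linarith [hlX r])
    (fun r => by
      rw [hS]
      simp only [sys]
      rw [abs_div, abs_mul, abs_of_pos hl0, abs_of_pos hm0, div_lt_iff₀ hm0]
      nlinarith [hmY r, abs_nonneg (Y0 S0 r)])
  refine ⟨i, Fintype.card R + Fintype.card (Dx R w), m, Θ, H, Λ, W, hi8, ?_⟩
  rw [← hy]
  have hR1 : 1 ≤ Fintype.card R := Fintype.card_pos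
  refine ⟨⟨hA1, by omega, hm1, q1, q2, q3, q4⟩, A, Dx R w, R, inferInstance, inferInstance,
    inferInstance, inferInstance, S, k, (∑ e, w e) + Fintype.card R, hG, ⟨fun r => ?_, fun r => ?_⟩,
    hB, ⟨fun c => ?_, fun c => ?_, fun r x hx => ?_⟩, hdd, le_rfl, Nat.le_mul_of_pos_right _ hA1, hβ⟩
  · rw [hS]; exact kA_eq S0 lam m ε w hl0 hm0 r
  · rw [hS, (kD_eq S0 lam m ε w hsmall he0 r).2, hrk, hw]
    have := hrk2 r
    simp only
    omega
  · refine ⟨z c, ?_⟩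
    rw [hS]
    simp only [sys]
    rw [hz, mul_div_cancel₀ _ hm0.ne']
  · rw [hS]
    simp only [sys, sg]
    split_ifs
    · exact ⟨m, by simp⟩
    · exact ⟨-m, by simp⟩
  · rw [hS, d_eq, mul_div_cancel₀ _ hm0.ne', hz, hz] at hx
    have hx' : z (S0.a r) - z (S0.b r) = x := by exact_mod_cast hx
    have h1 := hd r
    have h2 : z (S0.b r) < z (S0.a r) := by
      have := S0.hs r
      rw [hz, hz] at this
      exact_mod_cast this
    intro h3
    have h4 := Int.le_of_dvd (by omega) h3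
    omega

end BK

/-- the base block -/
theorem baseStmt : BaseStmt := by
  obtain ⟨S, hS, -⟩ := KLev.regularize KLev.baseCert
  have hz : ∀ c, S.s c = KLev.bs c := by
    intro c; rw [hS]; rfl
  have hb : ∀ c c' : Fin 24, KLev.bs c - KLev.bs c' < 1277 := by decide +kernel
  have hpr : Nat.Prime 1277 := by norm_num
  obtain ⟨i, B, M, Θ, H, Λ, W, h8, h⟩ := BK.base_of S KLev.bs hz 1277 (by norm_num)
    (fun r => by exact_mod_cast hb _ _) (127500 / 126072)
    (by rw [Fintype.card_fin, Fintype.card_fin]; norm_num) (by simp)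
  refine ⟨1277, i, B, M, Θ, H, Λ, W, hpr, by norm_num, h8, ?_⟩
  rw [Fintype.card_fin] at h
  exact_mod_cast h

end K9
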