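import Pool.Agent.Helper48K9.Defs

/-!
# The numerical recursion: chains and rounds
-/

namespace K9

namespace Chain

/-- separation of the blocks of a chain -/
def Ts (K Q Θ Δ : ℕ) : ℕ := K * Θ * Q ^ 2 * Δ

/-- the factor of `Λ` -/
def gg (K Q Θ Λ Δ : ℕ) : ℕ := 2 * K ^ 2 * Λ * Ts K Q Θ Δ * Θ * Q ^ 2 * Δ ^ 2

/-- the factor of `M` -/
def w0 (K Z Q Θ H Δ : ℕ) : ℕ := K ^ 5 * Ts K Q Θ Δ * H * Z ^ 2 * Q ^ 6 * Δ ^ 4 * Θ ^ 2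

/-- the factor of `H` -/
def h0 (K Z Q Θ H Δ : ℕ) : ℕ := K ^ 6 * H * Ts K Q Θ Δ * Θ ^ 2 * Z ^ 2 * Q ^ 6 * Δ ^ 4

/-- number of lines -/
def Nj (N B Z : ℕ) : ℕ → ℕ
  | 0 => 2
  | j + 1 => Nj N B Z j * (N * Z * 515100) * ((50 * B) ^ j) ^ 2

/-- denominators -/
def Mj (K Z Q Θ H Λ Δ : ℕ) : ℕ → ℕ
  | 0 => 2
  | j + 1 => 2 * w0 K Z Q Θ H Δ * gg K Q Θ Λ Δ ^ j

lemma Nj_eq (N B Z j : ℕ) :
    Nj N B Z j = 2 * (N * Z * 515100) ^ j * (50 * B) ^ (j * (j - 1)) := by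
  induction j with
  | zero => simp [Nj]
  | succ j ih =>
    rw [Nj, ih]
    have e : (j + 1) * (j + 1 - 1) = j * (j - 1) + 2 * j := by
      rcases j with _ | j
      · rfl
      · simp only [Nat.add_sub_cancel]; ring
    rw [e, pow_add (50 * B), pow_succ (N * Z * 515100), ← pow_mul, mul_comm 2 j]
    ring

/-- bound for the number of lines -/
lemma Nj_le {N B Z Q j : ℕ} (hQ : (50 * B) ^ (j - 1) ≤ Q) :
    Nj N B Z j ≤ 2 * (N * Z * 515100 * Q) ^ j := by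
  rw [Nj_eq, mul_pow _ Q, mul_comm j (j - 1), pow_mul]
  calc 2 * (N * Z * 515100) ^ j * ((50 * B) ^ (j - 1)) ^ j
      ≤ 2 * (N * Z * 515100) ^ j * Q ^ j := Nat.mul_le_mul_left _ (Nat.pow_le_pow_left hQ _)
    _ = 2 * ((N * Z * 515100) ^ j * Q ^ j) := by ring

/-- Chain lemma. -/
theorem chain {pr K : ℕ} {y : ℝ} (hstep : StepStmt pr K y)
    (hstart : Out pr y 2 1 2 1 1 1 1 (2500 / 10506)) (hK : 1 ≤ K)
    {N B Z Q Θ H Λ W Δ : ℕ} {β : ℝ} (hβ : 0 ≤ β) (hI : Inn pr y N B Z Q Θ H Λ W Δ β) (j : ℕ)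
    (hQ : 50 * (50 * B) ^ (j - 1) ≤ Q) :
    Out pr y (Nj N B Z j) ((50 * B) ^ j) (Mj K Z Q Θ H Λ Δ j) (Ts K Q Θ Δ)
      (h0 K Z Q Θ H Δ ^ j) (gg K Q Θ Λ Δ ^ j) ((4 * W) ^ j) (2500 / 10506 * β ^ j) := by
  have hpos := hI.1
  obtain ⟨h1, h2, h3, h4, h5, h6, h7, h8, h9⟩ := hpos
  induction j with
  | zero =>
    have hT : 1 ≤ Ts K Q Θ Δ := by
      unfold Ts
      exact Nat.one_le_iff_ne_zero.2 (by positivity)
    simpa [Nj, Mj] using hstart.mono hT le_rfl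
  | succ j ih =>
    have hQj : 50 * (50 * B) ^ j ≤ Q := by simpa using hQ
    have ih' := ih (le_trans (Nat.mul_le_mul_left _ (Nat.pow_le_pow_right (by omega) (by omega))) hQj)
    have hg : 1 ≤ gg K Q Θ Λ Δ := by
      unfold gg Ts
      exact Nat.one_le_iff_ne_zero.2 (by positivity)
    have hdvd : Mj K Z Q Θ H Λ Δ j ∣ Mj K Z Q Θ H Λ Δ (j + 1) := by
      rcases j with _ | j
      · simp only [Mj]
        exact Dvd.intro _ (by ring)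
      · simp only [Mj]
        exact ⟨gg K Q Θ Λ Δ, by ring⟩
    have hM : K ^ 5 * gg K Q Θ Λ Δ ^ j * Ts K Q Θ Δ * H * Z ^ 2 * Q ^ 6 * Δ ^ 4 * Θ ^ 2 ≤
        Mj K Z Q Θ H Λ Δ (j + 1) := by
      simp only [Mj]
      have : K ^ 5 * gg K Q Θ Λ Δ ^ j * Ts K Q Θ Δ * H * Z ^ 2 * Q ^ 6 * Δ ^ 4 * Θ ^ 2 =
          w0 K Z Q Θ H Δ * gg K Q Θ Λ Δ ^ j := by
        unfold w0; ring
      rw [this, mul_assoc 2]
      omega
    have := hstep _ _ _ _ _ _ _ (2500 / 10506 * β ^ j) _ _ _ _ _ _ _ _ _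
      (Mj K Z Q Θ H Λ Δ (j + 1)) β (by positivity) hβ ih' hI hQj hdvd hM
    have e1 : Nj N B Z j * (N * Z * 515100) * ((50 * B) ^ j) ^ 2 = Nj N B Z (j + 1) := rfl
    have e2 : 50 * (50 * B) ^ j * B = (50 * B) ^ (j + 1) := by ring
    have e3 : K * Θ * Q ^ 2 * Δ = Ts K Q Θ Δ := rfl
    have e4 : K ^ 6 * h0 K Z Q Θ H Δ ^ j * H * Ts K Q Θ Δ * Θ ^ 2 * Z ^ 2 * Q ^ 6 * Δ ^ 4 =
        h0 K Z Q Θ H Δ ^ (j + 1) := by
      rw [pow_succ]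
      conv_rhs => rw [h0]
      rw [h0]
      ring
    have e5 : 2 * K ^ 2 * gg K Q Θ Λ Δ ^ j * Λ * Ts K Q Θ Δ * Θ * Q ^ 2 * Δ ^ 2 =
        gg K Q Θ Λ Δ ^ (j + 1) := by
      rw [pow_succ]
      conv_rhs => rw [gg]
      rw [gg]
      ring
    have e6 : 4 * (4 * W) ^ j * W = (4 * W) ^ (j + 1) := by ring
    have e7 : 2500 / 10506 * β ^ j * β = 2500 / 10506 * β ^ (j + 1) := by ring
    rw [e1, e2, e3, e4, e5, e6, e7] at this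
    exact this

/-- exponents: `N ≤ 2^n`, `B ≤ 2^b`, `Z ≤ 2^r`, `Q ≤ 2^q`, `Θ ≤ 2^th`, `H ≤ 2^h`, `Λ ≤ 2^lam`,
`W ≤ 2^om`, `Δ ≤ 2^dl`, `L ≤ 2^l` -/
structure Ex where
  (n b r q th h lam om dl l : ℕ)

/-- State of the recursion: an inner block with a pool denominator large enough for a chain of
length `J`. -/
def State (pr : ℕ) (y₀ : ℝ) (s J : ℕ) (e : Ex) (β : ℝ) : Prop :=
  ∃ (y : ℝ) (N B Z Q Θ H Λ W Δ L : ℕ), Inn pr y N B Z Q Θ H Λ W Δ β ∧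
    y₀ ≤ y ∧ y ≤ y₀ * (2 - 1 / 2 ^ (s + 1)) ∧
    (∃ i, L = pr ^ i) ∧ (∃ i, 1 ≤ i ∧ Q = pr ^ i) ∧ (∃ z : ℤ, (Q : ℝ) * L * y = z) ∧
    50 * (50 * B) ^ J ≤ Q ∧
    (N ≤ 2 ^ e.n ∧ B ≤ 2 ^ e.b ∧ Z ≤ 2 ^ e.r ∧ Q ≤ 2 ^ e.q ∧ Θ ≤ 2 ^ e.th) ∧
    (H ≤ 2 ^ e.h ∧ Λ ≤ 2 ^ e.lam ∧ W ≤ 2 ^ e.om ∧ Δ ≤ 2 ^ e.dl ∧ L ≤ 2 ^ e.l)

/-- Exponents after a chain of length `J`; the next chain has length `J'`. -/
def Ex.next (e : Ex) (k s J J' : ℕ) : Ex where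
  n := 1 + J * (e.n + e.r + 19 + e.q)
  b := J * (e.b + 6)
  r := (e.h + 2 * e.r + 11 * e.q + 6 * e.dl + 4 * e.th + e.l + 9 * k + 1 + J * (e.om + 2)) +
    J * (e.lam + 2 * e.th + 4 * e.q + 3 * e.dl + 4 * k)
  q := 6 + J' * (J * (e.b + 6) + 6) + k + s
  th := e.th + 2 * e.q + e.dl + k + 1
  h := J * (e.h + 2 * e.r + 8 * e.q + 3 * e.th + 5 * e.dl + 8 * k)
  lam := J * (e.lam + 2 * e.th + 4 * e.q + 3 * e.dl + 4 * k)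
  om := J * (e.om + 2)
  dl := e.h + 2 * e.r + 11 * e.q + 6 * e.dl + 4 * e.th + e.l + 9 * k + 1 + J * (e.om + 2)
  l := e.l + e.th + 3 * e.q + e.dl + 3 * k

/-- Everything that the recursion needs about the constants. -/
structure Setup (pr K k : ℕ) (y₀ : ℝ) : Prop where
  hpr : pr.Prime
  h2 : 2 < pr
  ypos : 0 < y₀
  y8 : y₀ ≤ 1 / 8
  step : ∀ y, y₀ ≤ y → y ≤ 1 / 4 → StepStmt pr K y
  fin : FinStmt pr
  start : StartStmt pr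
  hK : 1 ≤ K
  hKk : K ≤ 2 ^ k
  hk : 8 * pr ≤ y₀ * 2 ^ k

lemma exists_pow {pr : ℕ} (hpr : 1 < pr) {X : ℕ} (hX : 1 ≤ X) :
    ∃ a, 1 ≤ a ∧ X ≤ pr ^ a ∧ pr ^ a ≤ pr * X :=
  ⟨Nat.log pr X + 1, by omega, (Nat.lt_pow_succ_log_self hpr X).le, by
    rw [pow_succ, mul_comm]
    exact Nat.mul_le_mul_left _ (Nat.pow_log_le_self pr (by omega))⟩

lemma Setup.k8 {pr K k : ℕ} {y₀ : ℝ} (S : Setup pr K k y₀) : 8 * pr ≤ 2 ^ k := by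
  have h := S.hk
  have h2 : y₀ * 2 ^ k ≤ 1 * 2 ^ k :=
    mul_le_mul_of_nonneg_right (by linarith [S.y8]) (by positivity)
  rw [one_mul] at h2
  exact_mod_cast h.trans h2

/-- The next pool denominator. -/
lemma Setup.nextQ {pr K k : ℕ} {y₀ : ℝ} (S : Setup pr K k y₀) (s J B b : ℕ) (hB : 1 ≤ B)
    (hb : B ≤ 2 ^ b) : ∃ Q : ℕ, (∃ i, 1 ≤ i ∧ Q = pr ^ i) ∧ 50 * (50 * B) ^ J ≤ Q ∧
      (2:ℝ) ^ (s + 2) ≤ y₀ * Q ∧ Q ≤ 2 ^ (6 + J * (b + 6) + k + s) := by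
  have hy := S.ypos
  have hp1 : 1 < pr := S.hpr.one_lt
  set κ : ℕ := ⌈4 / y₀⌉₊ with hκ
  have hκ1 : 4 / y₀ ≤ κ := Nat.le_ceil _
  have hκ2 : (κ : ℝ) ≤ 8 / y₀ := by
    have h1 := (Nat.ceil_lt_add_one (a := 4 / y₀) (by positivity)).le
    have h2 : 1 ≤ 4 / y₀ := by
      rw [le_div_iff₀ hy]
      linarith [S.y8]
    have h3 : 8 / y₀ = 4 / y₀ + 4 / y₀ := by ring
    rw [h3]
    linarith
  have hκpos : 1 ≤ κ := by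
    have : (0:ℝ) < κ := lt_of_lt_of_le (by positivity) hκ1
    exact_mod_cast this
  have hprκ : pr * κ ≤ 2 ^ k := by
    have h1 := S.hk
    have h2 : (pr : ℝ) * κ ≤ 2 ^ k := by
      calc (pr : ℝ) * κ ≤ pr * (8 / y₀) := by gcongr
        _ = 8 * pr / y₀ := by ring
        _ ≤ 2 ^ k := by
          rw [div_le_iff₀ hy]
          linarith
    exact_mod_cast h2
  have hX : 1 ≤ 50 * (50 * B) ^ J * 2 ^ s * κ := Nat.one_le_iff_ne_zero.2 (by positivity)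
  obtain ⟨a, ha1, ha2, ha3⟩ := exists_pow hp1 hX
  refine ⟨pr ^ a, ⟨a, ha1, rfl⟩, ?_, ?_, ?_⟩
  · refine le_trans ?_ ha2
    rw [mul_assoc]
    exact Nat.le_mul_of_pos_right _ (by positivity)
  · have h1 : ((50 * (50 * B) ^ J * 2 ^ s * κ : ℕ) : ℝ) ≤ ((pr ^ a : ℕ) : ℝ) := by
      exact_mod_cast ha2
    have h2 : (1:ℝ) ≤ 50 * (50 * B) ^ J := by
      have : 1 ≤ 50 * (50 * B) ^ J := Nat.one_le_iff_ne_zero.2 (by positivity)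
      exact_mod_cast this
    have h3 : 4 ≤ y₀ * κ := by
      rw [div_le_iff₀ hy] at hκ1
      linarith
    calc (2:ℝ) ^ (s + 2) = 1 * 2 ^ s * 4 := by ring
      _ ≤ (50 * (50 * B) ^ J) * 2 ^ s * (y₀ * κ) := by gcongr
      _ = y₀ * ((50 * (50 * B) ^ J * 2 ^ s * κ : ℕ) : ℝ) := by push_cast; ring
      _ ≤ y₀ * ((pr ^ a : ℕ) : ℝ) := by gcongr
  · calc pr ^ a ≤ pr * (50 * (50 * B) ^ J * 2 ^ s * κ) := ha3
      _ = 50 * (50 * B) ^ J * 2 ^ s * (pr * κ) := by ring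
      _ ≤ 2 ^ 6 * (2 ^ 6 * 2 ^ b) ^ J * 2 ^ s * 2 ^ k := by
        gcongr
        · norm_num
        · norm_num
      _ = 2 ^ (6 + J * (b + 6) + k + s) := by
        rw [← pow_add, ← pow_mul, ← pow_add, ← pow_add, ← pow_add]
        congr 1
        ring

lemma Ts_le {K Q Θ Δ k q th dl : ℕ} (hK : K ≤ 2 ^ k) (hQ : Q ≤ 2 ^ q) (hΘ : Θ ≤ 2 ^ th)
    (hΔ : Δ ≤ 2 ^ dl) : Ts K Q Θ Δ ≤ 2 ^ (th + 2 * q + dl + k) := by
  calc Ts K Q Θ Δ ≤ 2 ^ k * 2 ^ th * (2 ^ q) ^ 2 * 2 ^ dl := by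
        unfold Ts; gcongr
    _ = 2 ^ (th + 2 * q + dl + k) := by ring

lemma gg_le {K Q Θ Λ Δ k q th lam dl : ℕ} (hK : K ≤ 2 ^ k) (hQ : Q ≤ 2 ^ q) (hΘ : Θ ≤ 2 ^ th)
    (hΛ : Λ ≤ 2 ^ lam) (hΔ : Δ ≤ 2 ^ dl) :
    gg K Q Θ Λ Δ ≤ 2 ^ (lam + 2 * th + 4 * q + 3 * dl + 3 * k + 1) := by
  have hT := Ts_le hK hQ hΘ hΔ
  calc gg K Q Θ Λ Δ ≤ 2 * (2 ^ k) ^ 2 * 2 ^ lam * 2 ^ (th + 2 * q + dl + k) * 2 ^ th *
        (2 ^ q) ^ 2 * (2 ^ dl) ^ 2 := by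
        unfold gg; gcongr
    _ = 2 ^ (lam + 2 * th + 4 * q + 3 * dl + 3 * k + 1) := by ring

lemma w0_le {K Z Q Θ H Δ k r q th h dl : ℕ} (hK : K ≤ 2 ^ k) (hZ : Z ≤ 2 ^ r) (hQ : Q ≤ 2 ^ q)
    (hΘ : Θ ≤ 2 ^ th) (hH : H ≤ 2 ^ h) (hΔ : Δ ≤ 2 ^ dl) :
    w0 K Z Q Θ H Δ ≤ 2 ^ (h + 2 * r + 8 * q + 3 * th + 5 * dl + 6 * k) := by
  have hT := Ts_le hK hQ hΘ hΔ
  calc w0 K Z Q Θ H Δ ≤ (2 ^ k) ^ 5 * 2 ^ (th + 2 * q + dl + k) * 2 ^ h * (2 ^ r) ^ 2 *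
        (2 ^ q) ^ 6 * (2 ^ dl) ^ 4 * (2 ^ th) ^ 2 := by
        unfold w0; gcongr
    _ = 2 ^ (h + 2 * r + 8 * q + 3 * th + 5 * dl + 6 * k) := by ring

lemma h0_le {K Z Q Θ H Δ k r q th h dl : ℕ} (hK : K ≤ 2 ^ k) (hZ : Z ≤ 2 ^ r) (hQ : Q ≤ 2 ^ q)
    (hΘ : Θ ≤ 2 ^ th) (hH : H ≤ 2 ^ h) (hΔ : Δ ≤ 2 ^ dl) :
    h0 K Z Q Θ H Δ ≤ 2 ^ (h + 2 * r + 8 * q + 3 * th + 5 * dl + 7 * k) := by
  have hT := Ts_le hK hQ hΘ hΔ
  calc h0 K Z Q Θ H Δ ≤ (2 ^ k) ^ 6 * 2 ^ h * 2 ^ (th + 2 * q + dl + k) * (2 ^ th) ^ 2 *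
        (2 ^ r) ^ 2 * (2 ^ q) ^ 6 * (2 ^ dl) ^ 4 := by
        unfold h0; gcongr
    _ = 2 ^ (h + 2 * r + 8 * q + 3 * th + 5 * dl + 7 * k) := by ring

/-- Intermediate blocks of the chain. -/
theorem State.out {pr K k : ℕ} {y₀ : ℝ} (S : Setup pr K k y₀) {s J : ℕ} {e : Ex} {β : ℝ}
    (hβ : 0 ≤ β) (hst : State pr y₀ s J e β) {j : ℕ} (hj : j ≤ J) :
    ∃ (y : ℝ) (N B M Θ H Λ W : ℕ), Out pr y N B M Θ H Λ W (2500 / 10506 * β ^ j) ∧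
      N ≤ 2 ^ (1 + j * (e.n + e.r + 19 + e.q)) ∧ B ≤ 2 ^ (j * (e.b + 6)) := by
  obtain ⟨y, N, B, Z, Q, Θ, H, Λ, W, Δ, L, hI, hy1, hy2, hL, hQ, hz, hQJ,
    ⟨bN, bB, bZ, bQ, bΘ⟩, bH, bΛ, bW, bΔ, bL⟩ := hst
  have hB1 : 1 ≤ B := hI.1.2.1
  have hy0 := S.ypos
  have hy8 := S.y8
  have hy4 : y ≤ 2 * y₀ := by
    refine hy2.trans ?_
    have : (0:ℝ) < 1 / 2 ^ (s + 1) := by positivity
    nlinarith
  have hQj : 50 * (50 * B) ^ (j - 1) ≤ Q :=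
    (Nat.mul_le_mul_left _ (Nat.pow_le_pow_right (by omega) (by omega))).trans hQJ
  have hc := chain (S.step y hy1 (by linarith)) (S.start y (by linarith) (by linarith)) S.hK hβ
    hI j hQj
  refine ⟨y, _, _, _, _, _, _, _, hc, ?_, ?_⟩
  · calc Nj N B Z j ≤ 2 * (N * Z * 515100 * Q) ^ j := Nj_le (by omega)
      _ ≤ 2 * (2 ^ e.n * 2 ^ e.r * 2 ^ 19 * 2 ^ e.q) ^ j := by
        gcongr
        norm_num
      _ = 2 ^ (1 + j * (e.n + e.r + 19 + e.q)) := by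
        rw [← pow_add, ← pow_add, ← pow_add, ← pow_mul, ← pow_succ']
        congr 1
        ring
  · calc (50 * B) ^ j ≤ (2 ^ 6 * 2 ^ e.b) ^ j := by
          gcongr
          norm_num
      _ = 2 ^ (j * (e.b + 6)) := by
        rw [← pow_add, ← pow_mul]
        congr 1
        ring

/-- Round lemma. -/
theorem round {pr K k : ℕ} {y₀ : ℝ} (S : Setup pr K k y₀) {s J : ℕ} {e : Ex} {β : ℝ}
    (hJ : 1 ≤ J) (hβ : 0 ≤ β) (hst : State pr y₀ s J e β) (J' : ℕ) :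
    State pr y₀ (s + 1) J' (e.next k s J J') (2500 / 10506 * β ^ J) := by
  obtain ⟨y, N, B, Z, Q, Θ, H, Λ, W, Δ, L, hI, hy1, hy2, ⟨iL, hL⟩, ⟨iQ, hiQ, hQ⟩, ⟨z, hz⟩, hQJ,
    ⟨bN, bB, bZ, bQ, bΘ⟩, bH, bΛ, bW, bΔ, bL⟩ := hst
  obtain ⟨h1, h2, h3, h4, h5, h6, h7, h8, h9⟩ := hI.1
  have hp1 : 1 < pr := S.hpr.one_lt
  have hy0 := S.ypos
  have hy8 := S.y8
  have hk8 := S.k8
  have hy4 : y ≤ 2 * y₀ := by
    refine hy2.trans ?_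
    have : (0:ℝ) < 1 / 2 ^ (s + 1) := by positivity
    nlinarith
  have hQj : 50 * (50 * B) ^ (J - 1) ≤ Q :=
    (Nat.mul_le_mul_left _ (Nat.pow_le_pow_right (by omega) (by omega))).trans hQJ
  have hc := chain (S.step y hy1 (by linarith)) (S.start y (by linarith) (by linarith)) S.hK hβ
    hI J hQj
  have hT1 : 1 ≤ Ts K Q Θ Δ := by
    have := S.hK
    unfold Ts
    exact Nat.one_le_iff_ne_zero.2 (by positivity)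
  have hg1 : 1 ≤ gg K Q Θ Λ Δ := by
    have := S.hK
    unfold gg
    exact Nat.one_le_iff_ne_zero.2 (by positivity)
  obtain ⟨a, ha1, ha2, ha3⟩ := exists_pow hp1 (X := 8 * Ts K Q Θ Δ) (by omega)
  have hB' : (50 * B) ^ J ≤ 2 ^ (J * (e.b + 6)) := by
    calc (50 * B) ^ J ≤ (2 ^ 6 * 2 ^ e.b) ^ J := by
          gcongr
          norm_num
      _ = 2 ^ (J * (e.b + 6)) := by
        rw [← pow_add, ← pow_mul]
        congr 1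
        ring
  obtain ⟨Q', ⟨iQ', hiQ', hQ'⟩, hQ'J, hQ'y, hQ'b⟩ :=
    S.nextQ s J' ((50 * B) ^ J) (J * (e.b + 6)) (Nat.one_le_pow _ _ (by omega)) hB'
  set L' : ℕ := Q * L * pr ^ a with hL'
  have hL1 : 1 ≤ L := by rw [hL]; exact Nat.one_le_pow _ _ (by omega)
  have hL'1 : 1 ≤ L' := by
    rw [hL']
    exact Nat.one_le_iff_ne_zero.2 (by positivity)
  have hL'pow : L' = pr ^ (iQ + iL + a) := by rw [hL', hQ, hL, pow_add, pow_add]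
  have hL'y : (L' : ℝ) * y = ((z * pr ^ a : ℤ) : ℝ) := by
    rw [hL']
    push_cast
    rw [← hz]
    ring
  have hMeq : Mj K Z Q Θ H Λ Δ J = 2 * w0 K Z Q Θ H Δ * gg K Q Θ Λ Δ ^ (J - 1) := by
    obtain ⟨J, rfl⟩ : ∃ m, J = m + 1 := ⟨J - 1, by omega⟩
    rfl
  set Δ' : ℕ := 2 * w0 K Z Q Θ H Δ * L' * (4 * W) ^ J with hΔ'
  have hΔle : Mj K Z Q Θ H Λ Δ J * L' * (4 * W) ^ J ≤ Δ' * gg K Q Θ Λ Δ ^ J := by
    rw [hMeq, hΔ']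
    calc 2 * w0 K Z Q Θ H Δ * gg K Q Θ Λ Δ ^ (J - 1) * L' * (4 * W) ^ J
        = 2 * w0 K Z Q Θ H Δ * L' * (4 * W) ^ J * gg K Q Θ Λ Δ ^ (J - 1) := by ring
      _ ≤ 2 * w0 K Z Q Θ H Δ * L' * (4 * W) ^ J * gg K Q Θ Λ Δ ^ J :=
        Nat.mul_le_mul_left _ (Nat.pow_le_pow_right (by omega) (by omega))
  have hT8 : 8 * Ts K Q Θ Δ ≤ L' := by
    refine ha2.trans ?_
    rw [hL']
    exact Nat.le_mul_of_pos_left _ (by positivity)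
  have hfin := S.fin y _ _ _ _ _ _ _ _ L' Q' Δ' (by linarith) hc ⟨_, hL'pow⟩ ⟨iQ', hiQ', hQ'⟩
    ⟨_, hL'y⟩ hT8 hΔle
  have bT := Ts_le S.hKk bQ bΘ bΔ
  have bg := gg_le S.hKk bQ bΘ bΛ bΔ
  have bw := w0_le S.hKk bZ bQ bΘ bH bΔ
  have bh := h0_le S.hKk bZ bQ bΘ bH bΔ
  have k1 : 3 ≤ k := by
    by_contra hcon
    have : 2 ^ k ≤ 2 ^ 2 := Nat.pow_le_pow_right (by norm_num) (by omega)
    omega
  have bL' : L' ≤ 2 ^ (e.l + e.th + 3 * e.q + e.dl + 2 * k) := by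
    calc L' ≤ Q * L * (pr * (8 * Ts K Q Θ Δ)) := by
          rw [hL']
          exact Nat.mul_le_mul_left _ ha3
      _ = Q * L * (8 * pr) * Ts K Q Θ Δ := by ring
      _ ≤ 2 ^ e.q * 2 ^ e.l * 2 ^ k * 2 ^ (e.th + 2 * e.q + e.dl + k) := by gcongr
      _ = 2 ^ (e.l + e.th + 3 * e.q + e.dl + 2 * k) := by ring
  have bW' : (4 * W) ^ J ≤ 2 ^ (J * (e.om + 2)) := by
    calc (4 * W) ^ J ≤ (2 ^ 2 * 2 ^ e.om) ^ J := by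
          gcongr
          norm_num
      _ = 2 ^ (J * (e.om + 2)) := by
        rw [← pow_add, ← pow_mul]
        congr 1
        ring
  have bD1 : 2 * w0 K Z Q Θ H Δ * L' ≤
      2 ^ (e.h + 2 * e.r + 11 * e.q + 6 * e.dl + 4 * e.th + e.l + 9 * k + 1) := by
    calc 2 * w0 K Z Q Θ H Δ * L' ≤ 2 * 2 ^ (e.h + 2 * e.r + 8 * e.q + 3 * e.th + 5 * e.dl + 6 * k) *
        2 ^ (e.l + e.th + 3 * e.q + e.dl + 2 * k) := by gcongr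
      _ = 2 ^ (e.h + 2 * e.r + 11 * e.q + 6 * e.dl + 4 * e.th + e.l + 8 * k + 1) := by ring
      _ ≤ _ := Nat.pow_le_pow_right (by norm_num) (by omega)
  have bg' : ∀ i, i ≤ J → gg K Q Θ Λ Δ ^ i ≤
      2 ^ (J * (e.lam + 2 * e.th + 4 * e.q + 3 * e.dl + 4 * k)) := by
    intro i hi
    calc gg K Q Θ Λ Δ ^ i ≤ gg K Q Θ Λ Δ ^ J := Nat.pow_le_pow_right (by omega) hi
      _ ≤ (2 ^ (e.lam + 2 * e.th + 4 * e.q + 3 * e.dl + 3 * k + 1)) ^ J :=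
        Nat.pow_le_pow_left bg _
      _ = 2 ^ (J * (e.lam + 2 * e.th + 4 * e.q + 3 * e.dl + 3 * k + 1)) := by
        rw [← pow_mul]
        congr 1
        ring
      _ ≤ _ := Nat.pow_le_pow_right (by norm_num) (Nat.mul_le_mul_left _ (by omega))
  refine ⟨y + 1 / (Q' * L'), _, _, _, _, _, _, _, _, _, L', hfin, ?_, ?_, ⟨_, hL'pow⟩,
    ⟨iQ', hiQ', hQ'⟩, ?_, hQ'J, ⟨?_, hB', ?_, hQ'b, ?_⟩, ?_, ?_, bW', ?_, ?_⟩
  · have : (0:ℝ) ≤ 1 / (Q' * L') := by positivity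
    linarith
  · have hQ'pos : (0:ℝ) < Q' := by
      have : 0 < Q' := by rw [hQ']; exact pow_pos (by omega) _
      exact_mod_cast this
    have hL'pos : (1:ℝ) ≤ L' := by exact_mod_cast hL'1
    have h3 : (1:ℝ) / (Q' * L') ≤ y₀ / 2 ^ (s + 2) := by
      rw [div_le_div_iff₀ (by positivity) (by positivity), one_mul]
      calc (2:ℝ) ^ (s + 2) ≤ y₀ * Q' := hQ'y
        _ ≤ y₀ * (Q' * L') := by
          gcongr
          exact le_mul_of_one_le_right hQ'pos.le hL'pos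
    have h4 : y₀ / 2 ^ (s + 2) = y₀ * (1 / 2 ^ (s + 1) - 1 / 2 ^ (s + 1 + 1)) := by
      field_simp
      ring
    rw [h4] at h3
    linarith
  · refine ⟨Q' * (z * pr ^ a) + 1, ?_⟩
    have hQ'pos : (Q' : ℝ) ≠ 0 := by
      have : Q' ≠ 0 := by rw [hQ']; exact pow_ne_zero _ (by omega)
      exact_mod_cast this
    have hL'pos : (L' : ℝ) ≠ 0 := by
      have : L' ≠ 0 := by omega
      exact_mod_cast this
    have h5 : (Q' : ℝ) * L' * (y + 1 / (Q' * L')) = Q' * (L' * y) + 1 := by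
      field_simp
    rw [h5, hL'y]
    push_cast
    ring
  · have := Nj_le (N := N) (Z := Z) (B := B) (Q := Q) (j := J) (by omega)
    calc Nj N B Z J ≤ 2 * (N * Z * 515100 * Q) ^ J := this
      _ ≤ 2 * (2 ^ e.n * 2 ^ e.r * 2 ^ 19 * 2 ^ e.q) ^ J := by
        gcongr
        norm_num
      _ = 2 ^ (1 + J * (e.n + e.r + 19 + e.q)) := by
        rw [← pow_add, ← pow_add, ← pow_add, ← pow_mul, ← pow_succ']
        congr 1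
        ring
  · calc Mj K Z Q Θ H Λ Δ J * L'
        = (2 * w0 K Z Q Θ H Δ * L') * gg K Q Θ Λ Δ ^ (J - 1) := by rw [hMeq]; ring
      _ ≤ 2 ^ (e.h + 2 * e.r + 11 * e.q + 6 * e.dl + 4 * e.th + e.l + 9 * k + 1 +
            J * (e.om + 2)) * 2 ^ (J * (e.lam + 2 * e.th + 4 * e.q + 3 * e.dl + 4 * k)) :=
        Nat.mul_le_mul (bD1.trans (Nat.pow_le_pow_right (by norm_num) (by omega)))
          (bg' _ (by omega))
      _ = _ := by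
        rw [← pow_add]
        rfl
  · calc 2 * Ts K Q Θ Δ ≤ 2 * 2 ^ (e.th + 2 * e.q + e.dl + k) := Nat.mul_le_mul_left _ bT
      _ = 2 ^ (e.th + 2 * e.q + e.dl + k + 1) := by ring
  · calc 4 * h0 K Z Q Θ H Δ ^ J
        ≤ 2 ^ 2 * (2 ^ (e.h + 2 * e.r + 8 * e.q + 3 * e.th + 5 * e.dl + 7 * k)) ^ J :=
        Nat.mul_le_mul (by norm_num) (Nat.pow_le_pow_left bh _)
      _ = 2 ^ (2 + J * (e.h + 2 * e.r + 8 * e.q + 3 * e.th + 5 * e.dl + 7 * k)) := by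
        rw [← pow_mul, ← pow_add]
        congr 1
        ring
      _ ≤ 2 ^ (J * (e.h + 2 * e.r + 8 * e.q + 3 * e.th + 5 * e.dl + 8 * k)) := by
        refine Nat.pow_le_pow_right (by norm_num) ?_
        have : 1 * 3 ≤ J * k := Nat.mul_le_mul hJ k1
        nlinarith
  · exact bg' J le_rfl
  · calc Δ' = (2 * w0 K Z Q Θ H Δ * L') * (4 * W) ^ J := by rw [hΔ']
      _ ≤ 2 ^ (e.h + 2 * e.r + 11 * e.q + 6 * e.dl + 4 * e.th + e.l + 9 * k + 1) *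
          2 ^ (J * (e.om + 2)) := Nat.mul_le_mul bD1 bW'
      _ = _ := by
        rw [← pow_add]
        rfl
  · exact bL'.trans (Nat.pow_le_pow_right (by norm_num) (by
      show _ ≤ e.l + e.th + 3 * e.q + e.dl + 3 * k
      omega))

/-- The initial state. -/
theorem init (hstep : StepAll) (hfin : ∀ pr, pr.Prime → FinStmt pr)
    (hstart : ∀ pr, pr.Prime → 2 < pr → StartStmt pr) (hbase : BaseStmt) :
    ∃ (pr K k : ℕ) (y₀ : ℝ) (e : Ex), Setup pr K k y₀ ∧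
      ∀ J, State pr y₀ 0 J { e with q := 6 + J * (e.b + 6) + k } (127500 / 126072) := by
  obtain ⟨pr, i, B, M, Θ, H, Λ, W, hpr, hpr2, hpi, hO⟩ := hbase
  obtain ⟨⟨h1, h2, h3, h4, h5, h6, h7⟩, -⟩ := id hO
  have hp1 : 1 < pr := hpr.one_lt
  have hpi' : (8:ℝ) ≤ (pr:ℝ) ^ i := by exact_mod_cast hpi
  set y₀ : ℝ := 1 / (pr:ℝ) ^ i with hy₀
  have hypos : 0 < y₀ := by rw [hy₀]; positivity
  have hy8 : y₀ ≤ 1 / 8 := one_div_le_one_div_of_le (by norm_num) hpi'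
  obtain ⟨K, hK1, hK⟩ := hstep pr hpr hpr2 y₀ hypos
  obtain ⟨k, hk1, hk2⟩ : ∃ k : ℕ, K ≤ 2 ^ k ∧ 8 * (pr:ℝ) ≤ y₀ * 2 ^ k := by
    refine ⟨K + ⌈8 * pr / y₀⌉₊, ?_, ?_⟩
    · exact Nat.lt_two_pow_self.le.trans (Nat.pow_le_pow_right (by norm_num) (by omega))
    · have e1 : 8 * pr / y₀ ≤ (⌈8 * pr / y₀⌉₊ : ℝ) := Nat.le_ceil _
      have e2 : ⌈8 * (pr:ℝ) / y₀⌉₊ ≤ 2 ^ (K + ⌈8 * (pr:ℝ) / y₀⌉₊) :=
        Nat.lt_two_pow_self.le.trans (Nat.pow_le_pow_right (by norm_num) (by omega))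
      have e3 : ((⌈8 * (pr:ℝ) / y₀⌉₊ : ℕ) : ℝ) ≤ (2:ℝ) ^ (K + ⌈8 * (pr:ℝ) / y₀⌉₊) := by
        exact_mod_cast e2
      have e4 := e1.trans e3
      rw [div_le_iff₀ hypos] at e4
      linarith
  have S : Setup pr K k y₀ := ⟨hpr, hpr2, hypos, hy8, hK, hfin pr hpr, hstart pr hpr hpr2, hK1,
    hk1, hk2⟩
  obtain ⟨a, ha1, ha2, -⟩ := exists_pow hp1 (X := 8 * Θ) (by omega)
  refine ⟨pr, K, k, y₀, ⟨24, B, M * pr ^ (i + a), 0, 2 * Θ, 4 * H, Λ, W, M * pr ^ (i + a) * W,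
    pr ^ (i + a)⟩, S, fun J => ?_⟩
  obtain ⟨Q, ⟨iQ, hiQ, hQ⟩, hQJ, hQy, hQb⟩ := S.nextQ 0 J B B h2 Nat.lt_two_pow_self.le
  have hL1 : 1 ≤ pr ^ (i + a) := Nat.one_le_pow _ _ (by omega)
  have hLy : ((pr ^ (i + a) : ℕ) : ℝ) * y₀ = ((pr ^ a : ℤ) : ℝ) := by
    rw [hy₀]
    push_cast
    rw [pow_add]
    field_simp
  have hf := hfin pr hpr y₀ _ _ _ _ _ _ _ _ (pr ^ (i + a)) Q (M * pr ^ (i + a) * W) hypos.le hO
    ⟨_, rfl⟩ ⟨iQ, hiQ, hQ⟩ ⟨_, hLy⟩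
    (ha2.trans (Nat.pow_le_pow_right (by omega) (by omega)))
    (Nat.le_mul_of_pos_right _ (by omega))
  have hQpos : (0:ℝ) < Q := by
    have : 0 < Q := by rw [hQ]; exact pow_pos (by omega) _
    exact_mod_cast this
  have hLpos : (1:ℝ) ≤ ((pr ^ (i + a) : ℕ) : ℝ) := by exact_mod_cast hL1
  refine ⟨_, _, _, _, _, _, _, _, _, _, pr ^ (i + a), hf, ?_, ?_, ⟨_, rfl⟩, ⟨iQ, hiQ, hQ⟩, ?_,
    hQJ, ⟨?_, ?_, ?_, ?_, ?_⟩, ?_, ?_, ?_, ?_, ?_⟩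
  · have : (0:ℝ) ≤ 1 / (Q * (pr ^ (i + a) : ℕ)) := by positivity
    linarith
  · have h3 : (1:ℝ) / (Q * (pr ^ (i + a) : ℕ)) ≤ y₀ / 2 ^ 2 := by
      rw [div_le_div_iff₀ (by positivity) (by positivity), one_mul]
      calc (2:ℝ) ^ 2 ≤ y₀ * Q := by simpa using hQy
        _ ≤ y₀ * (Q * (pr ^ (i + a) : ℕ)) := by
          gcongr
          exact le_mul_of_one_le_right hQpos.le hLpos
    norm_num at h3 ⊢
    linarith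
  · refine ⟨Q * pr ^ a + 1, ?_⟩
    have hLne : ((pr ^ (i + a) : ℕ) : ℝ) ≠ 0 := by positivity
    have h5 : (Q : ℝ) * (pr ^ (i + a) : ℕ) * (y₀ + 1 / (Q * (pr ^ (i + a) : ℕ))) =
        Q * ((pr ^ (i + a) : ℕ) * y₀) + 1 := by
      field_simp
    rw [h5, hLy]
    push_cast
    ring
  · show 24 ≤ 2 ^ 24
    norm_num
  · exact Nat.lt_two_pow_self.le
  · exact Nat.lt_two_pow_self.le
  · simpa using hQb
  · exact Nat.lt_two_pow_self.le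
  · exact Nat.lt_two_pow_self.le
  · exact Nat.lt_two_pow_self.le
  · exact Nat.lt_two_pow_self.le
  · exact Nat.lt_two_pow_self.le
  · exact Nat.lt_two_pow_self.le

end Chain

end K9
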