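import Pool.Agent.Helper48K9.Defs

/-!
# The composition of two systems
-/

namespace K9

open Finset

/-- geometric parameters -/
structure Pm where
  y : ℝ
  lam : ℝ
  del : ℝ
  kap : ℝ
  eps : ℝ

/-- lattice cells: `Nx` columns, `V₁` rows -/
abbrev Cell (T : Type) (Nx V₁ : ℕ) : Type := Fin Nx × Fin V₁ × T

/-- index set of the bundle lines of type `Q` and of pool lines of type `G × Fin V` -/
abbrev Idx (A D R G Q : Type) (Nx V : ℕ) : Type :=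
  (A × Fin Nx × Q × Bool) ⊕ (R × (G × Fin V)) ⊕ (D × Q)

/-- index set for the new auxiliary lines -/
abbrev QD (F T : Type) (Nx V₁ V : ℕ) : Type := Cell T Nx V₁ ⊕ (F × Fin V)

section

variable {A D R G F T : Type} (S₁ : Sys A D R) (S₂ : Sys G F T) (m : Pm)
variable (Z Nx V₁ V : ℕ) (σ : G → ℤ) (ς : F → ℤ) (K : Finset G)

/-- position of the bundle line attached to a pool line in column `i` -/
noncomputable def posG [DecidableEq G] (q : G × Fin V) (i : Fin Nx) : ℝ :=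
  ((σ q.1 * (i:ℕ) + (q.2:ℕ) : ℤ) : ℝ) + (if q.1 ∈ K then -1/2 else 1/2)

/-- position of the bundle line attached to an auxiliary pool line or to a later pool line -/
noncomputable def posD (q : QD F T Nx V₁ V) (i : Fin Nx) : ℝ :=
  match q with
  | Sum.inl (i₁, j₁, r) =>
      ((⌊((Z * Nx + (j₁:ℕ) : ℕ) : ℝ) + S₂.p m.y r * (((i:ℕ):ℝ) - ((i₁:ℕ):ℝ))⌋ : ℤ) : ℝ) + 1/2
  | Sum.inr (f, β) => ((ς f * (i:ℕ) + (β:ℕ) : ℤ) : ℝ) + 1/2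

/-- ideal slope of a pool line -/
noncomputable def slI (e : R) (z : ℤ) : ℝ :=
  S₁.p m.y e + z * m.del * S₁.d e / (1 + m.lam * z)

/-- intercept of a pool line of slope `w` -/
noncomputable def icI (e : R) (z : ℤ) (w τ : ℝ) (β : ℕ) : ℝ :=
  S₁.Y e + m.eps * m.del * ((β + m.kap * τ - z) / (1 + m.lam * z)) - w * S₁.X e

/-- bundle lines: `false` = lines crossed within a column, `true` = lines crossed between columns -/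
noncomputable def icB (τ : ℝ) (i : Fin Nx) (pos : ℝ) : Bool → ℝ
  | false => τ - m.eps * (m.y * ((i:ℕ) + 1) + (m.lam * m.y - m.del) * pos)
  | true => τ + m.eps * ((1 - m.y) * ((i:ℕ) + 1 + 3/4))

/-- the lattice row of the pool line `σ` through column `i`, row `j` -/
def bet (z : ℤ) (i : Fin Nx) (j : Fin V₁) : ℤ := (Z * Nx + (j:ℕ) : ℕ) - z * (i:ℕ)

/-- slopes and intercepts of the new lines; `sl e α` is the (rounded) slope of the pool line -/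
noncomputable def nS (sl : R → G → ℝ) : Idx A D R G (G × Fin V) Nx V → ℝ
  | Sum.inl (c, _) => S₁.s c
  | Sum.inr (Sum.inl (e, q)) => sl e q.1
  | Sum.inr (Sum.inr (d, _)) => S₁.u d

noncomputable def nT [DecidableEq G] (sl : R → G → ℝ) : Idx A D R G (G × Fin V) Nx V → ℝ
  | Sum.inl (c, i, q, b) => icB m Nx (S₁.t c) i (posG Nx V σ K q i) b
  | Sum.inr (Sum.inl (e, q)) => icI S₁ m e (σ q.1) (sl e q.1) (S₂.t q.1) q.2
  | Sum.inr (Sum.inr (d, _)) => S₁.v d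

noncomputable def nU (su : R → F → ℝ) : Idx A D R F (QD F T Nx V₁ V) Nx V → ℝ
  | Sum.inl (c, _) => S₁.s c
  | Sum.inr (Sum.inl (e, q)) => su e q.1
  | Sum.inr (Sum.inr (d, _)) => S₁.u d

noncomputable def nV (su : R → F → ℝ) : Idx A D R F (QD F T Nx V₁ V) Nx V → ℝ
  | Sum.inl (c, i, q, b) => icB m Nx (S₁.t c) i (posD S₂ m Z Nx V₁ V ς q i) b
  | Sum.inr (Sum.inl (e, q)) => icI S₁ m e (ς q.1) (su e q.1) (S₂.v q.1) q.2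
  | Sum.inr (Sum.inr (d, _)) => S₁.v d

variable {Z Nx V₁ V σ}

/-- the pool line `α` through the cell `(i, j)` -/
def bF (hV : V = V₁ + 2 * Z * Nx) (hσ : ∀ α, |σ α| ≤ (Z:ℤ)) (α : G) (i : Fin Nx) (j : Fin V₁) :
    Fin V :=
  ⟨(bet Z Nx V₁ (σ α) i j).toNat, by
    have h1 := abs_le.mp (hσ α)
    have hi : ((i:ℕ):ℤ) ≤ Nx := by exact_mod_cast i.2.le
    have hj : ((j:ℕ):ℤ) < V₁ := by exact_mod_cast j.2
    have h0 : (0:ℤ) ≤ ((i:ℕ):ℤ) := by positivity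
    have h2 : -(σ α * ((i:ℕ):ℤ)) ≤ Z * Nx := by nlinarith
    have h3 : (bet Z Nx V₁ (σ α) i j) < (V:ℤ) := by
      unfold bet; push_cast [hV]; nlinarith
    have h4 : (0:ℤ) < V := by
      have : (0:ℤ) ≤ 2 * Z * Nx := by positivity
      rw [hV]; push_cast; linarith [Int.natCast_nonneg (j:ℕ)]
    omega⟩

lemma bF_val (hV : V = V₁ + 2 * Z * Nx) (hσ : ∀ α, |σ α| ≤ (Z:ℤ)) (α : G) (i : Fin Nx)
    (j : Fin V₁) : ((bF hV hσ α i j : ℕ) : ℤ) = (Z * Nx + (j:ℕ) : ℕ) - σ α * (i:ℕ) := by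
  have h1 := abs_le.mp (hσ α)
  have hi : ((i:ℕ):ℤ) ≤ Nx := by exact_mod_cast i.2.le
  have h0 : (0:ℤ) ≤ ((i:ℕ):ℤ) := by positivity
  have h2 : (σ α * ((i:ℕ):ℤ)) ≤ Z * Nx := by nlinarith
  have h3 : 0 ≤ bet Z Nx V₁ (σ α) i j := by
    unfold bet; push_cast; have := Int.natCast_nonneg (j:ℕ); linarith
  show (((bet Z Nx V₁ (σ α) i j).toNat : ℕ) : ℤ) = _
  rw [Int.toNat_of_nonneg h3]; rfl

/-- the composed system -/
noncomputable def comp [DecidableEq G] (hV : V = V₁ + 2 * Z * Nx) (hσ : ∀ α, |σ α| ≤ (Z:ℤ))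
    (K : Finset G) (sl : R → G → ℝ) (su : R → F → ℝ) :
    Sys (Idx A D R G (G × Fin V) Nx V) (Idx A D R F (QD F T Nx V₁ V) Nx V)
      (R × Cell T Nx V₁) where
  s := nS S₁ Nx V sl
  t := nT S₁ S₂ m Nx V σ K sl
  u := nU S₁ Nx V₁ V su
  v := nV S₁ S₂ m Z Nx V₁ V ς su
  X := fun e =>
    let a' : Idx A D R G (G × Fin V) Nx V :=
      Sum.inr (Sum.inl (e.1, (S₂.a e.2.2.2, bF hV hσ (S₂.a e.2.2.2) e.2.1 e.2.2.1)))
    let b' : Idx A D R G (G × Fin V) Nx V :=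
      Sum.inr (Sum.inl (e.1, (S₂.b e.2.2.2, bF hV hσ (S₂.b e.2.2.2) e.2.1 e.2.2.1)))
    (nT S₁ S₂ m Nx V σ K sl b' - nT S₁ S₂ m Nx V σ K sl a') /
      (nS S₁ Nx V sl a' - nS S₁ Nx V sl b')
  Y := fun e =>
    let a' : Idx A D R G (G × Fin V) Nx V :=
      Sum.inr (Sum.inl (e.1, (S₂.a e.2.2.2, bF hV hσ (S₂.a e.2.2.2) e.2.1 e.2.2.1)))
    let b' : Idx A D R G (G × Fin V) Nx V :=
      Sum.inr (Sum.inl (e.1, (S₂.b e.2.2.2, bF hV hσ (S₂.b e.2.2.2) e.2.1 e.2.2.1)))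
    nS S₁ Nx V sl a' * ((nT S₁ S₂ m Nx V σ K sl b' - nT S₁ S₂ m Nx V σ K sl a') /
      (nS S₁ Nx V sl a' - nS S₁ Nx V sl b')) + nT S₁ S₂ m Nx V σ K sl a'
  a := fun e => Sum.inr (Sum.inl (e.1, (S₂.a e.2.2.2, bF hV hσ (S₂.a e.2.2.2) e.2.1 e.2.2.1)))
  b := fun e => Sum.inr (Sum.inl (e.1, (S₂.b e.2.2.2, bF hV hσ (S₂.b e.2.2.2) e.2.1 e.2.2.1)))

/-! ### Combinatorial descriptions of the lines below a new event -/

/-- bundle lines of the line `c` below the event `(e, i, j)` -/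
def belB (e : R) (i : Fin Nx) (j : Fin V₁) (c : A) (i' : Fin Nx) (pos : ℝ) : Bool → Prop
  | false => (c = S₁.a e ∧ (i < i' ∨ (i = i' ∧ ((Z * Nx + (j:ℕ) : ℕ) : ℝ) < pos))) ∨ c = S₁.b e ∨
      (c ≠ S₁.a e ∧ c ≠ S₁.b e ∧ S₁.hA e c < 0)
  | true => (c = S₁.b e ∧ i' < i) ∨ (c ≠ S₁.a e ∧ c ≠ S₁.b e ∧ S₁.hA e c < 0)

/-- pool lines below; `w` = the inner line is below the inner event -/
def belQ (e : R) (i : Fin Nx) (j : Fin V₁) (z : ℤ) (w : Prop) (e₁ : R) (β : Fin V) : Prop :=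
  (e₁ = e ∧ (((β:ℕ):ℤ) < bet Z Nx V₁ z i j ∨ (((β:ℕ):ℤ) = bet Z Nx V₁ z i j ∧ w))) ∨
    (e₁ ≠ e ∧ S₁.hP m.y e e₁ < 0)

/-- new lines below the new event -/
def belA [DecidableEq G] (Z : ℕ) (σ : G → ℤ) (K : Finset G) (x : R × Cell T Nx V₁) :
    Idx A D R G (G × Fin V) Nx V → Prop
  | Sum.inl (c, i', q, b) =>
      belB (Z := Z) S₁ x.1 x.2.1 x.2.2.1 c i' (posG Nx V σ K q i') b
  | Sum.inr (Sum.inl (e₁, q)) =>
      belQ (Z := Z) S₁ m x.1 x.2.1 x.2.2.1 (σ q.1) (S₂.hA x.2.2.2 q.1 < 0) e₁ q.2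
  | Sum.inr (Sum.inr (d, _)) => S₁.hD x.1 d < 0

/-- new auxiliary lines below the new event -/
def belD (Z : ℕ) (ς : F → ℤ) (x : R × Cell T Nx V₁) :
    Idx A D R F (QD F T Nx V₁ V) Nx V → Prop
  | Sum.inl (c, i', q, b) =>
      belB (Z := Z) S₁ x.1 x.2.1 x.2.2.1 c i' (posD S₂ m Z Nx V₁ V ς q i') b
  | Sum.inr (Sum.inl (e₁, q)) =>
      belQ (Z := Z) S₁ m x.1 x.2.1 x.2.2.1 (ς q.1) (S₂.hD x.2.2.2 q.1 < 0) e₁ q.2
  | Sum.inr (Sum.inr (d, _)) => S₁.hD x.1 d < 0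

/-- new pool lines of `x'` below the new event `x` (for `x' ≠ x`) -/
def belP (Z : ℕ) (x x' : R × Cell T Nx V₁) : Prop :=
  (x'.1 ≠ x.1 ∧ S₁.hP m.y x.1 x'.1 < 0) ∨
  (x'.1 = x.1 ∧ (x'.2.1, x'.2.2.1) ≠ (x.2.1, x.2.2.1) ∧
    ((Z * Nx + (x'.2.2.1:ℕ) : ℕ) : ℝ) + S₂.p m.y x'.2.2.2 *
      (((x.2.1:ℕ):ℝ) - ((x'.2.1:ℕ):ℝ)) < ((Z * Nx + (x.2.2.1:ℕ) : ℕ) : ℝ)) ∨
  (x'.1 = x.1 ∧ x'.2.1 = x.2.1 ∧ x'.2.2.1 = x.2.2.1 ∧ x'.2.2.2 ≠ x.2.2.2 ∧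
    S₂.hP m.y x.2.2.2 x'.2.2.2 < 0)

end

/-! ### The counting leaf -/

open scoped Classical in
/-- LEAF (count A) -/
def CountA : Prop :=
  ∀ {A D R G F T : Type} [Fintype A] [Fintype D] [Fintype R] [Fintype G] [Fintype F] [Fintype T]
    (S₁ : Sys A D R) (S₂ : Sys G F T) (m : Pm) (Z Nx V₁ V k₁ c₁ k₂ c₂ : ℕ) (σ : G → ℤ)
    (K : Finset G), V = V₁ + 2 * Z * Nx → (∀ α, |σ α| ≤ (Z:ℤ)) → K.card = k₂ →
    (∀ r, S₁.hA r (S₁.a r) = 0) → (∀ r, S₁.hA r (S₁.b r) = 0) → (∀ r, S₁.a r ≠ S₁.b r) →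
    S₁.Lev m.y k₁ c₁ → S₂.Lev m.y k₂ c₂ →
    ∃ k, ∀ x : R × Cell T Nx V₁,
      (∑ q : Idx A D R G (G × Fin V) Nx V, if belA S₁ S₂ m Z σ K x q then 1 else 0) = k

open scoped Classical in
/-- LEAF (count D) -/
def CountD : Prop :=
  ∀ {A D R G F T : Type} [Fintype A] [Fintype D] [Fintype R] [Fintype G] [Fintype F] [Fintype T]
    (S₁ : Sys A D R) (S₂ : Sys G F T) (m : Pm) (Z Nx V₁ V k₁ c₁ k₂ c₂ : ℕ) (ς : F → ℤ),
    V = V₁ + 2 * Z * Nx → (∀ f, |ς f| ≤ (Z:ℤ)) →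
    (∀ r, S₁.hA r (S₁.a r) = 0) → (∀ r, S₁.hA r (S₁.b r) = 0) → (∀ r, S₁.a r ≠ S₁.b r) →
    S₁.Lev m.y k₁ c₁ → S₂.Lev m.y k₂ c₂ →
    ∃ c, ∀ x : R × Cell T Nx V₁,
      (∑ q : Idx A D R F (QD F T Nx V₁ V) Nx V, if belD S₁ S₂ m Z ς x q then 1 else 0) +
        (∑ x' : R × Cell T Nx V₁, if x' ≠ x ∧ belP S₁ S₂ m Z x x' then 1 else 0) = c

end K9
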