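import Pool.Agent.Helper48K9.Comp

/-!
# The counting identity for the composed system (leaf A)
-/

namespace K9

open Finset

lemma ite_or_disj (p q s : Prop) [Decidable p] [Decidable q] [Decidable s] (hs : s ↔ p ∨ q)
    (h : ¬ (p ∧ q)) :
    (if s then 1 else 0 : ℕ) = (if p then 1 else 0) + (if q then 1 else 0) := by
  by_cases hp : p <;> by_cases hq : q <;> simp [hp, hq] at h hs ⊢ <;> simp [hs]

open scoped Classical in
/-- the bundle lines below a new event, summed over the column, the index and the type -/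
lemma sum_belB_one {A D R Q : Type} [Fintype Q] (S₁ : Sys A D R) {Z Nx V₁ : ℕ}
    (pos : Q → Fin Nx → ℝ) (e : R) (i : Fin Nx) (j : Fin V₁)
    (ha : S₁.hA e (S₁.a e) = 0) (hb : S₁.hA e (S₁.b e) = 0) (hab : S₁.a e ≠ S₁.b e) (c : A) :
    (∑ i' : Fin Nx, ∑ q : Q, ∑ b : Bool,
      if belB (Z := Z) S₁ e i j c i' (pos q i') b then 1 else 0) =
    (if c = S₁.a e then (∑ i' : Fin Nx, if i < i' then Fintype.card Q else 0) +
      (∑ q : Q, if ((Z * Nx + (j:ℕ) : ℕ) : ℝ) < pos q i then 1 else 0) else 0) +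
    (if c = S₁.b e then Nx * Fintype.card Q +
      (∑ i' : Fin Nx, if i' < i then Fintype.card Q else 0) else 0) +
    2 * Nx * Fintype.card Q * (if S₁.hA e c < 0 then 1 else 0) := by
  by_cases hca : c = S₁.a e
  · subst hca
    have h1 : ∀ (i' : Fin Nx) (q : Q), (∑ b : Bool,
        if belB (Z := Z) S₁ e i j (S₁.a e) i' (pos q i') b then 1 else 0 : ℕ) =
        (if i < i' then 1 else 0) +
          (if i = i' then (if ((Z * Nx + (j:ℕ) : ℕ) : ℝ) < pos q i then 1 else 0) else 0) := by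
      intro i' q
      rw [Fintype.sum_bool]
      have ht : ¬ belB (Z := Z) S₁ e i j (S₁.a e) i' (pos q i') true := by
        rintro (⟨h, _⟩ | ⟨h, _⟩)
        · exact hab h
        · exact h rfl
      have hf : belB (Z := Z) S₁ e i j (S₁.a e) i' (pos q i') false ↔
          (i < i' ∨ (i = i' ∧ ((Z * Nx + (j:ℕ) : ℕ) : ℝ) < pos q i')) := by
        constructor
        · rintro (⟨_, h⟩ | h | ⟨h, _⟩)
          · exact h
          · exact absurd h hab
          · exact absurd rfl h
        · intro h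
          exact Or.inl ⟨rfl, h⟩
      rw [if_neg ht, zero_add, ite_or_disj _ _ _ hf (by
        rintro ⟨h1, h2, _⟩
        exact absurd h1 (by rw [h2]; exact lt_irrefl _))]
      congr 1
      by_cases h : i = i'
      · subst h
        simp
      · simp [h]
    simp only [h1, if_true, hab, if_false, ha, lt_irrefl, mul_zero, add_zero]
    simp only [sum_add_distrib, sum_const, card_univ, smul_eq_mul, mul_ite, mul_one, mul_zero]
    congr 1
    rw [sum_comm]
    refine sum_congr rfl fun q _ => ?_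
    rw [sum_ite_eq]
    simp
  · by_cases hcb : c = S₁.b e
    · subst hcb
      have h1 : ∀ (i' : Fin Nx) (q : Q), (∑ b : Bool,
          if belB (Z := Z) S₁ e i j (S₁.b e) i' (pos q i') b then 1 else 0 : ℕ) =
          1 + (if i' < i then 1 else 0) := by
        intro i' q
        rw [Fintype.sum_bool]
        have hf : belB (Z := Z) S₁ e i j (S₁.b e) i' (pos q i') false := Or.inr (Or.inl rfl)
        have ht : belB (Z := Z) S₁ e i j (S₁.b e) i' (pos q i') true ↔ i' < i := by
          constructor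
          · rintro (⟨_, h⟩ | ⟨_, h, _⟩)
            · exact h
            · exact absurd rfl h
          · intro h
            exact Or.inl ⟨rfl, h⟩
        rw [if_pos hf, if_congr ht rfl rfl, add_comm]
      simp only [h1, if_true, hca, if_false, hb, lt_irrefl, mul_zero, add_zero, zero_add]
      simp only [sum_add_distrib, sum_const, card_univ, smul_eq_mul, mul_ite, mul_one, mul_zero,
        Fintype.card_fin]
    · have h1 : ∀ (i' : Fin Nx) (q : Q) (b : Bool),
          belB (Z := Z) S₁ e i j c i' (pos q i') b ↔ S₁.hA e c < 0 := by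
        intro i' q b
        cases b
        · constructor
          · rintro (⟨h, _⟩ | h | ⟨_, _, h⟩)
            · exact absurd h hca
            · exact absurd h hcb
            · exact h
          · intro h
            exact Or.inr (Or.inr ⟨hca, hcb, h⟩)
        · constructor
          · rintro (⟨h, _⟩ | ⟨_, _, h⟩)
            · exact absurd h hcb
            · exact h
          · intro h
            exact Or.inr ⟨hca, hcb, h⟩
      simp only [h1, hca, hcb, if_false, zero_add]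
      simp only [sum_const, card_univ, smul_eq_mul, Fintype.card_fin, Fintype.card_bool]
      ring

open scoped Classical in
lemma sum_lt_gt {Nx : ℕ} (i : Fin Nx) (C : ℕ) :
    (∑ i' : Fin Nx, if i < i' then C else 0) + (∑ i' : Fin Nx, if i' < i then C else 0) + C =
      Nx * C := by
  have h : ∀ i' : Fin Nx, (if i < i' then C else 0) + (if i' < i then C else 0) +
      (if i' = i then C else 0) = C := by
    intro i'
    rcases lt_trichotomy i i' with h | h | h
    · simp [h, not_lt.2 h.le, h.ne']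
    · simp [h]
    · simp [h, not_lt.2 h.le, h.ne]
  have h2 : (∑ i' : Fin Nx, if i' = i then C else 0) = C := by
    rw [sum_ite_eq']
    simp
  conv_lhs => rw [← h2]
  rw [← sum_add_distrib, ← sum_add_distrib]
  simp [h]

open scoped Classical in
/-- all bundle lines below a new event -/
lemma sum_belB {A D R Q : Type} [Fintype A] [Fintype Q] (S₁ : Sys A D R) {Z Nx V₁ : ℕ}
    (pos : Q → Fin Nx → ℝ) (e : R) (i : Fin Nx) (j : Fin V₁)
    (ha : S₁.hA e (S₁.a e) = 0) (hb : S₁.hA e (S₁.b e) = 0) (hab : S₁.a e ≠ S₁.b e) :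
    (∑ c : A, ∑ i' : Fin Nx, ∑ q : Q, ∑ b : Bool,
      if belB (Z := Z) S₁ e i j c i' (pos q i') b then 1 else 0) + Fintype.card Q =
    2 * Nx * Fintype.card Q +
      (∑ q : Q, if ((Z * Nx + (j:ℕ) : ℕ) : ℝ) < pos q i then 1 else 0) +
      2 * Nx * Fintype.card Q * S₁.kA e := by
  have h1 := sum_lt_gt i (Fintype.card Q)
  simp only [sum_belB_one S₁ pos e i j ha hb hab]
  rw [sum_add_distrib, sum_add_distrib, sum_ite_eq', sum_ite_eq', ← mul_sum]
  simp only [mem_univ, if_true]
  have h2 : (∑ c, if S₁.hA e c < 0 then 1 else 0) = S₁.kA e := rfl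
  rw [h2]
  linarith

/-! ### Pool lines -/

lemma bet_nonneg {Z Nx V₁ : ℕ} {z : ℤ} (hz : |z| ≤ (Z:ℤ)) (i : Fin Nx) (j : Fin V₁) :
    0 ≤ bet Z Nx V₁ z i j := by
  have h1 := abs_le.mp hz
  have hi : ((i:ℕ):ℤ) ≤ Nx := by exact_mod_cast i.2.le
  have h0 : (0:ℤ) ≤ ((i:ℕ):ℤ) := by positivity
  have h2 : (z * ((i:ℕ):ℤ)) ≤ Z * Nx := by nlinarith
  unfold bet; push_cast; have := Int.natCast_nonneg (j:ℕ); linarith

lemma bet_lt {Z Nx V₁ V : ℕ} (hV : V = V₁ + 2 * Z * Nx) {z : ℤ} (hz : |z| ≤ (Z:ℤ)) (i : Fin Nx)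
    (j : Fin V₁) : bet Z Nx V₁ z i j < V := by
  have h1 := abs_le.mp hz
  have hi : ((i:ℕ):ℤ) ≤ Nx := by exact_mod_cast i.2.le
  have hj : ((j:ℕ):ℤ) < V₁ := by exact_mod_cast j.2
  have h0 : (0:ℤ) ≤ ((i:ℕ):ℤ) := by positivity
  have h2 : -(z * ((i:ℕ):ℤ)) ≤ Z * Nx := by nlinarith
  unfold bet; push_cast [hV]; nlinarith

open scoped Classical in
lemma sum_fin_lt {V : ℕ} (n : ℕ) (hn : n ≤ V) :
    (∑ β : Fin V, if (β:ℕ) < n then 1 else 0) = n := by
  rw [Fin.sum_univ_eq_sum_range (fun k => if k < n then 1 else 0), ← sum_filter,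
    sum_const, smul_eq_mul, mul_one]
  have : (range V).filter (fun k => k < n) = range n := by
    ext k
    simp
    omega
  rw [this, card_range]

open scoped Classical in
lemma sum_fin_eq {V : ℕ} (n : ℕ) (hn : n < V) (w : Prop) :
    (∑ β : Fin V, if (β:ℕ) = n ∧ w then 1 else 0) = if w then 1 else 0 := by
  by_cases hw : w
  · simp only [hw, and_true, if_true]
    rw [Fin.sum_univ_eq_sum_range (fun k => if k = n then 1 else 0), sum_ite_eq']
    simp [hn]
  · simp [hw]

open scoped Classical in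
/-- pool lines of type `H` below a new event -/
lemma sum_belQ {A D R H : Type} [Fintype R] [Fintype H] (S₁ : Sys A D R) (m : Pm) {Z Nx V₁ V : ℕ}
    (hV : V = V₁ + 2 * Z * Nx) (ζ : H → ℤ) (hζ : ∀ α, |ζ α| ≤ (Z:ℤ)) (w : H → Prop)
    (e : R) (i : Fin Nx) (j : Fin V₁) :
    (∑ e₁ : R, ∑ α : H, ∑ β : Fin V,
      if belQ (Z := Z) S₁ m e i j (ζ α) (w α) e₁ β then 1 else 0) =
    (∑ α, (bet Z Nx V₁ (ζ α) i j).toNat) + (∑ α, if w α then 1 else 0) +
      Fintype.card H * V * S₁.rk m.y e := by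
  have h1 : ∀ e₁ : R, (∑ α : H, ∑ β : Fin V,
      if belQ (Z := Z) S₁ m e i j (ζ α) (w α) e₁ β then 1 else 0) =
      (if e₁ = e then (∑ α, (bet Z Nx V₁ (ζ α) i j).toNat) + (∑ α, if w α then 1 else 0) else 0) +
      Fintype.card H * V * (if e₁ ≠ e ∧ S₁.hP m.y e e₁ < 0 then 1 else 0) := by
    intro e₁
    by_cases he : e₁ = e
    · subst he
      simp only [ne_eq, not_true_eq_false, false_and, if_false, mul_zero, add_zero, if_true]
      rw [← sum_add_distrib]
      refine sum_congr rfl fun α _ => ?_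
      have h0 := bet_nonneg (hζ α) i j
      have h2 := bet_lt hV (hζ α) i j
      set n := (bet Z Nx V₁ (ζ α) i j).toNat with hn
      have hnb : (n : ℤ) = bet Z Nx V₁ (ζ α) i j := Int.toNat_of_nonneg h0
      have hnV : n < V := by omega
      have h3 : ∀ β : Fin V, (if belQ (Z := Z) S₁ m e₁ i j (ζ α) (w α) e₁ β then 1 else 0 : ℕ) =
          (if (β:ℕ) < n then 1 else 0) + (if (β:ℕ) = n ∧ w α then 1 else 0) := by
        intro β
        refine ite_or_disj _ _ _ ?_ (by rintro ⟨h4, h5, _⟩; omega)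
        unfold belQ
        rw [← hnb]
        constructor
        · rintro (⟨_, h | ⟨h, hw⟩⟩ | ⟨h, _⟩)
          · left; omega
          · right; exact ⟨by omega, hw⟩
          · exact absurd rfl h
        · rintro (h | ⟨h, hw⟩)
          · left; exact ⟨rfl, Or.inl (by omega)⟩
          · left; exact ⟨rfl, Or.inr ⟨by omega, hw⟩⟩
      simp only [h3]
      rw [sum_add_distrib, sum_fin_lt n hnV.le, sum_fin_eq n hnV]
    · have h3 : ∀ (α : H) (β : Fin V), belQ (Z := Z) S₁ m e i j (ζ α) (w α) e₁ β ↔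
          (e₁ ≠ e ∧ S₁.hP m.y e e₁ < 0) := by
        intro α β
        constructor
        · rintro (⟨h, _⟩ | h)
          · exact absurd h he
          · exact h
        · intro h
          exact Or.inr h
      simp only [h3, he, if_false, zero_add]
      simp only [sum_const, card_univ, smul_eq_mul, Fintype.card_fin]
      ring
  simp only [h1]
  rw [sum_add_distrib, sum_ite_eq', ← mul_sum]
  simp only [mem_univ, if_true]
  rfl

open scoped Classical in
theorem countA : CountA := by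
  intro A D R G F T _ _ _ _ _ _ S₁ S₂ m Z Nx V₁ V k₁ c₁ k₂ c₂ σ K hV hσ hK ha hb hab hL₁ hL₂
  refine ⟨2 * Nx * Fintype.card (G × Fin V) + 2 * Nx * Fintype.card (G × Fin V) * k₁ +
    Fintype.card (G × Fin V) * c₁, ?_⟩
  rintro ⟨e, i, j, r⟩
  rw [Fintype.sum_sum_type, Fintype.sum_sum_type]
  have hB := sum_belB (Z := Z) S₁ (posG Nx V σ K) e i j (ha e) (hb e) (hab e)
  have hQ := sum_belQ S₁ m hV σ hσ (fun α => S₂.hA r α < 0) e i j
  have e1 : (∑ q : A × Fin Nx × (G × Fin V) × Bool,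
      if belA S₁ S₂ m Z σ K (e, i, j, r) (Sum.inl q) then 1 else 0) =
      ∑ c : A, ∑ i' : Fin Nx, ∑ q : G × Fin V, ∑ b : Bool,
        if belB (Z := Z) S₁ e i j c i' (posG Nx V σ K q i') b then 1 else 0 := by
    rw [Fintype.sum_prod_type]
    refine sum_congr rfl fun c _ => ?_
    rw [Fintype.sum_prod_type]
    refine sum_congr rfl fun i' _ => ?_
    rw [Fintype.sum_prod_type]
    rfl
  have e2 : (∑ q : R × (G × Fin V),
      if belA S₁ S₂ m Z σ K (e, i, j, r) (Sum.inr (Sum.inl q)) then 1 else 0) =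
      ∑ e₁ : R, ∑ α : G, ∑ β : Fin V,
        if belQ (Z := Z) S₁ m e i j (σ α) (S₂.hA r α < 0) e₁ β then 1 else 0 := by
    rw [Fintype.sum_prod_type]
    refine sum_congr rfl fun e₁ _ => ?_
    rw [Fintype.sum_prod_type]
    rfl
  have e3 : (∑ q : D × (G × Fin V),
      if belA S₁ S₂ m Z σ K (e, i, j, r) (Sum.inr (Sum.inr q)) then 1 else 0) =
      Fintype.card (G × Fin V) * S₁.kD e := by
    rw [Fintype.sum_prod_type]
    show (∑ d : D, ∑ _q : G × Fin V, if S₁.hD e d < 0 then 1 else 0) = _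
    simp only [sum_const, card_univ, smul_eq_mul]
    rw [← mul_sum]
    rfl
  have e4 : (∑ q : G × Fin V, if ((Z * Nx + (j:ℕ) : ℕ) : ℝ) < posG Nx V σ K q i then 1 else 0) +
      (∑ α, (bet Z Nx V₁ (σ α) i j).toNat) + k₂ = Fintype.card (G × Fin V) := by
    have hKs : (∑ α : G, if α ∈ K then 1 else 0) = K.card := by simp
    rw [Fintype.sum_prod_type, ← hK, ← hKs, ← sum_add_distrib, Fintype.card_prod, Fintype.card_fin,
      ← sum_add_distrib]
    have : ∀ α : G, (∑ β : Fin V, if ((Z * Nx + (j:ℕ) : ℕ) : ℝ) < posG Nx V σ K (α, β) i then 1 else 0) +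
        (bet Z Nx V₁ (σ α) i j).toNat + (if α ∈ K then 1 else 0) = V := by
      intro α
      have h0 := bet_nonneg (hσ α) i j
      have h2 := bet_lt hV (hσ α) i j
      set n := (bet Z Nx V₁ (σ α) i j).toNat with hn
      have hnb : (n : ℤ) = bet Z Nx V₁ (σ α) i j := Int.toNat_of_nonneg h0
      have hnV : n < V := by omega
      have hnb' : ((Z * Nx + (j:ℕ) : ℕ) : ℤ) = n + σ α * ((i:ℕ):ℤ) := by
        rw [hnb]; unfold bet; ring
      have h3 : ∀ β : Fin V, (if ((Z * Nx + (j:ℕ) : ℕ) : ℝ) < posG Nx V σ K (α, β) i then 1 else 0 : ℕ) +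
          (if (β:ℕ) < n then 1 else 0) + (if (β:ℕ) = n ∧ α ∈ K then 1 else 0) = 1 := by
        intro β
        have h4 : ((Z * Nx + (j:ℕ) : ℕ) : ℝ) = (n:ℝ) + ((σ α : ℤ) : ℝ) * ((i:ℕ):ℝ) := by
          have := congrArg (fun z : ℤ => (z : ℝ)) hnb'
          push_cast at this ⊢
          exact this
        have h5 : posG Nx V σ K (α, β) i = ((σ α : ℤ) : ℝ) * ((i:ℕ):ℝ) + ((β:ℕ):ℝ) +
            (if α ∈ K then -1/2 else 1/2) := by
          unfold posG
          push_cast
          rfl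
        rw [h4, h5]
        by_cases hαK : α ∈ K
        · simp only [hαK, if_true, and_true]
          rcases lt_trichotomy (β:ℕ) n with h | h | h
          · have h6 : ¬ ((n:ℝ) + ((σ α : ℤ) : ℝ) * ((i:ℕ):ℝ) < ((σ α : ℤ) : ℝ) * ((i:ℕ):ℝ) + ((β:ℕ):ℝ) + -1/2) := by
              have : ((β:ℕ):ℝ) + 1 ≤ n := by exact_mod_cast h
              linarith
            rw [if_neg h6, if_pos h, if_neg h.ne]
          · have h6 : ¬ ((n:ℝ) + ((σ α : ℤ) : ℝ) * ((i:ℕ):ℝ) < ((σ α : ℤ) : ℝ) * ((i:ℕ):ℝ) + ((β:ℕ):ℝ) + -1/2) := by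
              have : ((β:ℕ):ℝ) = n := by exact_mod_cast h
              linarith
            rw [if_neg h6, if_neg (by omega), if_pos h]
          · have h6 : ((n:ℝ) + ((σ α : ℤ) : ℝ) * ((i:ℕ):ℝ) < ((σ α : ℤ) : ℝ) * ((i:ℕ):ℝ) + ((β:ℕ):ℝ) + -1/2) := by
              have : (n:ℝ) + 1 ≤ ((β:ℕ):ℝ) := by exact_mod_cast h
              linarith
            rw [if_pos h6, if_neg (by omega), if_neg (by omega)]
        · simp only [hαK, if_false, and_false, add_zero]
          rcases lt_or_ge (β:ℕ) n with h | h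
          · have h6 : ¬ ((n:ℝ) + ((σ α : ℤ) : ℝ) * ((i:ℕ):ℝ) < ((σ α : ℤ) : ℝ) * ((i:ℕ):ℝ) + ((β:ℕ):ℝ) + 1/2) := by
              have : ((β:ℕ):ℝ) + 1 ≤ n := by exact_mod_cast h
              linarith
            rw [if_neg h6, if_pos h]
          · have h6 : ((n:ℝ) + ((σ α : ℤ) : ℝ) * ((i:ℕ):ℝ) < ((σ α : ℤ) : ℝ) * ((i:ℕ):ℝ) + ((β:ℕ):ℝ) + 1/2) := by
              have : (n:ℝ) ≤ ((β:ℕ):ℝ) := by exact_mod_cast h
              linarith
            rw [if_pos h6, if_neg (by omega)]
      have h7 : (∑ β : Fin V, ((if ((Z * Nx + (j:ℕ) : ℕ) : ℝ) < posG Nx V σ K (α, β) i then 1 else 0 : ℕ) +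
          (if (β:ℕ) < n then 1 else 0) + (if (β:ℕ) = n ∧ α ∈ K then 1 else 0))) = V := by
        simp only [h3]
        simp
      have h9 : (∑ β : Fin V, if (β:ℕ) = n ∧ α ∈ K then 1 else 0) = if α ∈ K then 1 else 0 := by
        convert sum_fin_eq (V := V) n hnV (α ∈ K)
      rw [sum_add_distrib, sum_add_distrib, sum_fin_lt n hnV.le, h9] at h7
      exact h7
    simp only [this]
    simp
  have e5 : (∑ α, if S₂.hA r α < 0 then 1 else 0) = k₂ := hL₂.lA r
  have e6 : S₁.kA e = k₁ := hL₁.lA e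
  have e7 : S₁.kD e + S₁.rk m.y e = c₁ := hL₁.lD e
  rw [e1, e2, e3, hQ, e5]
  rw [e6] at hB
  have e8 : Fintype.card G * V = Fintype.card (G × Fin V) := by
    rw [Fintype.card_prod, Fintype.card_fin]
  rw [e8, ← e7]
  nlinarith [hB, e4]

end K9
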