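import Pool.Agent.Helper48K9.Comp

/-!
# The counting identity for the auxiliary lines
-/

namespace K9

open Finset

namespace CD

set_option linter.unusedSectionVars false

open scoped Classical in
/-- indicator -/
noncomputable def ind (P : Prop) : ℕ := if P then 1 else 0

lemma ite_ind (P : Prop) [Decidable P] : (if P then 1 else 0 : ℕ) = ind P := by
  unfold ind
  by_cases h : P <;> simp [h]

@[simp] lemma ind_true : ind True = 1 := by simp [ind]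
@[simp] lemma ind_false : ind False = 0 := by simp [ind]
lemma ind_of {P : Prop} (h : P) : ind P = 1 := by simp [ind, h]
lemma ind_not {P : Prop} (h : ¬ P) : ind P = 0 := by simp [ind, h]
lemma ind_congr {P Q : Prop} (h : P ↔ Q) : ind P = ind Q := by rw [propext h]

section bundle

variable {A D R : Type} (S₁ : Sys A D R)

lemma belB_pt {Z Nx V₁ : ℕ} (e : R) (ha : S₁.hA e (S₁.a e) = 0) (hb : S₁.hA e (S₁.b e) = 0)
    (hab : S₁.a e ≠ S₁.b e) (i : Fin Nx) (j : Fin V₁) (c : A) (i' : Fin Nx) (pos : ℝ) :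
    (∑ b : Bool, ind (belB (Z := Z) S₁ e i j c i' pos b)) =
      2 * ind (S₁.hA e c < 0) +
      ind (c = S₁.a e) * (ind (i < i') + ind (i = i') * ind (((Z * Nx + (j:ℕ) : ℕ) : ℝ) < pos)) +
      ind (c = S₁.b e) * (1 + ind (i' < i)) := by
  rw [Fintype.sum_bool]
  simp only [belB]
  by_cases h1 : c = S₁.a e
  · subst h1
    rw [ha]
    by_cases h3 : i < i'
    · have h4 : i ≠ i' := ne_of_lt h3
      simp [hab, h3, h4]
    · by_cases h4 : i = i'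
      · simp [hab, h4]
      · simp [hab, h3, h4]
  · by_cases h2 : c = S₁.b e
    · subst h2
      rw [hb]
      simp [h1, add_comm]
    · simp only [h1, h2, false_and, false_or, ne_eq, not_false_eq_true, true_and, ind_false,
        add_zero, zero_mul]
      ring

variable [Fintype A]

lemma sum_ind_eq {α : Type} [Fintype α] (a : α) (f : α → ℕ) : ∑ x, ind (x = a) * f x = f a := by
  classical
  rw [Finset.sum_eq_single a]
  · simp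
  · intro b _ hb
    simp [hb]
  · simp

lemma sum_ind_eq' {α : Type} [Fintype α] (a : α) (f : α → ℕ) : ∑ x, ind (a = x) * f x = f a := by
  rw [← sum_ind_eq a f]
  exact Finset.sum_congr rfl fun x _ => by rw [ind_congr eq_comm]

lemma sum_ind_lt {n : ℕ} (i : Fin n) :
    (∑ x, ind (i < x)) + (∑ x, ind (x < i)) + 1 = n := by
  classical
  have h : ∀ x : Fin n, ind (i < x) + ind (x < i) + ind (x = i) = 1 := by
    intro x
    rcases lt_trichotomy x i with h | h | h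
    · simp [h, h.ne, h.not_gt]
    · simp [h]
    · simp [h, h.ne', h.not_gt]
  have h2 : ∑ x : Fin n, (ind (i < x) + ind (x < i) + ind (x = i)) = n := by
    rw [Finset.sum_congr rfl fun x _ => h x]; simp
  rw [Finset.sum_add_distrib, Finset.sum_add_distrib] at h2
  have h3 : ∑ x : Fin n, ind (x = i) = 1 := by
    have := sum_ind_eq i (fun _ => 1)
    simpa using this
  rw [h3] at h2
  exact h2

lemma sum_belB {Q : Type} [Fintype Q] {Z Nx V₁ : ℕ} (e : R) (ha : S₁.hA e (S₁.a e) = 0)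
    (hb : S₁.hA e (S₁.b e) = 0)
    (hab : S₁.a e ≠ S₁.b e) (i : Fin Nx) (j : Fin V₁) (pos : Q → Fin Nx → ℝ) :
    (∑ x : A × Fin Nx × Q × Bool,
      ind (belB (Z := Z) S₁ e i j x.1 x.2.1 (pos x.2.2.1 x.2.1) x.2.2.2)) +
        Fintype.card Q =
      2 * Nx * Fintype.card Q * S₁.kA e + 2 * Nx * Fintype.card Q +
        ∑ q : Q, ind (((Z * Nx + (j:ℕ) : ℕ) : ℝ) < pos q i) := by
  simp only [Fintype.sum_prod_type]
  simp only [belB_pt S₁ e ha hb hab]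
  simp only [Finset.sum_add_distrib, ← Finset.mul_sum]
  rw [sum_ind_eq, sum_ind_eq]
  have hk : ∑ c, ind (S₁.hA e c < 0) = S₁.kA e := by
    unfold Sys.kA
    exact Finset.sum_congr rfl fun c _ => (ite_ind _).symm
  simp only [Finset.sum_const, Finset.card_univ, smul_eq_mul, ← Finset.mul_sum, Fintype.card_fin]
  rw [hk, sum_ind_eq']
  have h := sum_ind_lt i
  set a := ∑ x, ind (i < x)
  set b := ∑ x, ind (x < i)
  set q := Fintype.card Q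
  set s := ∑ q : Q, ind (((Z * Nx + (j:ℕ) : ℕ) : ℝ) < pos q i)
  have h' : q * a + q * b + q = Nx * q := by rw [← h]; ring
  nlinarith
end bundle

section pool

lemma sum_ind_ltZ {V : ℕ} (t : ℤ) (h0 : 0 ≤ t) (h1 : t ≤ V) :
    ((∑ β : Fin V, ind (((β:ℕ):ℤ) < t) : ℕ) : ℤ) = t := by
  classical
  obtain ⟨n, rfl⟩ := Int.eq_ofNat_of_zero_le h0
  have hn : n ≤ V := by exact_mod_cast h1
  have h2 : ∀ β : Fin V, ind (((β:ℕ):ℤ) < (n:ℤ)) = if (β:ℕ) < n then 1 else 0 := by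
    intro β
    rw [ite_ind]
    exact ind_congr (by norm_cast)
  rw [Finset.sum_congr rfl fun β _ => h2 β]
  rw [Fin.sum_univ_eq_sum_range (fun b => if b < n then 1 else 0) V]
  rw [Finset.sum_ite, Finset.sum_const_zero, add_zero, Finset.sum_const, smul_eq_mul, mul_one]
  have h3 : (Finset.range V).filter (fun b => b < n) = Finset.range n := by
    ext b
    simp only [Finset.mem_filter, Finset.mem_range]
    omega
  rw [h3, Finset.card_range]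

lemma sum_ind_leZ {V : ℕ} (t : ℤ) (h0 : 0 ≤ t) (h1 : t ≤ V) :
    ((∑ β : Fin V, ind (t ≤ ((β:ℕ):ℤ)) : ℕ) : ℤ) = V - t := by
  have h := sum_ind_ltZ t h0 h1
  have h2 : ∀ β : Fin V, ind (((β:ℕ):ℤ) < t) + ind (t ≤ ((β:ℕ):ℤ)) = 1 := by
    intro β
    by_cases h3 : t ≤ ((β:ℕ):ℤ)
    · rw [ind_of h3, ind_not (not_lt.2 h3)]
    · rw [ind_not h3, ind_of (not_le.1 h3)]
  have h3 : (∑ β : Fin V, ind (((β:ℕ):ℤ) < t)) + (∑ β : Fin V, ind (t ≤ ((β:ℕ):ℤ))) = V := by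
    rw [← Finset.sum_add_distrib, Finset.sum_congr rfl fun β _ => h2 β]; simp
  have h4 : ((∑ β : Fin V, ind (((β:ℕ):ℤ) < t) : ℕ) : ℤ) +
      ((∑ β : Fin V, ind (t ≤ ((β:ℕ):ℤ)) : ℕ) : ℤ) = V := by exact_mod_cast h3
  linarith

lemma sum_ind_eqZ {V : ℕ} (t : ℤ) (h0 : 0 ≤ t) (h1 : t < V) (w : Prop) :
    ∑ β : Fin V, ind (((β:ℕ):ℤ) = t ∧ w) = ind w := by
  obtain ⟨n, rfl⟩ := Int.eq_ofNat_of_zero_le h0
  have hn : n < V := by exact_mod_cast h1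
  rw [Finset.sum_eq_single (⟨n, hn⟩ : Fin V)]
  · exact ind_congr (by simp)
  · intro b _ hb
    apply ind_not
    rintro ⟨h2, -⟩
    apply hb
    apply Fin.ext
    exact_mod_cast h2
  · simp

variable {A D R : Type} (S₁ : Sys A D R) (m : Pm)

lemma bet_bd {Z Nx V₁ V : ℕ} (hV : V = V₁ + 2 * Z * Nx) {z : ℤ} (hz : |z| ≤ (Z:ℤ)) (i : Fin Nx)
    (j : Fin V₁) : 0 ≤ bet Z Nx V₁ z i j ∧ bet Z Nx V₁ z i j < V := by
  have h1 := abs_le.mp hz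
  have hi : ((i:ℕ):ℤ) ≤ Nx := by exact_mod_cast i.2.le
  have hj : ((j:ℕ):ℤ) < V₁ := by exact_mod_cast j.2
  have h0 : (0:ℤ) ≤ ((i:ℕ):ℤ) := by positivity
  have h2 : -(z * ((i:ℕ):ℤ)) ≤ Z * Nx := by nlinarith
  have h3 : z * ((i:ℕ):ℤ) ≤ Z * Nx := by nlinarith
  have hj0 := Int.natCast_nonneg (j:ℕ)
  unfold bet
  push_cast [hV]
  constructor <;> linarith

lemma belQ_pt {Z Nx V₁ V : ℕ} (e : R) (i : Fin Nx) (j : Fin V₁) (z : ℤ) (w : Prop) (e₁ : R)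
    (β : Fin V) :
    ind (belQ (Z := Z) S₁ m e i j z w e₁ β) =
      ind (e₁ = e) * (ind (((β:ℕ):ℤ) < bet Z Nx V₁ z i j) +
        ind (((β:ℕ):ℤ) = bet Z Nx V₁ z i j ∧ w)) + ind (e₁ ≠ e ∧ S₁.hP m.y e e₁ < 0) := by
  unfold belQ
  by_cases h1 : e₁ = e
  · subst h1
    by_cases h2 : ((β:ℕ):ℤ) < bet Z Nx V₁ z i j
    · simp [h2, h2.ne]
    · simp [h2]
  · simp [h1]

variable [Fintype R]

lemma sum_rk (y : ℝ) (e : R) : ∑ e₁, ind (e₁ ≠ e ∧ S₁.hP y e e₁ < 0) = S₁.rk y e := by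
  classical
  unfold Sys.rk
  exact Finset.sum_congr rfl fun c _ => (ite_ind _).symm

lemma sum_belQ {F : Type} [Fintype F] {Z Nx V₁ V : ℕ} (hV : V = V₁ + 2 * Z * Nx) (ς : F → ℤ)
    (hς : ∀ f, |ς f| ≤ (Z:ℤ)) (e : R) (i : Fin Nx) (j : Fin V₁) (w : F → Prop) :
    ((∑ x : R × (F × Fin V), ind (belQ (Z := Z) S₁ m e i j (ς x.2.1) (w x.2.1) x.1 x.2.2) : ℕ) : ℤ)
      = (∑ f, bet Z Nx V₁ (ς f) i j) + (∑ f, ind (w f) : ℕ) +
        Fintype.card F * V * S₁.rk m.y e := by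
  simp only [Fintype.sum_prod_type, belQ_pt]
  simp only [Finset.sum_add_distrib, ← Finset.mul_sum]
  rw [sum_ind_eq]
  have h2 : ∀ f, (∑ β : Fin V, ind (((β:ℕ):ℤ) = bet Z Nx V₁ (ς f) i j ∧ w f)) = ind (w f) :=
    fun f => sum_ind_eqZ _ (bet_bd hV (hς f) i j).1 (bet_bd hV (hς f) i j).2 _
  rw [Finset.sum_congr rfl fun f _ => h2 f]
  simp only [Finset.sum_const, Finset.card_univ, smul_eq_mul, ← Finset.mul_sum, Fintype.card_fin]
  rw [sum_rk]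
  push_cast
  have h3 : ∀ f, (∑ β : Fin V, ((ind (((β:ℕ):ℤ) < bet Z Nx V₁ (ς f) i j) : ℕ) : ℤ)) =
      bet Z Nx V₁ (ς f) i j := by
    intro f
    have := sum_ind_ltZ _ (bet_bd hV (hς f) i j).1 (bet_bd hV (hς f) i j).2.le
    push_cast at this
    exact this
  rw [Finset.sum_congr rfl fun f _ => h3 f]
  ring

end pool

section pos

variable {D' : Type} {G F T : Type} (S₂ : Sys G F T) (m : Pm)

lemma pos_inl {Z Nx V₁ V : ℕ} (ς : F → ℤ) (i : Fin Nx) (j : Fin V₁)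
    (c : Cell T Nx V₁) :
    (((Z * Nx + (j:ℕ) : ℕ) : ℝ) < posD S₂ m Z Nx V₁ V ς (Sum.inl c) i) ↔
      ((Z * Nx + (j:ℕ) : ℕ) : ℝ) ≤ ((Z * Nx + (c.2.1:ℕ) : ℕ) : ℝ) + S₂.p m.y c.2.2 *
        (((i:ℕ):ℝ) - ((c.1:ℕ):ℝ)) := by
  obtain ⟨i₁, j₁, r⟩ := c
  simp only [posD]
  set t : ℝ := ((Z * Nx + (j₁:ℕ) : ℕ) : ℝ) + S₂.p m.y r * (((i:ℕ):ℝ) - ((i₁:ℕ):ℝ))
  set J : ℕ := Z * Nx + (j:ℕ)
  have h1 : (J:ℝ) ≤ t ↔ (J:ℤ) ≤ ⌊t⌋ := by
    rw [Int.le_floor]; push_cast; rfl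
  rw [h1]
  constructor
  · intro h
    have h2 : ((J:ℤ):ℝ) < ((⌊t⌋ : ℤ) : ℝ) + 1 := by push_cast; linarith
    have h3 : (J:ℤ) < ⌊t⌋ + 1 := by exact_mod_cast h2
    omega
  · intro h
    have h2 : ((J:ℤ):ℝ) ≤ ((⌊t⌋ : ℤ) : ℝ) := by exact_mod_cast h
    push_cast at h2
    linarith

lemma pos_inr {Z Nx V₁ V : ℕ} (ς : F → ℤ) (i : Fin Nx) (j : Fin V₁)
    (c : F × Fin V) :
    (((Z * Nx + (j:ℕ) : ℕ) : ℝ) < posD S₂ m Z Nx V₁ V ς (Sum.inr c) i) ↔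
      bet Z Nx V₁ (ς c.1) i j ≤ ((c.2:ℕ):ℤ) := by
  obtain ⟨f, β⟩ := c
  simp only [posD, bet]
  set J : ℕ := Z * Nx + (j:ℕ)
  constructor
  · intro h
    have h2 : ((J:ℤ):ℝ) < ((ς f * ((i:ℕ):ℤ) + ((β:ℕ):ℤ) + 1 : ℤ) : ℝ) := by
      push_cast at h ⊢; linarith
    have h3 : (J:ℤ) < (ς f * ((i:ℕ):ℤ) + ((β:ℕ):ℤ) + 1 : ℤ) := by exact_mod_cast h2
    linarith
  · intro h
    have h2 : ((J:ℤ):ℝ) ≤ ((ς f * ((i:ℕ):ℤ) + ((β:ℕ):ℤ) : ℤ) : ℝ) := by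
      have : (J:ℤ) ≤ ς f * ((i:ℕ):ℤ) + ((β:ℕ):ℤ) := by linarith
      exact_mod_cast this
    push_cast at h2 ⊢
    linarith

end pos

section final

variable {A D R G F T : Type} [Fintype A] [Fintype D] [Fintype R] [Fintype G] [Fintype F]
  [Fintype T] (S₁ : Sys A D R) (S₂ : Sys G F T) (m : Pm)

lemma belP_pt {Z Nx V₁ : ℕ} (e : R) (i : Fin Nx) (j : Fin V₁) (r : T) (e' : R) (i' : Fin Nx)
    (j' : Fin V₁) (r' : T) :
    ind ((e', i', j', r') ≠ (e, i, j, r) ∧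
      belP S₁ S₂ m Z (e, (i, j, r)) (e', (i', j', r'))) =
    ind (e' ≠ e ∧ S₁.hP m.y e e' < 0) + ind (e' = e) *
      (ind ((i', j') ≠ (i, j) ∧ ((Z * Nx + (j':ℕ) : ℕ) : ℝ) + S₂.p m.y r' *
        (((i:ℕ):ℝ) - ((i':ℕ):ℝ)) < ((Z * Nx + (j:ℕ) : ℕ) : ℝ)) +
       ind ((i', j') = (i, j)) * ind (r' ≠ r ∧ S₂.hP m.y r r' < 0)) := by
  unfold belP
  by_cases h1 : e' = e
  · subst h1
    by_cases h2 : (i', j') = (i, j)
    · obtain ⟨rfl, rfl⟩ := Prod.mk.inj h2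
      by_cases h3 : r' = r
      · subst h3; simp
      · simp [h3]
    · have h3 : ¬ (i' = i ∧ j' = j) := fun h => h2 (by rw [h.1, h.2])
      have h4 : (i' = i ∧ j' = j ∧ r' ≠ r ∧ S₂.hP m.y r r' < 0) ↔ False := by
        constructor
        · rintro ⟨ha, hb, -⟩
          exact h3 ⟨ha, hb⟩
        · exact False.elim
      have h5 : (e', i', j', r') ≠ (e', i, j, r) := by
        intro h
        apply h2
        simp only [Prod.mk.injEq, true_and] at h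
        rw [h.1, h.2.1]
      simp only [h2, h4, h5, ne_eq, not_false_eq_true, true_and, not_true_eq_false, false_and,
        false_or, or_false, ind_false, ind_true, zero_mul, add_zero, zero_add, one_mul]
  · have h5 : (e', i', j', r') ≠ (e, i, j, r) := by
      intro h
      apply h1
      simp only [Prod.mk.injEq] at h
      exact h.1
    simp [h1]

lemma cell_pt {Z Nx V₁ V : ℕ} (ς : F → ℤ) (i : Fin Nx) (j : Fin V₁) (i' : Fin Nx)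
    (j' : Fin V₁) (r' : T) :
    ind (((Z * Nx + (j:ℕ) : ℕ) : ℝ) < posD S₂ m Z Nx V₁ V ς (Sum.inl (i', j', r')) i) +
      ind ((i', j') ≠ (i, j) ∧ ((Z * Nx + (j':ℕ) : ℕ) : ℝ) + S₂.p m.y r' *
        (((i:ℕ):ℝ) - ((i':ℕ):ℝ)) < ((Z * Nx + (j:ℕ) : ℕ) : ℝ)) = 1 := by
  rw [ind_congr (pos_inl S₂ m ς i j (i', j', r'))]
  by_cases h2 : (i', j') = (i, j)
  · obtain ⟨rfl, rfl⟩ := Prod.mk.inj h2
    simp
  · simp only [h2, ne_eq, not_false_eq_true, true_and]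
    by_cases h3 : ((Z * Nx + (j':ℕ) : ℕ) : ℝ) + S₂.p m.y r' *
        (((i:ℕ):ℝ) - ((i':ℕ):ℝ)) < ((Z * Nx + (j:ℕ) : ℕ) : ℝ)
    · rw [ind_of h3, ind_not (not_le.2 h3)]
    · rw [ind_not h3, ind_of (not_lt.1 h3)]

/-- the number of positions above `J` -/
lemma sum_pos {Z Nx V₁ V : ℕ} (hV : V = V₁ + 2 * Z * Nx) (ς : F → ℤ)
    (hς : ∀ f, |ς f| ≤ (Z:ℤ)) (e : R) (i : Fin Nx) (j : Fin V₁) (r : T) :
    ((∑ q : QD F T Nx V₁ V, ind (((Z * Nx + (j:ℕ) : ℕ) : ℝ) < posD S₂ m Z Nx V₁ V ς q i) : ℕ) : ℤ)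
      + (∑ x' : R × Cell T Nx V₁, ind (x' ≠ (e, (i, j, r)) ∧
        belP S₁ S₂ m Z (e, (i, j, r)) x') : ℕ) + (∑ f, bet Z Nx V₁ (ς f) i j) =
    Fintype.card (QD F T Nx V₁ V) + S₂.rk m.y r +
      Fintype.card (Cell T Nx V₁) * S₁.rk m.y e := by
  have h1 : ∑ x' : R × Cell T Nx V₁, ind (x' ≠ (e, (i, j, r)) ∧
        belP S₁ S₂ m Z (e, (i, j, r)) x') = Fintype.card (Cell T Nx V₁) * S₁.rk m.y e +
      ∑ c : Cell T Nx V₁, (ind ((c.1, c.2.1) ≠ (i, j) ∧ ((Z * Nx + (c.2.1:ℕ) : ℕ) : ℝ) +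
        S₂.p m.y c.2.2 *
        (((i:ℕ):ℝ) - ((c.1:ℕ):ℝ)) < ((Z * Nx + (j:ℕ) : ℕ) : ℝ)) +
       ind ((c.1, c.2.1) = (i, j)) * ind (c.2.2 ≠ r ∧ S₂.hP m.y r c.2.2 < 0)) := by
    rw [Fintype.sum_prod_type]
    have h2 : ∀ (e' : R) (c : Cell T Nx V₁), ind ((e', c) ≠ (e, (i, j, r)) ∧
        belP S₁ S₂ m Z (e, (i, j, r)) (e', c)) = ind (e' ≠ e ∧ S₁.hP m.y e e' < 0) +
          ind (e' = e) * (ind ((c.1, c.2.1) ≠ (i, j) ∧ ((Z * Nx + (c.2.1:ℕ) : ℕ) : ℝ) +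
        S₂.p m.y c.2.2 *
        (((i:ℕ):ℝ) - ((c.1:ℕ):ℝ)) < ((Z * Nx + (j:ℕ) : ℕ) : ℝ)) +
       ind ((c.1, c.2.1) = (i, j)) * ind (c.2.2 ≠ r ∧ S₂.hP m.y r c.2.2 < 0)) := by
      rintro e' ⟨i', j', r'⟩
      exact belP_pt S₁ S₂ m e i j r e' i' j' r'
    rw [Finset.sum_congr rfl fun e' _ => Finset.sum_congr rfl fun c _ => h2 e' c]
    simp only [Finset.sum_add_distrib, ← Finset.mul_sum]
    rw [sum_ind_eq]
    simp only [Finset.sum_const, Finset.card_univ, smul_eq_mul, ← Finset.mul_sum]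
    rw [sum_rk]
  have h3 : ∑ c : Cell T Nx V₁, ind ((c.1, c.2.1) = (i, j)) *
      ind (c.2.2 ≠ r ∧ S₂.hP m.y r c.2.2 < 0) = S₂.rk m.y r := by
    rw [← sum_rk]
    simp only [Fintype.sum_prod_type]
    have h4 : ∀ (i' : Fin Nx) (j' : Fin V₁) (r' : T), ind ((i', j') = (i, j)) *
      ind (r' ≠ r ∧ S₂.hP m.y r r' < 0) = ind (i' = i) * (ind (j' = j) *
        ind (r' ≠ r ∧ S₂.hP m.y r r' < 0)) := by
      intro i' j' r'
      by_cases h5 : i' = i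
      · by_cases h6 : j' = j
        · simp [h5, h6]
        · simp [h5, h6]
      · simp [h5]
    rw [Finset.sum_congr rfl fun i' _ => Finset.sum_congr rfl fun j' _ =>
      Finset.sum_congr rfl fun r' _ => h4 i' j' r']
    simp only [← Finset.mul_sum]
    rw [sum_ind_eq, sum_ind_eq]
  have h6 : ∑ c : Cell T Nx V₁,
      ind (((Z * Nx + (j:ℕ) : ℕ) : ℝ) < posD S₂ m Z Nx V₁ V ς (Sum.inl c) i) +
      ∑ c : Cell T Nx V₁, ind ((c.1, c.2.1) ≠ (i, j) ∧ ((Z * Nx + (c.2.1:ℕ) : ℕ) : ℝ) +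
        S₂.p m.y c.2.2 * (((i:ℕ):ℝ) - ((c.1:ℕ):ℝ)) < ((Z * Nx + (j:ℕ) : ℕ) : ℝ)) =
      Fintype.card (Cell T Nx V₁) := by
    rw [← Finset.sum_add_distrib]
    rw [Finset.sum_congr rfl fun c _ => (cell_pt S₂ m ς i j c.1 c.2.1 c.2.2 :
      ind (((Z * Nx + (j:ℕ) : ℕ) : ℝ) < posD S₂ m Z Nx V₁ V ς (Sum.inl c) i) + _ = 1)]
    simp only [Finset.sum_const, Finset.card_univ, smul_eq_mul, mul_one]
  have h7 : ((∑ c : F × Fin V, ind (((Z * Nx + (j:ℕ) : ℕ) : ℝ) <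
      posD S₂ m Z Nx V₁ V ς (Sum.inr c) i) : ℕ) : ℤ) =
      Fintype.card F * V - ∑ f, bet Z Nx V₁ (ς f) i j := by
    rw [Finset.sum_congr rfl fun c _ => ind_congr (pos_inr S₂ m ς i j c)]
    rw [Fintype.sum_prod_type]
    push_cast
    have h8 : ∀ f, (∑ β : Fin V, ((ind (bet Z Nx V₁ (ς f) i j ≤ ((β:ℕ):ℤ)) : ℕ) : ℤ)) =
        V - bet Z Nx V₁ (ς f) i j := by
      intro f
      have := sum_ind_leZ _ (bet_bd hV (hς f) i j).1 (bet_bd hV (hς f) i j).2.le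
      push_cast at this
      exact this
    rw [Finset.sum_congr rfl fun f _ => h8 f, Finset.sum_sub_distrib]
    simp
  rw [h1, Finset.sum_add_distrib, h3, Fintype.sum_sum_type]
  have h9 : Fintype.card (QD F T Nx V₁ V) =
      Fintype.card (Cell T Nx V₁) + Fintype.card F * V := by
    rw [Fintype.card_sum, Fintype.card_prod F, Fintype.card_fin]
  rw [h9]
  have h10 : ((∑ c : Cell T Nx V₁,
      ind (((Z * Nx + (j:ℕ) : ℕ) : ℝ) < posD S₂ m Z Nx V₁ V ς (Sum.inl c) i) : ℕ) : ℤ) +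
      ((∑ c : Cell T Nx V₁, ind ((c.1, c.2.1) ≠ (i, j) ∧ ((Z * Nx + (c.2.1:ℕ) : ℕ) : ℝ) +
        S₂.p m.y c.2.2 * (((i:ℕ):ℝ) - ((c.1:ℕ):ℝ)) < ((Z * Nx + (j:ℕ) : ℕ) : ℝ)) : ℕ) : ℤ) =
      Fintype.card (Cell T Nx V₁) := by exact_mod_cast h6
  generalize (∑ c : Cell T Nx V₁,
      ind (((Z * Nx + (j:ℕ) : ℕ) : ℝ) < posD S₂ m Z Nx V₁ V ς (Sum.inl c) i)) = u₁ at h10 ⊢
  generalize (∑ c : Cell T Nx V₁, ind ((c.1, c.2.1) ≠ (i, j) ∧ ((Z * Nx + (c.2.1:ℕ) : ℕ) : ℝ) +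
        S₂.p m.y c.2.2 * (((i:ℕ):ℝ) - ((c.1:ℕ):ℝ)) < ((Z * Nx + (j:ℕ) : ℕ) : ℝ))) = u₂ at h10 ⊢
  generalize (∑ c : F × Fin V, ind (((Z * Nx + (j:ℕ) : ℕ) : ℝ) <
      posD S₂ m Z Nx V₁ V ς (Sum.inr c) i)) = u₃ at h7 ⊢
  push_cast
  linarith

end final

end CD

open CD

open scoped Classical in
theorem countD : CountD := by
  intro A D R G F T _ _ _ _ _ _ S₁ S₂ m Z Nx V₁ V k₁ c₁ k₂ c₂ ς hV hς ha hb hab hL₁ hL₂
  refine ⟨2 * Nx * Fintype.card (QD F T Nx V₁ V) * (1 + k₁) + c₂ +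
    Fintype.card (QD F T Nx V₁ V) * c₁, ?_⟩
  rintro ⟨e, i, j, r⟩
  simp only [ite_ind]
  rw [Fintype.sum_sum_type, Fintype.sum_sum_type]
  have hB := sum_belB (Z := Z) S₁ e (ha e) (hb e) (hab e) i j
    (fun q i' => posD S₂ m Z Nx V₁ V ς q i')
  have hQ := sum_belQ S₁ m hV ς hς e i j (fun f => S₂.hD r f < 0)
  have hP := sum_pos S₁ S₂ m hV ς hς e i j r
  have hD1 : ∑ f, ind (S₁.hD e f < 0) = S₁.kD e := by
    unfold Sys.kD
    exact Finset.sum_congr rfl fun c _ => (ite_ind _).symm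
  have hD : ∑ x : D × QD F T Nx V₁ V, ind (S₁.hD e x.1 < 0) =
      Fintype.card (QD F T Nx V₁ V) * S₁.kD e := by
    rw [Fintype.sum_prod_type]
    simp only [Finset.sum_const, Finset.card_univ, smul_eq_mul, ← Finset.mul_sum]
    rw [hD1]
  have hD2 : ∑ f, ind (S₂.hD r f < 0) = S₂.kD r := by
    unfold Sys.kD
    exact Finset.sum_congr rfl fun c _ => (ite_ind _).symm
  have h1 := hL₁.lA e
  have h2 := hL₁.lD e
  have h3 := hL₂.lD r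
  simp only [belD]
  rw [hD]
  rw [h1] at hB
  rw [hD2] at hQ
  have hB' : ((∑ x : A × Fin Nx × QD F T Nx V₁ V × Bool, ind (belB (Z := Z) S₁ e i j x.1 x.2.1
      (posD S₂ m Z Nx V₁ V ς x.2.2.1 x.2.1) x.2.2.2) : ℕ) : ℤ) +
      (Fintype.card (QD F T Nx V₁ V) : ℤ) =
      2 * Nx * Fintype.card (QD F T Nx V₁ V) * k₁ + 2 * Nx * Fintype.card (QD F T Nx V₁ V) +
      ((∑ q : QD F T Nx V₁ V, ind (((Z * Nx + (j:ℕ) : ℕ) : ℝ) <
        posD S₂ m Z Nx V₁ V ς q i) : ℕ) : ℤ) := by exact_mod_cast hB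
  have h9 : Fintype.card (QD F T Nx V₁ V) =
      Fintype.card (Cell T Nx V₁) + Fintype.card F * V := by
    rw [Fintype.card_sum, Fintype.card_prod F, Fintype.card_fin]
  have h9' : (Fintype.card (QD F T Nx V₁ V) : ℤ) =
      Fintype.card (Cell T Nx V₁) + Fintype.card F * V := by exact_mod_cast h9
  have h2' : (S₁.kD e : ℤ) + S₁.rk m.y e = c₁ := by exact_mod_cast h2
  have h3' : (S₂.kD r : ℤ) + S₂.rk m.y r = c₂ := by exact_mod_cast h3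
  generalize (∑ x : A × Fin Nx × QD F T Nx V₁ V × Bool, ind (belB (Z := Z) S₁ e i j x.1 x.2.1
      (posD S₂ m Z Nx V₁ V ς x.2.2.1 x.2.1) x.2.2.2)) = u₁ at hB' ⊢
  generalize (∑ q : QD F T Nx V₁ V, ind (((Z * Nx + (j:ℕ) : ℕ) : ℝ) <
        posD S₂ m Z Nx V₁ V ς q i)) = u₂ at hB' hP
  generalize (∑ x' : R × Cell T Nx V₁, ind (x' ≠ (e, (i, j, r)) ∧
        belP S₁ S₂ m Z (e, (i, j, r)) x')) = u₃ at hP ⊢
  generalize (∑ x : R × (F × Fin V), ind (belQ (Z := Z) S₁ m e i j (ς x.2.1)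
    (S₂.hD r x.2.1 < 0) x.1 x.2.2)) = u₄ at hQ ⊢
  zify
  rw [h9'] at hB' hP ⊢
  set n₁ : ℤ := (Fintype.card (Cell T Nx V₁) : ℤ)
  set n₂ : ℤ := (Fintype.card F : ℤ) * V
  have e1 : (n₁ + n₂) * (S₁.kD e : ℤ) + (n₁ + n₂) * S₁.rk m.y e = (n₁ + n₂) * c₁ := by
    rw [← h2']; ring
  linarith

end K9
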