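import Pool.Agent.Helper48K9.Geo1

/-!
# Real inequalities for the composition: pool lines
-/

namespace K9

/-- height of a pool line above an ideal point of the same cell -/
lemma pool_height {X Y p d lam del eps kap z w β τ i J x yy : ℝ} (hd : d ≠ 0)
    (hz : 1 + lam * z ≠ 0) :
    w * (X + eps * (((1 + i + kap * x) + lam * (J + kap * yy)) / d)) +
      (Y + eps * del * ((β + kap * τ - z) / (1 + lam * z)) - w * X) -
      (Y + eps * (p * (((1 + i + kap * x) + lam * (J + kap * yy)) / d) + del * (J + kap * yy))) =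
    eps * (del / (1 + lam * z) * ((β - (J - z * i)) + kap * (z * x + τ - yy)) +
      (w - (p + z * del * d / (1 + lam * z))) / d * ((1 + i + kap * x) + lam * (J + kap * yy))) := by
  field_simp
  ring

/-- height of a line through one ideal point above another one of the same cell -/
lemma pi_height {X Y p d lam del eps ξ ζ ξ₁ ζ₁ w : ℝ} (hd : d ≠ 0) :
    w * (X + eps * ((ξ + lam * ζ) / d)) +
      ((Y + eps * (p * ((ξ₁ + lam * ζ₁) / d) + del * ζ₁)) -
        w * (X + eps * ((ξ₁ + lam * ζ₁) / d))) -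
      (Y + eps * (p * ((ξ + lam * ζ) / d) + del * ζ)) =
    eps * ((w - p) / d * ((ξ - ξ₁) + lam * (ζ - ζ₁)) - del * (ζ - ζ₁)) := by
  field_simp
  ring

/-- the direction of the new pool line -/
lemma mobius {lam y a b U V : ℝ} (ha : 1 + lam * a ≠ 0) (hb : 1 + lam * b ≠ 0) :
    ((1 - y) * (a / (1 + lam * a)) + y * (b / (1 + lam * b))) * (U + lam * V) - V =
    ((1 - y) / (1 + lam * a) + y / (1 + lam * b)) * ((a - y * (a - b)) * U - V) -
      y * (1 - y) * lam * (a - b) ^ 2 / ((1 + lam * a) * (1 + lam * b)) * U := by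
  generalize hA : 1 + lam * a = A at *
  generalize hB : 1 + lam * b = B at *
  field_simp
  have h1 : lam * a = A - 1 := by linarith
  have h2 : lam * b = B - 1 := by linarith
  subst hA; subst hB
  ring

/-- bounds for `1 + λ z` -/
lemma one_add_bd {lam z Z : ℝ} (hl : 0 < lam) (hz : |z| ≤ Z) (hZ : lam * Z ≤ 1 / 64) :
    63 / 64 ≤ 1 + lam * z ∧ 1 + lam * z ≤ 65 / 64 := by
  have h := abs_le.mp hz
  have h1 : lam * z ≤ lam * Z := mul_le_mul_of_nonneg_left h.2 hl.le
  have h2 : -(lam * Z) ≤ lam * z := by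
    have := mul_le_mul_of_nonneg_left h.1 hl.le
    linarith
  constructor <;> linarith

/-- sign and size of the height of a pool line in its own cell -/
lemma pool_own {eps del lam kap z n F ρ ξζ Q Z m : ℝ} (heps : 0 < eps) (hdel : 0 < del)
    (hl : 0 < lam) (hz : |z| ≤ Z) (hZ : lam * Z ≤ 1 / 64) (hn : n ≤ -1 ∨ n = 0 ∨ 1 ≤ n)
    (hF : |kap * F| ≤ 1 / 4) (hξ : |ξζ| ≤ Q) (hρ : |ρ| ≤ m * del) (hQ : 0 ≤ m) (hmQ : m * Q ≤ 1 / 8) :
    let B := eps * (del / (1 + lam * z) * (n + kap * F) + ρ * ξζ)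
    (n ≠ 0 → eps * del / 2 ≤ |B| ∧ (B < 0 ↔ n < 0)) ∧
    |B - eps * (del / (1 + lam * z) * (n + kap * F))| ≤ eps * del * (m * Q) := by
  intro B
  obtain ⟨h1, h2⟩ := one_add_bd hl hz hZ
  have h0 : 0 < 1 + lam * z := by linarith
  have hρ2 : |ρ * ξζ| ≤ del * (m * Q) := by
    rw [abs_mul]
    calc |ρ| * |ξζ| ≤ (m * del) * Q := mul_le_mul hρ hξ (abs_nonneg _) (by positivity)
      _ = del * (m * Q) := by ring
  have hρ3 : |ρ * ξζ| ≤ del / 8 := by
    refine hρ2.trans ?_
    have := mul_le_mul_of_nonneg_left hmQ hdel.le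
    linarith
  have hρ' := abs_le.mp hρ3
  have hF' := abs_le.mp hF
  have hd2 : del * (64/65) ≤ del / (1 + lam * z) := by
    rw [le_div_iff₀ h0]; nlinarith
  refine ⟨fun hn0 => ?_, ?_⟩
  · rcases hn with h | h | h
    · have h3 : del / (1 + lam * z) * (n + kap * F) ≤ del / (1 + lam * z) * (-(3/4)) :=
        mul_le_mul_of_nonneg_left (by linarith [hF'.2]) (by positivity)
      have h4 : B ≤ -(eps * del / 2) := by
        have : eps * (del / (1 + lam * z) * (n + kap * F) + ρ * ξζ) ≤ eps * (-(del / 2)) := by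
          apply mul_le_mul_of_nonneg_left _ heps.le
          linarith [hρ'.2]
        simp only [B]; linarith
      have h5 : 0 < eps * del / 2 := by positivity
      refine ⟨?_, ?_⟩
      · rw [abs_of_neg (by linarith)]; linarith
      · constructor
        · intro _; linarith
        · intro _; linarith
    · exact absurd h hn0
    · have h3 : del / (1 + lam * z) * (3/4) ≤ del / (1 + lam * z) * (n + kap * F) :=
        mul_le_mul_of_nonneg_left (by linarith [hF'.1]) (by positivity)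
      have h4 : eps * del / 2 ≤ B := by
        have : eps * (del / 2) ≤ eps * (del / (1 + lam * z) * (n + kap * F) + ρ * ξζ) := by
          apply mul_le_mul_of_nonneg_left _ heps.le
          linarith [hρ'.1]
        simp only [B]; linarith
      have h5 : 0 < eps * del / 2 := by positivity
      refine ⟨?_, ?_⟩
      · rw [abs_of_pos (by linarith)]; exact h4
      · constructor
        · intro h6; linarith
        · intro h6; linarith
  · have e : B - eps * (del / (1 + lam * z) * (n + kap * F)) = eps * (ρ * ξζ) := by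
      simp only [B]; ring
    rw [e, abs_mul, abs_of_pos heps, mul_assoc]
    exact mul_le_mul_of_nonneg_left hρ2 heps.le

/-- the main factor of the height of a new pool line in its own cell -/
lemma pi_main {lam y a b U V Z Δ : ℝ} (hl : 0 < lam) (hy : 0 ≤ y) (hy1 : y ≤ 1) (ha : |a| ≤ Z)
    (hb : |b| ≤ Z) (hZ : lam * Z ≤ 1 / 64) (hab : |a - b| ≤ Δ) :
    ∃ c r : ℝ, 63/65 ≤ c ∧ c ≤ 65/63 ∧ |r| ≤ lam * Δ ^ 2 * |U| ∧
    ((1 - y) * (a / (1 + lam * a)) + y * (b / (1 + lam * b))) * (U + lam * V) - V =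
      c * ((a - y * (a - b)) * U - V) + r := by
  obtain ⟨a1, a2⟩ := one_add_bd hl ha hZ
  obtain ⟨b1, b2⟩ := one_add_bd hl hb hZ
  have a0 : 0 < 1 + lam * a := by linarith
  have b0 : 0 < 1 + lam * b := by linarith
  refine ⟨(1 - y) / (1 + lam * a) + y / (1 + lam * b),
    -(y * (1 - y) * lam * (a - b) ^ 2 / ((1 + lam * a) * (1 + lam * b)) * U), ?_, ?_, ?_, ?_⟩
  · have h1 : (1 - y) * (64/65) ≤ (1 - y) / (1 + lam * a) := by
      rw [le_div_iff₀ a0]; nlinarith
    have h2 : y * (64/65) ≤ y / (1 + lam * b) := by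
      rw [le_div_iff₀ b0]; nlinarith
    linarith
  · have h1 : (1 - y) / (1 + lam * a) ≤ (1 - y) * (64/63) := by
      rw [div_le_iff₀ a0]; nlinarith
    have h2 : y / (1 + lam * b) ≤ y * (64/63) := by
      rw [div_le_iff₀ b0]; nlinarith
    linarith
  · rw [abs_neg, abs_mul]
    apply mul_le_mul_of_nonneg_right _ (abs_nonneg _)
    have h1 : 0 ≤ y * (1 - y) := mul_nonneg hy (by linarith)
    have h2 : y * (1 - y) ≤ 1/4 := by nlinarith [sq_nonneg (y - 1/2)]
    rw [abs_of_nonneg (by positivity), div_le_iff₀ (by positivity)]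
    have h3 : (a - b) ^ 2 ≤ Δ ^ 2 := by
      rw [← sq_abs (a - b)]
      exact pow_le_pow_left₀ (abs_nonneg _) hab 2
    have h4 : (1/2:ℝ) ≤ (1 + lam * a) * (1 + lam * b) := by nlinarith
    have h5 : 0 ≤ lam * Δ ^ 2 := by positivity
    calc y * (1 - y) * lam * (a - b) ^ 2 = (y * (1 - y)) * (lam * (a - b) ^ 2) := by ring
      _ ≤ (1/4) * (lam * Δ ^ 2) :=
        mul_le_mul h2 (mul_le_mul_of_nonneg_left h3 hl.le) (by positivity) (by norm_num)
      _ ≤ lam * Δ ^ 2 * ((1 + lam * a) * (1 + lam * b)) := by nlinarith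
  · rw [mobius a0.ne' b0.ne']; ring

end K9
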