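import Pool.Agent.Helper48K9.Comp
import Pool.Agent.Helper48K9.Geo2

/-!
# Geometry of the composition: context and leaf statements
-/

namespace K9

open Finset

section

variable {A D R G F T : Type} {Nx V₁ : ℕ}

/-- ideal point with cell coordinates `(ξ, ζ)` near the outer event `e` -/
noncomputable def Xs (S₁ : Sys A D R) (m : Pm) (e : R) (ξ ζ : ℝ) : ℝ :=
  S₁.X e + m.eps * ((ξ + m.lam * ζ) / S₁.d e)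

noncomputable def Ys (S₁ : Sys A D R) (m : Pm) (e : R) (ξ ζ : ℝ) : ℝ :=
  S₁.Y e + m.eps * (S₁.p m.y e * ((ξ + m.lam * ζ) / S₁.d e) + m.del * ζ)

/-- column coordinate of a new event -/
noncomputable def xi (S₂ : Sys G F T) (m : Pm) (x : R × Cell T Nx V₁) : ℝ :=
  1 + ((x.2.1:ℕ):ℝ) + m.kap * S₂.X x.2.2.2

/-- row coordinate of a new event -/
noncomputable def ze (S₂ : Sys G F T) (m : Pm) (Z : ℕ) (x : R × Cell T Nx V₁) : ℝ :=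
  ((Z * Nx + (x.2.2.1:ℕ) : ℕ) : ℝ) + m.kap * S₂.Y x.2.2.2

/-- ideal abscissa of a new event -/
noncomputable def xX (S₁ : Sys A D R) (S₂ : Sys G F T) (m : Pm) (Z : ℕ)
    (x : R × Cell T Nx V₁) : ℝ := Xs S₁ m x.1 (xi S₂ m x) (ze S₂ m Z x)

/-- ideal ordinate of a new event -/
noncomputable def xY (S₁ : Sys A D R) (S₂ : Sys G F T) (m : Pm) (Z : ℕ)
    (x : R × Cell T Nx V₁) : ℝ := Ys S₁ m x.1 (xi S₂ m x) (ze S₂ m Z x)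

/-- height of the line `(s, t)` above the ideal point of a new event -/
noncomputable def hs (S₁ : Sys A D R) (S₂ : Sys G F T) (m : Pm) (Z : ℕ)
    (x : R × Cell T Nx V₁) (s t : ℝ) : ℝ := s * xX S₁ S₂ m Z x + t - xY S₁ S₂ m Z x

/-- slope difference at a new event -/
noncomputable def dN (S₂ : Sys G F T) (sl : R → G → ℝ) (x : R × Cell T Nx V₁) : ℝ :=
  sl x.1 (S₂.a x.2.2.2) - sl x.1 (S₂.b x.2.2.2)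

/-- slope of the pool line of a new event -/
noncomputable def pN (y : ℝ) (S₂ : Sys G F T) (sl : R → G → ℝ) (x : R × Cell T Nx V₁) : ℝ :=
  sl x.1 (S₂.a x.2.2.2) - y * dN S₂ sl x

/-- all hypotheses of the geometric part -/
structure Ctx (S₁ : Sys A D R) (S₂ : Sys G F T) (m : Pm) (Z Q Nx V₁ V Δ : ℕ) (σ : G → ℤ)
    (ς : F → ℤ) (n : T → ℤ) (τ₁ γ₁ τ₂ γ₂ μ γ' τ' : ℝ) (sl : R → G → ℝ) (su : R → F → ℝ) :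
    Prop where
  g1 : S₁.Geo m.y τ₁ γ₁
  g2 : S₂.Geo m.y τ₂ γ₂
  sσ : ∀ α, S₂.s α = σ α
  hσ : ∀ α, |σ α| ≤ (Z:ℤ)
  ht : ∀ α, |S₂.t α| ≤ 3 * Z
  uς : ∀ f, S₂.u f = ς f
  hς : ∀ f, |ς f| ≤ (Z:ℤ)
  hv : ∀ f, |S₂.v f| ≤ 3 * Z
  hX : ∀ r, |S₂.X r| ≤ 1
  hY : ∀ r, |S₂.Y r| ≤ Z
  hΔ : ∀ r, S₂.d r ≤ Δ
  hn : ∀ r, (Q:ℝ) * S₂.p m.y r = n r ∧ IsCoprime (n r) (Q:ℤ)
  lip : ∀ r r', |S₂.Y r - S₂.Y r'| ≤ Z * |S₂.X r - S₂.X r'|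
  d1 : ∀ e, S₁.d e ≤ 2
  p1 : ∀ e, |S₁.p m.y e| ≤ 1
  hV : V = V₁ + 2 * Z * Nx
  Z1 : 1 ≤ Z
  Nx1 : 1 ≤ Nx
  NxQ : Nx ≤ Q
  Δ1 : 1 ≤ Δ
  y0 : 0 < m.y
  y1 : m.y ≤ 1 / 4
  l0 : 0 < m.lam
  e0 : 0 < m.del
  k0 : 0 < m.kap
  ep0 : 0 < m.eps
  μ0 : 0 ≤ μ
  τ₁0 : 0 < τ₁
  τ₁1 : τ₁ ≤ 1
  γ₁0 : 0 < γ₁
  γ₁1 : γ₁ ≤ 1
  τ₂0 : 0 < τ₂
  τ₂1 : τ₂ ≤ 1
  γ₂0 : 0 < γ₂
  γ₂1 : γ₂ ≤ 1
  γ'0 : 0 < γ'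
  τ'0 : 0 < τ'
  c1 : 64 * (m.lam * (V + Z * Nx + Q + 4)) ≤ 1
  c2 : 8 * m.del ≤ m.lam * m.y
  c3 : 64 * m.kap ≤ m.lam * m.y
  c4 : 1000 * (m.kap * Z * Q) ≤ 1
  c5 : 64 * (m.del * Z) ≤ τ₁
  c6 : 64 * (m.eps * (Q + 8)) ≤ γ₁
  c7 : 64 * (m.lam * Δ ^ 2 * (Q * (Q + 1))) ≤ 1
  c8 : 64 * (m.lam * Δ ^ 2) ≤ τ₂
  c9 : 1000 * (μ * (Q + 8)) ≤ m.kap * γ₂
  c10 : 1000 * γ' ≤ m.eps * m.del * m.kap * γ₂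
  c10' : m.eps * m.del * (μ * (Q + 8)) ≤ γ'
  c11 : 64 * (τ' * Δ * (Q * (Q + 1))) ≤ 1
  c12 : 64 * τ' ≤ τ₂
  rs : ∀ e α, |sl e α - slI S₁ m e (σ α)| ≤ μ * (m.del * S₁.d e)
  ru : ∀ e f, |su e f - slI S₁ m e (ς f)| ≤ μ * (m.del * S₁.d e)

/-! ### Leaves. `GA` is used in the other leaves. -/

/-- LEAF GA: sizes of `dN`, `pN`. -/
def LeafGA : Prop :=
  ∀ {A D R G F T : Type} (S₁ : Sys A D R) (S₂ : Sys G F T) (m : Pm) (Z Q Nx V₁ V Δ : ℕ)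
    (σ : G → ℤ) (ς : F → ℤ) (n : T → ℤ) (τ₁ γ₁ τ₂ γ₂ μ γ' τ' : ℝ) (sl : R → G → ℝ)
    (su : R → F → ℝ), Ctx S₁ S₂ m Z Q Nx V₁ V Δ σ ς n τ₁ γ₁ τ₂ γ₂ μ γ' τ' sl su →
    ∀ x : R × Cell T Nx V₁,
    -- slope difference
    (9 / 10 * (m.del * S₁.d x.1 * S₂.d x.2.2.2) ≤ dN S₂ sl x ∧
      dN S₂ sl x ≤ 11 / 10 * (m.del * S₁.d x.1 * S₂.d x.2.2.2) ∧ 1 ≤ S₂.d x.2.2.2) ∧
    -- all slopes of the pool of `e` are close to `p e`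
    (∀ e α, |sl e α - S₁.p m.y e| ≤ 2 * (m.del * Z * S₁.d e)) ∧
    (∀ e f, |su e f - S₁.p m.y e| ≤ 2 * (m.del * Z * S₁.d e)) ∧
    |pN m.y S₂ sl x - S₁.p m.y x.1| ≤ 2 * (m.del * Z * S₁.d x.1) ∧
    -- general line
    (∀ s : ℝ, |s - pN m.y S₂ sl x| / dN S₂ sl x + 1 ≤
      2 / m.del * (|s - S₁.p m.y x.1| / S₁.d x.1 + 1)) ∧
    -- line of the own pool
    (∀ s : ℝ, |s - S₁.p m.y x.1| ≤ 2 * (m.del * Z * S₁.d x.1) →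
      |s - pN m.y S₂ sl x| / dN S₂ sl x + 1 ≤ 6 * Z) ∧
    -- comparison with the inner system
    (∀ α, |sl x.1 α - pN m.y S₂ sl x| / dN S₂ sl x + 1 ≤
      2 * (|S₂.s α - S₂.p m.y x.2.2.2| / S₂.d x.2.2.2 + 1)) ∧
    (∀ f, |su x.1 f - pN m.y S₂ sl x| / dN S₂ sl x + 1 ≤
      2 * (|S₂.u f - S₂.p m.y x.2.2.2| / S₂.d x.2.2.2 + 1)) ∧
    (∀ x₁ : R × Cell T Nx V₁, x₁.1 = x.1 →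
      |pN m.y S₂ sl x₁ - pN m.y S₂ sl x| / dN S₂ sl x + 1 ≤
      2 * (|S₂.p m.y x₁.2.2.2 - S₂.p m.y x.2.2.2| / S₂.d x.2.2.2 + 1))

/-- the height of the line `(s, t)` above the new event `x` is large -/
def Big (S₁ : Sys A D R) (S₂ : Sys G F T) (m : Pm) (Z : ℕ) (γ' : ℝ) (sl : R → G → ℝ)
    (x : R × Cell T Nx V₁) (s t : ℝ) : Prop :=
  20 * (γ' * (|s - pN m.y S₂ sl x| / dN S₂ sl x + 1)) ≤ |hs S₁ S₂ m Z x s t|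

/-- LEAF GB: bundle lines. (`bun_a`, `bun_b`, `bun_a'`, `bun_b'`, `pert`, `sgn_of_pert`) -/
def LeafGB : Prop :=
  ∀ {A D R G F T : Type} (S₁ : Sys A D R) (S₂ : Sys G F T) (m : Pm) (Z Q Nx V₁ V Δ : ℕ)
    (σ : G → ℤ) (ς : F → ℤ) (n : T → ℤ) (τ₁ γ₁ τ₂ γ₂ μ γ' τ' : ℝ) (sl : R → G → ℝ)
    (su : R → F → ℝ), Ctx S₁ S₂ m Z Q Nx V₁ V Δ σ ς n τ₁ γ₁ τ₂ γ₂ μ γ' τ' sl su →
    ∀ (x : R × Cell T Nx V₁) (c : A) (i' : Fin Nx) (w : ℤ) (pos : ℝ) (b : Bool),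
      pos = w + 1 / 2 → |pos| ≤ V + Z * Nx + 1 →
      (hs S₁ S₂ m Z x (S₁.s c) (icB m Nx (S₁.t c) i' pos b) < 0 ↔
        belB (Z := Z) S₁ x.1 x.2.1 x.2.2.1 c i' pos b) ∧
      Big S₁ S₂ m Z γ' sl x (S₁.s c) (icB m Nx (S₁.t c) i' pos b)

/-- LEAF GC: pool lines (of lines of the inner system, or of auxiliary lines: slope `z`,
intercept `τ`, inner height `h₂`), in the own cell and in other cells; auxiliary lines of the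
outer system. (`pool_height`, `pool_own`, `pert`, `sgn_of_pert`) -/
def LeafGC : Prop :=
  ∀ {A D R G F T : Type} (S₁ : Sys A D R) (S₂ : Sys G F T) (m : Pm) (Z Q Nx V₁ V Δ : ℕ)
    (σ : G → ℤ) (ς : F → ℤ) (n : T → ℤ) (τ₁ γ₁ τ₂ γ₂ μ γ' τ' : ℝ) (sl : R → G → ℝ)
    (su : R → F → ℝ), Ctx S₁ S₂ m Z Q Nx V₁ V Δ σ ς n τ₁ γ₁ τ₂ γ₂ μ γ' τ' sl su →
    (∀ (x : R × Cell T Nx V₁) (e₁ : R) (z : ℤ) (w τ : ℝ) (β : Fin V), |z| ≤ (Z:ℤ) →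
      |τ| ≤ 3 * Z → |w - slI S₁ m e₁ z| ≤ μ * (m.del * S₁.d e₁) →
      -- own cell, other lattice line
      (e₁ = x.1 → ((β:ℕ):ℤ) ≠ bet Z Nx V₁ z x.2.1 x.2.2.1 →
        (hs S₁ S₂ m Z x w (icI S₁ m e₁ z w τ β) < 0 ↔
          ((β:ℕ):ℤ) < bet Z Nx V₁ z x.2.1 x.2.2.1) ∧
        Big S₁ S₂ m Z γ' sl x w (icI S₁ m e₁ z w τ β)) ∧
      -- own cell, own lattice line
      (e₁ = x.1 → ((β:ℕ):ℤ) = bet Z Nx V₁ z x.2.1 x.2.2.1 →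
        |hs S₁ S₂ m Z x w (icI S₁ m e₁ z w τ β) -
          m.eps * m.del * m.kap / (1 + m.lam * z) *
            (z * S₂.X x.2.2.2 + τ - S₂.Y x.2.2.2)| ≤ γ') ∧
      -- other cell
      (e₁ ≠ x.1 →
        (hs S₁ S₂ m Z x w (icI S₁ m e₁ z w τ β) < 0 ↔ S₁.hP m.y x.1 e₁ < 0) ∧
        Big S₁ S₂ m Z γ' sl x w (icI S₁ m e₁ z w τ β))) ∧
    (∀ (x : R × Cell T Nx V₁) (c : D), (hs S₁ S₂ m Z x (S₁.u c) (S₁.v c) < 0 ↔ S₁.hD x.1 c < 0) ∧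
      Big S₁ S₂ m Z γ' sl x (S₁.u c) (S₁.v c))

/-- LEAF GD: new pool lines and abscissas, same outer event. (`pi_height`, `pi_main`) -/
def LeafGD : Prop :=
  ∀ {A D R G F T : Type} (S₁ : Sys A D R) (S₂ : Sys G F T) (m : Pm) (Z Q Nx V₁ V Δ : ℕ)
    (σ : G → ℤ) (ς : F → ℤ) (n : T → ℤ) (τ₁ γ₁ τ₂ γ₂ μ γ' τ' : ℝ) (sl : R → G → ℝ)
    (su : R → F → ℝ), Ctx S₁ S₂ m Z Q Nx V₁ V Δ σ ς n τ₁ γ₁ τ₂ γ₂ μ γ' τ' sl su →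
    ∀ x x₁ : R × Cell T Nx V₁, x₁ ≠ x → x₁.1 = x.1 →
      let t₁ := xY S₁ S₂ m Z x₁ - pN m.y S₂ sl x₁ * xX S₁ S₂ m Z x₁
      (hs S₁ S₂ m Z x (pN m.y S₂ sl x₁) t₁ < 0 ↔ belP S₁ S₂ m Z x x₁) ∧
      Big S₁ S₂ m Z γ' sl x (pN m.y S₂ sl x₁) t₁ ∧
      4 * (τ' * (dN S₂ sl x₁ * |xX S₁ S₂ m Z x - xX S₁ S₂ m Z x₁|)) ≤
        |hs S₁ S₂ m Z x (pN m.y S₂ sl x₁) t₁| ∧
      16 * γ' ≤ |xX S₁ S₂ m Z x - xX S₁ S₂ m Z x₁| * dN S₂ sl x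

/-- LEAF GE: new pool lines and abscissas, different outer events. -/
def LeafGE : Prop :=
  ∀ {A D R G F T : Type} (S₁ : Sys A D R) (S₂ : Sys G F T) (m : Pm) (Z Q Nx V₁ V Δ : ℕ)
    (σ : G → ℤ) (ς : F → ℤ) (n : T → ℤ) (τ₁ γ₁ τ₂ γ₂ μ γ' τ' : ℝ) (sl : R → G → ℝ)
    (su : R → F → ℝ), Ctx S₁ S₂ m Z Q Nx V₁ V Δ σ ς n τ₁ γ₁ τ₂ γ₂ μ γ' τ' sl su →
    ∀ x x₁ : R × Cell T Nx V₁, x₁.1 ≠ x.1 →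
      let t₁ := xY S₁ S₂ m Z x₁ - pN m.y S₂ sl x₁ * xX S₁ S₂ m Z x₁
      (hs S₁ S₂ m Z x (pN m.y S₂ sl x₁) t₁ < 0 ↔ S₁.hP m.y x.1 x₁.1 < 0) ∧
      Big S₁ S₂ m Z γ' sl x (pN m.y S₂ sl x₁) t₁ ∧
      4 * (τ' * (dN S₂ sl x₁ * |xX S₁ S₂ m Z x - xX S₁ S₂ m Z x₁|)) ≤
        |hs S₁ S₂ m Z x (pN m.y S₂ sl x₁) t₁| ∧
      16 * γ' ≤ |xX S₁ S₂ m Z x - xX S₁ S₂ m Z x₁| * dN S₂ sl x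

end

/-- LEAF GP: the explicit parameters satisfy the numerical hypotheses of `Ctx`. Here
`lam = 1/(K Z Q² Δ² Θ₂)`, `del = lam/(K Θ₁)`, `kap = lam/(K Q)`, `eps = 1/(K H₁ Q)`,
`γ' = eps del kap/(1000 H₂)`, `τ' = 1/(K Θ₂ Q² Δ)`, `μ = pr Λ₁/(M del)`. -/
def LeafGP : Prop :=
  ∀ (pr : ℕ) (y₀ : ℝ), 2 < pr → 0 < y₀ → ∃ K : ℕ, 1 ≤ K ∧ ∀ (y : ℝ), y₀ ≤ y → y ≤ 1 / 4 →
    ∀ (B₁ Θ₁ H₁ Λ₁ Z Q Θ₂ H₂ Δ M : ℕ), 1 ≤ B₁ → 1 ≤ Θ₁ → 1 ≤ H₁ → 1 ≤ Λ₁ → 1 ≤ Z → 1 ≤ Q →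
    1 ≤ Θ₂ → 1 ≤ H₂ → 1 ≤ Δ → 50 * B₁ ≤ Q →
    K ^ 5 * Λ₁ * Θ₁ * H₂ * Z ^ 2 * Q ^ 6 * Δ ^ 4 * Θ₂ ^ 2 ≤ M →
    ∃ (lam del kap eps μ γ' : ℝ), 0 < lam ∧ 0 < del ∧ 0 < kap ∧ 0 < eps ∧ 0 ≤ μ ∧ 0 < γ' ∧
      64 * (lam * (((5100 * Z * B₁ : ℕ) : ℝ) + Z * ((50 * B₁ : ℕ) : ℝ) + Q + 4)) ≤ 1 ∧
      8 * del ≤ lam * y ∧ 64 * kap ≤ lam * y ∧ 1000 * (kap * Z * Q) ≤ 1 ∧
      64 * (del * Z) ≤ 1 / Θ₁ ∧ 64 * (eps * (Q + 8)) ≤ 1 / H₁ ∧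
      64 * (lam * Δ ^ 2 * (Q * (Q + 1))) ≤ 1 ∧ 64 * (lam * Δ ^ 2) ≤ 1 / Θ₂ ∧
      1000 * (μ * (Q + 8)) ≤ kap * (1 / H₂) ∧
      1000 * γ' ≤ eps * del * kap * (1 / H₂) ∧
      eps * del * (μ * (Q + 8)) ≤ γ' ∧
      1 / ((K ^ 6 * H₁ * H₂ * Θ₁ * Θ₂ ^ 2 * Z ^ 2 * Q ^ 6 * Δ ^ 4 : ℕ) : ℝ) ≤ γ' ∧
      64 * (1 / ((K * Θ₂ * Q ^ 2 * Δ : ℕ) : ℝ) * Δ * (Q * (Q + 1))) ≤ 1 ∧
      64 * (1 / ((K * Θ₂ * Q ^ 2 * Δ : ℕ) : ℝ)) ≤ 1 / Θ₂ ∧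
      -- rounding of slopes to multiples of `1/M` in a given class modulo `pr`
      (pr:ℝ) / M ≤ μ * (del * (1 / Λ₁)) ∧
      -- the slope differences of the composed system
      2 / (del * Z) ≤ ((2 * K ^ 2 * Θ₁ * Θ₂ * Q ^ 2 * Δ ^ 2 : ℕ) : ℝ) ∧
      ((2 * K ^ 2 * Θ₁ * Θ₂ * Q ^ 2 * Δ ^ 2 : ℕ) : ℝ) ≤ 2 / (del * Z)

end K9
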