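import Mathlib

/-!
# Levels of line arrangements: systems of lines with a compensating family

A system has lines `A` (slope `s`, intercept `t`), auxiliary lines `D` (slope `u`,
intercept `v`) and events `R`: an event is the crossing point `(X, Y)` of the lines `a` and `b`.
-/

namespace K9

open Finset

structure Sys (A D R : Type) where
  s : A → ℝ
  t : A → ℝ
  u : D → ℝ
  v : D → ℝ
  X : R → ℝ
  Y : R → ℝ
  a : R → A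
  b : R → A

namespace Sys

variable {A D R : Type} (S : Sys A D R)

/-- slope difference at an event -/
def d (r : R) : ℝ := S.s (S.a r) - S.s (S.b r)

/-- slope of the pool line of an event -/
def p (y : ℝ) (r : R) : ℝ := S.s (S.a r) - y * S.d r

/-- height of the line with slope `σ` and intercept `τ` above the event `r` -/
def h (r : R) (σ τ : ℝ) : ℝ := σ * S.X r + τ - S.Y r

def hA (r : R) (c : A) : ℝ := S.h r (S.s c) (S.t c)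

def hD (r : R) (c : D) : ℝ := S.h r (S.u c) (S.v c)

/-- height above the event `r` of the pool line of the event `r'` -/
def hP (y : ℝ) (r r' : R) : ℝ := S.h r (S.p y r') (S.Y r' - S.p y r' * S.X r')

/-- metric properties -/
structure Geo (y τ γ : ℝ) : Prop where
  pos : ∀ r, 0 < S.d r
  a0 : ∀ r, S.hA r (S.a r) = 0
  b0 : ∀ r, S.hA r (S.b r) = 0
  gA : ∀ r c, c ≠ S.a r → c ≠ S.b r → γ * (|S.s c - S.p y r| / S.d r + 1) ≤ |S.hA r c|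
  gD : ∀ r c, γ * (|S.u c - S.p y r| / S.d r + 1) ≤ |S.hD r c|
  gP : ∀ r r', r' ≠ r → γ * (|S.p y r' - S.p y r| / S.d r + 1) ≤ |S.hP y r r'|
  sep : ∀ r r', r' ≠ r → τ * (S.d r' * |S.X r - S.X r'|) ≤ |S.hP y r r'|
  xs : ∀ r r', r' ≠ r → γ ≤ |S.X r - S.X r'| * S.d r

open scoped Classical in
/-- number of lines strictly below an event -/
noncomputable def kA [Fintype A] (r : R) : ℕ := ∑ c, if S.hA r c < 0 then 1 else 0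

open scoped Classical in
/-- number of auxiliary lines strictly below an event -/
noncomputable def kD [Fintype D] (r : R) : ℕ := ∑ c, if S.hD r c < 0 then 1 else 0

open scoped Classical in
/-- number of pool lines of other events strictly below an event -/
noncomputable def rk [Fintype R] (y : ℝ) (r : R) : ℕ :=
  ∑ r', if r' ≠ r ∧ S.hP y r r' < 0 then 1 else 0

/-- all events are at the same level, and the auxiliary lines compensate the pool lines -/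
structure Lev [Fintype A] [Fintype D] [Fintype R] (y : ℝ) (k c : ℕ) : Prop where
  lA : ∀ r, S.kA r = k
  lD : ∀ r, S.kD r + S.rk y r = c

structure Box (γ : ℝ) : Prop where
  s1 : ∀ c, |S.s c| ≤ 1
  u1 : ∀ c, |S.u c| ≤ 1
  t1 : ∀ c, |S.t c| + γ ≤ 3
  v1 : ∀ c, |S.v c| + γ ≤ 3
  X1 : ∀ r, |S.X r| + γ / S.d r ≤ 1
  Y1 : ∀ r, |S.Y r| + γ / S.d r ≤ 1

structure Arith (pr M : ℕ) : Prop where
  si : ∀ c, ∃ z : ℤ, (M:ℝ) * S.s c = z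
  ui : ∀ c, ∃ z : ℤ, (M:ℝ) * S.u c = z
  di : ∀ r (z : ℤ), (M:ℝ) * S.d r = z → ¬ (pr:ℤ) ∣ z

end Sys

/-- Outer block: at most `N` lines of slopes in `[-1,1]` which are multiples of `1/M`, events plus
auxiliary lines at most `B * N`, slope differences between `1/Λ` and `W/Λ`, separation `1/Θ`,
gap `1/H`; `β` is the normalised number of events per line. -/
def Out (pr : ℕ) (y : ℝ) (N B M Θ H Λ W : ℕ) (β : ℝ) : Prop :=
  (1 ≤ N ∧ 1 ≤ B ∧ 1 ≤ M ∧ 1 ≤ Θ ∧ 1 ≤ H ∧ 1 ≤ Λ ∧ 1 ≤ W) ∧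
  ∃ (A D R : Type) (_ : Fintype A) (_ : Fintype D) (_ : Fintype R) (_ : Nonempty R)
    (S : Sys A D R) (k c : ℕ),
    S.Geo y (1 / Θ) (1 / H) ∧ S.Lev y k c ∧ S.Box (1 / H) ∧ S.Arith pr M ∧
    (∀ r, 1 / (Λ:ℝ) ≤ S.d r ∧ S.d r ≤ W / Λ) ∧
    Fintype.card A ≤ N ∧ Fintype.card R + Fintype.card D ≤ B * N ∧
    β * N * 5253 ≤ 2500 * Fintype.card R

/-- Inner block: integer slopes of absolute value at most `Z`, pool slopes with denominator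
exactly `Q`, colours `col` of the lines which differ modulo `pr` at each event. -/
def Inn (pr : ℕ) (y : ℝ) (N B Z Q Θ H Λ W Δ : ℕ) (β : ℝ) : Prop :=
  (1 ≤ N ∧ 1 ≤ B ∧ 1 ≤ Z ∧ 1 ≤ Q ∧ 1 ≤ Θ ∧ 1 ≤ H ∧ 1 ≤ Λ ∧ 1 ≤ W ∧ 1 ≤ Δ) ∧
  ∃ (A D R : Type) (_ : Fintype A) (_ : Fintype D) (_ : Fintype R) (_ : Nonempty R)
    (S : Sys A D R) (k c : ℕ) (σ : A → ℤ) (ς : D → ℤ) (n : R → ℤ) (col : A → ℤ),
    S.Geo y (1 / Θ) (1 / H) ∧ S.Lev y k c ∧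
    (∀ c, S.s c = σ c ∧ |σ c| ≤ (Z:ℤ) ∧ |S.t c| ≤ 3 * Z) ∧
    (∀ c, S.u c = ς c ∧ |ς c| ≤ (Z:ℤ) ∧ |S.v c| ≤ 3 * Z) ∧
    (∀ r, |S.X r| ≤ 1 ∧ |S.Y r| ≤ Z) ∧
    (∀ r, (Z:ℝ) / Λ ≤ S.d r ∧ S.d r ≤ W * Z / Λ ∧ S.d r ≤ Δ) ∧
    (∀ r, (Q:ℝ) * S.p y r = n r ∧ IsCoprime (n r) (Q:ℤ)) ∧
    (∀ r, ¬ (pr:ℤ) ∣ col (S.a r) - col (S.b r)) ∧
    Fintype.card A ≤ N ∧ Fintype.card R + Fintype.card D ≤ B * N ∧
    β * N * 5253 ≤ 2500 * Fintype.card R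

/-- One composition. -/
def StepStmt (pr K : ℕ) (y : ℝ) : Prop :=
  ∀ (N₁ B₁ M₁ Θ₁ H₁ Λ₁ W₁ : ℕ) (β₁ : ℝ) (N₂ B₂ Z Q Θ₂ H₂ Λ₂ W₂ Δ M : ℕ) (β₂ : ℝ),
    0 ≤ β₁ → 0 ≤ β₂ → Out pr y N₁ B₁ M₁ Θ₁ H₁ Λ₁ W₁ β₁ →
    Inn pr y N₂ B₂ Z Q Θ₂ H₂ Λ₂ W₂ Δ β₂ → 50 * B₁ ≤ Q → M₁ ∣ M →
    K ^ 5 * Λ₁ * Θ₁ * H₂ * Z ^ 2 * Q ^ 6 * Δ ^ 4 * Θ₂ ^ 2 ≤ M →
    Out pr y (N₁ * (N₂ * Z * 515100) * B₁ ^ 2) (50 * B₁ * B₂) M (K * Θ₂ * Q ^ 2 * Δ)
      (K ^ 6 * H₁ * H₂ * Θ₁ * Θ₂ ^ 2 * Z ^ 2 * Q ^ 6 * Δ ^ 4)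
      (2 * K ^ 2 * Λ₁ * Λ₂ * Θ₁ * Θ₂ * Q ^ 2 * Δ ^ 2) (4 * W₁ * W₂) (β₁ * β₂)

/-- The composition statement for all parameters. -/
def StepAll : Prop :=
  ∀ pr : ℕ, pr.Prime → 2 < pr → ∀ y₀ : ℝ, 0 < y₀ → ∃ K : ℕ, 1 ≤ K ∧
    ∀ y, y₀ ≤ y → y ≤ 1 / 4 → StepStmt pr K y

/-- From an outer block to an inner block. -/
def FinStmt (pr : ℕ) : Prop :=
  ∀ (y : ℝ) (N B M Θ H Λ W : ℕ) (β : ℝ) (L Q Δ : ℕ), 0 ≤ y →
    Out pr y N B M Θ H Λ W β → (∃ i, L = pr ^ i) → (∃ i, 1 ≤ i ∧ Q = pr ^ i) →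
    (∃ z : ℤ, (L:ℝ) * y = z) → 8 * Θ ≤ L → M * L * W ≤ Δ * Λ →
    Inn pr (y + 1 / (Q * L)) N B (M * L) Q (2 * Θ) (4 * H) Λ W Δ β

/-- The trivial outer block: two crossing lines. -/
def StartStmt (pr : ℕ) : Prop :=
  ∀ y : ℝ, 0 ≤ y → y ≤ 1 → Out pr y 2 1 2 1 1 1 1 (2500 / 10506)

/-- The base block: 24 lines, 51 events. -/
def BaseStmt : Prop :=
  ∃ (pr i B M Θ H Λ W : ℕ), pr.Prime ∧ 2 < pr ∧ 8 ≤ pr ^ i ∧
    Out pr (1 / (pr:ℝ) ^ i) 24 B M Θ H Λ W (127500 / 126072)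

open Filter in
/-- Conclusion of the numerical part. -/
def RoundsStmt : Prop :=
  ∀ (C : ℝ) (H₀ : ℕ), ∀ᶠ m : ℕ in atTop, ∃ (pr : ℕ) (y : ℝ) (N B M Θ H Λ W : ℕ) (β : ℝ),
    Out pr y N B M Θ H Λ W β ∧ N * (24 * H₀ * 262650) * (B * N) ^ 2 ≤ m ∧
    ∀ x : ℝ, (m:ℝ) ≤ x → x ≤ 8 * m →
      C * Real.exp (Real.log x / Real.log (Real.log x) ^ 5) ≤ β

lemma Out.mono {pr : ℕ} {y : ℝ} {N B M Θ H Λ W : ℕ} {β : ℝ} (h : Out pr y N B M Θ H Λ W β)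
    {Θ' H' : ℕ} (hΘ : Θ ≤ Θ') (hH : H ≤ H') : Out pr y N B M Θ' H' Λ W β := by
  obtain ⟨⟨h1, h2, h3, h4, h5, h6, h7⟩, A, D, R, _, _, _, _, S, k, c, hG, hL, hB, hA, hd, hc⟩ := h
  have hΘ0 : (0:ℝ) < Θ := by exact_mod_cast h4
  have hH0 : (0:ℝ) < H := by exact_mod_cast h5
  have e1 : 1 / (Θ':ℝ) ≤ 1 / Θ := one_div_le_one_div_of_le hΘ0 (by exact_mod_cast hΘ)
  have e2 : 1 / (H':ℝ) ≤ 1 / H := one_div_le_one_div_of_le hH0 (by exact_mod_cast hH)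
  refine ⟨⟨h1, h2, h3, h4.trans hΘ, h5.trans hH, h6, h7⟩, A, D, R, inferInstance, inferInstance,
    inferInstance, inferInstance, S, k, c, ?_, hL, ?_, hA, hd, hc⟩
  · have hp := hG.pos
    refine ⟨hG.pos, hG.a0, hG.b0, fun r c h1 h2 => le_trans ?_ (hG.gA r c h1 h2),
      fun r c => le_trans ?_ (hG.gD r c), fun r r' h1 => le_trans ?_ (hG.gP r r' h1),
      fun r r' h1 => le_trans ?_ (hG.sep r r' h1), fun r r' h1 => le_trans e2 (hG.xs r r' h1)⟩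
    · exact mul_le_mul_of_nonneg_right e2 (by have := hp r; positivity)
    · exact mul_le_mul_of_nonneg_right e2 (by have := hp r; positivity)
    · exact mul_le_mul_of_nonneg_right e2 (by have := hp r; positivity)
    · exact mul_le_mul_of_nonneg_right e1 (by have := hp r'; positivity)
  · have hp := hG.pos
    refine ⟨hB.s1, hB.u1, fun c => by linarith [hB.t1 c], fun c => by linarith [hB.v1 c],
      fun r => ?_, fun r => ?_⟩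
    · have := div_le_div_of_nonneg_right e2 (hp r).le
      linarith [hB.X1 r]
    · have := div_le_div_of_nonneg_right e2 (hp r).le
      linarith [hB.Y1 r]

end K9
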