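import Pool.Agent.Helper48K9.Defs

/-!
# From an outer block to an inner block; the trivial outer block
-/

namespace K9

open Finset

namespace FinK

variable {A D R : Type}

/-- vertical scaling by `Z` -/
noncomputable def sc (S : Sys A D R) (Z : ℝ) : Sys A D R where
  s := fun c => Z * S.s c
  t := fun c => Z * S.t c
  u := fun c => Z * S.u c
  v := fun c => Z * S.v c
  X := S.X
  Y := fun r => Z * S.Y r
  a := S.a
  b := S.b

variable (S : Sys A D R) (Z : ℝ)

lemma d_eq (r : R) : (sc S Z).d r = Z * S.d r := by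
  simp only [Sys.d, sc]; ring

lemma p_eq (y : ℝ) (r : R) : (sc S Z).p y r = Z * S.p y r := by
  simp only [Sys.p, Sys.d, sc]; ring

lemma hA_eq (r : R) (c : A) : (sc S Z).hA r c = Z * S.hA r c := by
  simp only [Sys.hA, Sys.h, sc]; ring

lemma hD_eq (r : R) (c : D) : (sc S Z).hD r c = Z * S.hD r c := by
  simp only [Sys.hD, Sys.h, sc]; ring

lemma hP_eq (y : ℝ) (r r' : R) : (sc S Z).hP y r r' = Z * S.hP y r r' := by
  simp only [Sys.hP, Sys.h, Sys.p, Sys.d, sc]; ring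

lemma hP_shift (y w : ℝ) (r r' : R) : S.hP (y + w) r r' =
    S.hP y r r' - w * (S.d r' * (S.X r - S.X r')) := by
  simp only [Sys.hP, Sys.h, Sys.p, Sys.d]; ring

lemma p_shift (y w : ℝ) (r : R) : S.p (y + w) r = S.p y r - w * S.d r := by
  simp only [Sys.p, Sys.d]; ring

/-- change of the parameter `y` -/
lemma geo_shift {y w : ℝ} {Θ H : ℕ} (hΘ : 1 ≤ Θ) (hH : 1 ≤ H) (hw : 0 ≤ w) (hwΘ : 8 * Θ * w ≤ 1)
    (hG : S.Geo y (1 / Θ) (1 / H)) :
    (∀ r r', r' ≠ r → (S.hP (y + w) r r' < 0 ↔ S.hP y r r' < 0) ) ∧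
      S.Geo (y + w) (1 / (2 * Θ : ℕ)) (1 / (4 * H : ℕ)) := by
  have hΘ0 : (0:ℝ) < Θ := by exact_mod_cast hΘ
  have hH0 : (0:ℝ) < H := by exact_mod_cast hH
  have hΘ1 : (1:ℝ) ≤ Θ := by exact_mod_cast hΘ
  have hw1 : w ≤ 1 / 8 := by nlinarith
  have key : ∀ r r', r' ≠ r → |w * (S.d r' * (S.X r - S.X r'))| ≤ |S.hP y r r'| / 8 := by
    intro r r' h
    have h1 := hG.sep r r' h
    have h2 : S.d r' * |S.X r - S.X r'| ≤ Θ * |S.hP y r r'| := by
      rw [one_div, inv_mul_le_iff₀ hΘ0] at h1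
      exact h1
    have h3 : |w * (S.d r' * (S.X r - S.X r'))| = w * (S.d r' * |S.X r - S.X r'|) := by
      rw [abs_mul, abs_mul, abs_of_nonneg hw, abs_of_pos (hG.pos r')]
    rw [h3]
    have h4 := mul_le_mul_of_nonneg_left h2 hw
    have h5 := abs_nonneg (S.hP y r r')
    have h6 : w * (Θ * |S.hP y r r'|) = (8 * Θ * w) * |S.hP y r r'| / 8 := by ring
    have h7 : (8 * Θ * w) * |S.hP y r r'| ≤ 1 * |S.hP y r r'| := mul_le_mul_of_nonneg_right hwΘ h5
    linarith
  have low : ∀ r r', r' ≠ r → 7 / 8 * |S.hP y r r'| ≤ |S.hP (y + w) r r'| := by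
    intro r r' h
    rw [hP_shift]
    have h1 := key r r' h
    have h2 := abs_sub_abs_le_abs_sub (S.hP y r r') (w * (S.d r' * (S.X r - S.X r')))
    linarith
  have eΘ : 1 / ((2 * Θ : ℕ) : ℝ) = 1 / 2 * (1 / Θ) := by push_cast; field_simp
  have eH : 1 / ((4 * H : ℕ) : ℝ) = 1 / 4 * (1 / H) := by push_cast; field_simp
  rw [eΘ, eH]
  have hh0 : (0:ℝ) < 1 / H := by positivity
  have line : ∀ r (σ x : ℝ), 1 / (H:ℝ) * (|σ - S.p y r| / S.d r + 1) ≤ |x| →
      1 / 4 * (1 / (H:ℝ)) * (|σ - S.p (y + w) r| / S.d r + 1) ≤ |x| := by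
    intro r σ x h
    refine le_trans ?_ h
    have hd := hG.pos r
    have e1 : |σ - S.p (y + w) r| / S.d r ≤ |σ - S.p y r| / S.d r + w := by
      rw [div_add' _ _ _ hd.ne', div_le_div_iff_of_pos_right hd, p_shift]
      have : σ - (S.p y r - w * S.d r) = (σ - S.p y r) + w * S.d r := by ring
      rw [this]
      refine (abs_add_le _ _).trans ?_
      rw [abs_of_nonneg (mul_nonneg hw hd.le)]
    have e2 : 0 ≤ |σ - S.p y r| / S.d r := div_nonneg (abs_nonneg _) hd.le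
    rw [mul_assoc, mul_left_comm]
    apply mul_le_mul_of_nonneg_left _ hh0.le
    linarith
  refine ⟨fun r r' h => ?_, ⟨hG.pos, hG.a0, hG.b0, fun r c h1 h2 => line r _ _ (hG.gA r c h1 h2),
    fun r c => line r _ _ (hG.gD r c), fun r r' h => ?_, fun r r' h => ?_, fun r r' h => ?_⟩⟩
  · have h1 := key r r' h
    have hd := hG.pos r
    have h0 : 0 < |S.hP y r r'| := by
      refine lt_of_lt_of_le ?_ (hG.gP r r' h)
      have : 0 ≤ |S.p y r' - S.p y r| / S.d r := div_nonneg (abs_nonneg _) hd.le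
      positivity
    rw [hP_shift]
    have h2 := abs_le.mp h1
    constructor
    · intro h3
      by_contra h4
      rw [abs_of_nonneg (not_lt.mp h4)] at h2 h0
      linarith [h2.2]
    · intro h3
      rw [abs_of_neg h3] at h2
      linarith [h2.1]
  · refine le_trans ?_ (low r r' h)
    have hd := hG.pos r
    have hd' := hG.pos r'
    have g1 := hG.gP r r' h
    have g2 := hG.sep r r' h
    have g3 := hG.xs r r' h
    -- `d r' / d r ≤ Θ H |hP|`
    have g4 : S.d r' / S.d r ≤ Θ * H * |S.hP y r r'| := by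
      rw [one_div, inv_mul_le_iff₀ hΘ0] at g2
      have g5 : 1 / (H:ℝ) * (1 / S.d r) ≤ |S.X r - S.X r'| := by
        rw [mul_one_div, div_le_iff₀ hd]; exact g3
      have g6 : S.d r' * (1 / (H:ℝ) * (1 / S.d r)) ≤ Θ * |S.hP y r r'| :=
        (mul_le_mul_of_nonneg_left g5 hd'.le).trans g2
      have g7 : S.d r' * (1 / (H:ℝ) * (1 / S.d r)) = S.d r' / S.d r / H := by field_simp
      rw [g7, div_le_iff₀ hH0] at g6
      linarith
    have g8 : |S.p (y + w) r' - S.p (y + w) r| / S.d r ≤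
        |S.p y r' - S.p y r| / S.d r + w * (S.d r' / S.d r) + w := by
      have e : |S.p y r' - S.p y r| / S.d r + w * (S.d r' / S.d r) + w =
          (|S.p y r' - S.p y r| + w * S.d r' + w * S.d r) / S.d r := by field_simp
      rw [e, div_le_div_iff_of_pos_right hd, p_shift, p_shift]
      have e2 : S.p y r' - w * S.d r' - (S.p y r - w * S.d r) =
          (S.p y r' - S.p y r) + (w * S.d r - w * S.d r') := by ring
      rw [e2]
      refine (abs_add_le _ _).trans ?_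
      rw [add_assoc]
      apply add_le_add le_rfl
      have h1 := mul_nonneg hw hd.le
      have h2 := mul_nonneg hw hd'.le
      rw [abs_le]
      constructor <;> linarith
    obtain ⟨a, ha⟩ : ∃ a, a = |S.hP y r r'| := ⟨_, rfl⟩
    obtain ⟨q, hq⟩ : ∃ q, q = |S.p y r' - S.p y r| / S.d r := ⟨_, rfl⟩
    obtain ⟨η, hη⟩ : ∃ η : ℝ, η = 1 / H := ⟨_, rfl⟩
    rw [← ha] at g1 g4 ⊢
    rw [← hq] at g1 g8
    rw [← hη] at g1 hh0 ⊢
    have hq0 : 0 ≤ q := by rw [hq]; exact div_nonneg (abs_nonneg _) hd.le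
    have hηH : η * H = 1 := by rw [hη]; field_simp
    have g9 : η * (w * (S.d r' / S.d r)) ≤ a / 8 := by
      have h1 : w * (S.d r' / S.d r) ≤ w * (Θ * H * a) := mul_le_mul_of_nonneg_left g4 hw
      have h2 : η * (w * (S.d r' / S.d r)) ≤ η * (w * (Θ * H * a)) :=
        mul_le_mul_of_nonneg_left h1 hh0.le
      have h3 : η * (w * (Θ * H * a)) = (η * H) * ((8 * Θ * w) * a) / 8 := by ring
      have ha0 : 0 ≤ a := by rw [ha]; exact abs_nonneg _
      rw [h3, hηH, one_mul] at h2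
      have h4 : (8 * Θ * w) * a ≤ 1 * a := mul_le_mul_of_nonneg_right hwΘ ha0
      linarith
    have g10 : η * q + η ≤ a := by nlinarith
    have g11 : η * w ≤ η * (1 / 8) := mul_le_mul_of_nonneg_left hw1 hh0.le
    have g12 : 0 ≤ η * q := mul_nonneg hh0.le hq0
    calc 1 / 4 * η * (|S.p (y + w) r' - S.p (y + w) r| / S.d r + 1)
        ≤ 1 / 4 * η * (q + w * (S.d r' / S.d r) + w + 1) := by
          apply mul_le_mul_of_nonneg_left _ (by linarith)
          linarith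
      _ = 1 / 4 * (η * q + η) + 1 / 4 * (η * (w * (S.d r' / S.d r))) + 1 / 4 * (η * w) := by ring
      _ ≤ 7 / 8 * a := by linarith
  · refine le_trans ?_ (low r r' h)
    have h1 := hG.sep r r' h
    have h2 := abs_nonneg (S.hP y r r')
    rw [mul_assoc]
    linarith
  · have h1 := hG.xs r r' h
    linarith

/-- vertical scaling -/
lemma geo_scale {y τ γ : ℝ} (hZ : 1 ≤ Z) (hG : S.Geo y τ γ) : (sc S Z).Geo y τ γ := by
  have hZ0 : 0 < Z := by linarith
  have big : ∀ x : ℝ, |x| ≤ |Z * x| := by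
    intro x
    rw [abs_mul, abs_of_pos hZ0]
    nlinarith [abs_nonneg x]
  have quo : ∀ (σ p d : ℝ), |Z * σ - Z * p| / (Z * d) = |σ - p| / d := by
    intro σ p d
    rw [← mul_sub, abs_mul, abs_of_pos hZ0, mul_div_mul_left _ _ hZ0.ne']
  refine ⟨fun r => ?_, fun r => ?_, fun r => ?_, fun r c h1 h2 => ?_, fun r c => ?_,
    fun r r' h => ?_, fun r r' h => ?_, fun r r' h => ?_⟩
  · rw [d_eq]; exact mul_pos hZ0 (hG.pos r)
  · have h := hG.a0 r
    rw [hA_eq]
    show Z * S.hA r (S.a r) = 0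
    rw [h, mul_zero]
  · have h := hG.b0 r
    rw [hA_eq]
    show Z * S.hA r (S.b r) = 0
    rw [h, mul_zero]
  · have h := hG.gA r c h1 h2
    rw [hA_eq, d_eq, p_eq]
    show γ * (|Z * S.s c - Z * S.p y r| / (Z * S.d r) + 1) ≤ _
    rw [quo]
    exact h.trans (big _)
  · have h := hG.gD r c
    rw [hD_eq, d_eq, p_eq]
    show γ * (|Z * S.u c - Z * S.p y r| / (Z * S.d r) + 1) ≤ _
    rw [quo]
    exact h.trans (big _)
  · have h := hG.gP r r' h
    rw [hP_eq, d_eq, p_eq, p_eq, quo]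
    exact h.trans (big _)
  · have h := hG.sep r r' h
    rw [hP_eq, d_eq]
    show τ * (Z * S.d r' * |S.X r - S.X r'|) ≤ _
    rw [abs_mul, abs_of_pos hZ0]
    nlinarith
  · have h1 := hG.xs r r' h
    rw [d_eq]
    show γ ≤ |S.X r - S.X r'| * (Z * S.d r)
    have h2 : 0 ≤ |S.X r - S.X r'| * S.d r := mul_nonneg (abs_nonneg _) (hG.pos r).le
    nlinarith

lemma lev_scale [Fintype A] [Fintype D] [Fintype R] {y : ℝ} {k c : ℕ} (hZ : 0 < Z)
    (hL : S.Lev y k c) : (sc S Z).Lev y k c := by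
  have neg : ∀ x : ℝ, Z * x < 0 ↔ x < 0 := by
    intro x
    constructor
    · intro h
      by_contra h2
      nlinarith [mul_nonneg hZ.le (not_lt.mp h2)]
    · intro h
      exact mul_neg_of_pos_of_neg hZ h
  refine ⟨fun r => ?_, fun r => ?_⟩
  · rw [← hL.lA r]
    unfold Sys.kA
    apply Finset.sum_congr rfl
    intro x _
    simp only [hA_eq, neg]
  · rw [← hL.lD r]
    have e1 : (sc S Z).kD r = S.kD r := by
      unfold Sys.kD
      apply Finset.sum_congr rfl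
      intro x _
      simp only [hD_eq, neg]
    have e2 : (sc S Z).rk y r = S.rk y r := by
      unfold Sys.rk
      apply Finset.sum_congr rfl
      intro x _
      have h1 : (x ≠ r ∧ (sc S Z).hP y r x < 0) ↔ (x ≠ r ∧ S.hP y r x < 0) := by
        rw [hP_eq, neg]
      by_cases h : x ≠ r ∧ S.hP y r x < 0
      · rw [if_pos h, if_pos (h1.mpr h)]
      · rw [if_neg h, if_neg (fun h' => h (h1.mp h'))]
    rw [e1, e2]

end FinK

theorem finStmt (pr : ℕ) (hpr : pr.Prime) : FinStmt pr := by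
  classical
  rintro y N B M Θ H Λ W β L Q Δ hy ⟨⟨h1, h2, h3, h4, h5, h6, h7⟩, A, D, R, iA, iD, iR, iN, S, k, c,
    hG, hL, hB, hA, hd, hc1, hc2, hc3⟩ ⟨i, hLi⟩ ⟨j, hj1, hQj⟩ ⟨zy, hzy⟩ h8 hΔ
  have hL1 : 1 ≤ L := by rw [hLi]; exact Nat.one_le_pow _ _ hpr.pos
  have hQ1 : 1 ≤ Q := by rw [hQj]; exact Nat.one_le_pow _ _ hpr.pos
  have hL0 : (0:ℝ) < L := by exact_mod_cast hL1
  have hQ0 : (0:ℝ) < Q := by exact_mod_cast hQ1
  have hM0 : (0:ℝ) < M := by exact_mod_cast h3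
  have hΛ0 : (0:ℝ) < Λ := by exact_mod_cast h6
  have hZ1 : 1 ≤ M * L := Nat.one_le_iff_ne_zero.mpr (by positivity)
  have hZ1' : (1:ℝ) ≤ ((M * L : ℕ) : ℝ) := by exact_mod_cast hZ1
  have hZ0 : (0:ℝ) < ((M * L : ℕ) : ℝ) := by linarith
  have hΔ1 : 1 ≤ Δ := by
    rcases Nat.eq_zero_or_pos Δ with h | h
    · rw [h, zero_mul] at hΔ
      have : 1 ≤ M * L * W := Nat.one_le_iff_ne_zero.mpr (by positivity)
      omega
    · exact h
  obtain ⟨w, hw⟩ : ∃ w : ℝ, w = 1 / (Q * L) := ⟨_, rfl⟩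
  have hw0 : 0 ≤ w := by rw [hw]; positivity
  have hwΘ : 8 * Θ * w ≤ 1 := by
    rw [hw, mul_one_div, div_le_one (by positivity)]
    have e1 : ((8 * Θ : ℕ) : ℝ) ≤ L := by exact_mod_cast h8
    have e2 : (1:ℝ) ≤ Q := by exact_mod_cast hQ1
    push_cast at e1
    nlinarith
  obtain ⟨hsgn, hG2⟩ := FinK.geo_shift S h4 h5 hw0 hwΘ hG
  have hL2 : S.Lev (y + w) k c := by
    refine ⟨hL.lA, fun r => ?_⟩
    rw [← hL.lD r]
    congr 1
    unfold Sys.rk
    apply Finset.sum_congr rfl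
    intro r' _
    by_cases h : r' ≠ r
    · simp only [hsgn r r' h]
    · simp only [h, false_and]
  choose sz hsz using hA.si
  choose uz huz using hA.ui
  have hdz : ∀ r, (M:ℝ) * S.d r = ((sz (S.a r) - sz (S.b r) : ℤ) : ℝ) := by
    intro r
    push_cast
    rw [← hsz, ← hsz, Sys.d]; ring
  rw [← hw]
  have cast3 : ((M * L : ℕ) : ℝ) = M * L := by push_cast; ring
  refine ⟨⟨h1, h2, hZ1, hQ1, by omega, by omega, h6, h7, hΔ1⟩, A, D, R, iA, iD, iR, iN,
    FinK.sc S ((M * L : ℕ) : ℝ), k, c, fun c => L * sz c, fun c => L * uz c,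
    fun r => Q * L * sz (S.a r) - Q * zy * (sz (S.a r) - sz (S.b r)) - (sz (S.a r) - sz (S.b r)), sz,
    FinK.geo_scale S _ hZ1' hG2, FinK.lev_scale S _ hZ0 hL2, fun c => ?_, fun c => ?_, fun r => ?_,
    fun r => ?_, fun r => ?_, fun r => ?_, hc1, hc2, hc3⟩
  · have e1 : (FinK.sc S ((M * L : ℕ) : ℝ)).s c = ((L * sz c : ℤ) : ℝ) := by
      show ((M * L : ℕ) : ℝ) * S.s c = _
      push_cast
      rw [← hsz]; ring
    refine ⟨e1, ?_, ?_⟩
    · have e2 : |((L * sz c : ℤ) : ℝ)| ≤ ((M * L : ℕ) : ℝ) := by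
        rw [← e1]
        show |((M * L : ℕ) : ℝ) * S.s c| ≤ _
        rw [abs_mul, abs_of_pos hZ0]
        nlinarith [hB.s1 c]
      exact_mod_cast e2
    · show |((M * L : ℕ) : ℝ) * S.t c| ≤ _
      rw [abs_mul, abs_of_pos hZ0]
      have := hB.t1 c
      have e3 : (0:ℝ) < 1 / H := by positivity
      nlinarith
  · have e1 : (FinK.sc S ((M * L : ℕ) : ℝ)).u c = ((L * uz c : ℤ) : ℝ) := by
      show ((M * L : ℕ) : ℝ) * S.u c = _
      push_cast
      rw [← huz]; ring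
    refine ⟨e1, ?_, ?_⟩
    · have e2 : |((L * uz c : ℤ) : ℝ)| ≤ ((M * L : ℕ) : ℝ) := by
        rw [← e1]
        show |((M * L : ℕ) : ℝ) * S.u c| ≤ _
        rw [abs_mul, abs_of_pos hZ0]
        nlinarith [hB.u1 c]
      exact_mod_cast e2
    · show |((M * L : ℕ) : ℝ) * S.v c| ≤ _
      rw [abs_mul, abs_of_pos hZ0]
      have := hB.v1 c
      have e3 : (0:ℝ) < 1 / H := by positivity
      nlinarith
  · have e1 := hB.X1 r
    have e2 := hB.Y1 r
    have e3 : (0:ℝ) ≤ 1 / H / S.d r := div_nonneg (by positivity) (hG.pos r).le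
    refine ⟨?_, ?_⟩
    · show |S.X r| ≤ 1
      linarith
    · show |((M * L : ℕ) : ℝ) * S.Y r| ≤ _
      rw [abs_mul, abs_of_pos hZ0]
      nlinarith
  · obtain ⟨e1, e2⟩ := hd r
    rw [FinK.d_eq]
    have e4 : ((M * L : ℕ) : ℝ) * S.d r ≤ W * ((M * L : ℕ) : ℝ) / Λ := by
      have := mul_le_mul_of_nonneg_left e2 hZ0.le
      calc _ ≤ ((M * L : ℕ) : ℝ) * (W / Λ) := this
        _ = _ := by ring
    refine ⟨?_, e4, e4.trans ?_⟩
    · have := mul_le_mul_of_nonneg_left e1 hZ0.le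
      calc _ = ((M * L : ℕ) : ℝ) * (1 / Λ) := by ring
        _ ≤ _ := this
    · rw [div_le_iff₀ hΛ0]
      have : ((M * L * W : ℕ) : ℝ) ≤ ((Δ * Λ : ℕ) : ℝ) := by exact_mod_cast hΔ
      push_cast at this ⊢
      linarith
  · obtain ⟨n, hn⟩ : ∃ n : ℤ, n = Q * L * sz (S.a r) - Q * zy * (sz (S.a r) - sz (S.b r)) -
        (sz (S.a r) - sz (S.b r)) := ⟨_, rfl⟩
    refine ⟨?_, ?_⟩
    · rw [FinK.p_eq]
      have e1 := hdz r
      have e2 := hsz (S.a r)
      push_cast at e1 ⊢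
      have e3 : (Q:ℝ) * L * w = 1 := by rw [hw]; field_simp
      have e4 : (Q:ℝ) * (M * L * S.p (y + w) r) = Q * L * (M * S.s (S.a r)) -
          Q * (L * y) * (M * S.d r) - (Q * L * w) * (M * S.d r) := by
        unfold Sys.p; ring
      rw [e4, e3, hzy, e1, e2, one_mul]
    · show IsCoprime (Q * L * sz (S.a r) - Q * zy * (sz (S.a r) - sz (S.b r)) -
        (sz (S.a r) - sz (S.b r))) (Q:ℤ)
      rw [← hn]
      have hprI : Prime (pr : ℤ) := Nat.prime_iff_prime_int.mp hpr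
      have hnd : ¬ (pr:ℤ) ∣ n := by
        intro h
        apply hA.di r _ (hdz r)
        have e1 : (pr:ℤ) ∣ (Q:ℤ) := by
          rw [hQj]; push_cast
          exact dvd_pow_self _ (by omega)
        have e2 : sz (S.a r) - sz (S.b r) = Q * (L * sz (S.a r) - zy * (sz (S.a r) - sz (S.b r))) - n := by
          rw [hn]; ring
        rw [e2]
        exact dvd_sub (Dvd.dvd.mul_right e1 _) h
      rw [hQj]
      push_cast
      apply IsCoprime.pow_right
      rw [isCoprime_comm]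
      exact (Prime.coprime_iff_not_dvd hprI).mpr hnd
  · exact hA.di r _ (hdz r)

theorem startStmt (pr : ℕ) (_hpr : pr.Prime) (h : 2 < pr) : StartStmt pr := by
  classical
  intro y _ _
  refine ⟨by norm_num, Bool, Empty, Unit, inferInstance, inferInstance, inferInstance, inferInstance,
    ⟨fun b => if b then 1 / 2 else -1 / 2, fun _ => 0, fun _ => 0, fun _ => 0, fun _ => 0, fun _ => 0,
      fun _ => true, fun _ => false⟩, 0, 0, ⟨fun r => ?_, fun r => ?_, fun r => ?_, fun r c h1 h2 => ?_,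
      fun r c => c.elim, fun r r' h => absurd rfl h, fun r r' h => absurd rfl h,
      fun r r' h => absurd rfl h⟩, ⟨fun r => ?_, fun r => ?_⟩, ⟨fun c => ?_, fun c => ?_, fun c => ?_,
      fun c => ?_, fun r => ?_, fun r => ?_⟩, ⟨fun c => ?_, fun c => c.elim, fun r z hz => ?_⟩,
      fun r => ?_, by simp, by simp, by simp; norm_num⟩
  · simp [Sys.d]; norm_num
  · simp [Sys.hA, Sys.h]
  · simp [Sys.hA, Sys.h]
  · cases c
    · exact absurd rfl h2
    · exact absurd rfl h1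
  · simp [Sys.kA, Sys.hA, Sys.h]
  · simp [Sys.kD, Sys.rk]
  · dsimp only
    split_ifs <;> norm_num [abs_le]
  · norm_num
  · norm_num
  · norm_num
  · simp [Sys.d]; norm_num
  · simp [Sys.d]; norm_num
  · cases c
    · exact ⟨-1, by norm_num⟩
    · exact ⟨1, by norm_num⟩
  · simp [Sys.d] at hz
    have hz2 : (z:ℝ) = ((2:ℤ):ℝ) := by rw [← hz]; norm_num
    have hz3 : z = 2 := by exact_mod_cast hz2
    rw [hz3]
    intro h2
    have := Int.le_of_dvd (by norm_num) h2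
    omega
  · simp [Sys.d]; norm_num

end K9
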