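import Pool.Agent.Helper48K9.Ctx

/-!
# Leaf GA: slope differences and pool slopes of the composed system
-/

namespace K9

open Finset

namespace GAaux

/-- difference of two values of `z / (1 + lam z)` -/
lemma mob_sub {lam a b : ℝ} (ha : 1 + lam * a ≠ 0) (hb : 1 + lam * b ≠ 0) :
    a / (1 + lam * a) - b / (1 + lam * b) = (a - b) / ((1 + lam * a) * (1 + lam * b)) := by
  rw [div_sub_div _ _ ha hb]
  congr 1
  ring

lemma mob_lip {lam a b Z : ℝ} (hl : 0 < lam) (ha : |a| ≤ Z) (hb : |b| ≤ Z)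
    (hZ : lam * Z ≤ 1 / 64) :
    |a / (1 + lam * a) - b / (1 + lam * b)| ≤ 104 / 100 * |a - b| := by
  obtain ⟨a1, a2⟩ := one_add_bd hl ha hZ
  obtain ⟨b1, b2⟩ := one_add_bd hl hb hZ
  have a0 : 0 < 1 + lam * a := by linarith
  have b0 : 0 < 1 + lam * b := by linarith
  rw [mob_sub a0.ne' b0.ne', abs_div, abs_of_pos (mul_pos a0 b0), div_le_iff₀ (mul_pos a0 b0)]
  have h1 : (63/64) * (63/64) ≤ (1 + lam * a) * (1 + lam * b) :=
    mul_le_mul a1 b1 (by norm_num) a0.le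
  have h0 := abs_nonneg (a - b)
  nlinarith

lemma mob_low {lam a b Z : ℝ} (hl : 0 < lam) (ha : |a| ≤ Z) (hb : |b| ≤ Z)
    (hZ : lam * Z ≤ 1 / 64) (hab : 0 ≤ a - b) :
    96 / 100 * (a - b) ≤ a / (1 + lam * a) - b / (1 + lam * b) := by
  obtain ⟨a1, a2⟩ := one_add_bd hl ha hZ
  obtain ⟨b1, b2⟩ := one_add_bd hl hb hZ
  have a0 : 0 < 1 + lam * a := by linarith
  have b0 : 0 < 1 + lam * b := by linarith
  rw [mob_sub a0.ne' b0.ne', le_div_iff₀ (mul_pos a0 b0)]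
  have h1 : (1 + lam * a) * (1 + lam * b) ≤ (65/64) * (65/64) :=
    mul_le_mul a2 b2 b0.le (by norm_num)
  nlinarith

lemma mob_abs {lam a Z : ℝ} (hl : 0 < lam) (ha : |a| ≤ Z) (hZ : lam * Z ≤ 1 / 64) :
    |a / (1 + lam * a)| ≤ 102 / 100 * |a| := by
  obtain ⟨a1, a2⟩ := one_add_bd hl ha hZ
  have a0 : 0 < 1 + lam * a := by linarith
  rw [abs_div, abs_of_pos a0, div_le_iff₀ a0]
  have h0 := abs_nonneg a
  nlinarith

/-- the mean of two values against the value at the mean -/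
lemma mob_mean {lam y a b Z Δ : ℝ} (hl : 0 < lam) (hy : 0 ≤ y) (hy1 : y ≤ 1) (ha : |a| ≤ Z)
    (hb : |b| ≤ Z) (hZ : lam * Z ≤ 1 / 64) (hab : |a - b| ≤ Δ) :
    |((1 - y) * (a / (1 + lam * a)) + y * (b / (1 + lam * b))) -
      (a - y * (a - b)) / (1 + lam * (a - y * (a - b)))| ≤ lam * Δ ^ 2 := by
  obtain ⟨a1, a2⟩ := one_add_bd hl ha hZ
  obtain ⟨b1, b2⟩ := one_add_bd hl hb hZ
  have a0 : 0 < 1 + lam * a := by linarith
  have b0 : 0 < 1 + lam * b := by linarith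
  have hp : |a - y * (a - b)| ≤ Z := by
    have e : a - y * (a - b) = (1 - y) * a + y * b := by ring
    rw [e]
    refine (abs_add_le _ _).trans ?_
    rw [abs_mul, abs_mul, abs_of_nonneg hy, abs_of_nonneg (by linarith : (0:ℝ) ≤ 1 - y)]
    nlinarith
  obtain ⟨p1, p2⟩ := one_add_bd hl hp hZ
  have p0 : 0 < 1 + lam * (a - y * (a - b)) := by linarith
  have e : ((1 - y) * (a / (1 + lam * a)) + y * (b / (1 + lam * b))) -
      (a - y * (a - b)) / (1 + lam * (a - y * (a - b))) =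
      -(y * (1 - y) * lam * (a - b) ^ 2 /
        ((1 + lam * a) * (1 + lam * b) * (1 + lam * (a - y * (a - b))))) := by
    have a0' := a0.ne'
    have b0' := b0.ne'
    have p0' := p0.ne'
    have e1 : (1 - y) * (a / (1 + lam * a)) + y * (b / (1 + lam * b)) =
        ((1 - y) * a * (1 + lam * b) + y * b * (1 + lam * a)) /
          ((1 + lam * a) * (1 + lam * b)) := by
      rw [← mul_div_assoc, ← mul_div_assoc, div_add_div _ _ a0' b0']
      congr 1
      ring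
    rw [e1, div_sub_div _ _ (mul_ne_zero a0' b0') p0', ← neg_div]
    congr 1
    ring
  rw [e, abs_neg]
  have h1 : 0 ≤ y * (1 - y) := mul_nonneg hy (by linarith)
  have h2 : y * (1 - y) ≤ 1/4 := by nlinarith [sq_nonneg (y - 1/2)]
  rw [abs_of_nonneg (by positivity), div_le_iff₀ (by positivity)]
  have h3 : (a - b) ^ 2 ≤ Δ ^ 2 := by
    rw [← sq_abs (a - b)]
    exact pow_le_pow_left₀ (abs_nonneg _) hab 2
  have h4 : (9/10:ℝ) ≤ (1 + lam * a) * (1 + lam * b) := by nlinarith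
  have h4' : (1/4:ℝ) ≤ (1 + lam * a) * (1 + lam * b) * (1 + lam * (a - y * (a - b))) := by
    nlinarith
  have h5 : 0 ≤ lam * Δ ^ 2 := by positivity
  calc y * (1 - y) * lam * (a - b) ^ 2 = (y * (1 - y)) * (lam * (a - b) ^ 2) := by ring
    _ ≤ (1/4) * (lam * Δ ^ 2) :=
      mul_le_mul h2 (mul_le_mul_of_nonneg_left h3 hl.le) (by positivity) (by norm_num)
    _ ≤ lam * Δ ^ 2 *
        ((1 + lam * a) * (1 + lam * b) * (1 + lam * (a - y * (a - b)))) := by nlinarith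

/-- comparison of a slope with the inner system -/
lemma cmp {D lam y a b z Z μ wa wb w p₁ : ℝ} (hD : 0 < D) (hl : 0 < lam) (hy : 0 ≤ y)
    (hy1 : y ≤ 1 / 4) (ha : |a| ≤ Z) (hb : |b| ≤ Z) (hz : |z| ≤ Z) (hZ : lam * Z ≤ 1 / 64)
    (hab : 1 ≤ a - b) (hμ : μ ≤ 1 / 1000)
    (h1 : |wa - (p₁ + D * (a / (1 + lam * a)))| ≤ μ * D)
    (h2 : |wb - (p₁ + D * (b / (1 + lam * b)))| ≤ μ * D)
    (h3 : |w - (p₁ + D * (z / (1 + lam * z)))| ≤ μ * D)
    (hdn : 9 / 10 * (D * (a - b)) ≤ wa - wb) :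
    |w - (wa - y * (wa - wb))| / (wa - wb) + 1 ≤
      2 * (|z - (a - y * (a - b))| / (a - b) + 1) := by
  have hd0 : 0 < a - b := by linarith
  have hw0 : 0 < wa - wb := by
    have := mul_pos hD hd0
    linarith
  have key : ∀ c wc : ℝ, |c| ≤ Z → |wc - (p₁ + D * (c / (1 + lam * c)))| ≤ μ * D →
      |w - wc| ≤ D * (104 / 100 * |z - c|) + 2 * μ * D := by
    intro c wc hc hwc
    have e : w - wc = (w - (p₁ + D * (z / (1 + lam * z)))) - (wc - (p₁ + D * (c / (1 + lam * c))))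
        + D * (z / (1 + lam * z) - c / (1 + lam * c)) := by ring
    have h4 := mob_lip hl hz hc hZ
    have h5 : |D * (z / (1 + lam * z) - c / (1 + lam * c))| ≤ D * (104 / 100 * |z - c|) := by
      rw [abs_mul, abs_of_pos hD]
      exact mul_le_mul_of_nonneg_left h4 hD.le
    rw [e]
    refine (abs_add_le _ _).trans ?_
    have h6 := abs_sub (w - (p₁ + D * (z / (1 + lam * z)))) (wc - (p₁ + D * (c / (1 + lam * c))))
    linarith
  have ka := key a wa ha h1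
  have kb := key b wb hb h2
  have hza : |z - a| ≤ |z - (a - y * (a - b))| + y * (a - b) := by
    have e : z - a = (z - (a - y * (a - b))) + (-(y * (a - b))) := by ring
    calc |z - a| = |(z - (a - y * (a - b))) + (-(y * (a - b)))| := by rw [← e]
      _ ≤ _ := (abs_add_le _ _).trans (by rw [abs_neg, abs_of_nonneg (mul_nonneg hy hd0.le)])
  have hzb : |z - b| ≤ |z - (a - y * (a - b))| + (1 - y) * (a - b) := by
    have e : z - b = (z - (a - y * (a - b))) + (1 - y) * (a - b) := by ring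
    have h5 : 0 ≤ (1 - y) * (a - b) := mul_nonneg (by linarith) hd0.le
    calc |z - b| = |(z - (a - y * (a - b))) + (1 - y) * (a - b)| := by rw [← e]
      _ ≤ _ := (abs_add_le _ _).trans (by rw [abs_of_nonneg h5])
  have hw : |w - (wa - y * (wa - wb))| ≤
      D * (104 / 100 * (|z - (a - y * (a - b))| + 3/8 * (a - b))) + 2 * μ * D := by
    have e : w - (wa - y * (wa - wb)) = (1 - y) * (w - wa) + y * (w - wb) := by ring
    rw [e]
    refine (abs_add_le _ _).trans ?_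
    rw [abs_mul, abs_mul, abs_of_nonneg hy, abs_of_nonneg (by linarith : (0:ℝ) ≤ 1 - y)]
    have h5 : (1 - y) * |w - wa| ≤ (1 - y) * (D * (104 / 100 * (|z - (a - y * (a - b))| +
        y * (a - b))) + 2 * μ * D) := by
      apply mul_le_mul_of_nonneg_left _ (by linarith)
      have := mul_le_mul_of_nonneg_left hza (by positivity : 0 ≤ D * (104/100))
      linarith
    have h6 : y * |w - wb| ≤ y * (D * (104 / 100 * (|z - (a - y * (a - b))| +
        (1 - y) * (a - b))) + 2 * μ * D) := by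
      apply mul_le_mul_of_nonneg_left _ hy
      have := mul_le_mul_of_nonneg_left hzb (by positivity : 0 ≤ D * (104/100))
      linarith
    have h7 : y * (1 - y) ≤ 3/16 := by nlinarith
    have h8 : D * (a - b) * (y * (1 - y)) ≤ D * (a - b) * (3/16) :=
      mul_le_mul_of_nonneg_left h7 (by positivity)
    calc (1 - y) * |w - wa| + y * |w - wb| ≤ (1 - y) * (D * (104 / 100 *
          (|z - (a - y * (a - b))| + y * (a - b))) + 2 * μ * D) + y * (D * (104 / 100 *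
          (|z - (a - y * (a - b))| + (1 - y) * (a - b))) + 2 * μ * D) := add_le_add h5 h6
      _ = D * (104 / 100 * |z - (a - y * (a - b))|) + 208 / 100 * (D * (a - b) * (y * (1 - y))) +
          2 * μ * D := by ring
      _ ≤ _ := by linarith
  set P := |z - (a - y * (a - b))| with hP
  have hP0 : 0 ≤ P := abs_nonneg _
  have h9 : |w - (wa - y * (wa - wb))| ≤ (2 * (P / (a - b)) + 1) * (wa - wb) := by
    have h10 : (2 * (P / (a - b)) + 1) * (9 / 10 * (D * (a - b))) ≤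
        (2 * (P / (a - b)) + 1) * (wa - wb) :=
      mul_le_mul_of_nonneg_left hdn (by positivity)
    have h11 : (2 * (P / (a - b)) + 1) * (9 / 10 * (D * (a - b))) =
        9/5 * (D * P) + 9/10 * (D * (a - b)) := by
      field_simp
      ring
    have h12 : 0 ≤ D * P := mul_nonneg hD.le hP0
    have h13 : D * 1 ≤ D * (a - b) := mul_le_mul_of_nonneg_left hab hD.le
    have h14 : μ * D ≤ 1/1000 * D := mul_le_mul_of_nonneg_right hμ hD.le
    have h15 : D * (104 / 100 * (P + 3/8 * (a - b))) = 104/100 * (D * P) +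
      39/100 * (D * (a - b)) := by ring
    rw [h15] at hw
    linarith
  have h16 : |w - (wa - y * (wa - wb))| / (wa - wb) ≤ 2 * (P / (a - b)) + 1 := by
    rw [div_le_iff₀ hw0]; exact h9
  linarith

/-- comparison of two pool slopes of the same cell block -/
lemma cmpP {D lam y a b a' b' Z μ wa wb wa' wb' p₁ Δ : ℝ} (hD : 0 < D) (hl : 0 < lam) (hy : 0 ≤ y)
    (hy1 : y ≤ 1 / 4) (ha : |a| ≤ Z) (hb : |b| ≤ Z) (ha' : |a'| ≤ Z) (hb' : |b'| ≤ Z)
    (hZ : lam * Z ≤ 1 / 64)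
    (hab : 1 ≤ a - b) (hΔ : |a - b| ≤ Δ) (hΔ' : |a' - b'| ≤ Δ) (hlΔ : lam * Δ ^ 2 ≤ 1 / 64)
    (hμ : μ ≤ 1 / 1000)
    (h1 : |wa - (p₁ + D * (a / (1 + lam * a)))| ≤ μ * D)
    (h2 : |wb - (p₁ + D * (b / (1 + lam * b)))| ≤ μ * D)
    (h1' : |wa' - (p₁ + D * (a' / (1 + lam * a')))| ≤ μ * D)
    (h2' : |wb' - (p₁ + D * (b' / (1 + lam * b')))| ≤ μ * D)
    (hdn : 9 / 10 * (D * (a - b)) ≤ wa - wb) :
    |(wa' - y * (wa' - wb')) - (wa - y * (wa - wb))| / (wa - wb) + 1 ≤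
      2 * (|(a' - y * (a' - b')) - (a - y * (a - b))| / (a - b) + 1) := by
  have hd0 : 0 < a - b := by linarith
  have hw0 : 0 < wa - wb := by
    have := mul_pos hD hd0
    linarith
  have hp : ∀ u v : ℝ, |u| ≤ Z → |v| ≤ Z → |u - y * (u - v)| ≤ Z := by
    intro u v hu hv
    have e : u - y * (u - v) = (1 - y) * u + y * v := by ring
    rw [e]
    refine (abs_add_le _ _).trans ?_
    rw [abs_mul, abs_mul, abs_of_nonneg hy, abs_of_nonneg (by linarith : (0:ℝ) ≤ 1 - y)]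
    nlinarith
  have key : ∀ u v wu wv : ℝ, |u| ≤ Z → |v| ≤ Z → |u - v| ≤ Δ →
      |wu - (p₁ + D * (u / (1 + lam * u)))| ≤ μ * D →
      |wv - (p₁ + D * (v / (1 + lam * v)))| ≤ μ * D →
      |(wu - y * (wu - wv)) - (p₁ + D * ((u - y * (u - v)) / (1 + lam * (u - y * (u - v)))))| ≤
        D * (1/64) + μ * D := by
    intro u v wu wv hu hv huv h3 h4
    have h5 := mob_mean hl hy (by linarith) hu hv hZ huv
    have e : (wu - y * (wu - wv)) - (p₁ + D * ((u - y * (u - v)) / (1 + lam * (u - y * (u - v)))))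
        = D * (((1 - y) * (u / (1 + lam * u)) + y * (v / (1 + lam * v))) -
      (u - y * (u - v)) / (1 + lam * (u - y * (u - v)))) +
        ((1 - y) * (wu - (p₁ + D * (u / (1 + lam * u)))) +
          y * (wv - (p₁ + D * (v / (1 + lam * v))))) := by ring
    rw [e]
    refine (abs_add_le _ _).trans ?_
    refine add_le_add ?_ ?_
    · rw [abs_mul, abs_of_pos hD]
      exact mul_le_mul_of_nonneg_left (h5.trans hlΔ) hD.le
    · refine (abs_add_le _ _).trans ?_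
      rw [abs_mul, abs_mul, abs_of_nonneg hy, abs_of_nonneg (by linarith : (0:ℝ) ≤ 1 - y)]
      nlinarith
  have k1 := key a b wa wb ha hb hΔ h1 h2
  have k2 := key a' b' wa' wb' ha' hb' hΔ' h1' h2'
  have k3 := mob_lip hl (hp a' b' ha' hb') (hp a b ha hb) hZ
  set P := |(a' - y * (a' - b')) - (a - y * (a - b))| with hP
  have hP0 : 0 ≤ P := abs_nonneg _
  have hw : |(wa' - y * (wa' - wb')) - (wa - y * (wa - wb))| ≤
      D * (104 / 100 * P) + 2 * (D * (1/64) + μ * D) := by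
    have e : (wa' - y * (wa' - wb')) - (wa - y * (wa - wb)) =
        D * ((a' - y * (a' - b')) / (1 + lam * (a' - y * (a' - b'))) -
          (a - y * (a - b)) / (1 + lam * (a - y * (a - b)))) +
        (((wa' - y * (wa' - wb')) -
          (p₁ + D * ((a' - y * (a' - b')) / (1 + lam * (a' - y * (a' - b')))))) -
        ((wa - y * (wa - wb)) -
          (p₁ + D * ((a - y * (a - b)) / (1 + lam * (a - y * (a - b))))))) := by ring
    rw [e]
    refine (abs_add_le _ _).trans ?_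
    refine add_le_add ?_ ?_
    · rw [abs_mul, abs_of_pos hD]
      exact mul_le_mul_of_nonneg_left k3 hD.le
    · refine (abs_sub _ _).trans ?_
      linarith
  have h9 : |(wa' - y * (wa' - wb')) - (wa - y * (wa - wb))| ≤
      (2 * (P / (a - b)) + 1) * (wa - wb) := by
    have h10 : (2 * (P / (a - b)) + 1) * (9 / 10 * (D * (a - b))) ≤
        (2 * (P / (a - b)) + 1) * (wa - wb) :=
      mul_le_mul_of_nonneg_left hdn (by positivity)
    have h11 : (2 * (P / (a - b)) + 1) * (9 / 10 * (D * (a - b))) =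
        9/5 * (D * P) + 9/10 * (D * (a - b)) := by
      field_simp
      ring
    have h12 : 0 ≤ D * P := mul_nonneg hD.le hP0
    have h13 : D * 1 ≤ D * (a - b) := mul_le_mul_of_nonneg_left hab hD.le
    have h14 : μ * D ≤ 1/1000 * D := mul_le_mul_of_nonneg_right hμ hD.le
    have h15 : D * (104 / 100 * P) = 104/100 * (D * P) := by ring
    rw [h15] at hw
    linarith
  have h16 : |(wa' - y * (wa' - wb')) - (wa - y * (wa - wb))| / (wa - wb) ≤
      2 * (P / (a - b)) + 1 := by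
    rw [div_le_iff₀ hw0]; exact h9
  linarith

end GAaux

open GAaux in
theorem leafGA : LeafGA := by
  intro A D R G F T S₁ S₂ m Z Q Nx V₁ V Δ σ ς n τ₁ γ₁ τ₂ γ₂ μ γ' τ' sl su C x
  -- constants
  have hZ1 : (1:ℝ) ≤ Z := by exact_mod_cast C.Z1
  have hNx1 : (1:ℝ) ≤ Nx := by exact_mod_cast C.Nx1
  have hΔ1 : (1:ℝ) ≤ Δ := by exact_mod_cast C.Δ1
  have hQ0 : (0:ℝ) ≤ Q := by positivity
  have hV0 : (0:ℝ) ≤ V := by positivity
  have hl := C.l0
  have hlZ : m.lam * Z ≤ 1 / 64 := by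
    have h1 := C.c1
    have h2 : (Z:ℝ) ≤ V + Z * Nx + Q + 4 := by nlinarith
    have h3 := mul_le_mul_of_nonneg_left h2 hl.le
    linarith
  have hl1 : m.lam ≤ 1 / 64 := by nlinarith
  have hkap : m.kap ≤ 1 / 64 := by
    have h1 := C.c3
    have h2 : m.lam * m.y ≤ 1 / 64 * 1 :=
      mul_le_mul hl1 (by linarith [C.y1]) C.y0.le (by norm_num)
    linarith
  have hμ : μ ≤ 1 / 1000 := by
    have h1 := C.c9
    have h2 : m.kap * γ₂ ≤ 1 / 64 * 1 :=
      mul_le_mul hkap C.γ₂1 C.γ₂0.le (by norm_num)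
    have h3 : μ * 8 ≤ μ * (Q + 8) := mul_le_mul_of_nonneg_left (by linarith) C.μ0
    linarith
  have hlΔ : m.lam * (Δ:ℝ) ^ 2 ≤ 1 / 64 := by
    have h1 := C.c8
    have h2 := C.τ₂1
    linarith
  have hdZ : m.del * Z ≤ 1 / 64 := by
    have h1 := C.c5
    have h2 := C.τ₁1
    linarith
  have hd0 : 0 < m.del := C.e0
  have hy0 : 0 ≤ m.y := C.y0.le
  have hy1 : m.y ≤ 1 / 4 := C.y1
  -- integer slopes
  have hσ : ∀ α, |((σ α : ℤ) : ℝ)| ≤ (Z:ℝ) := by
    intro α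
    have := C.hσ α
    exact_mod_cast this
  have hς : ∀ f, |((ς f : ℤ) : ℝ)| ≤ (Z:ℝ) := by
    intro f
    have := C.hς f
    exact_mod_cast this
  have hD : ∀ e, 0 < m.del * S₁.d e := fun e => mul_pos hd0 (C.g1.pos e)
  have hsl : ∀ e α, |sl e α - (S₁.p m.y e + (m.del * S₁.d e) *
      ((σ α : ℝ) / (1 + m.lam * σ α)))| ≤ μ * (m.del * S₁.d e) := by
    intro e α
    have h := C.rs e α
    have e1 : slI S₁ m e (σ α) = S₁.p m.y e + (m.del * S₁.d e) *
      ((σ α : ℝ) / (1 + m.lam * σ α)) := by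
      unfold slI; ring
    rwa [e1] at h
  have hsu : ∀ e f, |su e f - (S₁.p m.y e + (m.del * S₁.d e) *
      ((ς f : ℝ) / (1 + m.lam * ς f)))| ≤ μ * (m.del * S₁.d e) := by
    intro e f
    have h := C.ru e f
    have e1 : slI S₁ m e (ς f) = S₁.p m.y e + (m.del * S₁.d e) *
      ((ς f : ℝ) / (1 + m.lam * ς f)) := by
      unfold slI; ring
    rwa [e1] at h
  -- inner slope differences
  have hd2 : ∀ r, S₂.d r = (σ (S₂.a r) : ℝ) - σ (S₂.b r) := by
    intro r; unfold Sys.d; rw [C.sσ, C.sσ]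
  have hd21 : ∀ r, (1:ℝ) ≤ (σ (S₂.a r) : ℝ) - σ (S₂.b r) := by
    intro r
    have h := C.g2.pos r
    rw [hd2 r] at h
    have h1 : (0:ℤ) < σ (S₂.a r) - σ (S₂.b r) := by exact_mod_cast h
    have h2 : (1:ℤ) ≤ σ (S₂.a r) - σ (S₂.b r) := by omega
    exact_mod_cast h2
  have hd2Δ : ∀ r, |(σ (S₂.a r) : ℝ) - σ (S₂.b r)| ≤ Δ := by
    intro r
    rw [abs_of_pos (by linarith [hd21 r]), ← hd2 r]
    exact C.hΔ r
  -- pool slopes are close
  have hclose : ∀ e (z w : ℝ), |z| ≤ Z → |w - (S₁.p m.y e + (m.del * S₁.d e) *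
      (z / (1 + m.lam * z)))| ≤ μ * (m.del * S₁.d e) →
      |w - S₁.p m.y e| ≤ 2 * (m.del * Z * S₁.d e) := by
    intro e z w hz hw
    have h1 := mob_abs hl hz hlZ
    have h2 : |(m.del * S₁.d e) * (z / (1 + m.lam * z))| ≤
        (m.del * S₁.d e) * (102 / 100 * Z) := by
      rw [abs_mul, abs_of_pos (hD e)]
      exact mul_le_mul_of_nonneg_left (by linarith) (hD e).le
    have h3 : w - S₁.p m.y e = (w - (S₁.p m.y e + (m.del * S₁.d e) *
      (z / (1 + m.lam * z)))) + (m.del * S₁.d e) * (z / (1 + m.lam * z)) := by ring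
    rw [h3]
    refine (abs_add_le _ _).trans ?_
    have h4 : μ * (m.del * S₁.d e) ≤ 1 / 1000 * (m.del * S₁.d e) :=
      mul_le_mul_of_nonneg_right hμ (hD e).le
    have h5 : (m.del * S₁.d e) * 1 ≤ (m.del * S₁.d e) * Z :=
      mul_le_mul_of_nonneg_left hZ1 (hD e).le
    have h6 : 2 * (m.del * Z * S₁.d e) = 2 * ((m.del * S₁.d e) * Z) := by ring
    have h7 := hD e
    rw [h6]
    linarith
  -- slope difference
  have hdN : ∀ x : R × Cell T Nx V₁,
      9 / 10 * ((m.del * S₁.d x.1) * ((σ (S₂.a x.2.2.2) : ℝ) - σ (S₂.b x.2.2.2))) ≤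
        sl x.1 (S₂.a x.2.2.2) - sl x.1 (S₂.b x.2.2.2) ∧
      sl x.1 (S₂.a x.2.2.2) - sl x.1 (S₂.b x.2.2.2) ≤
        11 / 10 * ((m.del * S₁.d x.1) * ((σ (S₂.a x.2.2.2) : ℝ) - σ (S₂.b x.2.2.2))) := by
    intro x
    have h1 := hd21 x.2.2.2
    have h2 := mob_low hl (hσ (S₂.a x.2.2.2)) (hσ (S₂.b x.2.2.2)) hlZ (by linarith)
    have h3 := mob_lip hl (hσ (S₂.a x.2.2.2)) (hσ (S₂.b x.2.2.2)) hlZ
    have h3' := (abs_le.mp h3).2
    rw [abs_of_pos (by linarith)] at h3'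
    have h4 := abs_le.mp (hsl x.1 (S₂.a x.2.2.2))
    have h5 := abs_le.mp (hsl x.1 (S₂.b x.2.2.2))
    have hDx := hD x.1
    set DD := m.del * S₁.d x.1 with hDD
    set a : ℝ := ((σ (S₂.a x.2.2.2) : ℤ) : ℝ)
    set b : ℝ := ((σ (S₂.b x.2.2.2) : ℤ) : ℝ)
    have h6 : μ * DD ≤ 1 / 1000 * DD := mul_le_mul_of_nonneg_right hμ hDx.le
    have h7 : DD * 1 ≤ DD * (a - b) := mul_le_mul_of_nonneg_left h1 hDx.le
    have h8 : DD * (96 / 100 * (a - b)) ≤ DD * (a / (1 + m.lam * a) - b / (1 + m.lam * b)) :=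
      mul_le_mul_of_nonneg_left h2 hDx.le
    have h9 : DD * (a / (1 + m.lam * a) - b / (1 + m.lam * b)) ≤ DD * (104 / 100 * (a - b)) :=
      mul_le_mul_of_nonneg_left h3' hDx.le
    constructor
    · linarith [h4.1, h5.2]
    · linarith [h4.2, h5.1]
  have hdNx := hdN x
  have hDx := hD x.1
  have hab := hd21 x.2.2.2
  have hdNpos : 0 < dN S₂ sl x := by
    have h1 : 0 < (m.del * S₁.d x.1) * ((σ (S₂.a x.2.2.2) : ℝ) - σ (S₂.b x.2.2.2)) :=
      mul_pos hDx (by linarith)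
    show 0 < sl x.1 (S₂.a x.2.2.2) - sl x.1 (S₂.b x.2.2.2)
    linarith [hdNx.1]
  have hdN9 : 9 / 10 * (m.del * S₁.d x.1) ≤ dN S₂ sl x := by
    have h1 : (m.del * S₁.d x.1) * 1 ≤
        (m.del * S₁.d x.1) * ((σ (S₂.a x.2.2.2) : ℝ) - σ (S₂.b x.2.2.2)) :=
      mul_le_mul_of_nonneg_left hab hDx.le
    show _ ≤ sl x.1 (S₂.a x.2.2.2) - sl x.1 (S₂.b x.2.2.2)
    linarith [hdNx.1]
  have hsl2 : ∀ e α, |sl e α - S₁.p m.y e| ≤ 2 * (m.del * Z * S₁.d e) :=
    fun e α => hclose e _ _ (hσ α) (hsl e α)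
  have hsu2 : ∀ e f, |su e f - S₁.p m.y e| ≤ 2 * (m.del * Z * S₁.d e) :=
    fun e f => hclose e _ _ (hς f) (hsu e f)
  have hpN : |pN m.y S₂ sl x - S₁.p m.y x.1| ≤ 2 * (m.del * Z * S₁.d x.1) := by
    have e : pN m.y S₂ sl x - S₁.p m.y x.1 =
        (1 - m.y) * (sl x.1 (S₂.a x.2.2.2) - S₁.p m.y x.1) +
          m.y * (sl x.1 (S₂.b x.2.2.2) - S₁.p m.y x.1) := by
      unfold pN dN; ring
    rw [e]
    refine (abs_add_le _ _).trans ?_
    rw [abs_mul, abs_mul, abs_of_nonneg hy0, abs_of_nonneg (by linarith : (0:ℝ) ≤ 1 - m.y)]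
    have h1 := mul_le_mul_of_nonneg_left (hsl2 x.1 (S₂.a x.2.2.2))
      (by linarith : (0:ℝ) ≤ 1 - m.y)
    have h2 := mul_le_mul_of_nonneg_left (hsl2 x.1 (S₂.b x.2.2.2)) hy0
    linarith
  have hpe : ∀ r, S₂.p m.y r = (σ (S₂.a r) : ℝ) - m.y * ((σ (S₂.a r) : ℝ) - σ (S₂.b r)) := by
    intro r; unfold Sys.p; rw [hd2 r, C.sσ]
  refine ⟨⟨?_, ?_, ?_⟩, hsl2, hsu2, hpN, ?_, ?_, ?_, ?_, ?_⟩
  · rw [hd2]; exact hdNx.1
  · rw [hd2]; exact hdNx.2
  · rw [hd2]; exact hab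
  · -- general line
    intro s
    have hd1 := C.g1.pos x.1
    have h1 : |s - pN m.y S₂ sl x| ≤ |s - S₁.p m.y x.1| + 2 * (m.del * Z * S₁.d x.1) := by
      have e : s - pN m.y S₂ sl x = (s - S₁.p m.y x.1) - (pN m.y S₂ sl x - S₁.p m.y x.1) := by
        ring
      rw [e]
      exact (abs_sub _ _).trans (by linarith)
    set P := |s - S₁.p m.y x.1| with hP
    have hP0 : 0 ≤ P := abs_nonneg _
    have h2 : |s - pN m.y S₂ sl x| ≤ (2 / m.del * (P / S₁.d x.1 + 1) - 1) * dN S₂ sl x := by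
      have h30 : 0 ≤ 2 / m.del * (P / S₁.d x.1 + 1) - 1 := by
        have h31 : 1 ≤ 2 / m.del := by
          rw [le_div_iff₀ hd0]; nlinarith
        have h32 : (1:ℝ) ≤ P / S₁.d x.1 + 1 := by
          have : 0 ≤ P / S₁.d x.1 := by positivity
          linarith
        nlinarith
      have h3 : (2 / m.del * (P / S₁.d x.1 + 1) - 1) * (9 / 10 * (m.del * S₁.d x.1)) ≤
          (2 / m.del * (P / S₁.d x.1 + 1) - 1) * dN S₂ sl x :=
        mul_le_mul_of_nonneg_left hdN9 h30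
      have h4 : (2 / m.del * (P / S₁.d x.1 + 1) - 1) * (9 / 10 * (m.del * S₁.d x.1)) =
          9/5 * P + 9/5 * S₁.d x.1 - 9/10 * m.del * S₁.d x.1 := by
        have hd0' := hd0.ne'
        have hd1' := hd1.ne'
        field_simp
        ring
      have h5 : m.del * Z * S₁.d x.1 ≤ 1/64 * S₁.d x.1 := mul_le_mul_of_nonneg_right hdZ hd1.le
      have h6 : m.del * 1 ≤ m.del * Z := mul_le_mul_of_nonneg_left hZ1 hd0.le
      have h7 : m.del * S₁.d x.1 ≤ 1/64 * S₁.d x.1 :=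
        mul_le_mul_of_nonneg_right (by linarith) hd1.le
      linarith
    have h8 : |s - pN m.y S₂ sl x| / dN S₂ sl x ≤ 2 / m.del * (P / S₁.d x.1 + 1) - 1 := by
      rw [div_le_iff₀ hdNpos]; exact h2
    linarith
  · -- line of the own pool
    intro s hs
    have h1 : |s - pN m.y S₂ sl x| ≤ |s - S₁.p m.y x.1| + 2 * (m.del * Z * S₁.d x.1) := by
      have e : s - pN m.y S₂ sl x = (s - S₁.p m.y x.1) - (pN m.y S₂ sl x - S₁.p m.y x.1) := by
        ring
      rw [e]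
      exact (abs_sub _ _).trans (by linarith)
    have h2 : |s - pN m.y S₂ sl x| / dN S₂ sl x ≤ 5 * Z := by
      rw [div_le_iff₀ hdNpos]
      have h3 : 5 * (Z:ℝ) * (9 / 10 * (m.del * S₁.d x.1)) ≤ 5 * (Z:ℝ) * dN S₂ sl x :=
        mul_le_mul_of_nonneg_left hdN9 (by positivity)
      have h4 : 0 ≤ m.del * Z * S₁.d x.1 := by
        have := C.g1.pos x.1
        positivity
      nlinarith
    linarith
  · intro α
    have h := cmp hDx hl hy0 hy1 (hσ (S₂.a x.2.2.2)) (hσ (S₂.b x.2.2.2)) (hσ α) hlZ hab hμ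
      (hsl x.1 (S₂.a x.2.2.2)) (hsl x.1 (S₂.b x.2.2.2)) (hsl x.1 α) hdNx.1
    rw [hpe, hd2, C.sσ]
    exact h
  · intro f
    have h := cmp hDx hl hy0 hy1 (hσ (S₂.a x.2.2.2)) (hσ (S₂.b x.2.2.2)) (hς f) hlZ hab hμ
      (hsl x.1 (S₂.a x.2.2.2)) (hsl x.1 (S₂.b x.2.2.2)) (hsu x.1 f) hdNx.1
    rw [hpe, hd2, C.uς]
    exact h
  · intro x₁ hx₁
    have hslx : ∀ α, |sl x₁.1 α - (S₁.p m.y x.1 + (m.del * S₁.d x.1) *
      ((σ α : ℝ) / (1 + m.lam * σ α)))| ≤ μ * (m.del * S₁.d x.1) := by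
      intro α; rw [hx₁]; exact hsl x.1 α
    have h := cmpP hDx hl hy0 hy1 (hσ (S₂.a x.2.2.2)) (hσ (S₂.b x.2.2.2))
      (hσ (S₂.a x₁.2.2.2)) (hσ (S₂.b x₁.2.2.2)) hlZ hab (hd2Δ x.2.2.2) (hd2Δ x₁.2.2.2) hlΔ hμ
      (hsl x.1 (S₂.a x.2.2.2)) (hsl x.1 (S₂.b x.2.2.2))
      (hslx (S₂.a x₁.2.2.2)) (hslx (S₂.b x₁.2.2.2)) hdNx.1
    rw [hpe, hpe, hd2]
    exact h

end K9
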