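import Pool.Agent.Helper48K9.Ctx

/-!
# Geometry of the composition: bundle lines
-/

namespace K9

open Finset

namespace GBx

/-- height of a line above the ideal point -/
lemma hs_eq {A D R G F T : Type} {Nx V₁ : ℕ} (S₁ : Sys A D R) (S₂ : Sys G F T) (m : Pm) (Z : ℕ)
    (x : R × Cell T Nx V₁) (s t t₀ : ℝ) :
    hs S₁ S₂ m Z x s t = (s * S₁.X x.1 + t₀ - S₁.Y x.1) + (t - t₀) +
      m.eps * ((s - S₁.p m.y x.1) / S₁.d x.1 * (xi S₂ m x + m.lam * ze S₂ m Z x) -
        m.del * ze S₂ m Z x) := by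
  unfold hs xX xY Xs Ys
  ring

/-- the numerical consequences of the context used for bundle lines -/
lemma nums {A D R G F T : Type} {S₁ : Sys A D R} {S₂ : Sys G F T} {m : Pm} {Z Q Nx V₁ V Δ : ℕ}
    {σ : G → ℤ} {ς : F → ℤ} {n : T → ℤ} {τ₁ γ₁ τ₂ γ₂ μ γ' τ' : ℝ} {sl : R → G → ℝ}
    {su : R → F → ℝ} (h : Ctx S₁ S₂ m Z Q Nx V₁ V Δ σ ς n τ₁ γ₁ τ₂ γ₂ μ γ' τ' sl su)
    (x : R × Cell T Nx V₁) :
    m.lam ≤ 1 / 256 ∧ m.kap ≤ m.lam / 256 ∧ m.kap * Z ≤ 1 / 1000 ∧
    |m.kap * S₂.X x.2.2.2| ≤ m.lam / 16 ∧ |m.kap * S₂.X x.2.2.2| ≤ 1 / 16 ∧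
    |m.kap * S₂.Y x.2.2.2| ≤ 1 / 16 ∧
    0 ≤ ze S₂ m Z x ∧ ze S₂ m Z x ≤ V + 1 ∧ ((Z * Nx + (x.2.2.1:ℕ) : ℕ) : ℝ) ≤ V ∧
    m.lam * ze S₂ m Z x ≤ 1 / 16 ∧ m.del * ze S₂ m Z x ≤ 1 / 16 ∧
    (((x.2.1:ℕ):ℝ) + 1 ≤ Nx) ∧ (Nx:ℝ) ≤ Q := by
  have hZ1 : (1:ℝ) ≤ Z := by exact_mod_cast h.Z1
  have hN1 : (1:ℝ) ≤ Nx := by exact_mod_cast h.Nx1
  have hNQ : (Nx:ℝ) ≤ Q := by exact_mod_cast h.NxQ
  have hZN : (1:ℝ) ≤ Z * Nx := by nlinarith
  have hV0 : (0:ℝ) ≤ V := Nat.cast_nonneg V
  have hl := h.l0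
  have hk := h.k0
  have hdl := h.e0
  have hy := h.y0
  have hy1 := h.y1
  have c1 := h.c1
  have l1 : m.lam ≤ 1 / 256 := by nlinarith
  have k1 : m.kap ≤ m.lam / 256 := by nlinarith [h.c3, mul_pos hl hy]
  have k2 : m.kap * Z ≤ 1 / 1000 := by
    have h1 : m.kap * Z * 1 ≤ m.kap * Z * Q :=
      mul_le_mul_of_nonneg_left (hN1.trans hNQ) (by positivity)
    linarith [h.c4]
  have X1 : |m.kap * S₂.X x.2.2.2| ≤ m.kap := by
    rw [abs_mul, abs_of_pos hk]
    nlinarith [h.hX x.2.2.2]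
  have Y1 : |m.kap * S₂.Y x.2.2.2| ≤ 1 / 1000 := by
    rw [abs_mul, abs_of_pos hk]
    nlinarith [h.hY x.2.2.2]
  have hj : ((x.2.2.1:ℕ):ℝ) ≤ V₁ := by exact_mod_cast x.2.2.1.2.le
  have hVe : (V:ℝ) = V₁ + 2 * Z * Nx := by
    have := h.hV
    rw [this]; push_cast; ring
  have J1 : ((Z * Nx + (x.2.2.1:ℕ) : ℕ) : ℝ) ≤ V := by
    push_cast; rw [hVe]; nlinarith
  have J0 : (1:ℝ) ≤ ((Z * Nx + (x.2.2.1:ℕ) : ℕ) : ℝ) := by
    push_cast
    have : (0:ℝ) ≤ ((x.2.2.1:ℕ):ℝ) := Nat.cast_nonneg _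
    linarith
  have Y1' := abs_le.mp Y1
  have z0 : 0 ≤ ze S₂ m Z x := by unfold ze; linarith [Y1'.1]
  have z1 : ze S₂ m Z x ≤ V + 1 := by unfold ze; linarith [Y1'.2]
  have z2 : m.lam * ze S₂ m Z x ≤ 1 / 16 := by
    have h1 : m.lam * ze S₂ m Z x ≤ m.lam * (V + Z * Nx + Q + 4) :=
      mul_le_mul_of_nonneg_left (by linarith) hl.le
    linarith
  have z3 : m.del * ze S₂ m Z x ≤ 1 / 16 := by
    have h1 : m.del ≤ m.lam := by nlinarith [h.c2, mul_pos hl hy]
    have h2 := mul_le_mul_of_nonneg_right h1 z0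
    linarith
  have hi : (((x.2.1:ℕ):ℝ) + 1 ≤ Nx) := by exact_mod_cast x.2.1.2
  exact ⟨l1, k1, k2, by linarith, by linarith, by linarith, z0, z1, J1, z2, z3, hi, hNQ⟩

/-- comparison of `Big` with the outer system -/
lemma big_of {γ' del eps kap γ₂ G B s pN dN : ℝ} (hdl : 0 < del) (hg : 0 < γ')
    (hc : 1000 * γ' ≤ eps * del * kap * γ₂) (hG : |s - pN| / dN + 1 ≤ 2 / del * G)
    (hG0 : 0 ≤ G) (hB : eps * kap * γ₂ * G / 20 ≤ B) :
    20 * (γ' * (|s - pN| / dN + 1)) ≤ B := by
  have h1 : γ' / del ≤ eps * kap * γ₂ / 1000 := by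
    rw [div_le_iff₀ hdl]
    linarith
  calc 20 * (γ' * (|s - pN| / dN + 1)) ≤ 20 * (γ' * (2 / del * G)) := by
        have := mul_le_mul_of_nonneg_left hG hg.le
        linarith
    _ = 40 * ((γ' / del) * G) := by ring
    _ ≤ 40 * ((eps * kap * γ₂ / 1000) * G) := by
        have := mul_le_mul_of_nonneg_right h1 hG0
        linarith
    _ = eps * kap * γ₂ * G / 25 := by ring
    _ ≤ B := by
        have : 0 ≤ eps * kap * γ₂ * G := by
          have h2 : 0 ≤ γ' / del := by positivity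
          have h3 : 0 ≤ eps * kap * γ₂ := by linarith
          positivity
        linarith

lemma mneg {e B : ℝ} (he : 0 < e) : e * B < 0 ↔ B < 0 := by
  constructor
  · intro h1
    by_contra h2
    have := mul_nonneg he.le (not_lt.mp h2)
    linarith
  · intro h1
    exact mul_neg_of_pos_of_neg he h1

end GBx

open GBx

set_option maxHeartbeats 4000000 in
theorem leafGB (ga : LeafGA) : LeafGB := by
  intro A D R G F T S₁ S₂ m Z Q Nx V₁ V Δ σ ς n τ₁ γ₁ τ₂ γ₂ μ γ' τ' sl su h x c i' w pos b hpos hp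
  obtain ⟨-, -, -, -, gen, -⟩ := ga S₁ S₂ m Z Q Nx V₁ V Δ σ ς n τ₁ γ₁ τ₂ γ₂ μ γ' τ' sl su h x
  obtain ⟨l1, k1, k2, ux1, ux2, uy, z0, z1, J1, z2, z3, hi, hNQ⟩ := nums h x
  have hl := h.l0
  have hk := h.k0
  have hdl := h.e0
  have hy := h.y0
  have hy1 := h.y1
  have he := h.ep0
  have hg2 := h.γ₂0
  have hg21 := h.γ₂1
  have hg1 := h.γ₁0
  have hd := h.g1.pos x.1
  have hly : 0 < m.lam * m.y := mul_pos hl hy
  have hdel : m.del ≤ m.lam * m.y / 8 := by linarith [h.c2]
  have hkap : m.kap ≤ m.lam * m.y / 64 := by linarith [h.c3]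
  have hi' : (((i':ℕ):ℝ) + 1 ≤ Nx) := by exact_mod_cast i'.2
  have hi'0 : (0:ℝ) ≤ ((i':ℕ):ℝ) := Nat.cast_nonneg _
  have hi0 : (0:ℝ) ≤ ((x.2.1:ℕ):ℝ) := Nat.cast_nonneg _
  have hab : S₁.a x.1 ≠ S₁.b x.1 := by
    intro hh
    have : S₁.d x.1 = 0 := by unfold Sys.d; rw [hh]; ring
    linarith
  have hV0 : (0:ℝ) ≤ V := Nat.cast_nonneg V
  have hZN : (0:ℝ) ≤ Z * Nx := by positivity
  have hQ0 : (0:ℝ) ≤ Q := Nat.cast_nonneg Q
  have hlp : m.lam * |pos| ≤ 1 / 16 := by
    have h1 : m.lam * |pos| ≤ m.lam * (V + Z * Nx + Q + 4) :=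
      mul_le_mul_of_nonneg_left (by linarith) hl.le
    linarith [h.c1]
  have hkg : m.kap * γ₂ ≤ m.kap := by nlinarith
  have hekg : m.eps * m.kap * γ₂ ≤ m.eps * m.kap := by nlinarith [mul_pos he hk]
  have hxi : xi S₂ m x = 1 + ((x.2.1:ℕ):ℝ) + m.kap * S₂.X x.2.2.2 := rfl
  have hze : ze S₂ m Z x = ((Z * Nx + (x.2.2.1:ℕ) : ℕ) : ℝ) + m.kap * S₂.Y x.2.2.2 := rfl
  have key := gen (S₁.s c)
  have hHs := hs_eq S₁ S₂ m Z x (S₁.s c) (icB m Nx (S₁.t c) i' pos b) (S₁.t c)
  unfold Big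
  by_cases hca : c = S₁.a x.1
  · -- the leaving line
    have hA0 : S₁.s c * S₁.X x.1 + S₁.t c - S₁.Y x.1 = 0 := by
      have := h.g1.a0 x.1
      rw [hca]; exact this
    have hsp : S₁.s c - S₁.p m.y x.1 = m.y * S₁.d x.1 := by
      unfold Sys.p; rw [hca]; ring
    have hsd : (S₁.s c - S₁.p m.y x.1) / S₁.d x.1 = m.y := by
      rw [hsp]; field_simp
    have hG : |S₁.s c - S₁.p m.y x.1| / S₁.d x.1 + 1 = m.y + 1 := by
      rw [hsp, abs_of_pos (mul_pos hy hd)]; field_simp
    rw [hG] at key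
    rw [hA0, hsd, zero_add] at hHs
    cases b with
    | false =>
      have hB := bun_a (y := m.y) (lam := m.lam) (del := m.del) (ux := m.kap * S₂.X x.2.2.2)
        (uy := m.kap * S₂.Y x.2.2.2) (J := ((Z * Nx + (x.2.2.1:ℕ) : ℕ) : ℝ)) (w := (w:ℝ))
        (i := ((x.2.1:ℕ):ℝ)) (i' := ((i':ℕ):ℝ)) (L := 2 * (V + Z * Nx + Q + 4)) hy hl hdl hdel ux1 uy
        (by linarith [h.c1]) (by linarith)
        (by
          have h1 : |((Z * Nx + (x.2.2.1:ℕ) : ℕ) : ℝ) - w - 1 / 2| ≤ V + |pos| := by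
            have e : ((Z * Nx + (x.2.2.1:ℕ) : ℕ) : ℝ) - w - 1 / 2 =
                ((Z * Nx + (x.2.2.1:ℕ) : ℕ) : ℝ) - pos := by rw [hpos]; ring
            rw [e]
            refine (abs_sub _ _).trans ?_
            rw [abs_of_nonneg (by positivity)]
            linarith
          linarith)
        (by
          rcases lt_trichotomy (x.2.1:ℕ) (i':ℕ) with h1 | h1 | h1
          · left; exact_mod_cast h1
          · right; left; exact_mod_cast h1
          · right; right; exact_mod_cast h1)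
        (by
          rcases le_or_gt ((Z * Nx + (x.2.2.1:ℕ) : ℕ) : ℤ) w with h1 | h1
          · left; exact_mod_cast h1
          · right; exact_mod_cast h1)
      set B := m.y * ((((x.2.1:ℕ):ℝ) - ((i':ℕ):ℝ)) + m.kap * S₂.X x.2.2.2) +
        (m.lam * m.y - m.del) * ((((Z * Nx + (x.2.2.1:ℕ) : ℕ) : ℝ) - (w + 1/2)) +
          m.kap * S₂.Y x.2.2.2) with hBdef
      obtain ⟨hB1, hB2⟩ := hB
      have hval : hs S₁ S₂ m Z x (S₁.s c) (icB m Nx (S₁.t c) i' pos false) = m.eps * B := by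
        rw [hHs, hxi, hze, hBdef, ← hpos]
        simp only [icB]
        ring
      rw [hval]
      refine ⟨?_, ?_⟩
      · rw [mneg he, hB2]
        unfold belB
        constructor
        · intro h1
          left
          refine ⟨hca, ?_⟩
          rcases h1 with h1 | ⟨h1, h2⟩
          · left; exact_mod_cast h1
          · right
            refine ⟨Fin.ext (by exact_mod_cast h1), by rw [hpos]; exact h2⟩
        · rintro (⟨-, h1⟩ | h1 | ⟨h1, -⟩)
          · rcases h1 with h1 | ⟨h1, h2⟩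
            · left; exact_mod_cast h1
            · right
              refine ⟨by rw [h1], by rw [← hpos]; exact h2⟩
          · exact absurd (hca.symm.trans h1) hab
          · exact absurd hca h1
      · rw [abs_mul, abs_of_pos he]
        refine big_of hdl h.γ'0 h.c10 key (by linarith) ?_
        have h1 : m.eps * m.kap * γ₂ * (m.y + 1) ≤ m.eps * m.kap * 2 := by
          have h2 : 0 ≤ m.eps * m.kap * γ₂ := by positivity
          nlinarith [mul_pos he hk]
        have h3 : m.eps * (m.lam * m.y / 4) ≤ m.eps * |B| := mul_le_mul_of_nonneg_left hB1 he.le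
        have h4 : m.eps * m.kap ≤ m.eps * (m.lam * m.y / 64) := mul_le_mul_of_nonneg_left hkap he.le
        have h5 : 0 < m.eps * (m.lam * m.y) := mul_pos he hly
        linarith
    | true =>
      have hB := bun_a' (y := m.y) (lam := m.lam) (del := m.del) (ux := m.kap * S₂.X x.2.2.2)
        (ζ := ze S₂ m Z x) (i := ((x.2.1:ℕ):ℝ)) (i' := ((i':ℕ):ℝ)) hy hy1 hl hdel ux2 z0 z2 hi0 hi'0
      set B := (1 - m.y) * (((i':ℕ):ℝ) + 1 + 3/4) + m.y * ((1 + ((x.2.1:ℕ):ℝ) + m.kap * S₂.X x.2.2.2)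
        + m.lam * ze S₂ m Z x) - m.del * ze S₂ m Z x with hBdef
      have hval : hs S₁ S₂ m Z x (S₁.s c) (icB m Nx (S₁.t c) i' pos true) = m.eps * B := by
        rw [hHs, hxi, hBdef]
        simp only [icB]
        ring
      rw [hval]
      refine ⟨?_, ?_⟩
      · rw [mneg he]
        unfold belB
        constructor
        · intro h1; linarith
        · rintro (⟨h1, -⟩ | ⟨h1, -⟩)
          · exact absurd (hca.symm.trans h1) hab
          · exact absurd hca h1
      · rw [abs_mul, abs_of_pos he]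
        refine big_of hdl h.γ'0 h.c10 key (by linarith) ?_
        have hB1 : 1 / 2 ≤ |B| := hB.trans (le_abs_self _)
        have h1 : m.eps * m.kap * γ₂ * (m.y + 1) ≤ m.eps * m.kap * 2 := by
          have h2 : 0 ≤ m.eps * m.kap * γ₂ := by positivity
          nlinarith [mul_pos he hk]
        have h3 : m.eps * (1 / 2) ≤ m.eps * |B| := mul_le_mul_of_nonneg_left hB1 he.le
        have h4 : m.eps * m.kap ≤ m.eps * 1 := mul_le_mul_of_nonneg_left (by linarith) he.le
        linarith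
  · by_cases hcb : c = S₁.b x.1
    · -- the entering line
      have hA0 : S₁.s c * S₁.X x.1 + S₁.t c - S₁.Y x.1 = 0 := by
        have := h.g1.b0 x.1
        rw [hcb]; exact this
      have hsp : S₁.s c - S₁.p m.y x.1 = -((1 - m.y) * S₁.d x.1) := by
        unfold Sys.p; rw [hcb]; unfold Sys.d; ring
      have hsd : (S₁.s c - S₁.p m.y x.1) / S₁.d x.1 = -(1 - m.y) := by
        rw [hsp]; field_simp
      have hG : |S₁.s c - S₁.p m.y x.1| / S₁.d x.1 + 1 = 2 - m.y := by
        rw [hsp, abs_neg, abs_of_pos (mul_pos (by linarith) hd)]; field_simp; ring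
      rw [hG] at key
      rw [hA0, hsd, zero_add] at hHs
      cases b with
      | false =>
        have hB := bun_b' (y := m.y) (lam := m.lam) (del := m.del) (ux := m.kap * S₂.X x.2.2.2)
          (ζ := ze S₂ m Z x) (i := ((x.2.1:ℕ):ℝ)) (i' := ((i':ℕ):ℝ)) (pos := pos) hy hy1 hl hdl
          hdel ux2 z0 hlp hi0 hi'0
        set B := -(m.y * (((i':ℕ):ℝ) + 1) + (m.lam * m.y - m.del) * pos) -
          (1 - m.y) * ((1 + ((x.2.1:ℕ):ℝ) + m.kap * S₂.X x.2.2.2) + m.lam * ze S₂ m Z x) -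
          m.del * ze S₂ m Z x with hBdef
        have hval : hs S₁ S₂ m Z x (S₁.s c) (icB m Nx (S₁.t c) i' pos false) = m.eps * B := by
          rw [hHs, hxi, hBdef]
          simp only [icB]
          ring
        rw [hval]
        refine ⟨?_, ?_⟩
        · rw [mneg he]
          unfold belB
          constructor
          · intro h1; right; left; exact hcb
          · intro _; linarith
        · rw [abs_mul, abs_of_pos he]
          refine big_of hdl h.γ'0 h.c10 key (by linarith) ?_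
          have hB1 : 1 / 2 ≤ |B| := by rw [abs_of_neg (by linarith)]; linarith
          have h1 : m.eps * m.kap * γ₂ * (2 - m.y) ≤ m.eps * m.kap * 2 := by
            have h2 : 0 ≤ m.eps * m.kap * γ₂ := by positivity
            nlinarith [mul_pos he hk]
          have h3 : m.eps * (1 / 2) ≤ m.eps * |B| := mul_le_mul_of_nonneg_left hB1 he.le
          have h4 : m.eps * m.kap ≤ m.eps * 1 := mul_le_mul_of_nonneg_left (by linarith) he.le
          linarith
      | true =>
        have hB := bun_b (y := m.y) (lam := m.lam) (del := m.del) (ux := m.kap * S₂.X x.2.2.2)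
          (ζ := ze S₂ m Z x) (i := ((x.2.1:ℕ):ℝ)) (i' := ((i':ℕ):ℝ)) hy hy1 hl hdl hdel ux2 z0 z2
          (by
            rcases le_or_gt (x.2.1:ℕ) (i':ℕ) with h1 | h1
            · left; exact_mod_cast h1
            · right; exact_mod_cast h1)
        set B := (1 - m.y) * (((i':ℕ):ℝ) + 1 + 3/4) -
          (1 - m.y) * ((1 + ((x.2.1:ℕ):ℝ) + m.kap * S₂.X x.2.2.2) + m.lam * ze S₂ m Z x) -
          m.del * ze S₂ m Z x with hBdef
        obtain ⟨hB1, hB2⟩ := hB
        have hval : hs S₁ S₂ m Z x (S₁.s c) (icB m Nx (S₁.t c) i' pos true) = m.eps * B := by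
          rw [hHs, hxi, hBdef]
          simp only [icB]
          ring
        rw [hval]
        refine ⟨?_, ?_⟩
        · rw [mneg he, hB2]
          unfold belB
          constructor
          · intro h1
            left
            exact ⟨hcb, by exact_mod_cast h1⟩
          · rintro (⟨-, h1⟩ | ⟨-, h1, -⟩)
            · exact_mod_cast h1
            · exact absurd hcb h1
        · rw [abs_mul, abs_of_pos he]
          refine big_of hdl h.γ'0 h.c10 key (by linarith) ?_
          have h1 : m.eps * m.kap * γ₂ * (2 - m.y) ≤ m.eps * m.kap * 2 := by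
            have h2 : 0 ≤ m.eps * m.kap * γ₂ := by positivity
            nlinarith [mul_pos he hk]
          have h3 : m.eps * (1 / 16) ≤ m.eps * |B| := mul_le_mul_of_nonneg_left hB1 he.le
          have h4 : m.eps * m.kap ≤ m.eps * (1 / 256) :=
            mul_le_mul_of_nonneg_left (by linarith) he.le
          linarith
    · -- other lines
      have hH := h.g1.gA x.1 c hca hcb
      have hHdef : S₁.hA x.1 c = S₁.s c * S₁.X x.1 + S₁.t c - S₁.Y x.1 := rfl
      rw [← hHdef] at hHs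
      have hG1 : 0 ≤ |S₁.s c - S₁.p m.y x.1| / S₁.d x.1 := by positivity
      obtain ⟨off, hoff, hofb⟩ : ∃ off : ℝ, icB m Nx (S₁.t c) i' pos b - S₁.t c = m.eps * off ∧
          |off| ≤ Q + 4 := by
        cases b with
        | false =>
          refine ⟨-(m.y * ((i':ℕ) + 1) + (m.lam * m.y - m.del) * pos), by simp only [icB]; ring, ?_⟩
          rw [abs_neg]
          refine (abs_add_le _ _).trans ?_
          have h1 : |m.y * (((i':ℕ):ℝ) + 1)| ≤ Q := by
            rw [abs_of_nonneg (by positivity)]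
            nlinarith
          have h2 : |(m.lam * m.y - m.del) * pos| ≤ 1 := by
            rw [abs_mul, abs_of_nonneg (by linarith : (0:ℝ) ≤ m.lam * m.y - m.del)]
            calc (m.lam * m.y - m.del) * |pos| ≤ (m.lam * 1) * |pos| := by
                  apply mul_le_mul_of_nonneg_right _ (abs_nonneg _)
                  nlinarith
              _ ≤ 1 := by linarith
          linarith
        | true =>
          refine ⟨(1 - m.y) * ((i':ℕ) + 1 + 3/4), by simp only [icB]; ring, ?_⟩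
          rw [abs_of_nonneg (mul_nonneg (by linarith) (by positivity))]
          nlinarith
      have hE := pert (H := S₁.hA x.1 c) (off := off) (ξζ := xi S₂ m x + m.lam * ze S₂ m Z x)
        (δζ := m.del * ze S₂ m Z x) (n := (Q:ℝ) + 4) hd he rfl hH hofb
        (by
          have hux' := abs_le.mp ux2
          have h0 : 0 ≤ m.lam * ze S₂ m Z x := by positivity
          rw [hxi, abs_of_nonneg (by linarith)]
          linarith)
        (by rw [abs_of_nonneg (by positivity)]; linarith)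
        (by nlinarith [h.c6])
      set E := m.eps * (off + (S₁.s c - S₁.p m.y x.1) / S₁.d x.1 *
        (xi S₂ m x + m.lam * ze S₂ m Z x) - m.del * ze S₂ m Z x) with hEdef
      have hH0 : 0 < |S₁.hA x.1 c| := lt_of_lt_of_le (by positivity) hH
      have hS := sgn_of_pert (H := S₁.hA x.1 c) (E := E) (c := 1/4) (by norm_num)
        (abs_pos.mp hH0) (by linarith)
      obtain ⟨hS1, hS2⟩ := hS
      have hval : hs S₁ S₂ m Z x (S₁.s c) (icB m Nx (S₁.t c) i' pos b) = S₁.hA x.1 c + E := by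
        rw [hHs, hoff, hEdef]; ring
      rw [hval]
      refine ⟨?_, ?_⟩
      · rw [hS1]
        cases b with
        | false =>
          unfold belB
          constructor
          · intro h1; right; right; exact ⟨hca, hcb, h1⟩
          · rintro (⟨h1, -⟩ | h1 | ⟨-, -, h1⟩)
            · exact absurd h1 hca
            · exact absurd h1 hcb
            · exact h1
        | true =>
          unfold belB
          constructor
          · intro h1; right; exact ⟨hca, hcb, h1⟩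
          · rintro (⟨h1, -⟩ | ⟨-, -, h1⟩)
            · exact absurd h1 hcb
            · exact h1
      · refine big_of hdl h.γ'0 h.c10 key (by linarith) ?_
        refine le_trans ?_ hS2
        have h1 : m.eps * m.kap * γ₂ ≤ γ₁ := by
          have h2 : m.eps * m.kap ≤ m.eps * 1 := mul_le_mul_of_nonneg_left (by linarith) he.le
          nlinarith [h.c6, mul_nonneg he.le hQ0]
        have h3 : m.eps * m.kap * γ₂ * (|S₁.s c - S₁.p m.y x.1| / S₁.d x.1 + 1) ≤
            γ₁ * (|S₁.s c - S₁.p m.y x.1| / S₁.d x.1 + 1) :=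
          mul_le_mul_of_nonneg_right h1 (by linarith)
        linarith

end K9
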