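import Pool.Agent.Helper48K9.Ctx

/-!
# Geometry of the composition: pool lines in the own cell and in other cells
-/

namespace K9

namespace GC

/-- height of a pool line of another outer event -/
lemma other {H w X X₁ d d₁ p p₁ u v ζ eps del Z Q τ₁ γ₁ : ℝ} (hd : 0 < d) (hd₁ : 0 < d₁)
    (h1 : γ₁ * (|p₁ - p| / d + 1) ≤ |H|) (h2 : τ₁ * (d₁ * |X - X₁|) ≤ |H|)
    (h3 : γ₁ ≤ |X - X₁| * d) (hw : |w - p₁| ≤ 2 * (del * Z * d₁)) (hu : |u| ≤ Q + 1)
    (hv : |v| ≤ 1) (hζ : |ζ| ≤ 1) (c5 : 64 * (del * Z) ≤ τ₁) (c6 : 64 * (eps * (Q + 8)) ≤ γ₁)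
    (hτ : 0 < τ₁) (hγ : 0 < γ₁) (heps : 0 < eps) (hdZ : 0 ≤ del * Z) (hQ : 0 ≤ Q) :
    |(w - p₁) * (X - X₁) + (w - p₁) * (eps * (u / d)) + (p₁ - p) * (eps * (u / d)) +
      eps * (v - ζ)| ≤ 1 / 4 * |H| ∧ γ₁ * (|w - p| / d + 1) ≤ 2 * |H| := by
  set R : ℝ := d₁ / d with hR
  have hR0 : 0 < R := by positivity
  have hRH : τ₁ * γ₁ * R ≤ |H| := by
    have e1 : d₁ * γ₁ ≤ (d₁ * |X - X₁|) * d := by
      have := mul_le_mul_of_nonneg_left h3 hd₁.le
      linarith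
    have e2 : τ₁ * γ₁ * R = τ₁ * (d₁ * γ₁) / d := by rw [hR]; ring
    rw [e2, div_le_iff₀ hd]
    calc τ₁ * (d₁ * γ₁) ≤ τ₁ * ((d₁ * |X - X₁|) * d) := mul_le_mul_of_nonneg_left e1 hτ.le
      _ = (τ₁ * (d₁ * |X - X₁|)) * d := by ring
      _ ≤ |H| * d := mul_le_mul_of_nonneg_right h2 hd.le
  have hg0 : 0 ≤ |p₁ - p| / d := by positivity
  have hγH : γ₁ ≤ |H| := by nlinarith
  have hwR : |w - p₁| / d ≤ 2 * (del * Z) * R := by
    rw [hR, ← mul_div_assoc]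
    exact div_le_div_of_nonneg_right (by linarith) hd.le
  have hεQ : eps * (Q + 1) ≤ γ₁ / 64 := by nlinarith
  have hε : eps ≤ γ₁ / 512 := by nlinarith
  constructor
  · have t1 : |(w - p₁) * (X - X₁)| ≤ |H| / 32 := by
      rw [abs_mul]
      calc |w - p₁| * |X - X₁| ≤ (2 * (del * Z * d₁)) * |X - X₁| :=
            mul_le_mul_of_nonneg_right hw (abs_nonneg _)
        _ = (64 * (del * Z)) * (d₁ * |X - X₁|) / 32 := by ring
        _ ≤ τ₁ * (d₁ * |X - X₁|) / 32 := by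
            apply div_le_div_of_nonneg_right _ (by norm_num)
            exact mul_le_mul_of_nonneg_right c5 (by positivity)
        _ ≤ |H| / 32 := div_le_div_of_nonneg_right h2 (by norm_num)
    have t2 : |(w - p₁) * (eps * (u / d))| ≤ |H| / 2048 := by
      have e : (w - p₁) * (eps * (u / d)) = ((w - p₁) / d) * (eps * u) := by ring
      rw [e, abs_mul, abs_div, abs_of_pos hd, abs_mul, abs_of_pos heps]
      calc |w - p₁| / d * (eps * |u|) ≤ (2 * (del * Z) * R) * (eps * (Q + 1)) := by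
            apply mul_le_mul hwR (mul_le_mul_of_nonneg_left hu heps.le) (by positivity)
              (by positivity)
        _ ≤ (2 * (τ₁ / 64) * R) * (γ₁ / 64) := by
            apply mul_le_mul _ hεQ (by positivity) (by positivity)
            apply mul_le_mul_of_nonneg_right _ hR0.le
            linarith
        _ = (τ₁ * γ₁ * R) / 2048 := by ring
        _ ≤ |H| / 2048 := div_le_div_of_nonneg_right hRH (by norm_num)
    have t3 : |(p₁ - p) * (eps * (u / d))| ≤ |H| / 64 := by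
      have e : (p₁ - p) * (eps * (u / d)) = ((p₁ - p) / d) * (eps * u) := by ring
      rw [e, abs_mul, abs_div, abs_of_pos hd, abs_mul, abs_of_pos heps]
      calc |p₁ - p| / d * (eps * |u|) ≤ |p₁ - p| / d * (γ₁ / 64) := by
            apply mul_le_mul_of_nonneg_left _ hg0
            exact (mul_le_mul_of_nonneg_left hu heps.le).trans hεQ
        _ ≤ (γ₁ * (|p₁ - p| / d + 1)) / 64 := by nlinarith
        _ ≤ |H| / 64 := div_le_div_of_nonneg_right h1 (by norm_num)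
    have t4 : |eps * (v - ζ)| ≤ |H| / 256 := by
      rw [abs_mul, abs_of_pos heps]
      have := abs_sub v ζ
      calc eps * |v - ζ| ≤ eps * 2 := mul_le_mul_of_nonneg_left (by linarith) heps.le
        _ ≤ |H| / 256 := by linarith
    have s1 := abs_add_le ((w - p₁) * (X - X₁) + (w - p₁) * (eps * (u / d)) +
      (p₁ - p) * (eps * (u / d))) (eps * (v - ζ))
    have s2 := abs_add_le ((w - p₁) * (X - X₁) + (w - p₁) * (eps * (u / d)))
      ((p₁ - p) * (eps * (u / d)))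
    have s3 := abs_add_le ((w - p₁) * (X - X₁)) ((w - p₁) * (eps * (u / d)))
    linarith
  · have e1 : |w - p| / d ≤ |w - p₁| / d + |p₁ - p| / d := by
      rw [← add_div]
      apply div_le_div_of_nonneg_right _ hd.le
      exact abs_sub_le _ _ _
    have e2 : γ₁ * (|w - p₁| / d) ≤ |H| := by
      calc γ₁ * (|w - p₁| / d) ≤ γ₁ * (2 * (del * Z) * R) := mul_le_mul_of_nonneg_left hwR hγ.le
        _ ≤ γ₁ * (τ₁ * R) := by
            apply mul_le_mul_of_nonneg_left _ hγ.le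
            apply mul_le_mul_of_nonneg_right _ hR0.le
            linarith
        _ = τ₁ * γ₁ * R := by ring
        _ ≤ |H| := hRH
    have e3 := mul_le_mul_of_nonneg_left e1 hγ.le
    nlinarith

/-- from the estimate of the normalised slope to `Big` -/
lemma big {γ' g g' γ₁ eps del B : ℝ} (hdel : 0 < del) (h1 : g ≤ 2 / del * g')
    (h2 : γ₁ * g' ≤ 2 * B) (hg' : 0 ≤ g') (hγ' : 1000 * γ' ≤ eps * del) (hγ0 : 0 < γ')
    (hε : 512 * eps ≤ γ₁) (hB : 0 ≤ B) : 20 * (γ' * g) ≤ 1 / 4 * B := by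
  have e1 : γ' * g ≤ γ' * (2 / del * g') := mul_le_mul_of_nonneg_left h1 hγ0.le
  have e2 : γ' * (2 / del * g') = (1000 * γ') * g' / (500 * del) := by field_simp; ring
  have e3 : (1000 * γ') * g' / (500 * del) ≤ (eps * del) * g' / (500 * del) := by
    apply div_le_div_of_nonneg_right _ (by positivity)
    exact mul_le_mul_of_nonneg_right hγ' hg'
  have e4 : (eps * del) * g' / (500 * del) = eps * g' / 500 := by field_simp
  have e5 : 512 * eps * g' ≤ γ₁ * g' := mul_le_mul_of_nonneg_right hε hg'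
  linarith

section

variable {A D R G F T : Type} {S₁ : Sys A D R} {S₂ : Sys G F T} {m : Pm} {Z Q Nx V₁ V Δ : ℕ}
  {σ : G → ℤ} {ς : F → ℤ} {n : T → ℤ} {τ₁ γ₁ τ₂ γ₂ μ γ' τ' : ℝ} {sl : R → G → ℝ}
  {su : R → F → ℝ}

/-- numerical consequences of the context -/
structure Num (m : Pm) (Z Q V : ℕ) (τ₁ γ₁ μ γ' : ℝ) : Prop where
  Z1 : (1:ℝ) ≤ Z
  Q1 : (1:ℝ) ≤ Q
  lZ : m.lam * Z ≤ 1 / 64
  lV : m.lam * (V + 1) ≤ 1 / 64
  dV : m.del * (V + 1) ≤ 1 / 64
  dZ : m.del * Z ≤ 1 / 64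
  l1 : m.lam ≤ 1 / 64
  kZ : m.kap * Z ≤ 1 / 1000
  k1 : m.kap ≤ 1 / 1000
  μQ : μ * (Q + 8) ≤ 1 / 1000
  μ1 : μ ≤ 1 / 1000
  g1 : 1000 * γ' ≤ m.eps * m.del
  g2 : 1000 * (γ' * Z) ≤ m.eps * m.del / 1000
  ε1 : 512 * m.eps ≤ γ₁

lemma num (C : Ctx S₁ S₂ m Z Q Nx V₁ V Δ σ ς n τ₁ γ₁ τ₂ γ₂ μ γ' τ' sl su) :
    Num m Z Q V τ₁ γ₁ μ γ' := by
  have Z1 : (1:ℝ) ≤ Z := by exact_mod_cast C.Z1
  have Q1 : (1:ℝ) ≤ Q := by exact_mod_cast C.Nx1.trans C.NxQ
  have N1 : (1:ℝ) ≤ Nx := by exact_mod_cast C.Nx1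
  have V0 : (0:ℝ) ≤ V := by positivity
  have hl := C.l0
  have hk := C.k0
  have he := C.e0
  have hp := C.ep0
  have hμ := C.μ0
  have c1 := C.c1
  have c2 := C.c2
  have c4 := C.c4
  have hZN : (Z:ℝ) ≤ Z * Nx := by nlinarith
  have lall : m.lam * (V + Z * Nx + Q + 4) ≤ 1 / 64 := by linarith
  have lZ : m.lam * Z ≤ 1 / 64 := by
    refine le_trans (mul_le_mul_of_nonneg_left ?_ hl.le) lall
    linarith
  have lV : m.lam * (V + 1) ≤ 1 / 64 := by
    refine le_trans (mul_le_mul_of_nonneg_left ?_ hl.le) lall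
    linarith
  have hdl : m.del ≤ m.lam := by
    have : m.lam * m.y ≤ m.lam * 1 := mul_le_mul_of_nonneg_left (by linarith [C.y1]) hl.le
    linarith
  have hZQ : (Z:ℝ) ≤ Z * Q := by nlinarith
  have kZ : m.kap * Z ≤ 1 / 1000 := by
    have : m.kap * Z ≤ m.kap * Z * Q := by
      have h0 : 0 ≤ m.kap * Z := by positivity
      nlinarith
    linarith
  have k1 : m.kap ≤ 1 / 1000 := by
    have : m.kap * 1 ≤ m.kap * Z := mul_le_mul_of_nonneg_left Z1 hk.le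
    linarith
  have kg : m.kap * γ₂ ≤ m.kap := by nlinarith [C.γ₂1]
  have μQ : μ * (Q + 8) ≤ 1 / 1000 := by
    have := C.c9
    linarith
  have μ1 : μ ≤ 1 / 1000 := by nlinarith
  have ed : 0 < m.eps * m.del := by positivity
  have g10 : 1000 * γ' ≤ m.eps * m.del * m.kap := by
    have h1 : m.eps * m.del * m.kap * γ₂ ≤ m.eps * m.del * m.kap * 1 :=
      mul_le_mul_of_nonneg_left C.γ₂1 (by positivity)
    linarith [C.c10]
  refine ⟨Z1, Q1, lZ, lV, ?_, ?_, by nlinarith, kZ, k1, μQ, μ1, ?_, ?_, ?_⟩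
  · exact (mul_le_mul_of_nonneg_right hdl (by linarith)).trans lV
  · exact (mul_le_mul_of_nonneg_right hdl (by linarith)).trans lZ
  · nlinarith
  · have h1 : 1000 * γ' * Z ≤ m.eps * m.del * m.kap * Z :=
      mul_le_mul_of_nonneg_right g10 (by linarith)
    have h2 : m.eps * m.del * (m.kap * Z) ≤ m.eps * m.del * (1 / 1000) :=
      mul_le_mul_of_nonneg_left kZ ed.le
    linarith
  · have := C.c6
    nlinarith

/-- bounds for the cell coordinates -/
lemma coord (C : Ctx S₁ S₂ m Z Q Nx V₁ V Δ σ ς n τ₁ γ₁ τ₂ γ₂ μ γ' τ' sl su)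
    (x : R × Cell T Nx V₁) :
    |xi S₂ m x + m.lam * ze S₂ m Z x| ≤ Q + 1 ∧ |m.del * ze S₂ m Z x| ≤ 1 / 64 ∧
      |m.lam * ze S₂ m Z x| ≤ 1 / 64 ∧ |ze S₂ m Z x| ≤ V + 1 := by
  have N := num C
  have hl := C.l0
  have hk := C.k0
  have he := C.e0
  have hY := C.hY x.2.2.2
  have hX := C.hX x.2.2.2
  have hi : (((x.2.1:ℕ):ℝ) + 1) ≤ Q := by
    have h1 : (x.2.1:ℕ) + 1 ≤ Q := (Nat.succ_le_of_lt x.2.1.2).trans C.NxQ
    exact_mod_cast h1
  have hj : (((Z * Nx + (x.2.2.1:ℕ) : ℕ) : ℝ)) ≤ V := by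
    have h1 : Z * Nx + (x.2.2.1:ℕ) ≤ V := by
      have := x.2.2.1.2
      rw [C.hV]
      nlinarith [Nat.zero_le (Z * Nx)]
    exact_mod_cast h1
  have hj0 : (0:ℝ) ≤ (((Z * Nx + (x.2.2.1:ℕ) : ℕ) : ℝ)) := Nat.cast_nonneg _
  have hkY : |m.kap * S₂.Y x.2.2.2| ≤ 1 / 1000 := by
    rw [abs_mul, abs_of_pos hk]
    exact (mul_le_mul_of_nonneg_left hY hk.le).trans N.kZ
  have hkX : |m.kap * S₂.X x.2.2.2| ≤ 1 / 1000 := by
    rw [abs_mul, abs_of_pos hk]
    have := mul_le_mul_of_nonneg_left hX hk.le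
    linarith [N.k1]
  have hze : |ze S₂ m Z x| ≤ V + 1 := by
    unfold ze
    refine (abs_add_le _ _).trans ?_
    rw [abs_of_nonneg hj0]
    linarith
  have hxi : |xi S₂ m x| ≤ Q + 1 / 1000 := by
    unfold xi
    refine (abs_add_le _ _).trans ?_
    rw [abs_of_nonneg (by positivity)]
    linarith
  have h2 : |m.lam * ze S₂ m Z x| ≤ 1 / 64 := by
    rw [abs_mul, abs_of_pos hl]
    exact (mul_le_mul_of_nonneg_left hze hl.le).trans N.lV
  have h3 : |m.del * ze S₂ m Z x| ≤ 1 / 64 := by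
    rw [abs_mul, abs_of_pos he]
    exact (mul_le_mul_of_nonneg_left hze he.le).trans N.dV
  refine ⟨?_, h3, h2, hze⟩
  refine (abs_add_le _ _).trans ?_
  linarith

/-- the slopes of the pool of `e` are close to the slope of its pool line -/
lemma slope_close (C : Ctx S₁ S₂ m Z Q Nx V₁ V Δ σ ς n τ₁ γ₁ τ₂ γ₂ μ γ' τ' sl su)
    {e₁ : R} {z : ℤ} {w : ℝ} (hz : |z| ≤ (Z:ℤ))
    (hw : |w - slI S₁ m e₁ z| ≤ μ * (m.del * S₁.d e₁)) :
    |w - S₁.p m.y e₁| ≤ 2 * (m.del * Z * S₁.d e₁) := by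
  have N := num C
  have he := C.e0
  have hd := C.g1.pos e₁
  have hz' : |(z:ℝ)| ≤ Z := by exact_mod_cast hz
  obtain ⟨a1, a2⟩ := one_add_bd C.l0 hz' N.lZ
  have a0 : 0 < 1 + m.lam * z := by linarith
  have h1 : |slI S₁ m e₁ z - S₁.p m.y e₁| ≤ 64 / 63 * (m.del * Z * S₁.d e₁) := by
    unfold slI
    rw [add_sub_cancel_left, abs_div, abs_of_pos a0, div_le_iff₀ a0, abs_mul, abs_mul,
      abs_of_pos he, abs_of_pos hd]
    have h2 : |(z:ℝ)| * m.del * S₁.d e₁ ≤ Z * m.del * S₁.d e₁ := by gcongr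
    have h3 : 0 ≤ m.del * Z * S₁.d e₁ := by have := N.Z1; positivity
    nlinarith
  have h4 : μ * (m.del * S₁.d e₁) ≤ 1 / 1000 * (m.del * Z * S₁.d e₁) := by
    have h5 : μ * (m.del * S₁.d e₁) ≤ 1 / 1000 * (m.del * S₁.d e₁) :=
      mul_le_mul_of_nonneg_right N.μ1 (by positivity)
    have h6 : m.del * S₁.d e₁ ≤ m.del * Z * S₁.d e₁ := by
      have : m.del * S₁.d e₁ * 1 ≤ m.del * S₁.d e₁ * Z :=
        mul_le_mul_of_nonneg_left N.Z1 (by positivity)
      linarith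
    linarith
  have h7 := abs_sub_le w (slI S₁ m e₁ z) (S₁.p m.y e₁)
  have h3 : 0 ≤ m.del * Z * S₁.d e₁ := by have := N.Z1; positivity
  linarith

end

end GC

open GC in
theorem leafGC (ga : LeafGA) : LeafGC := by
  intro A D R G F T S₁ S₂ m Z Q Nx V₁ V Δ σ ς n τ₁ γ₁ τ₂ γ₂ μ γ' τ' sl su C
  have N := num C
  have hl := C.l0
  have hk := C.k0
  have he := C.e0
  have hp := C.ep0
  have hμ := C.μ0
  have hγ1 := C.γ₁0
  have hτ1 := C.τ₁0
  refine ⟨?_, ?_⟩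
  · intro x e₁ z w τ β hz hτ hw
    obtain ⟨-, -, -, -, hgen, hown, -, -, -⟩ := ga S₁ S₂ m Z Q Nx V₁ V Δ σ ς n τ₁ γ₁ τ₂ γ₂ μ γ' τ' sl su C x
    obtain ⟨q1, q2, q3, q4⟩ := coord C x
    have hz' : |(z:ℝ)| ≤ Z := by exact_mod_cast hz
    obtain ⟨a1, a2⟩ := one_add_bd C.l0 hz' N.lZ
    have a0 : 0 < 1 + m.lam * z := by linarith
    have hcl := slope_close C hz hw
    have hX := C.hX x.2.2.2
    have hY := C.hY x.2.2.2
    have hF : |m.kap * (z * S₂.X x.2.2.2 + τ - S₂.Y x.2.2.2)| ≤ 1 / 4 := by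
      rw [abs_mul, abs_of_pos hk]
      have h1 : |z * S₂.X x.2.2.2 + τ - S₂.Y x.2.2.2| ≤ 5 * Z := by
        have h2 := abs_sub (z * S₂.X x.2.2.2 + τ) (S₂.Y x.2.2.2)
        have h3 := abs_add_le (z * S₂.X x.2.2.2) τ
        have h4 : |z * S₂.X x.2.2.2| ≤ Z * 1 := by
          rw [abs_mul]
          exact mul_le_mul hz' hX (abs_nonneg _) (by linarith [N.Z1])
        linarith
      have h5 := mul_le_mul_of_nonneg_left h1 hk.le
      linarith [N.kZ]
    -- the own cell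
    have key : e₁ = x.1 →
        (((β:ℕ):ℤ) ≠ bet Z Nx V₁ z x.2.1 x.2.2.1 →
          m.eps * m.del / 2 ≤ |hs S₁ S₂ m Z x w (icI S₁ m e₁ z w τ β)| ∧
          (hs S₁ S₂ m Z x w (icI S₁ m e₁ z w τ β) < 0 ↔
            ((β:ℕ):ℤ) < bet Z Nx V₁ z x.2.1 x.2.2.1)) ∧
        (((β:ℕ):ℤ) = bet Z Nx V₁ z x.2.1 x.2.2.1 →
          |hs S₁ S₂ m Z x w (icI S₁ m e₁ z w τ β) -
          m.eps * m.del * m.kap / (1 + m.lam * z) *
            (z * S₂.X x.2.2.2 + τ - S₂.Y x.2.2.2)| ≤ γ') := by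
      rintro rfl
      have hd := C.g1.pos x.1
      set ρ : ℝ := (w - slI S₁ m x.1 z) / S₁.d x.1 with hρ
      have hρ1 : |ρ| ≤ μ * m.del := by
        rw [hρ, abs_div, abs_of_pos hd, div_le_iff₀ hd]
        linarith
      have hph := pool_height (X := S₁.X x.1) (Y := S₁.Y x.1) (p := S₁.p m.y x.1)
        (d := S₁.d x.1) (lam := m.lam) (del := m.del) (eps := m.eps) (kap := m.kap) (z := z)
        (w := w) (β := ((β:ℕ):ℝ)) (τ := τ) (i := ((x.2.1:ℕ):ℝ))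
        (J := ((Z * Nx + (x.2.2.1:ℕ) : ℕ) : ℝ)) (x := S₂.X x.2.2.2) (yy := S₂.Y x.2.2.2)
        hd.ne' a0.ne'
      set nn : ℤ := ((β:ℕ):ℤ) - bet Z Nx V₁ z x.2.1 x.2.2.1 with hnn
      have hnr : (nn:ℝ) = ((β:ℕ):ℝ) - (((Z * Nx + (x.2.2.1:ℕ) : ℕ) : ℝ) - z * ((x.2.1:ℕ):ℝ)) := by
        rw [hnn]
        unfold bet
        push_cast
        ring
      have hhs : hs S₁ S₂ m Z x w (icI S₁ m x.1 z w τ β) =
          m.eps * (m.del / (1 + m.lam * z) * ((nn:ℝ) +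
            m.kap * (z * S₂.X x.2.2.2 + τ - S₂.Y x.2.2.2)) +
            ρ * (xi S₂ m x + m.lam * ze S₂ m Z x)) := by
        rw [hnr, hρ]
        unfold hs xX xY Xs Ys icI slI xi ze
        exact hph
      have hn3 : (nn:ℝ) ≤ -1 ∨ (nn:ℝ) = 0 ∨ 1 ≤ (nn:ℝ) := by
        rcases lt_trichotomy nn 0 with h | h | h
        · left; exact_mod_cast (by omega : nn ≤ -1)
        · right; left; exact_mod_cast h
        · right; right; exact_mod_cast (by omega : 1 ≤ nn)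
      have hmQ : μ * ((Q:ℝ) + 1) ≤ 1 / 8 := by
        have : μ * ((Q:ℝ) + 1) ≤ μ * (Q + 8) := mul_le_mul_of_nonneg_left (by linarith) hμ
        linarith [N.μQ]
      obtain ⟨p1, p2⟩ := pool_own (eps := m.eps) (del := m.del) (lam := m.lam) (kap := m.kap)
        (z := z) (n := nn) (F := z * S₂.X x.2.2.2 + τ - S₂.Y x.2.2.2) (ρ := ρ)
        (ξζ := xi S₂ m x + m.lam * ze S₂ m Z x) (Q := (Q:ℝ) + 1) (Z := Z) (m := μ)
        hp he hl hz' N.lZ hn3 hF q1 hρ1 hμ hmQ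
      rw [← hhs] at p1 p2
      refine ⟨fun hne => ?_, fun heq => ?_⟩
      · have hn0 : (nn:ℝ) ≠ 0 := by
          have : nn ≠ 0 := by rw [hnn]; intro h; exact hne (by linarith)
          exact_mod_cast this
        obtain ⟨p3, p4⟩ := p1 hn0
        refine ⟨p3, p4.trans ?_⟩
        have : (nn:ℝ) < 0 ↔ nn < 0 := by exact_mod_cast Iff.rfl
        rw [this, hnn]
        constructor <;> intro h <;> linarith
      · have hn0 : (nn:ℝ) = 0 := by
          have : nn = 0 := by rw [hnn]; linarith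
          exact_mod_cast this
        rw [hn0] at p2
        have e1 : m.eps * (m.del / (1 + m.lam * z) * (0 + m.kap *
            (z * S₂.X x.2.2.2 + τ - S₂.Y x.2.2.2))) =
            m.eps * m.del * m.kap / (1 + m.lam * z) *
            (z * S₂.X x.2.2.2 + τ - S₂.Y x.2.2.2) := by ring
        rw [e1] at p2
        refine p2.trans (le_trans ?_ C.c10')
        apply mul_le_mul_of_nonneg_left _ (by positivity)
        exact mul_le_mul_of_nonneg_left (by linarith) hμ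
    refine ⟨fun h1 h2 => ?_, fun h1 h2 => (key h1).2 h2, fun h1 => ?_⟩
    · obtain ⟨k1, k2⟩ := (key h1).1 h2
      refine ⟨k2, ?_⟩
      unfold Big
      refine le_trans ?_ k1
      rw [h1] at hcl
      have h3 := hown w hcl
      have h4 := mul_le_mul_of_nonneg_left h3 C.γ'0.le
      have h5 := N.g2
      have h6 : 0 < m.eps * m.del := by positivity
      nlinarith
    · -- another cell
      have hd := C.g1.pos x.1
      have hd₁ := C.g1.pos e₁
      have hv : |m.del * ((((β:ℕ):ℝ) + m.kap * τ - z) / (1 + m.lam * z))| ≤ 1 := by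
        rw [abs_mul, abs_of_pos he, abs_div, abs_of_pos a0]
        have h2 : |((β:ℕ):ℝ) + m.kap * τ - z| ≤ (V + 1) + 4 * Z := by
          have hb : |((β:ℕ):ℝ)| ≤ V := by
            rw [abs_of_nonneg (Nat.cast_nonneg _)]
            exact_mod_cast β.2.le
          have h3 := abs_sub (((β:ℕ):ℝ) + m.kap * τ) z
          have h4 := abs_add_le ((β:ℕ):ℝ) (m.kap * τ)
          have h5 : |m.kap * τ| ≤ 1 * (3 * Z) := by
            rw [abs_mul, abs_of_pos hk]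
            exact mul_le_mul (by linarith [N.k1]) hτ (abs_nonneg _) (by norm_num)
          linarith
        have h3 : |((β:ℕ):ℝ) + m.kap * τ - z| / (1 + m.lam * z) ≤
            ((V + 1) + 4 * Z) * (64 / 63) := by
          rw [div_le_iff₀ a0]
          have h0 : (0:ℝ) ≤ (V + 1) + 4 * Z := by positivity
          nlinarith
        have h4 := mul_le_mul_of_nonneg_left h3 he.le
        have h5 := N.dV
        have h6 := N.dZ
        nlinarith
      have hne : S₁.hP m.y x.1 e₁ ≠ 0 := by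
        intro h0
        have := C.g1.gP x.1 e₁ h1
        rw [h0, abs_zero] at this
        have h2 : 0 < γ₁ * (|S₁.p m.y e₁ - S₁.p m.y x.1| / S₁.d x.1 + 1) := by positivity
        linarith
      obtain ⟨o1, o2⟩ := other (H := S₁.hP m.y x.1 e₁) (w := w) (X := S₁.X x.1) (X₁ := S₁.X e₁)
        (d := S₁.d x.1) (d₁ := S₁.d e₁) (p := S₁.p m.y x.1) (p₁ := S₁.p m.y e₁)
        (u := xi S₂ m x + m.lam * ze S₂ m Z x)
        (v := m.del * ((((β:ℕ):ℝ) + m.kap * τ - z) / (1 + m.lam * z)))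
        (ζ := m.del * ze S₂ m Z x) (eps := m.eps) (del := m.del) (Z := Z) (Q := Q) hd hd₁
        (C.g1.gP x.1 e₁ h1) (C.g1.sep x.1 e₁ h1) (C.g1.xs x.1 e₁ h1) hcl q1 hv (by linarith) C.c5
        C.c6 hτ1 hγ1 hp (by have := N.Z1; positivity) (by linarith [N.Q1])
      have hhs : hs S₁ S₂ m Z x w (icI S₁ m e₁ z w τ β) = S₁.hP m.y x.1 e₁ +
          ((w - S₁.p m.y e₁) * (S₁.X x.1 - S₁.X e₁) +
            (w - S₁.p m.y e₁) * (m.eps * ((xi S₂ m x + m.lam * ze S₂ m Z x) / S₁.d x.1)) +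
            (S₁.p m.y e₁ - S₁.p m.y x.1) *
              (m.eps * ((xi S₂ m x + m.lam * ze S₂ m Z x) / S₁.d x.1)) +
            m.eps * (m.del * ((((β:ℕ):ℝ) + m.kap * τ - z) / (1 + m.lam * z)) -
              m.del * ze S₂ m Z x)) := by
        unfold hs xX xY Xs Ys icI Sys.hP Sys.h
        ring
      obtain ⟨s1, s2⟩ := sgn_of_pert (by norm_num) hne o1
      rw [← hhs] at s1 s2
      refine ⟨s1, ?_⟩
      unfold Big
      refine le_trans ?_ s2
      have hg0 : 0 ≤ |w - S₁.p m.y x.1| / S₁.d x.1 + 1 := by positivity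
      have h3 := abs_nonneg (S₁.hP m.y x.1 e₁)
      have := big he (hgen w) o2 hg0 N.g1 C.γ'0 N.ε1 h3
      linarith
  · intro x c
    obtain ⟨-, -, -, -, hgen, -, -, -, -⟩ := ga S₁ S₂ m Z Q Nx V₁ V Δ σ ς n τ₁ γ₁ τ₂ γ₂ μ γ' τ' sl su C x
    obtain ⟨q1, q2, q3, q4⟩ := coord C x
    have hd := C.g1.pos x.1
    have hg := C.g1.gD x.1 c
    have hG1 : 0 ≤ |S₁.u c - S₁.p m.y x.1| / S₁.d x.1 + 1 := by positivity
    have hne : S₁.hD x.1 c ≠ 0 := by
      intro h0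
      rw [h0, abs_zero] at hg
      have h2 : 0 < γ₁ * (|S₁.u c - S₁.p m.y x.1| / S₁.d x.1 + 1) := by positivity
      linarith
    have hpert := pert (H := S₁.hD x.1 c) (s := S₁.u c) (p := S₁.p m.y x.1) (d := S₁.d x.1)
      (ε := m.eps) (off := 0) (ξζ := xi S₂ m x + m.lam * ze S₂ m Z x)
      (δζ := m.del * ze S₂ m Z x) (n := (Q:ℝ) + 1) (γ := γ₁) hd hp rfl hg
      (by rw [abs_zero]; positivity) q1 (by linarith)
      (by have := C.c6; have := N.Q1; nlinarith)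
    have hhs : hs S₁ S₂ m Z x (S₁.u c) (S₁.v c) = S₁.hD x.1 c +
        m.eps * (0 + (S₁.u c - S₁.p m.y x.1) / S₁.d x.1 * (xi S₂ m x + m.lam * ze S₂ m Z x) -
          m.del * ze S₂ m Z x) := by
      unfold hs xX xY Xs Ys Sys.hD Sys.h
      ring
    obtain ⟨s1, s2⟩ := sgn_of_pert (c := 1 / 4) (by norm_num) hne
      (hpert.trans (le_of_eq (by ring)))
    rw [← hhs] at s1 s2
    refine ⟨s1, ?_⟩
    unfold Big
    refine le_trans ?_ s2
    have hg2 : γ₁ * (|S₁.u c - S₁.p m.y x.1| / S₁.d x.1 + 1) ≤ 2 * |S₁.hD x.1 c| := by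
      have := abs_nonneg (S₁.hD x.1 c)
      linarith
    have h3 := abs_nonneg (S₁.hD x.1 c)
    have := big he (hgen (S₁.u c)) hg2 hG1 N.g1 C.γ'0 N.ε1 h3
    linarith

end K9
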