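import Pool.Agent.Helper48K9.Ctx

/-!
# New pool lines and abscissas, same outer event (helper65)
-/

namespace K9

open Finset

/-- normalised height of a line through one ideal point above another one of the same cell -/
lemma gd_norm {X Y p d lam del eps ξ ζ ξ₁ ζ₁ w y a b Z Δ μ : ℝ} (hd : 0 < d) (hl : 0 < lam)
    (hdel : 0 < del) (hy : 0 ≤ y) (hy1 : y ≤ 1) (ha : |a| ≤ Z) (hb : |b| ≤ Z)
    (hZ : lam * Z ≤ 1 / 64) (hab : |a - b| ≤ Δ)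
    (hw : |w - (p + ((1 - y) * (a / (1 + lam * a)) + y * (b / (1 + lam * b))) * (del * d))| ≤
      μ * (del * d)) :
    ∃ c E : ℝ, 63 / 65 ≤ c ∧ c ≤ 65 / 63 ∧
      |E| ≤ lam * Δ ^ 2 * |ξ - ξ₁| + μ * |(ξ - ξ₁) + lam * (ζ - ζ₁)| ∧
      w * (X + eps * ((ξ + lam * ζ) / d)) +
        ((Y + eps * (p * ((ξ₁ + lam * ζ₁) / d) + del * ζ₁)) -
          w * (X + eps * ((ξ₁ + lam * ζ₁) / d))) -
        (Y + eps * (p * ((ξ + lam * ζ) / d) + del * ζ)) =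
      eps * del * (c * ((a - y * (a - b)) * (ξ - ξ₁) - (ζ - ζ₁)) + E) := by
  obtain ⟨c, r, h1, h2, h3, h4⟩ := pi_main (U := ξ - ξ₁) (V := ζ - ζ₁) hl hy hy1 ha hb hZ hab
  set g := (1 - y) * (a / (1 + lam * a)) + y * (b / (1 + lam * b)) with hg
  set ρ := (w - (p + g * (del * d))) / (del * d) with hρ
  have hdd : 0 < del * d := mul_pos hdel hd
  have hρ1 : |ρ| ≤ μ := by
    rw [hρ, abs_div, abs_of_pos hdd, div_le_iff₀ hdd]; exact hw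
  refine ⟨c, r + ρ * ((ξ - ξ₁) + lam * (ζ - ζ₁)), h1, h2, ?_, ?_⟩
  · refine (abs_add_le _ _).trans (add_le_add h3 ?_)
    rw [abs_mul]
    exact mul_le_mul_of_nonneg_right hρ1 (abs_nonneg _)
  · rw [pi_height hd.ne']
    have h5 : (w - p) / d = del * (g + ρ) := by
      rw [hρ]; field_simp; ring
    rw [h5]
    have h6 : c * ((a - y * (a - b)) * (ξ - ξ₁) - (ζ - ζ₁)) + (r + ρ * ((ξ - ξ₁) + lam * (ζ - ζ₁))) =
        (c * ((a - y * (a - b)) * (ξ - ξ₁) - (ζ - ζ₁)) + r) + ρ * ((ξ - ξ₁) + lam * (ζ - ζ₁)) := by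
      ring
    rw [h6, ← h4]
    ring

/-- abstract form of the first case: different lattice points -/
lemma gd_far {c L κ E Q : ℝ} (hQ : 1 ≤ Q) (hc : 63 / 65 ≤ c) (hc' : c ≤ 65 / 63)
    (hL : 1 ≤ Q * |L|) (hκ : Q * |κ| ≤ 1 / 100) (hE : Q * |E| ≤ 1 / 50) :
    (c * (L + κ) + E < 0 ↔ L < 0) ∧ 1 / 2 ≤ Q * |c * (L + κ) + E| := by
  have hQ0 : 0 < Q := by linarith
  have hc0 : 0 < c := by linarith
  have hL0 : L ≠ 0 := by
    rintro rfl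
    simp at hL
    linarith
  have h1 : |c * κ + E| ≤ 1 / 4 * |c * L| := by
    have h2 : Q * |c * κ + E| ≤ Q * (1 / 4 * |c * L|) := by
      have h3 := abs_add_le (c * κ) E
      rw [abs_mul, abs_of_pos hc0] at h3
      have h4 : Q * |c * κ + E| ≤ c * (Q * |κ|) + Q * |E| := by
        have := mul_le_mul_of_nonneg_left h3 hQ0.le
        linarith
      have h5 : c * (Q * |κ|) ≤ (65 / 63) * (1 / 100) :=
        mul_le_mul hc' hκ (by positivity) (by norm_num)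
      have h6 : (63 / 65) * 1 ≤ c * (Q * |L|) := mul_le_mul hc hL (by norm_num) hc0.le
      rw [abs_mul, abs_of_pos hc0]
      linarith
    exact le_of_mul_le_mul_left h2 hQ0
  have h2 := sgn_of_pert (H := c * L) (E := c * κ + E) (c := 1 / 4) (by norm_num)
    (mul_ne_zero hc0.ne' hL0) h1
  have e : c * (L + κ) + E = c * L + (c * κ + E) := by ring
  rw [e]
  refine ⟨h2.1.trans ?_, ?_⟩
  · constructor
    · intro h; by_contra h'
      push Not at h'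
      exact absurd h (not_lt.mpr (mul_nonneg hc0.le h'))
    · intro h; exact mul_neg_of_pos_of_neg hc0 h
  · have h3 := mul_le_mul_of_nonneg_left h2.2 hQ0.le
    rw [abs_mul, abs_of_pos hc0] at h3
    have h6 : (63 / 65) * 1 ≤ c * (Q * |L|) := mul_le_mul hc hL (by norm_num) hc0.le
    linarith

/-- abstract form of the second case: same lattice point -/
lemma gd_near {c E kap H dX dY lam Z D μ U V γ₂ τ₂ : ℝ} (hk : 0 < kap) (hl : 0 < lam)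
    (hμ : 0 ≤ μ) (hlZ : lam * Z ≤ 1 / 64) (hlip : |dY| ≤ Z * |dX|)
    (hdX : |dX| ≤ 2) (hU : U = kap * dX) (hV : V = kap * dY) (hc : 63 / 65 ≤ c)
    (hE : |E| ≤ D * |U| + μ * |U + lam * V|) (hD : D ≤ τ₂ / 64)
    (hτ : τ₂ * |dX| ≤ |H|) (hγ : γ₂ ≤ |H|) (hγ0 : 0 < γ₂) (hμγ : μ ≤ γ₂ / 1000) :
    (c * (kap * H) + E < 0 ↔ H < 0) ∧ 1 / 2 * (kap * |H|) ≤ |c * (kap * H) + E| ∧
    |U + lam * V| ≤ kap * (65 / 64 * |dX|) ∧ kap * (63 / 64 * |dX|) ≤ |U + lam * V| := by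
  have hX0 := abs_nonneg dX
  have hHpos : 0 < |H| := lt_of_lt_of_le hγ0 hγ
  have hH0 : H ≠ 0 := abs_pos.mp hHpos
  have hc0 : 0 < c := by linarith
  have hUa : |U| = kap * |dX| := by rw [hU, abs_mul, abs_of_pos hk]
  have hVa : |lam * V| ≤ kap * (1 / 64 * |dX|) := by
    rw [hV, abs_mul, abs_mul, abs_of_pos hk, abs_of_pos hl]
    calc lam * (kap * |dY|) ≤ lam * (kap * (Z * |dX|)) :=
          mul_le_mul_of_nonneg_left (mul_le_mul_of_nonneg_left hlip hk.le) hl.le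
      _ = kap * ((lam * Z) * |dX|) := by ring
      _ ≤ kap * (1 / 64 * |dX|) :=
          mul_le_mul_of_nonneg_left (mul_le_mul_of_nonneg_right hlZ hX0) hk.le
  have h1 : |U + lam * V| ≤ kap * (65 / 64 * |dX|) := by
    have := abs_add_le U (lam * V)
    linarith
  have h2 : kap * (63 / 64 * |dX|) ≤ |U + lam * V| := by
    have := abs_sub_abs_le_abs_sub U (-(lam * V))
    rw [abs_neg, sub_neg_eq_add] at this
    linarith
  have h3 : D * |U| ≤ kap * (1 / 64 * |H|) := by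
    rw [hUa]
    calc D * (kap * |dX|) ≤ (τ₂ / 64) * (kap * |dX|) :=
          mul_le_mul_of_nonneg_right hD (by positivity)
      _ = kap * (1 / 64 * (τ₂ * |dX|)) := by ring
      _ ≤ kap * (1 / 64 * |H|) :=
          mul_le_mul_of_nonneg_left (mul_le_mul_of_nonneg_left hτ (by norm_num)) hk.le
  have h4 : μ * |U + lam * V| ≤ kap * (1 / 64 * |H|) := by
    have h5 : |U + lam * V| ≤ kap * 3 := by
      refine h1.trans (mul_le_mul_of_nonneg_left ?_ hk.le)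
      linarith
    calc μ * |U + lam * V| ≤ (γ₂ / 1000) * (kap * 3) :=
          mul_le_mul hμγ h5 (abs_nonneg _) (by positivity)
      _ = kap * (3 / 1000 * γ₂) := by ring
      _ ≤ kap * (1 / 64 * |H|) := by
          apply mul_le_mul_of_nonneg_left _ hk.le
          linarith
  have h5 : 0 ≤ kap * |H| := by positivity
  have h6 : (63 / 65) * (kap * |H|) ≤ c * (kap * |H|) := mul_le_mul_of_nonneg_right hc h5
  have hcH : |c * (kap * H)| = c * (kap * |H|) := by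
    rw [abs_mul, abs_mul, abs_of_pos hc0, abs_of_pos hk]
  have hpert : |E| ≤ 1 / 4 * |c * (kap * H)| := by
    rw [hcH]; linarith
  have hs2 := sgn_of_pert (H := c * (kap * H)) (E := E) (c := 1 / 4) (by norm_num)
    (mul_ne_zero hc0.ne' (mul_ne_zero hk.ne' hH0)) hpert
  rw [hcH] at hs2
  refine ⟨hs2.1.trans ?_, ?_, h1, h2⟩
  · constructor
    · intro h; by_contra h'
      push Not at h'
      exact absurd h (not_lt.mpr (by positivity))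
    · intro h
      exact mul_neg_of_pos_of_neg hc0 (mul_neg_of_pos_of_neg hk h)
  · linarith [hs2.2]

lemma gd_nB {ed kap H' Pa γ' γ₂ G₂ B : ℝ} (hed : 0 < ed) (hk : 0 < kap) (hH : 0 ≤ H')
    (hγ'0 : 0 < γ') (hP : 1 / 2 * (kap * H') ≤ Pa) (hγ : 1000 * γ' ≤ ed * kap * γ₂)
    (hG : γ₂ * G₂ ≤ H') (hB : B ≤ 2 * G₂) (hG0 : 0 ≤ G₂) : 20 * (γ' * B) ≤ ed * Pa := by
  have h1 : γ' * B ≤ γ' * (2 * G₂) := mul_le_mul_of_nonneg_left hB hγ'0.le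
  have h2 : (1000 * γ') * G₂ ≤ (ed * kap * γ₂) * G₂ := mul_le_mul_of_nonneg_right hγ hG0
  have h3 : ed * kap * (γ₂ * G₂) ≤ ed * kap * H' := mul_le_mul_of_nonneg_left hG (by positivity)
  have h4 : ed * (1 / 2 * (kap * H')) ≤ ed * Pa := mul_le_mul_of_nonneg_left hP hed.le
  have h5 : 0 ≤ ed * kap * H' := by positivity
  linarith

lemma gd_nS {ed kap H' Pa τ' τ₂ UV dX dr W : ℝ} (hed : 0 < ed) (hk : 0 < kap) (hH : 0 ≤ H')
    (hτ' : 0 < τ') (hdr : 0 < dr) (hP : 1 / 2 * (kap * H') ≤ Pa) (hW : W ≤ 11 / 10 * ed * (dr * UV))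
    (hUV : UV ≤ kap * (65 / 64 * dX)) (hdX : 0 ≤ dX) (hτ : τ' ≤ τ₂ / 64)
    (hsep : τ₂ * (dr * dX) ≤ H') : 4 * (τ' * W) ≤ ed * Pa := by
  have h1 : τ' * W ≤ τ' * (11 / 10 * ed * (dr * UV)) := mul_le_mul_of_nonneg_left hW hτ'.le
  have h2 : dr * UV ≤ dr * (kap * (65 / 64 * dX)) := mul_le_mul_of_nonneg_left hUV hdr.le
  have h3 : τ' * (dr * dX) ≤ (τ₂ / 64) * (dr * dX) := mul_le_mul_of_nonneg_right hτ (by positivity)
  have h4 : (τ' * ed) * (dr * UV) ≤ (τ' * ed) * (dr * (kap * (65 / 64 * dX))) :=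
    mul_le_mul_of_nonneg_left h2 (by positivity)
  have h5 : (ed * kap) * (τ' * (dr * dX)) ≤ (ed * kap) * (H' / 64) :=
    mul_le_mul_of_nonneg_left (by linarith) (by positivity)
  have h6 : ed * (1 / 2 * (kap * H')) ≤ ed * Pa := mul_le_mul_of_nonneg_left hP hed.le
  have h7 : 0 ≤ ed * kap * H' := by positivity
  linarith

lemma gd_nA {ed kap γ' γ₂ UV dX dr W : ℝ} (hed : 0 < ed) (hk : 0 < kap) (hdr : 0 < dr)
    (hγ₂ : 0 < γ₂) (hW : 9 / 10 * ed * (dr * UV) ≤ W) (hUV : kap * (63 / 64 * dX) ≤ UV)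
    (hxs : γ₂ ≤ dX * dr) (hγ : 1000 * γ' ≤ ed * kap * γ₂) : 16 * γ' ≤ W := by
  have h1 : dr * (kap * (63 / 64 * dX)) ≤ dr * UV := mul_le_mul_of_nonneg_left hUV hdr.le
  have h2 : kap * γ₂ ≤ kap * (dX * dr) := mul_le_mul_of_nonneg_left hxs hk.le
  have h3 : ed * (63 / 64 * (kap * γ₂)) ≤ ed * (dr * UV) :=
    mul_le_mul_of_nonneg_left (by linarith) hed.le
  have h4 : 0 ≤ ed * (kap * γ₂) := by positivity
  linarith

lemma gd_fin {Q t ed Pa : ℝ} (hQ : 0 < Q) (hed : 0 < ed) (hlow : 1 / 2 ≤ Q * Pa)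
    (ht : Q * t ≤ ed * (1 / 2)) : t ≤ ed * Pa := by
  have h1 := mul_le_mul_of_nonneg_left hlow hed.le
  have h2 : Q * t ≤ Q * (ed * Pa) := by linarith
  exact le_of_mul_le_mul_left h2 hQ

lemma gd_fB {Q Z ed kap γ' B : ℝ} (hQ : 0 < Q) (hZ : 0 < Z) (hed : 0 < ed)
    (hγ' : 0 < γ') (hB : B ≤ 6 * Z) (hγ : 1000 * γ' ≤ ed * kap) (hkZQ : kap * Z * Q ≤ 1 / 1000) :
    Q * (20 * (γ' * B)) ≤ ed * (1 / 2) := by
  have h1 : γ' * B ≤ γ' * (6 * Z) := mul_le_mul_of_nonneg_left hB hγ'.le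
  have h2 : Q * (20 * (γ' * B)) ≤ Q * (20 * (γ' * (6 * Z))) :=
    mul_le_mul_of_nonneg_left (mul_le_mul_of_nonneg_left h1 (by norm_num)) hQ.le
  have h4 : (Q * Z) * (1000 * γ') ≤ (Q * Z) * (ed * kap) :=
    mul_le_mul_of_nonneg_left hγ (by positivity)
  have h6 : ed * (kap * Z * Q) ≤ ed * (1 / 1000) := mul_le_mul_of_nonneg_left hkZQ hed.le
  linarith

lemma gd_fS {Q Δ ed τ' dr UV W : ℝ} (hQ : 0 < Q) (hed : 0 < ed) (hτ' : 0 < τ') (hΔ : 0 ≤ Δ)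
    (hdr : dr ≤ Δ) (hUV : UV ≤ Q + 1) (hUV0 : 0 ≤ UV)
    (hW : W ≤ 11 / 10 * ed * (dr * UV)) (hc : 64 * (τ' * Δ * (Q * (Q + 1))) ≤ 1) :
    Q * (4 * (τ' * W)) ≤ ed * (1 / 2) := by
  have h1 : Q * (4 * (τ' * W)) ≤ Q * (4 * (τ' * (11 / 10 * ed * (dr * UV)))) :=
    mul_le_mul_of_nonneg_left (mul_le_mul_of_nonneg_left
      (mul_le_mul_of_nonneg_left hW hτ'.le) (by norm_num)) hQ.le
  have h2 : dr * UV ≤ Δ * (Q + 1) := mul_le_mul hdr hUV hUV0 hΔ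
  have h3 : τ' * (dr * UV) * Q ≤ 1 / 64 := by
    have h5 : τ' * (dr * UV) * Q ≤ τ' * (Δ * (Q + 1)) * Q :=
      mul_le_mul_of_nonneg_right (mul_le_mul_of_nonneg_left h2 hτ'.le) hQ.le
    linarith
  have h6 := mul_le_mul_of_nonneg_left h3 hed.le
  refine h1.trans ?_
  have e1 : Q * (4 * (τ' * (11 / 10 * ed * (dr * UV)))) =
      44 / 10 * (ed * (τ' * (dr * UV) * Q)) := by ring
  rw [e1]
  linarith

lemma gd_fA {ed kap γ' UV dr W : ℝ} (hed : 0 < ed) (hk : 0 < kap) (hdr : 1 ≤ dr)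
    (hW : 9 / 10 * ed * (dr * UV) ≤ W) (hUV : kap ≤ UV) (hγ : 1000 * γ' ≤ ed * kap) :
    16 * γ' ≤ W := by
  have h1 : 1 * kap ≤ dr * UV := mul_le_mul hdr hUV hk.le (by linarith)
  have h3 : ed * (1 * kap) ≤ ed * (dr * UV) := mul_le_mul_of_nonneg_left h1 hed.le
  have h4 : 0 ≤ ed * kap := by positivity
  linarith

/-- lower bound for the distance, different columns -/
lemma gd_col {n dX lam W kap U UVs : ℝ} (hn : 1 ≤ |n|) (hkdX : |kap * dX| ≤ 1 / 500)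
    (hU : U = n + kap * dX) (hlW : |lam * W| ≤ 1 / 64) (hk1 : kap ≤ 1 / 1000)
    (hUV : UVs = |U + lam * W|) : kap ≤ UVs := by
  have h1 := abs_sub_abs_le_abs_sub n (-(kap * dX))
  rw [abs_neg, sub_neg_eq_add, ← hU] at h1
  have h3 := abs_sub_abs_le_abs_sub U (-(lam * W))
  rw [abs_neg, sub_neg_eq_add] at h3
  rw [hUV]
  linarith

/-- lower bound for the distance, same column, different rows -/
lemma gd_row {n dX dY lam W kap U UVs : ℝ} (hn : 1 ≤ |n|) (hk : 0 < kap) (hl : 0 < lam)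
    (hkdY : |kap * dY| ≤ 1 / 500) (hdX : |dX| ≤ 2)
    (hU : U = kap * dX) (hW : W = n + kap * dY) (hkl : 256 * kap ≤ lam)
    (hUV : UVs = |U + lam * W|) : kap ≤ UVs := by
  have h1 := abs_sub_abs_le_abs_sub n (-(kap * dY))
  rw [abs_neg, sub_neg_eq_add, ← hW] at h1
  have h2 : lam * (1 / 2) ≤ |lam * W| := by
    rw [abs_mul, abs_of_pos hl]
    exact mul_le_mul_of_nonneg_left (by linarith) hl.le
  have h4 : |U| ≤ kap * 2 := by
    rw [hU, abs_mul, abs_of_pos hk]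
    exact mul_le_mul_of_nonneg_left hdX hk.le
  have h3 := abs_sub_abs_le_abs_sub (lam * W) (-U)
  rw [abs_neg, sub_neg_eq_add, add_comm (lam * W)] at h3
  rw [hUV]
  linarith

/-- numerical consequences of `Ctx` -/
structure GDNum (m : Pm) (Z Q V Δ : ℕ) (μ γ₂ : ℝ) : Prop where
  Z1 : (1:ℝ) ≤ Z
  Q1 : (1:ℝ) ≤ Q
  lZ : m.lam * Z ≤ 1 / 64
  lV : m.lam * (V + 1) ≤ 1 / 64
  kZQ : m.kap * Z * Q ≤ 1 / 1000
  kZ : m.kap * Z ≤ 1 / 1000
  k1 : m.kap ≤ 1 / 1000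
  kl : 256 * m.kap ≤ m.lam
  kg : m.kap * γ₂ ≤ m.kap
  μγ : μ ≤ γ₂ / 1000
  Qμ : Q * (μ * (Q + 1)) ≤ 1 / 1000
  Ql : Q * (m.lam * (Δ:ℝ) ^ 2 * Q) ≤ 1 / 64

section

variable {A D R G F T : Type} {S₁ : Sys A D R} {S₂ : Sys G F T} {m : Pm}
  {Z Q Nx V₁ V Δ : ℕ} {σ : G → ℤ} {ς : F → ℤ} {n : T → ℤ} {τ₁ γ₁ τ₂ γ₂ μ γ' τ' : ℝ}
  {sl : R → G → ℝ} {su : R → F → ℝ}

lemma gd_num (C : Ctx S₁ S₂ m Z Q Nx V₁ V Δ σ ς n τ₁ γ₁ τ₂ γ₂ μ γ' τ' sl su) :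
    GDNum m Z Q V Δ μ γ₂ := by
  have hZ1 : (1:ℝ) ≤ Z := by exact_mod_cast C.Z1
  have hN1 : (1:ℝ) ≤ Nx := by exact_mod_cast C.Nx1
  have hNQ : (Nx:ℝ) ≤ Q := by exact_mod_cast C.NxQ
  have hQ1 : (1:ℝ) ≤ Q := hN1.trans hNQ
  have hV0 : (0:ℝ) ≤ V := Nat.cast_nonneg V
  have hl := C.l0
  have hk := C.k0
  have hμ := C.μ0
  have hγ₂ := C.γ₂0
  have hγ₂1 := C.γ₂1
  have hc1 := C.c1
  have hZN : (Z:ℝ) * 1 ≤ Z * Nx := mul_le_mul_of_nonneg_left hN1 (by linarith only [hZ1])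
  have hlZ : m.lam * Z ≤ 1 / 64 := by
    have h2 : m.lam * Z ≤ m.lam * (V + Z * Nx + Q + 4) :=
      mul_le_mul_of_nonneg_left (by linarith only [hZN, hV0, hQ1]) hl.le
    linarith only [hc1, h2]
  have hlV : m.lam * (V + 1) ≤ 1 / 64 := by
    have h2 : m.lam * (V + 1) ≤ m.lam * (V + Z * Nx + Q + 4) :=
      mul_le_mul_of_nonneg_left (by linarith only [hZN, hZ1, hQ1]) hl.le
    linarith only [hc1, h2]
  have hkZQ : m.kap * Z * Q ≤ 1 / 1000 := by linarith only [C.c4]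
  have hkZ : m.kap * Z ≤ 1 / 1000 := by
    have h : m.kap * Z * 1 ≤ m.kap * Z * Q := mul_le_mul_of_nonneg_left hQ1 (by positivity)
    linarith only [h, hkZQ]
  have hk1 : m.kap ≤ 1 / 1000 := by
    have h : m.kap * 1 ≤ m.kap * Z := mul_le_mul_of_nonneg_left hZ1 hk.le
    linarith only [h, hkZ]
  have hkl : 256 * m.kap ≤ m.lam := by
    have h := C.c3
    have h2 : m.lam * m.y ≤ m.lam * (1 / 4) := mul_le_mul_of_nonneg_left C.y1 hl.le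
    linarith only [h, h2]
  have hkg : m.kap * γ₂ ≤ m.kap * 1 := mul_le_mul_of_nonneg_left hγ₂1 hk.le
  have hμQ : 1000 * (μ * (Q + 8)) ≤ m.kap * γ₂ := C.c9
  have hμγ : μ ≤ γ₂ / 1000 := by
    have h7 : μ * 1 ≤ μ * (Q + 8) := mul_le_mul_of_nonneg_left (by linarith only [hQ1]) hμ
    have h8 : m.kap * γ₂ ≤ 1 * γ₂ := mul_le_mul_of_nonneg_right (by linarith only [hk1]) hγ₂.le
    linarith only [h7, h8, hμQ]
  have hQμ : Q * (μ * (Q + 1)) ≤ 1 / 1000 := by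
    have h6 : μ * (Q + 1) ≤ μ * (Q + 8) := mul_le_mul_of_nonneg_left (by linarith only []) hμ
    have h7 : Q * (1000 * (μ * (Q + 8))) ≤ Q * (m.kap * 1) :=
      mul_le_mul_of_nonneg_left (hμQ.trans hkg) (by linarith only [hQ1])
    have h8 : Q * m.kap ≤ 1 := by
      have h9 : m.kap * 1 * Q ≤ m.kap * Z * Q :=
        mul_le_mul_of_nonneg_right (mul_le_mul_of_nonneg_left hZ1 hk.le) (by linarith only [hQ1])
      linarith only [h9, hkZQ]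
    have h10 : Q * (μ * (Q + 1)) ≤ Q * (μ * (Q + 8)) :=
      mul_le_mul_of_nonneg_left h6 (by linarith only [hQ1])
    linarith only [h7, h8, h10]
  have hQl : Q * (m.lam * (Δ:ℝ) ^ 2 * Q) ≤ 1 / 64 := by
    have h3 := C.c7
    have h4 : 0 ≤ m.lam * (Δ:ℝ) ^ 2 * Q := by positivity
    linarith only [h3, h4]
  exact ⟨hZ1, hQ1, hlZ, hlV, hkZQ, hkZ, hk1, hkl, by linarith only [hkg], hμγ, hQμ, hQl⟩

/-- the slope of the new pool line -/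
lemma gd_slope (C : Ctx S₁ S₂ m Z Q Nx V₁ V Δ σ ς n τ₁ γ₁ τ₂ γ₂ μ γ' τ' sl su) (e : R)
    (i : Fin Nx) (j : Fin V₁) (r : T) :
    |pN m.y S₂ sl ((e, i, j, r) : R × Cell T Nx V₁) - (S₁.p m.y e +
      ((1 - m.y) * (S₂.s (S₂.a r) / (1 + m.lam * S₂.s (S₂.a r))) +
      m.y * (S₂.s (S₂.b r) / (1 + m.lam * S₂.s (S₂.b r)))) * (m.del * S₁.d e))| ≤
      μ * (m.del * S₁.d e) := by
  have hy := C.y0
  have hy1 := C.y1
  have h1 := C.rs e (S₂.a r)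
  have h2 := C.rs e (S₂.b r)
  rw [slI, ← C.sσ] at h1 h2
  have e1 : pN m.y S₂ sl ((e, i, j, r) : R × Cell T Nx V₁) - (S₁.p m.y e +
      ((1 - m.y) * (S₂.s (S₂.a r) / (1 + m.lam * S₂.s (S₂.a r))) +
      m.y * (S₂.s (S₂.b r) / (1 + m.lam * S₂.s (S₂.b r)))) * (m.del * S₁.d e)) =
      (1 - m.y) * (sl e (S₂.a r) -
        (S₁.p m.y e + S₂.s (S₂.a r) * m.del * S₁.d e / (1 + m.lam * S₂.s (S₂.a r)))) +
      m.y * (sl e (S₂.b r) -
        (S₁.p m.y e + S₂.s (S₂.b r) * m.del * S₁.d e / (1 + m.lam * S₂.s (S₂.b r)))) := by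
    unfold pN dN; ring
  rw [e1]
  refine (abs_add_le _ _).trans ?_
  rw [abs_mul, abs_mul, abs_of_pos hy, abs_of_nonneg (by linarith only [hy1] : 0 ≤ 1 - m.y)]
  have h3 := mul_le_mul_of_nonneg_left h1 (by linarith only [hy1] : 0 ≤ 1 - m.y)
  have h4 := mul_le_mul_of_nonneg_left h2 hy.le
  linarith only [h3, h4]

/-- all bounds for the coordinate differences -/
structure GDco (m : Pm) (Z Q V : ℕ) (i i₁ j j₁ dX dY U W : ℝ) : Prop where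
  eU : U = (i - i₁) + m.kap * dX
  eW : W = (j - j₁) + m.kap * dY
  kdX : |m.kap * dX| ≤ 1 / 500
  kdY : |m.kap * dY| ≤ 1 / 500
  bUQ : |U| ≤ Q
  lW : |m.lam * W| ≤ 1 / 64
  bUV : |U + m.lam * W| ≤ Q + 1

lemma gd_co (C : Ctx S₁ S₂ m Z Q Nx V₁ V Δ σ ς n τ₁ γ₁ τ₂ γ₂ μ γ' τ' sl su)
    (N : GDNum m Z Q V Δ μ γ₂) (e : R) (i i₁ : Fin Nx) (j j₁ : Fin V₁) (r r₁ : T) :
    GDco m Z Q V ((i:ℕ):ℝ) ((i₁:ℕ):ℝ) ((j:ℕ):ℝ) ((j₁:ℕ):ℝ) (S₂.X r - S₂.X r₁) (S₂.Y r - S₂.Y r₁)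
      (xi S₂ m ((e, i, j, r) : R × Cell T Nx V₁) - xi S₂ m ((e, i₁, j₁, r₁) : R × Cell T Nx V₁))
      (ze S₂ m Z ((e, i, j, r) : R × Cell T Nx V₁) -
        ze S₂ m Z ((e, i₁, j₁, r₁) : R × Cell T Nx V₁)) := by
  have hl := C.l0
  have hk := C.k0
  have hNQ : (Nx:ℝ) ≤ Q := by exact_mod_cast C.NxQ
  have hVV : (V₁:ℝ) ≤ V := by
    have h := C.hV
    have : V₁ ≤ V := by omega
    exact_mod_cast this
  have hU : xi S₂ m ((e, i, j, r) : R × Cell T Nx V₁) -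
      xi S₂ m ((e, i₁, j₁, r₁) : R × Cell T Nx V₁) =
      (((i:ℕ):ℝ) - ((i₁:ℕ):ℝ)) + m.kap * (S₂.X r - S₂.X r₁) := by
    unfold xi; ring
  have hW : ze S₂ m Z ((e, i, j, r) : R × Cell T Nx V₁) -
      ze S₂ m Z ((e, i₁, j₁, r₁) : R × Cell T Nx V₁) =
      (((j:ℕ):ℝ) - ((j₁:ℕ):ℝ)) + m.kap * (S₂.Y r - S₂.Y r₁) := by
    unfold ze; push_cast; ring
  have hdX2 : |S₂.X r - S₂.X r₁| ≤ 2 := by
    have := abs_sub (S₂.X r) (S₂.X r₁)
    linarith only [this, C.hX r, C.hX r₁]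
  have hdY2 : |S₂.Y r - S₂.Y r₁| ≤ 2 * Z := by
    have := abs_sub (S₂.Y r) (S₂.Y r₁)
    linarith only [this, C.hY r, C.hY r₁]
  have hi0 : (0:ℝ) ≤ ((i:ℕ):ℝ) := Nat.cast_nonneg _
  have hi₁0 : (0:ℝ) ≤ ((i₁:ℕ):ℝ) := Nat.cast_nonneg _
  have hj0 : (0:ℝ) ≤ ((j:ℕ):ℝ) := Nat.cast_nonneg _
  have hj₁0 : (0:ℝ) ≤ ((j₁:ℕ):ℝ) := Nat.cast_nonneg _
  have hiN : ((i:ℕ):ℝ) + 1 ≤ Nx := by exact_mod_cast i.2
  have hi₁N : ((i₁:ℕ):ℝ) + 1 ≤ Nx := by exact_mod_cast i₁.2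
  have hjV : ((j:ℕ):ℝ) + 1 ≤ V₁ := by exact_mod_cast j.2
  have hj₁V : ((j₁:ℕ):ℝ) + 1 ≤ V₁ := by exact_mod_cast j₁.2
  have hkdX : |m.kap * (S₂.X r - S₂.X r₁)| ≤ 1 / 500 := by
    rw [abs_mul, abs_of_pos hk]
    calc m.kap * |S₂.X r - S₂.X r₁| ≤ m.kap * 2 := mul_le_mul_of_nonneg_left hdX2 hk.le
      _ ≤ 1 / 500 := by linarith only [N.k1]
  have hkdY : |m.kap * (S₂.Y r - S₂.Y r₁)| ≤ 1 / 500 := by
    rw [abs_mul, abs_of_pos hk]
    calc m.kap * |S₂.Y r - S₂.Y r₁| ≤ m.kap * (2 * Z) := mul_le_mul_of_nonneg_left hdY2 hk.le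
      _ = 2 * (m.kap * Z) := by ring
      _ ≤ 1 / 500 := by linarith only [N.kZ]
  have hUQ : |xi S₂ m ((e, i, j, r) : R × Cell T Nx V₁) -
      xi S₂ m ((e, i₁, j₁, r₁) : R × Cell T Nx V₁)| ≤ Q := by
    rw [hU]
    refine (abs_add_le _ _).trans ?_
    have h1 : |((i:ℕ):ℝ) - ((i₁:ℕ):ℝ)| ≤ Nx - 1 := by
      rw [abs_le]; constructor <;> linarith only [hi0, hi₁0, hiN, hi₁N]
    linarith only [h1, hkdX, hNQ]
  have hWV : |ze S₂ m Z ((e, i, j, r) : R × Cell T Nx V₁) -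
      ze S₂ m Z ((e, i₁, j₁, r₁) : R × Cell T Nx V₁)| ≤ V + 1 := by
    rw [hW]
    refine (abs_add_le _ _).trans ?_
    have h1 : |((j:ℕ):ℝ) - ((j₁:ℕ):ℝ)| ≤ V₁ := by
      rw [abs_le]; constructor <;> linarith only [hj0, hj₁0, hjV, hj₁V]
    linarith only [h1, hkdY, hVV]
  have hlW : |m.lam * (ze S₂ m Z ((e, i, j, r) : R × Cell T Nx V₁) -
      ze S₂ m Z ((e, i₁, j₁, r₁) : R × Cell T Nx V₁))| ≤ 1 / 64 := by
    rw [abs_mul, abs_of_pos hl]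
    exact (mul_le_mul_of_nonneg_left hWV hl.le).trans N.lV
  refine ⟨hU, hW, hkdX, hkdY, hUQ, hlW, ?_⟩
  refine (abs_add_le _ _).trans ?_
  linarith only [hUQ, hlW]

end

theorem leafGD (ga : LeafGA) : LeafGD := by
  intro A D R G F T S₁ S₂ m Z Q Nx V₁ V Δ σ ς n τ₁ γ₁ τ₂ γ₂ μ γ' τ' sl su C x x₁ hne he
  obtain ⟨⟨d1, d2, d3⟩, -, -, -, -, g6, -, -, g9⟩ :=
    ga S₁ S₂ m Z Q Nx V₁ V Δ σ ς n τ₁ γ₁ τ₂ γ₂ μ γ' τ' sl su C x
  obtain ⟨⟨d1', d2', d3'⟩, -, -, g4', -, -, -, -, -⟩ :=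
    ga S₁ S₂ m Z Q Nx V₁ V Δ σ ς n τ₁ γ₁ τ₂ γ₂ μ γ' τ' sl su C x₁
  have g9' := g9 x₁ he
  obtain ⟨e, i, j, r⟩ := x
  obtain ⟨e₁, i₁, j₁, r₁⟩ := x₁
  simp only at he
  subst he
  simp only at d1 d2 d3 d1' d2' d3' g4' g6 g9'
  intro t₁
  have N := gd_num C
  have K := gd_co C N e₁ i i₁ j j₁ r r₁
  have hwest := gd_slope C e₁ i₁ j₁ r₁
  have hl := C.l0
  have hdel := C.e0
  have hk := C.k0
  have hep := C.ep0
  have hy := C.y0
  have hy1 := C.y1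
  have hγ' := C.γ'0
  have hτ' := C.τ'0
  have hμ := C.μ0
  have hγ₂ := C.γ₂0
  have hτ₂ := C.τ₂0
  have hd : 0 < S₁.d e₁ := C.g1.pos e₁
  have hd₂ : 0 < S₂.d r := C.g2.pos r
  have hd₂' : 0 < S₂.d r₁ := C.g2.pos r₁
  have hQ0 : (0:ℝ) < Q := by linarith only [N.Q1]
  have hZ0 : (0:ℝ) < Z := by linarith only [N.Z1]
  have haZ : |S₂.s (S₂.a r₁)| ≤ Z := by rw [C.sσ]; exact_mod_cast C.hσ (S₂.a r₁)
  have hbZ : |S₂.s (S₂.b r₁)| ≤ Z := by rw [C.sσ]; exact_mod_cast C.hσ (S₂.b r₁)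
  have habΔ : |S₂.s (S₂.a r₁) - S₂.s (S₂.b r₁)| ≤ Δ := by
    have h1 : |S₂.d r₁| ≤ Δ := by rw [abs_of_pos hd₂']; exact C.hΔ r₁
    exact h1
  have hqZ : |S₂.p m.y r₁| ≤ Z := by
    have e1 : S₂.p m.y r₁ = (1 - m.y) * S₂.s (S₂.a r₁) + m.y * S₂.s (S₂.b r₁) := by
      unfold Sys.p Sys.d; ring
    rw [e1]
    refine (abs_add_le _ _).trans ?_
    rw [abs_mul, abs_mul, abs_of_pos hy, abs_of_nonneg (by linarith only [hy1] : 0 ≤ 1 - m.y)]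
    have h1 := mul_le_mul_of_nonneg_left haZ (by linarith only [hy1] : 0 ≤ 1 - m.y)
    have h2 := mul_le_mul_of_nonneg_left hbZ hy.le
    linarith only [h1, h2]
  have hlip : |S₂.Y r - S₂.Y r₁| ≤ Z * |S₂.X r - S₂.X r₁| := C.lip r r₁
  have hdX2 : |S₂.X r - S₂.X r₁| ≤ 2 := by
    have := abs_sub (S₂.X r) (S₂.X r₁)
    linarith only [this, C.hX r, C.hX r₁]
  have hdY2 : |S₂.Y r - S₂.Y r₁| ≤ 2 * Z := by
    have := abs_sub (S₂.Y r) (S₂.Y r₁)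
    linarith only [this, C.hY r, C.hY r₁]
  obtain ⟨c, E, hc, hc', hE, hmain⟩ := gd_norm (X := S₁.X e₁) (Y := S₁.Y e₁) (eps := m.eps)
    (ξ := xi S₂ m ((e₁, i, j, r) : R × Cell T Nx V₁))
    (ζ := ze S₂ m Z ((e₁, i, j, r) : R × Cell T Nx V₁))
    (ξ₁ := xi S₂ m ((e₁, i₁, j₁, r₁) : R × Cell T Nx V₁))
    (ζ₁ := ze S₂ m Z ((e₁, i₁, j₁, r₁) : R × Cell T Nx V₁)) hd hl hdel hy.le
    (by linarith only [hy1] : m.y ≤ 1) haZ hbZ N.lZ habΔ hwest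
  have hheight : hs S₁ S₂ m Z ((e₁, i, j, r) : R × Cell T Nx V₁)
      (pN m.y S₂ sl ((e₁, i₁, j₁, r₁) : R × Cell T Nx V₁)) t₁ =
      m.eps * m.del * (c * (S₂.p m.y r₁ *
        (xi S₂ m ((e₁, i, j, r) : R × Cell T Nx V₁) - xi S₂ m ((e₁, i₁, j₁, r₁) : R × Cell T Nx V₁))
        - (ze S₂ m Z ((e₁, i, j, r) : R × Cell T Nx V₁) -
          ze S₂ m Z ((e₁, i₁, j₁, r₁) : R × Cell T Nx V₁))) + E) := by
    rw [show S₂.p m.y r₁ = S₂.s (S₂.a r₁) - m.y * (S₂.s (S₂.a r₁) - S₂.s (S₂.b r₁)) from rfl,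
      ← hmain]
    rfl
  have hXX : |xX S₁ S₂ m Z ((e₁, i, j, r) : R × Cell T Nx V₁) -
      xX S₁ S₂ m Z ((e₁, i₁, j₁, r₁) : R × Cell T Nx V₁)| =
      m.eps * (|(xi S₂ m ((e₁, i, j, r) : R × Cell T Nx V₁) -
        xi S₂ m ((e₁, i₁, j₁, r₁) : R × Cell T Nx V₁)) +
        m.lam * (ze S₂ m Z ((e₁, i, j, r) : R × Cell T Nx V₁) -
          ze S₂ m Z ((e₁, i₁, j₁, r₁) : R × Cell T Nx V₁))| / S₁.d e₁) := by
    have e1 : xX S₁ S₂ m Z ((e₁, i, j, r) : R × Cell T Nx V₁) -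
        xX S₁ S₂ m Z ((e₁, i₁, j₁, r₁) : R × Cell T Nx V₁) =
        m.eps * (((xi S₂ m ((e₁, i, j, r) : R × Cell T Nx V₁) -
        xi S₂ m ((e₁, i₁, j₁, r₁) : R × Cell T Nx V₁)) +
        m.lam * (ze S₂ m Z ((e₁, i, j, r) : R × Cell T Nx V₁) -
          ze S₂ m Z ((e₁, i₁, j₁, r₁) : R × Cell T Nx V₁))) / S₁.d e₁) := by
      unfold xX Xs; ring
    rw [e1, abs_mul, abs_of_pos hep, abs_div, abs_of_pos hd]
  have hed : 0 < m.eps * m.del := mul_pos hep hdel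
  clear_value t₁
  clear hmain hwest
  -- generalise
  generalize xi S₂ m ((e₁, i, j, r) : R × Cell T Nx V₁) -
    xi S₂ m ((e₁, i₁, j₁, r₁) : R × Cell T Nx V₁) = U at *
  generalize ze S₂ m Z ((e₁, i, j, r) : R × Cell T Nx V₁) -
    ze S₂ m Z ((e₁, i₁, j₁, r₁) : R × Cell T Nx V₁) = W at *
  generalize xX S₁ S₂ m Z ((e₁, i, j, r) : R × Cell T Nx V₁) -
    xX S₁ S₂ m Z ((e₁, i₁, j₁, r₁) : R × Cell T Nx V₁) = XX at *
  unfold Big
  generalize hs S₁ S₂ m Z ((e₁, i, j, r) : R × Cell T Nx V₁)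
      (pN m.y S₂ sl ((e₁, i₁, j₁, r₁) : R × Cell T Nx V₁)) t₁ = hh at *
  have hUVdef : |U + m.lam * W| = |U + m.lam * W| := rfl
  generalize hUVg : |U + m.lam * W| = UV at *
  have hUV0 : 0 ≤ UV := by rw [← hUVg]; exact abs_nonneg _
  have hup : dN S₂ sl ((e₁, i₁, j₁, r₁) : R × Cell T Nx V₁) * |XX| ≤
      11 / 10 * (m.eps * m.del) * (S₂.d r₁ * UV) := by
    rw [hXX]
    have h1 : 0 ≤ m.eps * (UV / S₁.d e₁) := by positivity
    refine (mul_le_mul_of_nonneg_right d2' h1).trans (le_of_eq ?_)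
    field_simp
  have hlow : 9 / 10 * (m.eps * m.del) * (S₂.d r * UV) ≤
      |XX| * dN S₂ sl ((e₁, i, j, r) : R × Cell T Nx V₁) := by
    rw [hXX]
    have h1 : 0 ≤ m.eps * (UV / S₁.d e₁) := by positivity
    refine le_trans (le_of_eq ?_) (mul_le_mul_of_nonneg_left d1 h1)
    field_simp
  have hγed : 1000 * γ' ≤ m.eps * m.del * m.kap * γ₂ := C.c10
  have hγed' : 1000 * γ' ≤ m.eps * m.del * m.kap := by
    have h1 : m.eps * m.del * (m.kap * γ₂) ≤ m.eps * m.del * m.kap :=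
      mul_le_mul_of_nonneg_left N.kg hed.le
    linarith only [hγed, h1]
  have g6' := g6 _ g4'
  generalize hB : |pN m.y S₂ sl ((e₁, i₁, j₁, r₁) : R × Cell T Nx V₁) -
    pN m.y S₂ sl ((e₁, i, j, r) : R × Cell T Nx V₁)| /
    dN S₂ sl ((e₁, i, j, r) : R × Cell T Nx V₁) + 1 = BB at *
  generalize dN S₂ sl ((e₁, i, j, r) : R × Cell T Nx V₁) = dn at *
  generalize dN S₂ sl ((e₁, i₁, j₁, r₁) : R × Cell T Nx V₁) = dn₁ at *
  generalize hq : S₂.p m.y r₁ = q at *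
  by_cases hij : i = i₁ ∧ j = j₁
  · -- same lattice point
    obtain ⟨rfl, rfl⟩ := hij
    have hrr : r₁ ≠ r := by
      rintro rfl; exact hne rfl
    have hU' : U = m.kap * (S₂.X r - S₂.X r₁) := by rw [K.eU]; ring
    have hW' : W = m.kap * (S₂.Y r - S₂.Y r₁) := by rw [K.eW]; ring
    have hHeq : S₂.hP m.y r r₁ = q * (S₂.X r - S₂.X r₁) - (S₂.Y r - S₂.Y r₁) := by
      unfold Sys.hP Sys.h; rw [hq]; ring
    have hgP := C.g2.gP r r₁ hrr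
    have hsep := C.g2.sep r r₁ hrr
    have hxs := C.g2.xs r r₁ hrr
    have hbel : belP S₁ S₂ m Z ((e₁, i, j, r) : R × Cell T Nx V₁) (e₁, i, j, r₁) ↔
        S₂.hP m.y r r₁ < 0 := by
      unfold belP
      simp only [ne_eq, not_true_eq_false, false_and, true_and, false_or]
      constructor
      · rintro ⟨-, h⟩; exact h
      · intro h; exact ⟨hrr, h⟩
    rw [hbel]
    generalize S₂.hP m.y r r₁ = H at *
    generalize S₂.X r - S₂.X r₁ = dX at *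
    generalize S₂.Y r - S₂.Y r₁ = dY at *
    rw [hq] at hgP
    have hG0 : 0 ≤ |q - S₂.p m.y r| / S₂.d r := by positivity
    have hγH : γ₂ ≤ |H| := by
      have : γ₂ * 1 ≤ γ₂ * (|q - S₂.p m.y r| / S₂.d r + 1) :=
        mul_le_mul_of_nonneg_left (by linarith only [hG0]) hγ₂.le
      linarith only [this, hgP]
    have hτdX : τ₂ * |dX| ≤ |H| := by
      have h1 : 1 * |dX| ≤ S₂.d r₁ * |dX| := mul_le_mul_of_nonneg_right d3' (abs_nonneg _)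
      have h2 : τ₂ * (1 * |dX|) ≤ τ₂ * (S₂.d r₁ * |dX|) := mul_le_mul_of_nonneg_left h1 hτ₂.le
      linarith only [h2, hsep]
    have hD : m.lam * (Δ:ℝ) ^ 2 ≤ τ₂ / 64 := by linarith only [C.c8]
    rw [← hUVg] at hE
    obtain ⟨a1, a2, a3, a4⟩ := gd_near (U := U) (V := W) hk hl hμ N.lZ hlip hdX2 hU' hW' hc hE
      hD hτdX hγH hγ₂ N.μγ
    rw [hUVg] at a3 a4
    have hPveq : c * (q * U - W) + E = c * (m.kap * H) + E := by
      rw [hU', hW', hHeq]; ring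
    rw [hPveq] at hheight
    have habs : |hh| = m.eps * m.del * |c * (m.kap * H) + E| := by
      rw [hheight, abs_mul, abs_of_pos hed]
    refine ⟨?_, ?_, ?_, ?_⟩
    · rw [← a1, hheight]
      constructor
      · intro h; by_contra h'
        push Not at h'
        exact absurd h (not_lt.mpr (mul_nonneg hed.le h'))
      · intro h; exact mul_neg_of_pos_of_neg hed h
    · rw [habs]
      exact gd_nB hed hk (abs_nonneg H) hγ' a2 hγed hgP g9' (by linarith only [hG0])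
    · rw [habs]
      exact gd_nS hed hk (abs_nonneg H) hτ' hd₂' a2 hup a3 (abs_nonneg dX)
        (by linarith only [C.c12]) hsep
    · exact gd_nA hed hk hd₂ hγ₂ hlow a4 hxs hγed
  · -- different lattice points
    have hcop := (C.hn r₁).2
    have hQn : (Q:ℝ) * q = n r₁ := by rw [← hq]; exact (C.hn r₁).1
    generalize hL : q * (((i:ℕ):ℝ) - ((i₁:ℕ):ℝ)) - (((j:ℕ):ℝ) - ((j₁:ℕ):ℝ)) = L
    have hLint : (Q:ℝ) * L = ((n r₁ * (((i:ℕ):ℤ) - ((i₁:ℕ):ℤ)) -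
        (Q:ℤ) * (((j:ℕ):ℤ) - ((j₁:ℕ):ℤ)) : ℤ) : ℝ) := by
      rw [← hL]; push_cast; rw [← hQn]; ring
    have hWne : n r₁ * (((i:ℕ):ℤ) - ((i₁:ℕ):ℤ)) - (Q:ℤ) * (((j:ℕ):ℤ) - ((j₁:ℕ):ℤ)) ≠ 0 := by
      intro h0
      have hdvd : (Q:ℤ) ∣ n r₁ * (((i:ℕ):ℤ) - ((i₁:ℕ):ℤ)) :=
        ⟨((j:ℕ):ℤ) - ((j₁:ℕ):ℤ), by linarith only [h0]⟩
      have h1 := hcop.symm.dvd_of_dvd_mul_left hdvd
      have h2 : |((i:ℕ):ℤ) - ((i₁:ℕ):ℤ)| < Q := by
        have h3 := i.2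
        have h4 := i₁.2
        have h5 := C.NxQ
        rw [abs_lt]; constructor <;> omega
      have h3 := Int.eq_zero_of_abs_lt_dvd h1 h2
      rw [h3, mul_zero, zero_sub, neg_eq_zero] at h0
      have hQ0 : (Q:ℤ) ≠ 0 := by
        have := C.NxQ; have := C.Nx1; omega
      have h4 := (mul_eq_zero.mp h0).resolve_left hQ0
      apply hij
      constructor
      · apply Fin.ext; omega
      · apply Fin.ext; omega
    have hLge : 1 ≤ (Q:ℝ) * |L| := by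
      have h1 := Int.one_le_abs hWne
      have h2 : (Q:ℝ) * |L| = |(Q:ℝ) * L| := by
        rw [abs_mul, abs_of_pos hQ0]
      rw [h2, hLint, ← Int.cast_abs]
      exact_mod_cast h1
    have hij' : ¬ ((i₁, j₁) = (i, j)) := by
      intro h
      apply hij
      rw [Prod.mk.injEq] at h
      exact ⟨h.1.symm, h.2.symm⟩
    have hbel : belP S₁ S₂ m Z ((e₁, i, j, r) : R × Cell T Nx V₁) (e₁, i₁, j₁, r₁) ↔ L < 0 := by
      unfold belP
      simp only [ne_eq, not_true_eq_false, false_and, true_and, false_or]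
      have hLiff : (((Z * Nx + (j₁:ℕ) : ℕ) : ℝ) + S₂.p m.y r₁ * (((i:ℕ):ℝ) - ((i₁:ℕ):ℝ)) <
          ((Z * Nx + (j:ℕ) : ℕ) : ℝ)) ↔ L < 0 := by
        rw [← hL, hq]; push_cast
        constructor <;> intro h <;> linarith only [h]
      rw [hLiff]
      constructor
      · rintro (⟨-, h⟩ | ⟨h1, h2, -⟩)
        · exact h
        · exact absurd ⟨h1.symm, h2.symm⟩ hij
      · intro h; exact Or.inl ⟨hij', h⟩
    rw [hbel]
    have hUVk : m.kap ≤ UV := by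
      by_cases hii : i = i₁
      · subst hii
        have hjj : j ≠ j₁ := fun h => hij ⟨rfl, h⟩
        have hj1 : 1 ≤ |((j:ℕ):ℝ) - ((j₁:ℕ):ℝ)| := by
          have h1 : ((j:ℕ):ℤ) - ((j₁:ℕ):ℤ) ≠ 0 := by
            intro h; apply hjj; apply Fin.ext; omega
          have h2 := Int.one_le_abs h1
          have h3 : ((1:ℤ):ℝ) ≤ ((|((j:ℕ):ℤ) - ((j₁:ℕ):ℤ)| : ℤ) : ℝ) := by exact_mod_cast h2
          push_cast at h3
          exact h3
        have hU2 : U = m.kap * (S₂.X r - S₂.X r₁) := by rw [K.eU]; ring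
        exact gd_row hj1 hk hl K.kdY hdX2 hU2 K.eW N.kl hUVg.symm
      · have hi1 : 1 ≤ |((i:ℕ):ℝ) - ((i₁:ℕ):ℝ)| := by
          have h1 : ((i:ℕ):ℤ) - ((i₁:ℕ):ℤ) ≠ 0 := by
            intro h; apply hii; apply Fin.ext; omega
          have h2 := Int.one_le_abs h1
          have h3 : ((1:ℤ):ℝ) ≤ ((|((i:ℕ):ℤ) - ((i₁:ℕ):ℤ)| : ℤ) : ℝ) := by exact_mod_cast h2
          push_cast at h3
          exact h3
        exact gd_col hi1 K.kdX K.eU K.lW N.k1 hUVg.symm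
    have hPveq : c * (q * U - W) + E =
        c * (L + m.kap * (q * (S₂.X r - S₂.X r₁) - (S₂.Y r - S₂.Y r₁))) + E := by
      rw [K.eU, K.eW, ← hL]; ring
    rw [hPveq] at hheight
    generalize S₂.X r - S₂.X r₁ = dX at *
    generalize S₂.Y r - S₂.Y r₁ = dY at *
    have hκb : (Q:ℝ) * |m.kap * (q * dX - dY)| ≤ 1 / 100 := by
      rw [abs_mul, abs_of_pos hk]
      have h1 : |q * dX - dY| ≤ 4 * Z := by
        refine (abs_sub _ _).trans ?_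
        rw [abs_mul]
        have : |q| * |dX| ≤ Z * 2 := mul_le_mul hqZ hdX2 (abs_nonneg _) hZ0.le
        linarith only [this, hdY2]
      calc (Q:ℝ) * (m.kap * |q * dX - dY|) ≤ Q * (m.kap * (4 * Z)) :=
            mul_le_mul_of_nonneg_left (mul_le_mul_of_nonneg_left h1 hk.le) hQ0.le
        _ = 4 * (m.kap * Z * Q) := by ring
        _ ≤ 1 / 100 := by linarith only [N.kZQ]
    have hUVQ : UV ≤ Q + 1 := by rw [← hUVg]; exact K.bUV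
    have hEb : (Q:ℝ) * |E| ≤ 1 / 50 := by
      have h1 : (Q:ℝ) * |E| ≤ Q * (m.lam * (Δ:ℝ) ^ 2 * Q + μ * (Q + 1)) := by
        apply mul_le_mul_of_nonneg_left _ hQ0.le
        refine hE.trans (add_le_add ?_ ?_)
        · exact mul_le_mul_of_nonneg_left K.bUQ (by positivity)
        · exact mul_le_mul_of_nonneg_left hUVQ hμ
      have e1 : Q * (m.lam * (Δ:ℝ) ^ 2 * Q + μ * (Q + 1)) =
          Q * (m.lam * (Δ:ℝ) ^ 2 * Q) + Q * (μ * (Q + 1)) := by ring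
      rw [e1] at h1
      linarith only [h1, N.Ql, N.Qμ]
    obtain ⟨hsg, hlow2⟩ := gd_far N.Q1 hc hc' hLge hκb hEb
    have habs : |hh| = m.eps * m.del * |c * (L + m.kap * (q * dX - dY)) + E| := by
      rw [hheight, abs_mul, abs_of_pos hed]
    refine ⟨?_, ?_, ?_, ?_⟩
    · rw [← hsg, hheight]
      constructor
      · intro h; by_contra h'
        push Not at h'
        exact absurd h (not_lt.mpr (mul_nonneg hed.le h'))
      · intro h; exact mul_neg_of_pos_of_neg hed h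
    · rw [habs]
      exact gd_fin hQ0 hed hlow2 (gd_fB hQ0 hZ0 hed hγ' g6' hγed' N.kZQ)
    · rw [habs]
      exact gd_fin hQ0 hed hlow2 (gd_fS hQ0 hed hτ' (Nat.cast_nonneg Δ) (C.hΔ r₁) hUVQ hUV0 hup
        C.c11)
    · exact gd_fA hed hk d3 hlow hUVk hγed'

end K9
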