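import Pool.Agent.Helper48K9.Ctx

/-!
# Leaf GE: new pool lines and abscissas, different outer events
-/

namespace K9

open Finset

namespace GEx

variable {A D R G F T : Type} {Nx V₁ : ℕ}

lemma num1 {lam del kap y : ℝ} (hl : 0 < lam) (hy0 : 0 < y) (hy1 : y ≤ 1 / 4)
    (hl1 : lam ≤ 1 / 64) (h2 : 8 * del ≤ lam * y) (h3 : 64 * kap ≤ lam * y) :
    del ≤ lam / 32 ∧ kap ≤ 1 := by
  have h : lam * y ≤ lam * (1 / 4) := mul_le_mul_of_nonneg_left hy1 hl.le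
  constructor <;> linarith

lemma num2 {e b c g : ℝ} (he : 0 < e) (hb : 0 < b) (hc : c ≤ 1) (hg1 : g ≤ 1)
    (hg : 0 < g) : e * b * c * g ≤ e * b := by
  have h3 : c * g ≤ 1 := by
    calc c * g ≤ 1 * 1 := mul_le_mul hc hg1 hg.le (by norm_num)
      _ = 1 := by norm_num
  calc e * b * c * g = (e * b) * (c * g) := by ring
    _ ≤ (e * b) * 1 := mul_le_mul_of_nonneg_left h3 (by positivity)
    _ = e * b := by ring

lemma num3 {γ H a : ℝ} (hγ : 0 < γ) (ha : 0 ≤ a) (h : γ * (a + 1) ≤ H) :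
    γ ≤ H ∧ a * γ ≤ H - γ := by
  have h1 : γ * (a + 1) = a * γ + γ := by ring
  have h2 : 0 ≤ a * γ := by positivity
  constructor <;> linarith

/-- coordinates of a new event in its cell -/
lemma coord {S₁ : Sys A D R} {S₂ : Sys G F T} {m : Pm} {Z Q V Δ : ℕ} {σ : G → ℤ} {ς : F → ℤ}
    {n : T → ℤ} {τ₁ γ₁ τ₂ γ₂ μ γ' τ' : ℝ} {sl : R → G → ℝ} {su : R → F → ℝ}
    (h : Ctx S₁ S₂ m Z Q Nx V₁ V Δ σ ς n τ₁ γ₁ τ₂ γ₂ μ γ' τ' sl su)
    (x : R × Cell T Nx V₁) :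
    |xi S₂ m x + m.lam * ze S₂ m Z x| ≤ Q + 1 ∧ 0 ≤ ze S₂ m Z x + 1 / 1000 ∧
      ze S₂ m Z x ≤ V + 1 := by
  have hZ : (1:ℝ) ≤ Z := by exact_mod_cast h.Z1
  have hNx : (1:ℝ) ≤ Nx := by exact_mod_cast h.Nx1
  have hNQ : (Nx:ℝ) ≤ Q := by exact_mod_cast h.NxQ
  have hQ : (1:ℝ) ≤ Q := hNx.trans hNQ
  have hk := h.k0
  have hl := h.l0
  have hZQ : (1:ℝ) ≤ Z * Q := by nlinarith
  have hkZ : m.kap * Z ≤ 1 / 1000 := by
    have h1 := h.c4
    have h2 : m.kap * Z ≤ m.kap * Z * Q := le_mul_of_one_le_right (by positivity) hQ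
    linarith
  have hk1 : m.kap ≤ 1 / 1000 := by
    have : m.kap ≤ m.kap * Z := le_mul_of_one_le_right hk.le hZ
    linarith
  have hX := abs_le.mp (h.hX x.2.2.2)
  have hY := abs_le.mp (h.hY x.2.2.2)
  have hV : (V:ℝ) = V₁ + 2 * Z * Nx := by rw [h.hV]; push_cast; ring
  have hi0 : (0:ℝ) ≤ ((x.2.1:ℕ):ℝ) := Nat.cast_nonneg _
  have hi1 : ((x.2.1:ℕ):ℝ) + 1 ≤ Nx := by exact_mod_cast x.2.1.2
  have hj0 : (0:ℝ) ≤ ((x.2.2.1:ℕ):ℝ) := Nat.cast_nonneg _
  have hj1 : ((x.2.2.1:ℕ):ℝ) + 1 ≤ V₁ := by exact_mod_cast x.2.2.1.2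
  have hkX1 : m.kap * S₂.X x.2.2.2 ≤ 1 / 1000 := by nlinarith
  have hkX2 : -(1 / 1000) ≤ m.kap * S₂.X x.2.2.2 := by nlinarith
  have hkY1 : m.kap * S₂.Y x.2.2.2 ≤ 1 / 1000 := by nlinarith
  have hkY2 : -(1 / 1000) ≤ m.kap * S₂.Y x.2.2.2 := by nlinarith
  have hze : ze S₂ m Z x = Z * Nx + ((x.2.2.1:ℕ):ℝ) + m.kap * S₂.Y x.2.2.2 := by
    unfold ze; push_cast; ring
  have hxi : xi S₂ m x = 1 + ((x.2.1:ℕ):ℝ) + m.kap * S₂.X x.2.2.2 := rfl
  have hZN : (0:ℝ) ≤ Z * Nx := by positivity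
  have hz0 : 0 ≤ ze S₂ m Z x + 1 / 1000 := by rw [hze]; linarith
  have hz1 : ze S₂ m Z x ≤ V + 1 := by rw [hze, hV]; nlinarith
  have hlz1 : m.lam * ze S₂ m Z x ≤ 1 / 64 := by
    have h1 := h.c1
    have h2 : m.lam * ze S₂ m Z x ≤ m.lam * (V + Z * Nx + Q + 4) :=
      mul_le_mul_of_nonneg_left (by linarith) hl.le
    linarith
  have hlam : m.lam ≤ 1 := by
    have h1 := h.c1
    have h2 : m.lam * 1 ≤ m.lam * (V + Z * Nx + Q + 4) :=
      mul_le_mul_of_nonneg_left (by have := Nat.cast_nonneg (α := ℝ) V; linarith) hl.le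
    linarith
  have hlz0 : -(1 / 1000) ≤ m.lam * ze S₂ m Z x := by nlinarith
  refine ⟨?_, hz0, hz1⟩
  rw [abs_le, hxi]
  constructor <;> linarith

end GEx

open GEx in
theorem leafGE (ga : LeafGA) : LeafGE := by
  intro A D R G F T S₁ S₂ m Z Q Nx V₁ V Δ σ ς n τ₁ γ₁ τ₂ γ₂ μ γ' τ' sl su h x x₁ hne t₁
  have hx := ga S₁ S₂ m Z Q Nx V₁ V Δ σ ς n τ₁ γ₁ τ₂ γ₂ μ γ' τ' sl su h x
  have hx₁ := ga S₁ S₂ m Z Q Nx V₁ V Δ σ ς n τ₁ γ₁ τ₂ γ₂ μ γ' τ' sl su h x₁
  obtain ⟨⟨hd1, -, hd3⟩, -, -, -, hgen, -⟩ := hx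
  obtain ⟨⟨-, hd2', -⟩, -, -, hp', -⟩ := hx₁
  obtain ⟨hc, hz0, hz1⟩ := coord h x
  obtain ⟨hc', hz0', hz1'⟩ := coord h x₁
  have hgen' := hgen (pN m.y S₂ sl x₁)
  have hdΔ : S₂.d x₁.2.2.2 ≤ Δ := h.hΔ _
  -- numbers
  have hZ : (1:ℝ) ≤ Z := by exact_mod_cast h.Z1
  have hNx : (1:ℝ) ≤ Nx := by exact_mod_cast h.Nx1
  have hQ : (1:ℝ) ≤ Q := hNx.trans (by exact_mod_cast h.NxQ)
  have hΔ1 : (1:ℝ) ≤ Δ := by exact_mod_cast h.Δ1
  have hk := h.k0
  have hl := h.l0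
  have he := h.e0
  have hep := h.ep0
  have hτ₁ := h.τ₁0
  have hγ₁ := h.γ₁0
  have hγ₂ := h.γ₂0
  have hγ₁1 := h.γ₁1
  have hτ₁1 := h.τ₁1
  have hγ₂1 := h.γ₂1
  have hγ' := h.γ'0
  have hτ' := h.τ'0
  have hy0 := h.y0
  have hy1 := h.y1
  have hlam : m.lam * (V + Z * Nx + Q + 4) ≤ 1 / 64 := by have := h.c1; linarith
  have hV0 : (0:ℝ) ≤ V := Nat.cast_nonneg _
  have hZN : (0:ℝ) ≤ Z * Nx := by positivity
  have hlV : m.lam * (V + 2) ≤ 1 / 64 :=
    (mul_le_mul_of_nonneg_left (by linarith) hl.le).trans hlam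
  have hlam1 : m.lam ≤ 1 / 64 :=
    (le_mul_of_one_le_right hl.le (show (1:ℝ) ≤ V + 2 by linarith)).trans hlV
  obtain ⟨hdel1, hk1⟩ := num1 hl hy0 hy1 hlam1 h.c2 h.c3
  have hepQ : m.eps * (Q + 1) ≤ γ₁ / 64 := by
    have h1 := h.c6
    have h2 : m.eps * (Q + 1) ≤ m.eps * (Q + 8) := mul_le_mul_of_nonneg_left (by linarith) hep.le
    linarith
  have hep1 : m.eps ≤ γ₁ / 128 := by
    have h1 : m.eps * 2 ≤ m.eps * (Q + 1) := mul_le_mul_of_nonneg_left (by linarith) hep.le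
    linarith
  have hdelZ : m.del * Z ≤ τ₁ / 64 := by have := h.c5; linarith
  have hγ'1 : 1000 * γ' ≤ m.eps * m.del := by
    have h1 := h.c10
    have h2 := num2 hep he hk1 hγ₂1 hγ₂
    linarith
  have hτ'1 : τ' * Δ ≤ 1 / 64 := by
    have h1 := h.c11
    have h3 : (1:ℝ) ≤ Q * (Q + 1) := by
      calc (1:ℝ) = 1 * 1 := by norm_num
        _ ≤ Q * (Q + 1) := mul_le_mul hQ (by linarith) (by norm_num) (by linarith)
    have h2 : τ' * Δ * 1 ≤ τ' * Δ * (Q * (Q + 1)) :=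
      mul_le_mul_of_nonneg_left h3 (by positivity)
    linarith
  -- the outer system
  have hd := h.g1.pos x.1
  have hd' := h.g1.pos x₁.1
  have gP := h.g1.gP x.1 x₁.1 hne
  have sep := h.g1.sep x.1 x₁.1 hne
  have xs := h.g1.xs x.1 x₁.1 hne
  have xs' := h.g1.xs x₁.1 x.1 (Ne.symm hne)
  rw [abs_sub_comm] at xs'
  set H : ℝ := S₁.hP m.y x.1 x₁.1 with hH
  set d : ℝ := S₁.d x.1 with hdd
  set d' : ℝ := S₁.d x₁.1 with hdd'
  set p : ℝ := S₁.p m.y x.1 with hpp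
  set p' : ℝ := S₁.p m.y x₁.1 with hpp'
  set W : ℝ := |S₁.X x.1 - S₁.X x₁.1| with hW
  set w : ℝ := pN m.y S₂ sl x₁ with hw
  set ξ : ℝ := xi S₂ m x with hξ
  set ζ : ℝ := ze S₂ m Z x with hζ
  set ξ' : ℝ := xi S₂ m x₁ with hξ'
  set ζ' : ℝ := ze S₂ m Z x₁ with hζ'
  have hW0 : 0 ≤ W := abs_nonneg _
  have hG0 : 0 ≤ |p' - p| / d := by positivity
  obtain ⟨hHγ, hslope⟩ := num3 hγ₁ hG0 gP
  have hHpos : 0 < |H| := lt_of_lt_of_le hγ₁ hHγ
  have hHne : H ≠ 0 := abs_pos.mp hHpos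
  -- displacement
  have hu : |m.eps * ((ξ + m.lam * ζ) / d)| ≤ W / 64 := by
    rw [abs_mul, abs_of_pos hep, abs_div, abs_of_pos hd, ← mul_div_assoc, div_le_iff₀ hd]
    calc m.eps * |ξ + m.lam * ζ| ≤ m.eps * (Q + 1) := mul_le_mul_of_nonneg_left hc hep.le
      _ ≤ γ₁ / 64 := hepQ
      _ ≤ W * d / 64 := by linarith
      _ = W / 64 * d := by ring
  have hu' : |m.eps * ((ξ' + m.lam * ζ') / d')| ≤ W / 64 := by
    rw [abs_mul, abs_of_pos hep, abs_div, abs_of_pos hd', ← mul_div_assoc, div_le_iff₀ hd']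
    calc m.eps * |ξ' + m.lam * ζ'| ≤ m.eps * (Q + 1) := mul_le_mul_of_nonneg_left hc' hep.le
      _ ≤ γ₁ / 64 := hepQ
      _ ≤ W * d' / 64 := by linarith
      _ = W / 64 * d' := by ring
  set u : ℝ := m.eps * ((ξ + m.lam * ζ) / d) with huu
  set u' : ℝ := m.eps * ((ξ' + m.lam * ζ') / d') with huu'
  have hXX : xX S₁ S₂ m Z x - xX S₁ S₂ m Z x₁ = (S₁.X x.1 - S₁.X x₁.1) + (u - u') := by
    rw [huu, huu', hξ, hζ, hξ', hζ', hdd, hdd']
    unfold xX Xs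
    ring
  have huu2 : |u - u'| ≤ W / 32 := by
    have := abs_sub u u'
    linarith
  have hX1 : |xX S₁ S₂ m Z x - xX S₁ S₂ m Z x₁| ≤ 33 / 32 * W := by
    rw [hXX]
    have := abs_add_le (S₁.X x.1 - S₁.X x₁.1) (u - u')
    rw [← hW] at this
    linarith
  have hX2 : 31 / 32 * W ≤ |xX S₁ S₂ m Z x - xX S₁ S₂ m Z x₁| := by
    rw [hXX]
    have h1 := abs_sub_abs_le_abs_sub (S₁.X x.1 - S₁.X x₁.1) (-(u - u'))
    rw [abs_neg, ← hW, sub_neg_eq_add] at h1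
    linarith
  -- the identity
  have hid : hs S₁ S₂ m Z x w t₁ = H + ((w - p') * (xX S₁ S₂ m Z x - xX S₁ S₂ m Z x₁) +
      (p' - p) * u + m.eps * m.del * (ζ' - ζ)) := by
    have e1 : xY S₁ S₂ m Z x = S₁.Y x.1 + (p * u + m.eps * m.del * ζ) := by
      rw [huu, hξ, hζ, hdd, hpp]
      unfold xY Ys
      ring
    have e2 : xY S₁ S₂ m Z x₁ = S₁.Y x₁.1 + (p' * u' + m.eps * m.del * ζ') := by
      rw [huu', hξ', hζ', hdd', hpp']
      unfold xY Ys
      ring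
    have e3 : H = p' * (S₁.X x.1 - S₁.X x₁.1) - (S₁.Y x.1 - S₁.Y x₁.1) := by
      rw [hH, hpp']
      unfold Sys.hP Sys.h
      ring
    unfold hs
    simp only [t₁]
    rw [e1, e2, e3]
    have e4 : w * xX S₁ S₂ m Z x + (S₁.Y x₁.1 + (p' * u' + m.eps * m.del * ζ') -
        w * xX S₁ S₂ m Z x₁) - (S₁.Y x.1 + (p * u + m.eps * m.del * ζ)) =
        w * (xX S₁ S₂ m Z x - xX S₁ S₂ m Z x₁) + p' * u' - p * u + m.eps * m.del * (ζ' - ζ) -
          (S₁.Y x.1 - S₁.Y x₁.1) := by ring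
    rw [e4]
    linear_combination p' * hXX
  -- the error
  have hE1 : |(w - p') * (xX S₁ S₂ m Z x - xX S₁ S₂ m Z x₁)| ≤ |H| / 16 := by
    rw [abs_mul]
    calc |w - p'| * |xX S₁ S₂ m Z x - xX S₁ S₂ m Z x₁|
        ≤ (2 * (m.del * Z * d')) * (33 / 32 * W) :=
          mul_le_mul hp' hX1 (abs_nonneg _) (by positivity)
      _ = (33 / 16) * (m.del * Z) * (d' * W) := by ring
      _ ≤ (33 / 16) * (τ₁ / 64) * (d' * W) := by
          apply mul_le_mul_of_nonneg_right _ (by positivity)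
          linarith
      _ = 33 / 1024 * (τ₁ * (d' * W)) := by ring
      _ ≤ 33 / 1024 * |H| := mul_le_mul_of_nonneg_left sep (by norm_num)
      _ ≤ |H| / 16 := by linarith
  have hE2 : |(p' - p) * u| ≤ |H| / 16 := by
    have e : (p' - p) * u = m.eps * ((p' - p) / d * (ξ + m.lam * ζ)) := by
      rw [huu]; ring
    rw [e, abs_mul, abs_mul, abs_div, abs_of_pos hep, abs_of_pos hd]
    calc m.eps * (|p' - p| / d * |ξ + m.lam * ζ|) ≤ m.eps * (|p' - p| / d * (Q + 1)) := by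
          apply mul_le_mul_of_nonneg_left _ hep.le
          exact mul_le_mul_of_nonneg_left hc hG0
      _ = (m.eps * (Q + 1)) * (|p' - p| / d) := by ring
      _ ≤ (γ₁ / 64) * (|p' - p| / d) := mul_le_mul_of_nonneg_right hepQ hG0
      _ = (|p' - p| / d * γ₁) / 64 := by ring
      _ ≤ |H| / 16 := by linarith
  have hE3 : |m.eps * m.del * (ζ' - ζ)| ≤ |H| / 16 := by
    have hzz : |ζ' - ζ| ≤ V + 2 := by
      rw [abs_le]
      constructor <;> linarith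
    rw [abs_mul, abs_of_pos (mul_pos hep he)]
    calc m.eps * m.del * |ζ' - ζ| ≤ m.eps * m.del * (V + 2) :=
          mul_le_mul_of_nonneg_left hzz (by positivity)
      _ ≤ m.eps * m.lam * (V + 2) := by
          apply mul_le_mul_of_nonneg_right _ (by linarith)
          apply mul_le_mul_of_nonneg_left _ hep.le
          linarith
      _ = m.eps * (m.lam * (V + 2)) := by ring
      _ ≤ m.eps * (1 / 64) := mul_le_mul_of_nonneg_left hlV hep.le
      _ ≤ |H| / 16 := by linarith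
  have hE : |(w - p') * (xX S₁ S₂ m Z x - xX S₁ S₂ m Z x₁) +
      (p' - p) * u + m.eps * m.del * (ζ' - ζ)| ≤ 1 / 4 * |H| := by
    have h1 := abs_add_le ((w - p') * (xX S₁ S₂ m Z x - xX S₁ S₂ m Z x₁) + (p' - p) * u)
      (m.eps * m.del * (ζ' - ζ))
    have h2 := abs_add_le ((w - p') * (xX S₁ S₂ m Z x - xX S₁ S₂ m Z x₁)) ((p' - p) * u)
    linarith
  obtain ⟨hsgn, hbig⟩ := sgn_of_pert (by norm_num) hHne hE
  rw [← hid] at hsgn hbig
  have hbig' : 3 / 4 * |H| ≤ |hs S₁ S₂ m Z x w t₁| := by linarith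
  -- quotient of the slope differences
  have hquot : d' / d * (τ₁ * γ₁) ≤ |H| := by
    rw [div_mul_eq_mul_div, div_le_iff₀ hd]
    calc d' * (τ₁ * γ₁) = (τ₁ * d') * γ₁ := by ring
      _ ≤ (τ₁ * d') * (W * d) := mul_le_mul_of_nonneg_left xs (by positivity)
      _ = (τ₁ * (d' * W)) * d := by ring
      _ ≤ |H| * d := mul_le_mul_of_nonneg_right sep hd.le
  have hgl : (|w - p| / d + 1) * γ₁ ≤ 33 / 32 * |H| := by
    have h1 : |w - p| ≤ 2 * (m.del * Z * d') + |p' - p| := by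
      have : w - p = (w - p') + (p' - p) := by ring
      rw [this]
      exact (abs_add_le _ _).trans (add_le_add hp' le_rfl)
    have h2 : |w - p| / d ≤ 2 * (m.del * Z) * (d' / d) + |p' - p| / d := by
      calc |w - p| / d ≤ (2 * (m.del * Z * d') + |p' - p|) / d :=
            div_le_div_of_nonneg_right h1 hd.le
        _ = _ := by ring
    have h3 : 2 * (m.del * Z) * (d' / d) * γ₁ ≤ |H| / 32 := by
      calc 2 * (m.del * Z) * (d' / d) * γ₁ ≤ 2 * (τ₁ / 64) * (d' / d) * γ₁ := by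
            apply mul_le_mul_of_nonneg_right _ hγ₁.le
            apply mul_le_mul_of_nonneg_right _ (by positivity)
            linarith
        _ = (d' / d * (τ₁ * γ₁)) / 32 := by ring
        _ ≤ |H| / 32 := by linarith
    calc (|w - p| / d + 1) * γ₁ ≤ (2 * (m.del * Z) * (d' / d) + |p' - p| / d + 1) * γ₁ :=
          mul_le_mul_of_nonneg_right (by linarith) hγ₁.le
      _ = 2 * (m.del * Z) * (d' / d) * γ₁ + (|p' - p| / d * γ₁ + γ₁) := by ring
      _ ≤ |H| / 32 + |H| := by linarith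
      _ = 33 / 32 * |H| := by ring
  refine ⟨hsgn, ?_, ?_, ?_⟩
  · -- Big
    unfold Big
    refine le_trans ?_ hbig'
    have hg0 : 0 ≤ |w - p| / d + 1 := by positivity
    calc 20 * (γ' * (|w - pN m.y S₂ sl x| / dN S₂ sl x + 1))
        ≤ 20 * (γ' * (2 / m.del * (|w - p| / d + 1))) := by
          apply mul_le_mul_of_nonneg_left _ (by norm_num)
          exact mul_le_mul_of_nonneg_left hgen' hγ'.le
      _ = 40 * γ' / m.del * (|w - p| / d + 1) := by ring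
      _ ≤ (40 / 1000 * m.eps) * (|w - p| / d + 1) := by
          apply mul_le_mul_of_nonneg_right _ hg0
          rw [div_le_iff₀ he]
          linarith
      _ ≤ (40 / 1000 * (γ₁ / 128)) * (|w - p| / d + 1) := by
          apply mul_le_mul_of_nonneg_right _ hg0
          linarith
      _ = 1 / 3200 * ((|w - p| / d + 1) * γ₁) := by ring
      _ ≤ 1 / 3200 * (33 / 32 * |H|) := mul_le_mul_of_nonneg_left hgl (by norm_num)
      _ ≤ 3 / 4 * |H| := by linarith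
  · refine le_trans ?_ hbig'
    have h1 : dN S₂ sl x₁ ≤ 11 / 10 * (m.del * d' * Δ) := by
      refine hd2'.trans ?_
      apply mul_le_mul_of_nonneg_left _ (by norm_num)
      exact mul_le_mul_of_nonneg_left hdΔ (by positivity)
    have h2 : dN S₂ sl x₁ * |xX S₁ S₂ m Z x - xX S₁ S₂ m Z x₁| ≤
        (11 / 10 * (m.del * d' * Δ)) * (33 / 32 * W) :=
      mul_le_mul h1 hX1 (abs_nonneg _) (by positivity)
    have hdτ : m.del ≤ τ₁ / 64 := by
      have : m.del ≤ m.del * Z := le_mul_of_one_le_right he.le hZ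
      linarith
    calc 4 * (τ' * (dN S₂ sl x₁ * |xX S₁ S₂ m Z x - xX S₁ S₂ m Z x₁|))
        ≤ 4 * (τ' * ((11 / 10 * (m.del * d' * Δ)) * (33 / 32 * W))) := by
          apply mul_le_mul_of_nonneg_left _ (by norm_num)
          exact mul_le_mul_of_nonneg_left h2 hτ'.le
      _ = (363 / 80) * (τ' * Δ) * (m.del * (d' * W)) := by ring
      _ ≤ (363 / 80) * (1 / 64) * (m.del * (d' * W)) := by
          apply mul_le_mul_of_nonneg_right _ (by positivity)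
          linarith
      _ ≤ (363 / 80) * (1 / 64) * (τ₁ / 64 * (d' * W)) := by
          apply mul_le_mul_of_nonneg_left _ (by norm_num)
          exact mul_le_mul_of_nonneg_right hdτ (by positivity)
      _ = 363 / 327680 * (τ₁ * (d' * W)) := by ring
      _ ≤ 363 / 327680 * |H| := mul_le_mul_of_nonneg_left sep (by norm_num)
      _ ≤ 3 / 4 * |H| := by linarith
  · have h1 : 9 / 10 * (m.del * d) ≤ dN S₂ sl x := by
      refine le_trans ?_ hd1
      apply mul_le_mul_of_nonneg_left _ (by norm_num)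
      exact le_mul_of_one_le_right (by positivity) hd3
    calc 16 * γ' ≤ 16 / 1000 * (m.eps * m.del) := by linarith
      _ ≤ 16 / 1000 * (γ₁ / 128 * m.del) := by
          apply mul_le_mul_of_nonneg_left _ (by norm_num)
          exact mul_le_mul_of_nonneg_right hep1 he.le
      _ = 1 / 8000 * (m.del * γ₁) := by ring
      _ ≤ (31 / 32 * (9 / 10)) * (m.del * γ₁) := by
          apply mul_le_mul_of_nonneg_right (by norm_num)
          positivity
      _ ≤ (31 / 32 * (9 / 10)) * (m.del * (W * d)) := by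
          apply mul_le_mul_of_nonneg_left _ (by norm_num)
          exact mul_le_mul_of_nonneg_left xs he.le
      _ = (31 / 32 * W) * (9 / 10 * (m.del * d)) := by ring
      _ ≤ |xX S₁ S₂ m Z x - xX S₁ S₂ m Z x₁| * dN S₂ sl x :=
          mul_le_mul hX2 h1 (by positivity) (abs_nonneg _)

end K9
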