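import Pool.Agent.Helper48K9.Ctx

/-!
# Leaf GP: the explicit parameters satisfy the numerical hypotheses
-/

namespace K9

set_option maxHeartbeats 4000000

/-- real form of the statement, all parameters are real numbers at least one -/
theorem leafGP_aux (pr y₀ K : ℝ) (hpr : 1 ≤ pr) (hy₀ : 0 < y₀)
    (hK1 : 9000 * pr ≤ K) (hK2 : 64 ≤ K * y₀) (y : ℝ) (hy : y₀ ≤ y)
    (B₁ Θ₁ H₁ Λ₁ Z Q Θ₂ H₂ Δ M : ℝ) (hB : 1 ≤ B₁) (hΘ₁ : 1 ≤ Θ₁) (hH₁ : 1 ≤ H₁) (hΛ : 1 ≤ Λ₁)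
    (hZ : 1 ≤ Z) (hQ : 1 ≤ Q) (hΘ₂ : 1 ≤ Θ₂) (hH₂ : 1 ≤ H₂) (hΔ : 1 ≤ Δ) (hBQ : 50 * B₁ ≤ Q)
    (hM : K ^ 5 * Λ₁ * Θ₁ * H₂ * Z ^ 2 * Q ^ 6 * Δ ^ 4 * Θ₂ ^ 2 ≤ M) :
    ∃ (lam del kap eps μ γ' : ℝ), 0 < lam ∧ 0 < del ∧ 0 < kap ∧ 0 < eps ∧ 0 ≤ μ ∧ 0 < γ' ∧
      64 * (lam * ((5100 * Z * B₁) + Z * (50 * B₁) + Q + 4)) ≤ 1 ∧
      8 * del ≤ lam * y ∧ 64 * kap ≤ lam * y ∧ 1000 * (kap * Z * Q) ≤ 1 ∧
      64 * (del * Z) ≤ 1 / Θ₁ ∧ 64 * (eps * (Q + 8)) ≤ 1 / H₁ ∧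
      64 * (lam * Δ ^ 2 * (Q * (Q + 1))) ≤ 1 ∧ 64 * (lam * Δ ^ 2) ≤ 1 / Θ₂ ∧
      1000 * (μ * (Q + 8)) ≤ kap * (1 / H₂) ∧
      1000 * γ' ≤ eps * del * kap * (1 / H₂) ∧
      eps * del * (μ * (Q + 8)) ≤ γ' ∧
      1 / (K ^ 6 * H₁ * H₂ * Θ₁ * Θ₂ ^ 2 * Z ^ 2 * Q ^ 6 * Δ ^ 4) ≤ γ' ∧
      64 * (1 / (K * Θ₂ * Q ^ 2 * Δ) * Δ * (Q * (Q + 1))) ≤ 1 ∧
      64 * (1 / (K * Θ₂ * Q ^ 2 * Δ)) ≤ 1 / Θ₂ ∧
      pr / M ≤ μ * (del * (1 / Λ₁)) ∧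
      2 / (del * Z) = 2 * K ^ 2 * Θ₁ * Θ₂ * Q ^ 2 * Δ ^ 2 := by
  have hK9 : 9000 ≤ K := by linarith
  have hK0 : 0 < K := by linarith
  have B0 : 0 < B₁ := by linarith
  have T0 : 0 < Θ₁ := by linarith
  have h0 : 0 < H₁ := by linarith
  have L0 : 0 < Λ₁ := by linarith
  have Z0 : 0 < Z := by linarith
  have Q0 : 0 < Q := by linarith
  have t0 : 0 < Θ₂ := by linarith
  have g0 : 0 < H₂ := by linarith
  have D0 : 0 < Δ := by linarith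
  have p0 : 0 < pr := by linarith
  have hP0 : 0 < K ^ 5 * Λ₁ * Θ₁ * H₂ * Z ^ 2 * Q ^ 6 * Δ ^ 4 * Θ₂ ^ 2 := by positivity
  have M0 : 0 < M := by linarith
  obtain ⟨lam, hlam⟩ : ∃ l : ℝ, l = 1 / (K * Z * Q ^ 2 * Δ ^ 2 * Θ₂) := ⟨_, rfl⟩
  obtain ⟨del, hdel⟩ : ∃ l : ℝ, l = 1 / (K ^ 2 * Z * Q ^ 2 * Δ ^ 2 * Θ₂ * Θ₁) := ⟨_, rfl⟩
  obtain ⟨kap, hkap⟩ : ∃ l : ℝ, l = 1 / (K ^ 2 * Z * Q ^ 3 * Δ ^ 2 * Θ₂) := ⟨_, rfl⟩
  obtain ⟨eps, heps⟩ : ∃ l : ℝ, l = 1 / (K * H₁ * Q) := ⟨_, rfl⟩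
  have l0 : 0 < lam := by rw [hlam]; positivity
  have d0 : 0 < del := by rw [hdel]; positivity
  have k0 : 0 < kap := by rw [hkap]; positivity
  have e0 : 0 < eps := by rw [heps]; positivity
  have Δ2 : 1 ≤ Δ ^ 2 := one_le_pow₀ hΔ
  have Q2 : 1 ≤ Q ^ 2 := one_le_pow₀ hQ
  have hQQ : Q * (Q + 1) ≤ 2 * Q ^ 2 := by nlinarith
  have hQ8 : Q + 8 ≤ 9 * Q := by linarith
  -- the rounding precision
  have hμ : 1000 * (pr * Λ₁ / (M * del) * (Q + 8)) ≤ kap * (1 / H₂) := by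
    have h1 : kap * (1 / H₂) = kap * del * M / (M * del * H₂) := by
      field_simp
    have h2 : 1000 * (pr * Λ₁ / (M * del) * (Q + 8)) =
        1000 * (pr * Λ₁ * H₂ * (Q + 8)) / (M * del * H₂) := by
      field_simp
    rw [h1, h2]
    apply div_le_div_of_nonneg_right _ (by positivity)
    have h3 : kap * del = 1 / (K ^ 4 * Z ^ 2 * Q ^ 5 * Δ ^ 4 * Θ₂ ^ 2 * Θ₁) := by
      rw [hkap, hdel]; field_simp
    have h4 : K * Λ₁ * H₂ * Q ≤ kap * del * M := by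
      have : K * Λ₁ * H₂ * Q = kap * del *
          (K ^ 5 * Λ₁ * Θ₁ * H₂ * Z ^ 2 * Q ^ 6 * Δ ^ 4 * Θ₂ ^ 2) := by
        rw [h3]; field_simp
      rw [this]
      exact mul_le_mul_of_nonneg_left hM (by positivity)
    refine le_trans ?_ h4
    have h5 : 1000 * (pr * Λ₁ * H₂ * (Q + 8)) ≤ 1000 * (pr * Λ₁ * H₂ * (9 * Q)) := by gcongr
    have h6 : 1000 * (pr * Λ₁ * H₂ * (9 * Q)) = (9000 * pr) * (Λ₁ * H₂ * Q) := by ring
    have h7 : (9000 * pr) * (Λ₁ * H₂ * Q) ≤ K * (Λ₁ * H₂ * Q) := by gcongr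
    nlinarith [h5, h6, h7]
  refine ⟨lam, del, kap, eps, pr * Λ₁ / (M * del), eps * del * kap / (1000 * H₂), l0, d0, k0, e0,
    by positivity, by positivity, ?_, ?_, ?_, ?_, ?_, ?_, ?_, ?_, hμ, ?_, ?_, ?_, ?_, ?_, ?_, ?_⟩
  · -- c1
    have h1 : (5100 * Z * B₁) + Z * (50 * B₁) + Q + 4 ≤ 108 * (Z * Q) := by
      have : Q ≤ Z * Q := by nlinarith
      nlinarith
    have h2 : 64 * (lam * (108 * (Z * Q))) ≤ 1 := by
      have : 64 * (lam * (108 * (Z * Q))) = 6912 / (K * Q * Δ ^ 2 * Θ₂) := by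
        rw [hlam]; field_simp; norm_num
      rw [this, div_le_one (by positivity)]
      have : (9000:ℝ) * 1 * 1 * 1 ≤ K * Q * Δ ^ 2 * Θ₂ := by gcongr
      linarith
    refine le_trans ?_ h2
    gcongr
  · -- c2
    have : del = lam / (K * Θ₁) := by rw [hdel, hlam]; field_simp
    rw [this]
    have h1 : 8 * (lam / (K * Θ₁)) = lam * (8 / (K * Θ₁)) := by ring
    rw [h1]
    apply mul_le_mul_of_nonneg_left _ l0.le
    rw [div_le_iff₀ (by positivity)]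
    have : K * y₀ * 1 ≤ K * y * Θ₁ := by
      apply mul_le_mul _ hΘ₁ (by norm_num) (by nlinarith)
      nlinarith
    nlinarith
  · -- c3
    have : kap = lam / (K * Q) := by rw [hkap, hlam]; field_simp
    rw [this]
    have h1 : 64 * (lam / (K * Q)) = lam * (64 / (K * Q)) := by ring
    rw [h1]
    apply mul_le_mul_of_nonneg_left _ l0.le
    rw [div_le_iff₀ (by positivity)]
    have : K * y₀ * 1 ≤ K * y * Q := by
      apply mul_le_mul _ hQ (by norm_num) (by nlinarith)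
      nlinarith
    nlinarith
  · -- c4
    have : 1000 * (kap * Z * Q) = 1000 / (K ^ 2 * Q ^ 2 * Δ ^ 2 * Θ₂) := by
      rw [hkap]; field_simp
    rw [this, div_le_one (by positivity)]
    have : (9000:ℝ) ^ 2 * 1 * 1 * 1 ≤ K ^ 2 * Q ^ 2 * Δ ^ 2 * Θ₂ := by gcongr
    linarith
  · -- c5
    have : 64 * (del * Z) = 64 / (K ^ 2 * Q ^ 2 * Δ ^ 2 * Θ₂) * (1 / Θ₁) := by
      rw [hdel]; field_simp
    rw [this]
    have h1 : 64 / (K ^ 2 * Q ^ 2 * Δ ^ 2 * Θ₂) ≤ 1 := by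
      rw [div_le_one (by positivity)]
      have : (9000:ℝ) ^ 2 * 1 * 1 * 1 ≤ K ^ 2 * Q ^ 2 * Δ ^ 2 * Θ₂ := by gcongr
      linarith
    have h2 : 0 ≤ 1 / Θ₁ := by positivity
    nlinarith
  · -- c6
    have : 64 * (eps * (Q + 8)) ≤ 64 * (eps * (9 * Q)) := by gcongr
    refine le_trans this ?_
    have : 64 * (eps * (9 * Q)) = 576 / K * (1 / H₁) := by
      rw [heps]; field_simp; norm_num
    rw [this]
    have h1 : 576 / K ≤ 1 := by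
      rw [div_le_one hK0]; linarith
    have h2 : 0 ≤ 1 / H₁ := by positivity
    nlinarith
  · -- c7
    have h1 : 64 * (lam * Δ ^ 2 * (Q * (Q + 1))) ≤ 64 * (lam * Δ ^ 2 * (2 * Q ^ 2)) := by gcongr
    refine le_trans h1 ?_
    have : 64 * (lam * Δ ^ 2 * (2 * Q ^ 2)) = 128 / (K * Z * Θ₂) := by
      rw [hlam]; field_simp; norm_num
    rw [this, div_le_one (by positivity)]
    have : (9000:ℝ) * 1 * 1 ≤ K * Z * Θ₂ := by gcongr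
    linarith
  · -- c8
    have : 64 * (lam * Δ ^ 2) = 64 / (K * Z * Q ^ 2) * (1 / Θ₂) := by
      rw [hlam]; field_simp
    rw [this]
    have h1 : 64 / (K * Z * Q ^ 2) ≤ 1 := by
      rw [div_le_one (by positivity)]
      have : (9000:ℝ) * 1 * 1 ≤ K * Z * Q ^ 2 := by gcongr
      linarith
    have h2 : 0 ≤ 1 / Θ₂ := by positivity
    nlinarith
  · -- c10
    apply le_of_eq; field_simp
  · -- c10'
    have h1 : eps * del * (pr * Λ₁ / (M * del) * (Q + 8)) ≤ eps * del * (kap * (1 / H₂) / 1000) := by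
      apply mul_le_mul_of_nonneg_left _ (by positivity)
      linarith
    refine le_trans h1 (le_of_eq ?_)
    field_simp
  · -- lower bound for γ'
    have : eps * del * kap / (1000 * H₂) =
        1 / (1000 * K ^ 5 * H₁ * H₂ * Θ₁ * Θ₂ ^ 2 * Z ^ 2 * Q ^ 6 * Δ ^ 4) := by
      rw [heps, hdel, hkap]; field_simp
    rw [this]
    apply one_div_le_one_div_of_le (by positivity)
    have h1 : K ^ 6 = K * K ^ 5 := by ring
    rw [h1]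
    gcongr
    linarith
  · -- c11
    have h1 : 64 * (1 / (K * Θ₂ * Q ^ 2 * Δ) * Δ * (Q * (Q + 1))) ≤
        64 * (1 / (K * Θ₂ * Q ^ 2 * Δ) * Δ * (2 * Q ^ 2)) := by gcongr
    refine le_trans h1 ?_
    have : 64 * (1 / (K * Θ₂ * Q ^ 2 * Δ) * Δ * (2 * Q ^ 2)) = 128 / (K * Θ₂) := by
      field_simp; norm_num
    rw [this, div_le_one (by positivity)]
    have : (9000:ℝ) * 1 ≤ K * Θ₂ := by gcongr
    linarith
  · -- c12
    have : 64 * (1 / (K * Θ₂ * Q ^ 2 * Δ)) = 64 / (K * Q ^ 2 * Δ) * (1 / Θ₂) := by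
      field_simp
    rw [this]
    have h1 : 64 / (K * Q ^ 2 * Δ) ≤ 1 := by
      rw [div_le_one (by positivity)]
      have : (9000:ℝ) * 1 * 1 ≤ K * Q ^ 2 * Δ := by gcongr
      linarith
    have h2 : 0 ≤ 1 / Θ₂ := by positivity
    nlinarith
  · -- rounding
    apply le_of_eq; field_simp
  · -- slope differences
    rw [hdel]; field_simp

theorem leafGP : LeafGP := by
  intro pr y₀ hpr hy₀
  obtain ⟨k1, hk1⟩ := exists_nat_ge (64 / y₀)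
  refine ⟨9000 * pr + k1, by omega, ?_⟩
  intro y hy _ B₁ Θ₁ H₁ Λ₁ Z Q Θ₂ H₂ Δ M hB hΘ₁ hH₁ hΛ hZ hQ hΘ₂ hH₂ hΔ hBQ hM
  have hK2 : (64:ℝ) ≤ ((9000 * pr + k1 : ℕ) : ℝ) * y₀ := by
    have h1 : 64 ≤ (k1:ℝ) * y₀ := by
      rwa [div_le_iff₀ hy₀] at hk1
    have h2 : (0:ℝ) ≤ 9000 * pr * y₀ := by positivity
    push_cast
    nlinarith
  have hp1 : (1:ℝ) ≤ pr := by exact_mod_cast (by omega : 1 ≤ pr)
  obtain ⟨lam, del, kap, eps, μ, γ', h1, h2, h3, h4, h5, h6, h7, h8, h9, h10, h11, h12, h13, h14,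
    h15, h16, h17, h18, h19, h20, h21, h22⟩ := leafGP_aux (pr:ℝ) y₀ ((9000 * pr + k1 : ℕ) : ℝ) hp1 hy₀
    (by push_cast; linarith [(Nat.cast_nonneg k1 : (0:ℝ) ≤ k1)]) hK2 y hy
    (B₁:ℝ) Θ₁ H₁ Λ₁ Z Q Θ₂ H₂ Δ M (by exact_mod_cast hB) (by exact_mod_cast hΘ₁)
    (by exact_mod_cast hH₁) (by exact_mod_cast hΛ) (by exact_mod_cast hZ) (by exact_mod_cast hQ)
    (by exact_mod_cast hΘ₂) (by exact_mod_cast hH₂) (by exact_mod_cast hΔ)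
    (by exact_mod_cast hBQ) (by exact_mod_cast hM)
  refine ⟨lam, del, kap, eps, μ, γ', h1, h2, h3, h4, h5, h6, ?_, h8, h9, h10, h11, h12, h13, h14,
    h15, h16, h17, ?_, ?_, ?_, h21, ?_, ?_⟩
  · simpa only [Nat.cast_mul, Nat.cast_ofNat] using h7
  · simpa only [Nat.cast_mul, Nat.cast_pow] using h18
  · simpa only [Nat.cast_mul, Nat.cast_pow] using h19
  · simpa only [Nat.cast_mul, Nat.cast_pow] using h20
  · rw [h22]; simp only [Nat.cast_mul, Nat.cast_pow, Nat.cast_ofNat]; exact le_refl _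
  · rw [h22]; simp only [Nat.cast_mul, Nat.cast_pow, Nat.cast_ofNat]; exact le_refl _

end K9
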