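import Mathlib

/-!
# Real inequalities for the composition: bundle lines
-/

namespace K9

/-- moving from the ideal point to the actual crossing point -/
lemma transfer {sa ta sb tb X' Y' Xs Ys y ω s t : ℝ} (hd : 0 < sa - sb) (hy0 : 0 ≤ y) (hy1 : y ≤ 1)
    (ha : sa * X' + ta - Y' = 0) (hb : sb * X' + tb - Y' = 0)
    (ha' : |sa * Xs + ta - Ys| ≤ ω) (hb' : |sb * Xs + tb - Ys| ≤ ω) :
    |X' - Xs| * (sa - sb) ≤ 2 * ω ∧
    |(s * X' + t - Y') - (s * Xs + t - Ys)| ≤ 3 * ω * (|s - (sa - y * (sa - sb))| / (sa - sb) + 1) := by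
  set d := sa - sb with hd'
  have hω : 0 ≤ ω := (abs_nonneg _).trans ha'
  have h1 : (X' - Xs) * d = (sb * Xs + tb - Ys) - (sa * Xs + ta - Ys) := by
    rw [hd']; linear_combination ha - hb
  have h2 : |X' - Xs| * d ≤ 2 * ω := by
    rw [← abs_of_pos hd, ← abs_mul, h1]
    have := abs_sub (sb * Xs + tb - Ys) (sa * Xs + ta - Ys)
    linarith
  refine ⟨h2, ?_⟩
  have h3 : (s * X' + t - Y') - (s * Xs + t - Ys) =
      (s - sa) * (X' - Xs) - (sa * Xs + ta - Ys) := by linear_combination ha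
  rw [h3]
  have h4 : |(s - sa) * (X' - Xs)| ≤ 2 * ω * (|s - (sa - y * d)| / d + 1) := by
    rw [abs_mul]
    have h5 : |s - sa| ≤ |s - (sa - y * d)| + d := by
      have e : s - sa = (s - (sa - y * d)) + (-(y * d)) := by ring
      rw [e]
      refine (abs_add_le _ _).trans ?_
      rw [abs_neg, abs_of_nonneg (mul_nonneg hy0 hd.le)]
      have : y * d ≤ d := by nlinarith
      linarith
    have h6 : |s - sa| ≤ d * (|s - (sa - y * d)| / d + 1) := by
      have : d * (|s - (sa - y * d)| / d + 1) = |s - (sa - y * d)| + d := by field_simp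
      rw [this]; exact h5
    have h7 : 0 ≤ |s - (sa - y * d)| / d + 1 := by positivity
    calc |s - sa| * |X' - Xs| ≤ (d * (|s - (sa - y * d)| / d + 1)) * |X' - Xs| :=
          mul_le_mul_of_nonneg_right h6 (abs_nonneg _)
      _ = (|X' - Xs| * d) * (|s - (sa - y * d)| / d + 1) := by ring
      _ ≤ (2 * ω) * (|s - (sa - y * d)| / d + 1) := mul_le_mul_of_nonneg_right h2 h7
  have h8 := abs_sub ((s - sa) * (X' - Xs)) (sa * Xs + ta - Ys)
  have h9 : (0:ℝ) ≤ |s - (sa - y * d)| / d := by positivity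
  nlinarith [mul_nonneg hω h9]

/-- bundle line of the leaving line, crossed in the column `i'` -/
lemma bun_a {y lam del ux uy J w i i' : ℝ} {L : ℝ} (hy : 0 < y) (hl : 0 < lam) (hdl : 0 < del)
    (hdel : del ≤ lam * y / 8) (hux : |ux| ≤ lam / 16) (huy : |uy| ≤ 1 / 16)
    (hL : lam * L ≤ 1 / 4) (hl1 : lam ≤ 1) (hJw : |J - w - 1/2| + 1 ≤ L)
    (hi : i + 1 ≤ i' ∨ i = i' ∨ i' + 1 ≤ i) (hj : J ≤ w ∨ w + 1 ≤ J) :
    let B := y * ((i - i') + ux) + (lam * y - del) * ((J - (w + 1/2)) + uy)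
    lam * y / 4 ≤ |B| ∧ (B < 0 ↔ (i < i' ∨ (i = i' ∧ J < w + 1/2))) := by
  intro B
  have hux' := abs_le.mp hux
  have huy' := abs_le.mp huy
  have hc : 0 < lam * y - del := by nlinarith [mul_pos hl hy]
  have hc1 : lam * y - del ≤ lam * y := by linarith
  have hc2 : 7/8 * (lam * y) ≤ lam * y - del := by linarith
  have hly : 0 < lam * y := mul_pos hl hy
  have h1 : |(lam * y - del) * ((J - (w + 1/2)) + uy)| ≤ y / 4 := by
    rw [abs_mul, abs_of_pos hc]
    have h2 : |J - (w + 1/2) + uy| ≤ L := by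
      refine (abs_add_le _ _).trans ?_
      have : J - (w + 1/2) = J - w - 1/2 := by ring
      rw [this]; linarith
    have h0 : (0:ℝ) ≤ |J - (w + 1/2) + uy| := abs_nonneg _
    calc (lam * y - del) * |J - (w + 1/2) + uy| ≤ (lam * y) * L :=
          mul_le_mul hc1 h2 h0 hly.le
      _ = y * (lam * L) := by ring
      _ ≤ y * (1/4) := mul_le_mul_of_nonneg_left hL hy.le
      _ = y / 4 := by ring
  have h1' := abs_le.mp h1
  have hyx : |y * ux| ≤ lam * y / 16 := by
    rw [abs_mul, abs_of_pos hy]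
    nlinarith
  have hyx' := abs_le.mp hyx
  have hly1 : lam * y ≤ y := by nlinarith
  rcases hi with h | h | h
  · have hneg : B ≤ -(y/2) := by
      have : y * (i - i') ≤ y * (-1) := mul_le_mul_of_nonneg_left (by linarith) hy.le
      have e : B = y * (i - i') + y * ux + (lam * y - del) * ((J - (w + 1/2)) + uy) := by
        simp only [B]; ring
      rw [e]; linarith [hyx'.2, h1'.2]
    refine ⟨?_, ?_⟩
    · rw [abs_of_neg (by linarith)]; linarith
    · constructor
      · intro _; left; linarith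
      · intro _; linarith
  · subst h
    have e : B = y * ux + (lam * y - del) * ((J - (w + 1/2)) + uy) := by
      simp only [B]; ring
    rcases hj with h | h
    · have h3 : (lam * y - del) * ((J - (w + 1/2)) + uy) ≤ (lam * y - del) * (-(7/16)) :=
        mul_le_mul_of_nonneg_left (by linarith [huy'.2]) hc.le
      have hneg : B ≤ -(lam * y / 4) := by
        rw [e]; linarith [hyx'.2]
      refine ⟨?_, ?_⟩
      · rw [abs_of_neg (by linarith)]; linarith
      · constructor
        · intro _; right; exact ⟨rfl, by linarith⟩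
        · intro _; linarith
    · have h3 : (lam * y - del) * (7/16) ≤ (lam * y - del) * ((J - (w + 1/2)) + uy) :=
        mul_le_mul_of_nonneg_left (by linarith [huy'.1]) hc.le
      have hpos : lam * y / 4 ≤ B := by
        rw [e]; linarith [hyx'.1]
      refine ⟨?_, ?_⟩
      · rw [abs_of_pos (by linarith)]; linarith
      · constructor
        · intro h4; linarith
        · rintro (h4 | ⟨-, h4⟩)
          · exact absurd h4 (lt_irrefl _)
          · linarith
  · have hpos : y/2 ≤ B := by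
      have : y * 1 ≤ y * (i - i') := mul_le_mul_of_nonneg_left (by linarith) hy.le
      have e : B = y * (i - i') + y * ux + (lam * y - del) * ((J - (w + 1/2)) + uy) := by
        simp only [B]; ring
      rw [e]; linarith [hyx'.1, h1'.1]
    refine ⟨?_, ?_⟩
    · rw [abs_of_pos (by linarith)]; linarith
    · constructor
      · intro h4; linarith
      · rintro (h4 | ⟨h4, -⟩) <;> linarith

/-- bundle line of the entering line, crossed between the columns -/
lemma bun_b {y lam del ux ζ i i' : ℝ} (hy : 0 < y) (hy1 : y ≤ 1/4) (hl : 0 < lam) (hdl : 0 < del)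
    (hdel : del ≤ lam * y / 8) (hux : |ux| ≤ 1 / 16) (hζ : 0 ≤ ζ) (hL : lam * ζ ≤ 1 / 16)
    (hi : i ≤ i' ∨ i' + 1 ≤ i) :
    let B := (1 - y) * (i' + 1 + 3/4) - (1 - y) * ((1 + i + ux) + lam * ζ) - del * ζ
    1 / 16 ≤ |B| ∧ (B < 0 ↔ i' < i) := by
  intro B
  have hux' := abs_le.mp hux
  have h0 : 0 ≤ lam * ζ := by positivity
  have h1 : 0 ≤ del * ζ := by positivity
  have h2 : del * ζ ≤ 1/128 := by
    calc del * ζ ≤ (lam * y / 8) * ζ := mul_le_mul_of_nonneg_right hdel hζ
      _ = (lam * ζ) * (y / 8) := by ring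
      _ ≤ (1/16) * (y/8) := mul_le_mul_of_nonneg_right hL (by positivity)
      _ ≤ 1/128 := by linarith
  have e : B = (1 - y) * ((i' - i) + 3/4 - ux - lam * ζ) - del * ζ := by simp only [B]; ring
  rcases hi with h | h
  · have h3 : (3/4) * (5/8) ≤ (1 - y) * ((i' - i) + 3/4 - ux - lam * ζ) :=
      mul_le_mul (by linarith) (by linarith [hux'.2]) (by norm_num) (by linarith)
    have h4 : 1/16 ≤ B := by rw [e]; linarith
    refine ⟨h4.trans (le_abs_self _), ?_⟩
    constructor
    · intro h5; linarith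
    · intro h5; linarith
  · have h3 : (1 - y) * ((i' - i) + 3/4 - ux - lam * ζ) ≤ (1 - y) * (-(3/16)) :=
      mul_le_mul_of_nonneg_left (by linarith [hux'.1]) (by linarith)
    have h4 : B ≤ -(1/16) := by rw [e]; nlinarith
    refine ⟨?_, ?_⟩
    · rw [abs_of_neg (by linarith)]; linarith
    · constructor
      · intro _; linarith
      · intro _; linarith

/-- column line of the entering line: always below -/
lemma bun_b' {y lam del ux ζ i i' pos : ℝ} (hy : 0 < y) (hy1 : y ≤ 1/4) (hl : 0 < lam)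
    (hdl : 0 < del) (hdel : del ≤ lam * y / 8) (hux : |ux| ≤ 1 / 16) (hζ : 0 ≤ ζ)
    (hp : lam * |pos| ≤ 1 / 16) (hi : 0 ≤ i) (hi' : 0 ≤ i') :
    -(y * (i' + 1) + (lam * y - del) * pos) - (1 - y) * ((1 + i + ux) + lam * ζ) - del * ζ
      ≤ -(1/2) := by
  have hux' := abs_le.mp hux
  have hly : 0 < lam * y := mul_pos hl hy
  have h0 : 0 ≤ (1 - y) * (lam * ζ) := mul_nonneg (by linarith) (by positivity)
  have h1 : 0 ≤ del * ζ := by positivity
  have hc : 0 < lam * y - del := by linarith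
  have h2 : |(lam * y - del) * pos| ≤ 1/16 := by
    rw [abs_mul, abs_of_pos hc]
    calc (lam * y - del) * |pos| ≤ (lam * 1) * |pos| := by
          apply mul_le_mul_of_nonneg_right _ (abs_nonneg _)
          nlinarith
      _ ≤ 1/16 := by rw [mul_one]; exact hp
  have h2' := abs_le.mp h2
  have h3 : 0 ≤ y * (i' + 1) := by positivity
  have h4 : (1 - y) * (15/16) ≤ (1 - y) * (1 + i + ux) :=
    mul_le_mul_of_nonneg_left (by linarith [hux'.1]) (by linarith)
  nlinarith [h2'.1]

/-- between-column line of the leaving line: always above -/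
lemma bun_a' {y lam del ux ζ i i' : ℝ} (hy : 0 < y) (hy1 : y ≤ 1/4) (hl : 0 < lam)
    (hdel : del ≤ lam * y / 8) (hux : |ux| ≤ 1 / 16) (hζ : 0 ≤ ζ)
    (hL : lam * ζ ≤ 1 / 16) (hi : 0 ≤ i) (hi' : 0 ≤ i') :
    1/2 ≤ (1 - y) * (i' + 1 + 3/4) + y * ((1 + i + ux) + lam * ζ) - del * ζ := by
  have hux' := abs_le.mp hux
  have h1 : del * ζ ≤ 1/128 := by
    calc del * ζ ≤ (lam * y / 8) * ζ := mul_le_mul_of_nonneg_right hdel hζ
      _ = (lam * ζ) * (y / 8) := by ring
      _ ≤ (1/16) * (y/8) := mul_le_mul_of_nonneg_right hL (by positivity)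
      _ ≤ 1/128 := by linarith
  have h2 : 0 ≤ y * ((1 + i + ux) + lam * ζ) := by
    apply mul_nonneg hy.le
    have : 0 ≤ lam * ζ := by positivity
    linarith [hux'.1]
  have h3 : (3/4) * (7/4) ≤ (1 - y) * (i' + 1 + 3/4) :=
    mul_le_mul (by linarith) (by linarith) (by norm_num) (by linarith)
  linarith

/-- perturbation of a line which stays away from the event -/
lemma pert {H G s p d ε off ξζ δζ n γ : ℝ} (hd : 0 < d) (hε : 0 < ε)
    (hG : G = |s - p| / d + 1) (hH : γ * G ≤ |H|) (hoff : |off| ≤ n) (hx : |ξζ| ≤ n)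
    (hz : |δζ| ≤ 1) (hsm : 4 * (ε * (n + 1)) ≤ γ) :
    |ε * (off + (s - p) / d * ξζ - δζ)| ≤ |H| / 4 := by
  have hG0 : 1 ≤ G := by
    rw [hG]
    have : 0 ≤ |s - p| / d := by positivity
    linarith
  rw [abs_mul, abs_of_pos hε]
  have h1 : |off + (s - p) / d * ξζ - δζ| ≤ (n + 1) * G := by
    have h2 := abs_sub (off + (s - p) / d * ξζ) δζ
    have h3 := abs_add_le off ((s - p) / d * ξζ)
    have h4 : |(s - p) / d * ξζ| ≤ (G - 1) * n := by
      rw [abs_mul, abs_div, abs_of_pos hd, hG]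
      have : |s - p| / d + 1 - 1 = |s - p| / d := by ring
      rw [this]
      exact mul_le_mul_of_nonneg_left hx (by positivity)
    nlinarith
  calc ε * |off + (s - p) / d * ξζ - δζ| ≤ ε * ((n + 1) * G) :=
        mul_le_mul_of_nonneg_left h1 hε.le
    _ = (4 * (ε * (n + 1))) * G / 4 := by ring
    _ ≤ γ * G / 4 := by
        apply div_le_div_of_nonneg_right _ (by norm_num)
        exact mul_le_mul_of_nonneg_right hsm (by linarith)
    _ ≤ |H| / 4 := div_le_div_of_nonneg_right hH (by norm_num)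

/-- a perturbation by at most half preserves the sign -/
lemma sgn_of_pert {H E c : ℝ} (hc : c < 1) (hH : H ≠ 0) (hE : |E| ≤ c * |H|) :
    (H + E < 0 ↔ H < 0) ∧ (1 - c) * |H| ≤ |H + E| := by
  have hE' := abs_le.mp hE
  rcases lt_or_gt_of_ne hH with h | h
  · rw [abs_of_neg h] at *
    have h2 : H + E < 0 := by nlinarith [hE'.2]
    refine ⟨by simp [h, h2], ?_⟩
    rw [abs_of_neg h2]; nlinarith [hE'.2]
  · rw [abs_of_pos h] at *
    have h2 : 0 < H + E := by nlinarith [hE'.1]
    refine ⟨⟨fun h3 => absurd h3 (not_lt.mpr h2.le), fun h3 => absurd h3 (not_lt.mpr h.le)⟩, ?_⟩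
    rw [abs_of_pos h2]; nlinarith [hE'.1]

end K9
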