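import Pool.Agent.Helper48K9.RoundsB

/-!
# Leaf E: the numerical iteration
-/

set_option autoImplicit false

namespace K9

open Filter Chain

/-- The values of `β` in the rounds. -/
noncomputable def Chain.seqB : ℕ → ℝ
  | 0 => 127500 / 126072
  | j + 1 => 2500 / 10506 * Chain.seqB j ^ TT j

theorem rounds (hstep : StepAll) (hfin : ∀ pr, pr.Prime → FinStmt pr)
    (hstart : ∀ pr, pr.Prime → 2 < pr → StartStmt pr) (hbase : BaseStmt) : RoundsStmt := by
  obtain ⟨pr, K, k, y₀, e₀, S, hinit⟩ := init hstep hfin hstart hbase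
  have hpos : ∀ j, 0 ≤ Chain.seqB j := fun j => (log_beta rfl (fun _ => rfl) j).1.le
  have hst : ∀ j, State pr y₀ j (TT j) (seqE e₀ k j) (Chain.seqB j) := by
    intro j
    induction j with
    | zero => exact hinit (TT 0)
    | succ j ih =>
      have h1 := TT_pos j
      exact round S (by omega) (hpos j) ih (TT (j + 1))
  intro C H₀
  have key := rounds_core (fun a c β' => ∃ (y : ℝ) (N B M Θ H Λ W : ℕ),
    Out pr y N B M Θ H Λ W β' ∧ N ≤ 2 ^ a ∧ B ≤ 2 ^ c) e₀ k Chain.seqB rfl (fun _ => rfl)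
    (fun j i _ hi => State.out S (hpos j) (hst j) hi) C H₀
  filter_upwards [key] with m hm
  obtain ⟨a, c, β', ⟨y, N, B, M, Θ, H, Λ, W, hO, hN, hB⟩, hcost, hgain⟩ := hm
  refine ⟨pr, y, N, B, M, Θ, H, Λ, W, β', hO, le_trans ?_ hcost, hgain⟩
  exact Nat.mul_le_mul (Nat.mul_le_mul_right _ hN) (Nat.pow_le_pow_left (Nat.mul_le_mul hB hN) 2)

end K9
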