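import Pool.Agent.Helper48K9.Asm5
import Pool.Agent.Helper48K9.Count
import Pool.Agent.Helper48K9.CountD
import Pool.Agent.Helper48K9.GA
import Pool.Agent.Helper48K9.GB
import Pool.Agent.Helper48K9.GC
import Pool.Agent.Helper48K9.GD
import Pool.Agent.Helper48K9.GE
import Pool.Agent.Helper48K9.GP
import Pool.Agent.Helper48K9.Fin
import Pool.Agent.Helper48K9.BaseK
import Pool.Agent.Helper48K9.Rounds
import Pool.Agent.Helper48K9.AllK

/-!
# Assembly of the leaves
-/

namespace K9

theorem stepAll : StepAll :=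
  stepAll_of countA countD leafGA (leafGB leafGA) (leafGC leafGA) (leafGD leafGA) (leafGE leafGA)
    leafGP

theorem roundsStmt : RoundsStmt :=
  rounds stepAll (fun pr h => finStmt pr h) (fun pr h h2 => startStmt pr h h2) baseStmt

theorem everyK : ∃ k₀ : ℕ, ∀ n k : ℕ, k₀ ≤ k → k + k₀ ≤ n →
    (n : ℝ) * ((min k (n - k) : ℕ) : ℝ) ^
      (1 / Real.log (Real.log ((min k (n - k) : ℕ) : ℝ)) ^ 5) ≤ (KLev.Levels.e k n : ℝ) :=
  AllK.main roundsStmt

end K9
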