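import Pool.Agent.Helper48K9.Defs
import Pool.Agent.H131KL.BaseI
import Pool.Agent.H131KL.Conv
import Pool.Agent.KLev.Levels

/-!
# From the numerical part to the level of a line arrangement
-/

namespace K9

open Finset Filter KLev NearPoly

/-- an outer block gives a certificate -/
theorem Out.hasR {pr : ℕ} {y : ℝ} {N B M Θ H Λ W : ℕ} {β : ℝ} (h : Out pr y N B M Θ H Λ W β)
    (hβ : 0 ≤ β) : ∃ N₀, N₀ ≤ N ∧ HasR N₀ (B * N) β := by
  classical
  obtain ⟨⟨h1, h2, h3, h4, h5, h6, h7⟩, A, D, R, _, _, _, _, S, k, c, hG, hL, hB, hA, hd,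
    hcA, hcR, hr⟩ := h
  have hH0 : (0:ℝ) < H := by exact_mod_cast h5
  have hγ : (0:ℝ) < 1 / H := by positivity
  have ha : ∀ r, S.s (S.a r) * S.X r + S.t (S.a r) = S.Y r := fun r => by
    have := hG.a0 r; unfold Sys.hA Sys.h at this; linarith
  have hb : ∀ r, S.s (S.b r) * S.X r + S.t (S.b r) = S.Y r := fun r => by
    have := hG.b0 r; unfold Sys.hA Sys.h at this; linarith
  have hX : Function.Injective S.X := by
    intro r r' hrr
    by_contra hne
    have := hG.xs r r' (Ne.symm hne)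
    rw [hrr, sub_self, abs_zero, zero_mul] at this
    linarith
  have hcard : Fintype.card R ≤ B * N := by omega
  let S' : Ev A R k (B * N) :=
    { s := S.s, t := S.t, X := S.X, a := S.a, b := S.b
      tie := fun r => by rw [ha, hb]
      hs := fun r => by have := hG.pos r; unfold Sys.d at this; linarith
      hne := fun r c h1 h2 => by
        intro h3
        rw [ha] at h3
        have h4 := hG.gA r c h1 h2
        have h5 : S.hA r c = 0 := by unfold Sys.hA Sys.h; linarith
        rw [h5, abs_zero] at h4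
        have h6 : 0 ≤ |S.s c - S.p y r| / S.d r := div_nonneg (abs_nonneg _) (hG.pos r).le
        have h7 : 0 < 1 / (H:ℝ) * (|S.s c - S.p y r| / S.d r + 1) := by positivity
        linarith
      hcard := fun r => by
        refine Eq.trans ?_ (hL.lA r)
        unfold Sys.kA
        apply Finset.sum_congr rfl
        intro c _
        have : (S.s c * S.X r + S.t c < S.s (S.a r) * S.X r + S.t (S.a r)) ↔ S.hA r c < 0 := by
          rw [ha]; unfold Sys.hA Sys.h; rw [sub_neg]
        simp only [this]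
      hX := hX
      slot := fun r => Fin.castLE hcard (Fintype.equivFin R r)
      hslot := fun r r' _ h => by
        have h2 := Fin.castLE_injective hcard h
        exact (Fintype.equivFin R).injective h2 }
  obtain ⟨C, hC⟩ := ev_cert S'
  obtain ⟨r⟩ : Nonempty R := inferInstance
  have hk := level_lt S' r
  have hE : 1 ≤ Fintype.card R := Fintype.card_pos
  have hM : (0:ℝ) < M := by exact_mod_cast h3
  refine ⟨Fintype.card A, hcA, by omega, Nat.mul_pos h2 h1, Fintype.card R, hE, ?_, ?_⟩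
  · refine ⟨A, R, inferInstance, inferInstance, k + 1, C, ?_, rfl, rfl, by omega, by omega⟩
    intro i
    obtain ⟨z, hz⟩ := hA.si i
    refine ⟨(z : ℚ) / (M : ℚ), ?_⟩
    rw [hC]
    push_cast
    rw [← hz]
    show S.s i = _
    field_simp
  · refine le_trans ?_ hr
    have : (Fintype.card A : ℝ) ≤ N := by exact_mod_cast hcA
    apply mul_le_mul_of_nonneg_right _ (by norm_num)
    exact mul_le_mul_of_nonneg_left this hβ

theorem has_of_rounds (h : RoundsStmt) (C : ℝ) :
    ∀ᶠ m : ℕ in atTop, ∃ N E P, Has N E P ∧ N ≤ m ∧ ∀ x : ℝ, (m:ℝ) ≤ x → x ≤ 8 * m →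
      C * x ^ (1 + 1 / Real.log (Real.log x) ^ 5) ≤ E := by
  obtain ⟨H₀, hH⟩ := HasI.base
  filter_upwards [h (8 * max C 1) H₀, eventually_ge_atTop 1] with m hm hm1
  obtain ⟨pr, y, N, B, M, Θ, H, Λ, W, β, hO, hc, hx⟩ := hm
  have hm0 : (0:ℝ) < m := by exact_mod_cast hm1
  have hC1 : (1:ℝ) ≤ max C 1 := le_max_right _ _
  have hβ : 0 ≤ β := by
    refine le_trans ?_ (hx m le_rfl (by linarith))
    positivity
  obtain ⟨N₀, hN, hR⟩ := hO.hasR hβ
  have hβ₀ : 0 ≤ β₀ := by linarith [one_lt_β₀]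
  obtain ⟨N', E', P', h1, h2, h3⟩ := hR.fill hH.hasS hβ hβ₀ m (by
    refine le_trans ?_ hc
    exact Nat.mul_le_mul_right _ (Nat.mul_le_mul_right _ hN))
  refine ⟨N', E', P', h1, h2, ?_⟩
  intro x hx1 hx2
  have hx0 : 0 < x := by linarith
  have h4 := hx x hx1 hx2
  have h5 : x ^ (1 + 1 / Real.log (Real.log x) ^ 5) =
      x * Real.exp (Real.log x / Real.log (Real.log x) ^ 5) := by
    rw [Real.rpow_add hx0, Real.rpow_one, Real.rpow_def_of_pos hx0]
    congr 2; ring
  rw [h5]
  have h6 : 0 < Real.exp (Real.log x / Real.log (Real.log x) ^ 5) := Real.exp_pos _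
  calc C * (x * Real.exp (Real.log x / Real.log (Real.log x) ^ 5))
      ≤ max C 1 * (x * Real.exp (Real.log x / Real.log (Real.log x) ^ 5)) :=
        mul_le_mul_of_nonneg_right (le_max_left _ _) (by positivity)
    _ ≤ max C 1 * ((8 * m) * Real.exp (Real.log x / Real.log (Real.log x) ^ 5)) := by
        apply mul_le_mul_of_nonneg_left _ (by linarith)
        exact mul_le_mul_of_nonneg_right hx2 h6.le
    _ = (8 * max C 1 * Real.exp (Real.log x / Real.log (Real.log x) ^ 5)) * m := by ring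
    _ ≤ β * m := mul_le_mul_of_nonneg_right h4 hm0.le
    _ ≤ β * β₀ * m := by
        apply mul_le_mul_of_nonneg_right _ hm0.le
        exact le_mul_of_one_le_right hβ one_lt_β₀.le
    _ ≤ E' := h3

/-- LEAF F: all large `n` satisfy `e_{⌊n/2⌋}(n) ≥ n ^ (1 + 1 / (log log n) ^ 5)`. -/
theorem res (h : RoundsStmt) : ∀ᶠ n : ℕ in atTop,
    (n : ℝ) ^ (1 + 1 / Real.log (Real.log n) ^ 5) ≤ (Levels.e (n / 2) n : ℝ) := by
  obtain ⟨a, ha⟩ := (has_of_rounds h 1).exists_forall_of_atTop
  filter_upwards [eventually_ge_atTop (2 * a + 10)] with n hn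
  obtain ⟨N, E, P, hH, hN, hE⟩ := ha (n / 2 - 1) (by omega)
  have h1 := Levels.e_ge hH (n / 2) n (by omega) (by omega)
  have h2 : (E : ℝ) ≤ Levels.e (n / 2) n := by exact_mod_cast h1
  have hnm : (n : ℝ) ≤ 8 * ((n / 2 - 1 : ℕ) : ℝ) := by
    have : n ≤ 8 * (n / 2 - 1) := by omega
    exact_mod_cast this
  have hnm2 : ((n / 2 - 1 : ℕ) : ℝ) ≤ n := by
    have : n / 2 - 1 ≤ n := by omega
    exact_mod_cast this
  have h3 := hE n hnm2 hnm
  rw [one_mul] at h3
  exact h3.trans h2

end K9
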