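import Pool.Agent.Helper48K9.Chain

/-!
# Leaf E2: bounds for the exponents under the recursion of the rounds
-/

set_option autoImplicit false

namespace K9.Chain

/-- the length of the chain in round `j` -/
def TT (j : ℕ) : ℕ := (j + 40) ^ 3

/-- the product of the lengths -/
def PP (j : ℕ) : ℕ := ∏ i ∈ Finset.range j, TT i

theorem PP_succ (j : ℕ) : PP (j + 1) = PP j * TT j := by
  unfold PP; rw [Finset.prod_range_succ]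

theorem TT_pos (j : ℕ) : 64000 ≤ TT j := by
  unfold TT
  calc 64000 = 40 ^ 3 := by norm_num
    _ ≤ (j + 40) ^ 3 := Nat.pow_le_pow_left (by omega) 3

theorem PP_pos (j : ℕ) : 1 ≤ PP j := by
  induction j with
  | zero => simp [PP]
  | succ j ih =>
    rw [PP_succ]
    have := TT_pos j
    nlinarith

theorem le_PP (j : ℕ) : j ≤ PP j := by
  induction j with
  | zero => simp
  | succ j ih =>
    rw [PP_succ]
    have := TT_pos j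
    have := PP_pos j
    nlinarith

/-- the exponents in round `j` -/
def seqE (e₀ : Ex) (k : ℕ) : ℕ → Ex
  | 0 => { e₀ with q := 6 + TT 0 * (e₀.b + 6) + k }
  | j + 1 => (seqE e₀ k j).next k j (TT j) (TT (j + 1))

/-- The bounds; `x = G P_j`, `t = j + 40`. -/
structure Bd (e : Ex) (t x : ℕ) : Prop where
  n : e.n ≤ 2 * (t ^ 5 * x)
  b : e.b + 12 ≤ 2 * x
  r : e.r ≤ 6 * (t ^ 4 * x)
  q : e.q ≤ 4 * (t ^ 3 * x)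
  th : e.th ≤ 9 * x
  h : e.h ≤ 3 * (t ^ 5 * x)
  lam : e.lam ≤ 5 * (t ^ 4 * x)
  om : e.om + 4 ≤ 2 * x
  dl : e.dl ≤ 4 * (t ^ 2 * x)
  l : e.l ≤ 13 * x

section lin

variable {n b r q th h lam om dl l k s x X2 X3 X4 X5 : ℕ}

theorem lin1 (hlam : lam ≤ 5 * X4) (hth : th ≤ 9 * x) (hq : q ≤ 4 * X3) (hdl : dl ≤ 4 * X2)
    (hk : k ≤ x) (p0 : 64000 * x ≤ X3) (p2 : X2 * 40 ≤ X3) :
    lam + 2 * th + 4 * q + 3 * dl + 4 * k ≤ 5 * X4 + 17 * X3 := by omega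

theorem lin2 (hh : h ≤ 3 * X5) (hr : r ≤ 6 * X4) (hth : th ≤ 9 * x) (hq : q ≤ 4 * X3)
    (hdl : dl ≤ 4 * X2) (hk : k ≤ x) (p0 : 64000 * x ≤ X3) (p2 : X2 * 40 ≤ X3)
    (p3 : X3 * 40 ≤ X4) :
    h + 2 * r + 8 * q + 3 * th + 5 * dl + 8 * k ≤ 3 * X5 + 13 * X4 := by omega

theorem lin3 (hh : h ≤ 3 * X5) (hr : r ≤ 6 * X4) (hth : th ≤ 9 * x) (hq : q ≤ 4 * X3)
    (hdl : dl ≤ 4 * X2) (hk : k ≤ x) (hl : l ≤ 13 * x) (hx : 12 ≤ x) (p0 : 64000 * x ≤ X3)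
    (p2 : X2 * 40 ≤ X3) (p3 : X3 * 40 ≤ X4) :
    h + 2 * r + 11 * q + 6 * dl + 4 * th + l + 9 * k + 1 ≤ 3 * X5 + 14 * X4 := by omega

theorem lin4 (hn : n ≤ 2 * X5) (hr : r ≤ 6 * X4) (hq : q ≤ 4 * X3) (hx : 12 ≤ x)
    (p0 : 64000 * x ≤ X3) (p3 : X3 * 40 ≤ X4) : n + r + 19 + q ≤ 2 * X5 + 7 * X4 := by omega

theorem lin5 (hth : th ≤ 9 * x) (hq : q ≤ 4 * X3) (hdl : dl ≤ 4 * X2) (hk : k ≤ x)
    (hx : 12 ≤ x) (p0 : 64000 * x ≤ X3) (p2 : X2 * 40 ≤ X3) :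
    th + 2 * q + dl + k + 1 ≤ 9 * X3 := by omega

theorem lin6 (hth : th ≤ 9 * x) (hq : q ≤ 4 * X3) (hdl : dl ≤ 4 * X2) (hk : k ≤ x)
    (hl : l ≤ 13 * x) (p0 : 64000 * x ≤ X3) (p2 : X2 * 40 ≤ X3) :
    l + th + 3 * q + dl + 3 * k ≤ 13 * X3 := by omega

/-- the new sums; `z = t^3 x`, `Z1 = t z`, ..., `Z5 = t^5 z` -/
theorem fin_n {a z Z1 Z2 Z3 Z4 Z5 : ℕ} (m4 : a ≤ 2 * Z5 + 7 * Z4) (hz : 12 ≤ z) (w1 : 40 * z ≤ Z1) :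
    1 + a ≤ 2 * (Z5 + 5 * Z4 + 10 * Z3 + 10 * Z2 + 5 * Z1 + z) := by omega

theorem fin_r {a c z Z1 Z2 Z3 Z4 : ℕ} (s3 : a ≤ 3 * Z2 + 14 * Z1 + 2 * z)
    (m1 : c ≤ 5 * Z4 + 17 * Z3) (w2 : 40 * Z1 ≤ Z2) (w3 : 40 * Z2 ≤ Z3) (w4 : 40 * Z3 ≤ Z4)
    (w1 : 40 * z ≤ Z1) : a + c ≤ 6 * (Z4 + 4 * Z3 + 6 * Z2 + 4 * Z1 + z) := by omega

theorem fin_h {a z Z1 Z2 Z3 Z4 Z5 : ℕ} (m2 : a ≤ 3 * Z5 + 13 * Z4) :
    a ≤ 3 * (Z5 + 5 * Z4 + 10 * Z3 + 10 * Z2 + 5 * Z1 + z) := by omega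

theorem fin_lam {a z Z1 Z2 Z3 Z4 : ℕ} (m1 : a ≤ 5 * Z4 + 17 * Z3) :
    a ≤ 5 * (Z4 + 4 * Z3 + 6 * Z2 + 4 * Z1 + z) := by omega

theorem fin_dl {a z Z1 Z2 : ℕ} (s3 : a ≤ 3 * Z2 + 14 * Z1 + 2 * z) (w1 : 40 * z ≤ Z1)
    (w2 : 40 * Z1 ≤ Z2) : a ≤ 4 * (Z2 + 2 * Z1 + z) := by omega

theorem fin_q {a z Y : ℕ} (h2 : a ≤ 2 * Y) (h4 : z ≤ Y) (hk : k ≤ x) (hs : s ≤ x)
    (hx : 12 ≤ x) (z1 : x * 64000 ≤ z) : 6 + a + k + s ≤ 4 * Y := by omega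

end lin

theorem Bd.next {e : Ex} {t x k s G : ℕ} (ht : 40 ≤ t) (hG : 12 ≤ G) (hGx : G ≤ x) (hk : k ≤ G)
    (hs : s ≤ x) (h : Bd e t x) :
    Bd (e.next k s (t ^ 3) ((t + 1) ^ 3)) (t + 1) (t ^ 3 * x) := by
  obtain ⟨hn, hb, hr, hq, hth, hh, hlam, hom, hdl, hl⟩ := h
  have hx : 12 ≤ x := hG.trans hGx
  have hkx : k ≤ x := hk.trans hGx
  have ht3 : 64000 ≤ t ^ 3 := by
    calc 64000 = 40 ^ 3 := by norm_num
      _ ≤ t ^ 3 := Nat.pow_le_pow_left ht 3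
  -- products with `x`
  have p0 : 64000 * x ≤ t ^ 3 * x := Nat.mul_le_mul_right _ ht3
  have p2 : t ^ 2 * x * 40 ≤ t ^ 3 * x := by
    calc t ^ 2 * x * 40 ≤ t ^ 2 * x * t := Nat.mul_le_mul_left _ ht
      _ = t ^ 3 * x := by ring
  have p3 : t ^ 3 * x * 40 ≤ t ^ 4 * x := by
    calc t ^ 3 * x * 40 ≤ t ^ 3 * x * t := Nat.mul_le_mul_left _ ht
      _ = t ^ 4 * x := by ring
  -- the inner sums, multiplied by `t ^ 3`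
  have m1 := Nat.mul_le_mul_left (t ^ 3) (lin1 hlam hth hq hdl hkx p0 p2)
  have m2 := Nat.mul_le_mul_left (t ^ 3) (lin2 hh hr hth hq hdl hkx p0 p2 p3)
  have s3 := lin3 hh hr hth hq hdl hkx hl hx p0 p2 p3
  have m4 := Nat.mul_le_mul_left (t ^ 3) (lin4 hn hr hq hx p0 p3)
  have m5 : t ^ 3 * (e.om + 2) + t ^ 3 * 2 ≤ 2 * (t ^ 3 * x) := by
    calc t ^ 3 * (e.om + 2) + t ^ 3 * 2 = t ^ 3 * (e.om + 4) := by ring
      _ ≤ t ^ 3 * (2 * x) := Nat.mul_le_mul_left _ hom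
      _ = _ := by ring
  have m6 : t ^ 3 * (e.b + 6) + t ^ 3 * 6 ≤ 2 * (t ^ 3 * x) := by
    calc t ^ 3 * (e.b + 6) + t ^ 3 * 6 = t ^ 3 * (e.b + 12) := by ring
      _ ≤ t ^ 3 * (2 * x) := Nat.mul_le_mul_left _ hb
      _ = _ := by ring
  have l5 := lin5 hth hq hdl hkx hx p0 p2
  have l6 := lin6 hth hq hdl hkx hl p0 p2
  have z1 : x * 64000 ≤ t ^ 3 * x := by rw [mul_comm x]; exact p0
  clear hn hr hq hth hh hlam hdl hl p0 p2 p3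
  set z := t ^ 3 * x with hz
  have hz12 : 12 ≤ z := by omega
  have w1 : 40 * z ≤ t * z := Nat.mul_le_mul_right _ ht
  have w2 : 40 * (t * z) ≤ t ^ 2 * z := by
    calc 40 * (t * z) ≤ t * (t * z) := Nat.mul_le_mul_right _ ht
      _ = t ^ 2 * z := by ring
  have w3 : 40 * (t ^ 2 * z) ≤ t ^ 3 * z := by
    calc 40 * (t ^ 2 * z) ≤ t * (t ^ 2 * z) := Nat.mul_le_mul_right _ ht
      _ = t ^ 3 * z := by ring
  have w4 : 40 * (t ^ 3 * z) ≤ t ^ 4 * z := by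
    calc 40 * (t ^ 3 * z) ≤ t * (t ^ 3 * z) := Nat.mul_le_mul_right _ ht
      _ = t ^ 4 * z := by ring
  have r5 : (t + 1) ^ 5 * z = t ^ 5 * z + 5 * (t ^ 4 * z) + 10 * (t ^ 3 * z) + 10 * (t ^ 2 * z) +
      5 * (t * z) + z := by ring
  have r4 : (t + 1) ^ 4 * z = t ^ 4 * z + 4 * (t ^ 3 * z) + 6 * (t ^ 2 * z) + 4 * (t * z) + z := by
    ring
  have r2 : (t + 1) ^ 2 * z = t ^ 2 * z + 2 * (t * z) + z := by ring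
  have c1 : t ^ 3 * (5 * (t ^ 4 * x) + 17 * z) = 5 * (t ^ 4 * z) + 17 * (t ^ 3 * z) := by
    rw [hz]; ring
  have c2 : t ^ 3 * (3 * (t ^ 5 * x) + 13 * (t ^ 4 * x)) = 3 * (t ^ 5 * z) + 13 * (t ^ 4 * z) := by
    rw [hz]; ring
  have c4 : t ^ 3 * (2 * (t ^ 5 * x) + 7 * (t ^ 4 * x)) = 2 * (t ^ 5 * z) + 7 * (t ^ 4 * z) := by
    rw [hz]; ring
  have c3 : 3 * (t ^ 5 * x) + 14 * (t ^ 4 * x) = 3 * (t ^ 2 * z) + 14 * (t * z) := by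
    rw [hz]; ring
  rw [c1] at m1
  rw [c2] at m2
  rw [c4] at m4
  rw [c3] at s3
  have s3' : e.h + 2 * e.r + 11 * e.q + 6 * e.dl + 4 * e.th + e.l + 9 * k + 1 +
      t ^ 3 * (e.om + 2) ≤ 3 * (t ^ 2 * z) + 14 * (t * z) + 2 * z :=
    Nat.add_le_add s3 ((Nat.le_add_right _ _).trans m5)
  refine ⟨?_, ?_, ?_, ?_, l5, ?_, ?_, ?_, ?_, l6⟩
  · show 1 + t ^ 3 * (e.n + e.r + 19 + e.q) ≤ 2 * ((t + 1) ^ 5 * z)
    rw [r5]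
    exact fin_n m4 hz12 w1
  · show t ^ 3 * (e.b + 6) + 12 ≤ 2 * z
    exact le_trans (Nat.add_le_add_left (by omega) _) m6
  · show (e.h + 2 * e.r + 11 * e.q + 6 * e.dl + 4 * e.th + e.l + 9 * k + 1 + t ^ 3 * (e.om + 2)) +
      t ^ 3 * (e.lam + 2 * e.th + 4 * e.q + 3 * e.dl + 4 * k) ≤ 6 * ((t + 1) ^ 4 * z)
    rw [r4]
    exact fin_r s3' m1 w2 w3 w4 w1
  · show 6 + (t + 1) ^ 3 * (t ^ 3 * (e.b + 6) + 6) + k + s ≤ 4 * ((t + 1) ^ 3 * z)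
    have h1 : t ^ 3 * (e.b + 6) + 6 ≤ 2 * z :=
      le_trans (Nat.add_le_add_left (by omega) _) m6
    have h2 := Nat.mul_le_mul_left ((t + 1) ^ 3) h1
    have h3 : (t + 1) ^ 3 * (2 * z) = 2 * ((t + 1) ^ 3 * z) := by ring
    have h4 : z ≤ (t + 1) ^ 3 * z := Nat.le_mul_of_pos_left _ (by positivity)
    rw [h3] at h2
    exact fin_q h2 h4 hkx hs hx z1
  · show t ^ 3 * (e.h + 2 * e.r + 8 * e.q + 3 * e.th + 5 * e.dl + 8 * k) ≤ 3 * ((t + 1) ^ 5 * z)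
    rw [r5]
    exact fin_h m2
  · show t ^ 3 * (e.lam + 2 * e.th + 4 * e.q + 3 * e.dl + 4 * k) ≤ 5 * ((t + 1) ^ 4 * z)
    rw [r4]
    exact fin_lam m1
  · show t ^ 3 * (e.om + 2) + 4 ≤ 2 * z
    exact le_trans (Nat.add_le_add_left (by omega) _) m5
  · show e.h + 2 * e.r + 11 * e.q + 6 * e.dl + 4 * e.th + e.l + 9 * k + 1 + t ^ 3 * (e.om + 2) ≤
      4 * ((t + 1) ^ 2 * z)
    rw [r2]
    exact fin_dl s3' w1 w2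

theorem seqE_bd (e₀ : Ex) (k : ℕ) : ∃ G : ℕ, 12 ≤ G ∧ ∀ j,
    Bd (seqE e₀ k j) (j + 40) (G * PP j) := by
  set G := e₀.n + e₀.b + e₀.r + e₀.th + e₀.h + e₀.lam + e₀.om + e₀.dl + e₀.l + k + 12 with hG
  refine ⟨G, by omega, fun j => ?_⟩
  induction j with
  | zero =>
    have hP : PP 0 = 1 := by simp [PP]
    rw [hP, mul_one]
    refine ⟨?_, ?_, ?_, ?_, ?_, ?_, ?_, ?_, ?_, ?_⟩ <;>
      simp only [seqE, TT, zero_add] <;> norm_num <;> omega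
  | succ j ih =>
    have h1 : G * PP (j + 1) = (j + 40) ^ 3 * (G * PP j) := by
      rw [PP_succ]; unfold TT; ring
    rw [h1]
    have h2 := ih.next (k := k) (s := j) (G := G) (by omega) (by omega)
      (Nat.le_mul_of_pos_right _ (PP_pos j)) (by omega)
      ((le_PP j).trans (Nat.le_mul_of_pos_left _ (by omega)))
    have h3 : j + 40 + 1 = j + 1 + 40 := by omega
    rw [h3] at h2
    exact h2

end K9.Chain
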