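import Pool.Agent.Helper48K9.RoundsA

/-!
# Leaf E3: selection of a round and asymptotics
-/

set_option autoImplicit false

namespace K9.Chain

open Filter

theorem log_TT_tendsto : Tendsto (fun j : ℕ => Real.log (TT j)) atTop atTop := by
  refine Real.tendsto_log_atTop.comp (tendsto_natCast_atTop_atTop.comp ?_)
  refine tendsto_atTop_mono (fun j => ?_) tendsto_id
  show j ≤ (j + 40) ^ 3
  calc j ≤ j + 40 := by omega
    _ = (j + 40) ^ 1 := (pow_one _).symm
    _ ≤ (j + 40) ^ 3 := Nat.pow_le_pow_right (by omega) (by norm_num)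

theorem log_PP_large (κ : ℝ) : ∀ᶠ j : ℕ in atTop, κ * ((j : ℝ) + 40) ≤ Real.log (PP j) := by
  obtain ⟨J, hJ⟩ := eventually_atTop.1 (log_TT_tendsto.eventually_ge_atTop (2 * max κ 1))
  have hκ : 1 ≤ max κ 1 := le_max_right _ _
  have h1 : ∀ j, J ≤ j → 2 * max κ 1 * ((j : ℝ) - J) ≤ Real.log (PP j) := by
    intro j hj
    induction j, hj using Nat.le_induction with
    | base =>
      rw [sub_self, mul_zero]
      exact Real.log_natCast_nonneg _
    | succ j hj ih =>
      have hP : (0 : ℝ) < PP j := by exact_mod_cast PP_pos j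
      have hT : (0 : ℝ) < TT j := by exact_mod_cast (by have := TT_pos j; omega : 0 < TT j)
      rw [PP_succ, Nat.cast_mul, Real.log_mul hP.ne' hT.ne']
      have h2 := hJ j hj
      push_cast
      nlinarith
  filter_upwards [eventually_ge_atTop (2 * J + 40)] with j hj
  have h2 := h1 j (by omega)
  have h3 : (2 : ℝ) * J + 40 ≤ j := by exact_mod_cast hj
  have h4 : κ * ((j : ℝ) + 40) ≤ max κ 1 * ((j : ℝ) + 40) :=
    mul_le_mul_of_nonneg_right (le_max_left _ _) (by positivity)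
  nlinarith

theorem log_const : -(3 / 2 : ℝ) ≤ Real.log (2500 / 10506) := by
  rw [Real.le_log_iff_exp_le (by norm_num)]
  have h4 : Real.exp (-(3 / 2 : ℝ)) = (Real.exp (3 / 2))⁻¹ := Real.exp_neg _
  rw [h4, inv_le_comm₀ (Real.exp_pos _) (by norm_num)]
  have h5 : (4.2024 : ℝ) ≤ Real.exp (3 / 2) := by
    have h6 : Real.exp (3 / 2) ^ 2 = Real.exp 1 ^ 3 := by
      rw [← Real.exp_nat_mul, ← Real.exp_nat_mul]
      norm_num
    have h7 := Real.exp_one_gt_d9
    have h8 : (2.7182818283 : ℝ) ^ 3 ≤ Real.exp 1 ^ 3 :=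
      pow_le_pow_left₀ (by norm_num) h7.le 3
    nlinarith [Real.exp_pos (3 / 2 : ℝ)]
  refine le_trans ?_ h5
  norm_num

theorem logx_bounds {μ m : ℕ} {x : ℝ} (hμ10 : (10 : ℝ) ≤ μ) (hμm : 2 ^ μ ≤ m)
    (hmμ : m < 2 ^ (μ + 1)) (hx1 : (m : ℝ) ≤ x) (hx2 : x ≤ 8 * m) :
    (μ : ℝ) / 2 ≤ Real.log x ∧ Real.log x ≤ μ := by
  have hlog2a := Real.log_two_gt_d9
  have hlog2b := Real.log_two_lt_d9
  have h0 : ((2 : ℝ) ^ μ) ≤ m := by exact_mod_cast hμm
  have hxpos : 0 < x := by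
    have : (0 : ℝ) < 2 ^ μ := by positivity
    linarith
  constructor
  · have h1 : (μ : ℝ) * Real.log 2 ≤ Real.log x := by
      rw [← Real.log_pow]
      exact Real.log_le_log (by positivity) (by linarith)
    have h2 : (μ : ℝ) * (1 / 2) ≤ μ * Real.log 2 :=
      mul_le_mul_of_nonneg_left (by linarith) (by linarith)
    linarith
  · have h1 : Real.log x ≤ ((μ : ℝ) + 4) * Real.log 2 := by
      have h2 : ((μ : ℝ) + 4) * Real.log 2 = Real.log ((2 : ℝ) ^ (μ + 4)) := by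
        rw [Real.log_pow]; push_cast; ring
      rw [h2]
      refine Real.log_le_log hxpos (hx2.trans ?_)
      have h3 : (m : ℝ) ≤ 2 ^ (μ + 1) := by exact_mod_cast hmμ.le
      calc 8 * (m : ℝ) ≤ 8 * 2 ^ (μ + 1) := by linarith
        _ = 2 ^ (μ + 4) := by rw [pow_add, pow_add]; ring
    have h2 : ((μ : ℝ) + 4) * Real.log 2 ≤ (μ + 4) * 0.6931471808 :=
      mul_le_mul_of_nonneg_left hlog2b.le (by linarith)
    linarith

theorem loglog_bound {μ : ℕ} {y : ℝ} (hμ10 : (10 : ℝ) ≤ μ) (hy : (μ : ℝ) / 2 ≤ y) :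
    Real.log μ / 2 ≤ Real.log y := by
  have hμ0 : (0 : ℝ) < μ := by linarith
  have h1 : Real.log μ / 2 = Real.log (Real.sqrt μ) := by rw [Real.log_sqrt hμ0.le]
  rw [h1]
  refine Real.log_le_log (Real.sqrt_pos.2 hμ0) (le_trans ?_ hy)
  have h2 : 2 ≤ Real.sqrt μ := by
    rw [show (2 : ℝ) = Real.sqrt 4 by
      rw [show (4 : ℝ) = 2 ^ 2 by norm_num, Real.sqrt_sq (by norm_num)]]
    exact Real.sqrt_le_sqrt (by linarith)
  have h3 := Real.mul_self_sqrt hμ0.le
  nlinarith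

theorem log_beta {β : ℕ → ℝ} (hβ0 : β 0 = 127500 / 126072)
    (hβ : ∀ j, β (j + 1) = 2500 / 10506 * β j ^ TT j) (j : ℕ) :
    0 < β j ∧ (PP j : ℝ) / 200 + 1 / 200 ≤ Real.log (β j) := by
  induction j with
  | zero =>
    rw [hβ0]
    refine ⟨by norm_num, ?_⟩
    have h1 : PP 0 = 1 := by simp [PP]
    rw [h1, Nat.cast_one]
    have h2 := Real.one_sub_inv_le_log_of_pos (by norm_num : (0 : ℝ) < 127500 / 126072)
    refine le_trans ?_ h2
    norm_num
  | succ j ih =>
    obtain ⟨h1, h2⟩ := ih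
    refine ⟨by rw [hβ]; positivity, ?_⟩
    rw [hβ, Real.log_mul (by norm_num) (by positivity), Real.log_pow, PP_succ]
    have h3 := log_const
    have h4 : (64000 : ℝ) ≤ TT j := by exact_mod_cast TT_pos j
    have h5 : (0 : ℝ) ≤ PP j := Nat.cast_nonneg _
    have h6 : (TT j : ℝ) * ((PP j : ℝ) / 200 + 1 / 200) ≤ TT j * Real.log (β j) :=
      mul_le_mul_of_nonneg_left h2 (by linarith)
    push_cast
    nlinarith

open Classical in
theorem rounds_core (OutE : ℕ → ℕ → ℝ → Prop) (e₀ : Ex) (k : ℕ) (β : ℕ → ℝ)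
    (hβ0 : β 0 = 127500 / 126072) (hβ : ∀ j, β (j + 1) = 2500 / 10506 * β j ^ TT j)
    (hout : ∀ j i, 1 ≤ i → i ≤ TT j →
      OutE (1 + i * ((seqE e₀ k j).n + (seqE e₀ k j).r + 19 + (seqE e₀ k j).q))
        (i * ((seqE e₀ k j).b + 6)) (2500 / 10506 * β j ^ i)) (C : ℝ) (H₀ : ℕ) :
    ∀ᶠ m : ℕ in atTop, ∃ (a c : ℕ) (β' : ℝ), OutE a c β' ∧
      2 ^ a * (24 * H₀ * 262650) * (2 ^ c * 2 ^ a) ^ 2 ≤ m ∧
      ∀ x : ℝ, (m : ℝ) ≤ x → x ≤ 8 * m →
        C * Real.exp (Real.log x / Real.log (Real.log x) ^ 5) ≤ β' := by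
  obtain ⟨G, hG, hbd⟩ := seqE_bd e₀ k
  set f : ℕ → ℕ := fun j => 8 * ((j + 40) ^ 5 * (G * PP j)) with hf
  have hG0 : (0 : ℝ) < G := by exact_mod_cast (by omega : 0 < G)
  have hfj : ∀ j, j < f j := by
    intro j
    have h1 := le_PP j
    have h1' := PP_pos j
    have h2 : PP j ≤ G * PP j := Nat.le_mul_of_pos_left _ (by omega)
    have h3 : G * PP j ≤ (j + 40) ^ 5 * (G * PP j) := Nat.le_mul_of_pos_left _ (by positivity)
    simp only [hf]
    omega
  have hfstep : ∀ j, f (j + 1) ≤ 2 * TT j * f j := by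
    intro j
    simp only [hf]
    rw [PP_succ]
    have h1 : (j + 1 + 40) ^ 5 ≤ 2 * (j + 40) ^ 5 := by
      set t := j + 40 with ht
      have h2 : j + 1 + 40 = t + 1 := by omega
      rw [h2]
      have h3 : 40 ≤ t := by omega
      have e1 : t * 40 ≤ t ^ 2 := by rw [pow_two]; exact Nat.mul_le_mul_left _ h3
      have e2 : t ^ 2 * 40 ≤ t ^ 3 := by rw [pow_succ t 2]; exact Nat.mul_le_mul_left _ h3
      have e3 : t ^ 3 * 40 ≤ t ^ 4 := by rw [pow_succ t 3]; exact Nat.mul_le_mul_left _ h3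
      have e4 : t ^ 4 * 40 ≤ t ^ 5 := by rw [pow_succ t 4]; exact Nat.mul_le_mul_left _ h3
      have e5 : (t + 1) ^ 5 = t ^ 5 + 5 * t ^ 4 + 10 * t ^ 3 + 10 * t ^ 2 + 5 * t + 1 := by ring
      omega
    calc 8 * ((j + 1 + 40) ^ 5 * (G * (PP j * TT j))) ≤
          8 * (2 * (j + 40) ^ 5 * (G * (PP j * TT j))) :=
          Nat.mul_le_mul_left _ (Nat.mul_le_mul_right _ h1)
      _ = 2 * TT j * (8 * ((j + 40) ^ 5 * (G * PP j))) := by ring
  -- constants
  obtain ⟨h0, hh0⟩ : ∃ h0 : ℕ, 24 * H₀ * 262650 ≤ 2 ^ h0 :=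
    ⟨24 * H₀ * 262650, Nat.lt_two_pow_self.le⟩
  set κ : ℝ := 204800 * G with hκ
  have hκ1 : 1 ≤ κ := by
    have : (12 : ℝ) ≤ G := by exact_mod_cast hG
    rw [hκ]; linarith
  -- conditions for `j`
  have hPPt : Tendsto (fun j : ℕ => (PP j : ℝ)) atTop atTop :=
    tendsto_natCast_atTop_atTop.comp (tendsto_atTop_mono le_PP tendsto_id)
  have evj : ∀ᶠ j : ℕ in atTop, h0 + 3 ≤ j ∧ κ * ((j : ℝ) + 40) ≤ Real.log (PP j) ∧
      (Real.log (max C 1) + 3 / 2) * 800 ≤ PP j := by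
    filter_upwards [eventually_ge_atTop (h0 + 3), log_PP_large κ,
      hPPt.eventually_ge_atTop ((Real.log (max C 1) + 3 / 2) * 800)] with j h1 h2 h3
    exact ⟨h1, h2, h3⟩
  obtain ⟨J, hJ⟩ := eventually_atTop.1 evj
  filter_upwards [eventually_ge_atTop (2 ^ (f J + f 0 + J + 10))] with m hm
  set μ := Nat.log 2 m with hμ
  have hm0 : m ≠ 0 := by
    have : 0 < 2 ^ (f J + f 0 + J + 10) := by positivity
    omega
  have hμ1 : f J + f 0 + J + 10 ≤ μ := Nat.le_log_of_pow_le (by norm_num) hm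
  have hμm : 2 ^ μ ≤ m := Nat.pow_log_le_self 2 hm0
  have hmμ : m < 2 ^ (μ + 1) := Nat.lt_pow_succ_log_self (by norm_num) m
  -- the round
  set j := Nat.findGreatest (fun j => f j ≤ μ) μ with hj
  have hj1 : f j ≤ μ := Nat.findGreatest_spec (P := fun j => f j ≤ μ) (m := 0) (Nat.zero_le _)
    (by show f 0 ≤ μ; omega)
  have hj2 : J ≤ j := Nat.le_findGreatest (by omega) (by show f J ≤ μ; omega)
  have hj3 : μ < f (j + 1) := by
    by_contra hc
    push Not at hc
    have h1 := hfj (j + 1)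
    exact Nat.findGreatest_is_greatest (P := fun j => f j ≤ μ) (n := μ) (k := j + 1)
      (by rw [← hj]; omega) (by omega) hc
  obtain ⟨hJ1, hJ2, hJ3⟩ := hJ j hj2
  have hfpos : 0 < f j := lt_of_le_of_lt (Nat.zero_le _) (hfj j)
  -- the number of steps
  set i := min (TT j) (μ / f j) with hi
  have hdiv1 : 1 ≤ μ / f j := (Nat.one_le_div_iff hfpos).2 hj1
  have hT1 := TT_pos j
  have hi1 : 1 ≤ i := le_min (by omega) hdiv1
  have hiT : i ≤ TT j := min_le_left _ _
  have hif : i * f j ≤ μ := by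
    calc i * f j ≤ μ / f j * f j := Nat.mul_le_mul_right _ (min_le_right _ _)
      _ ≤ μ := Nat.div_mul_le_self _ _
  have hμi : μ ≤ 2 * i * f j := by
    rcases le_total (TT j) (μ / f j) with h1 | h1
    · rw [hi, min_eq_left h1]
      exact (hj3.le).trans (hfstep j)
    · rw [hi, min_eq_right h1]
      have h2 : μ < f j * (μ / f j + 1) := Nat.lt_mul_div_succ μ hfpos
      have h3 : f j * (μ / f j + 1) ≤ f j * (μ / f j + μ / f j) :=
        Nat.mul_le_mul_left _ (by omega)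
      have h4 : f j * (μ / f j + μ / f j) = 2 * (μ / f j) * f j := by ring
      omega
  refine ⟨_, _, _, hout j i hi1 hiT, ?_, ?_⟩
  · -- the cost
    obtain ⟨bn, bb, br, bq, -, -, -, -, -, -⟩ := hbd j
    set e := seqE e₀ k j with he
    set x := G * PP j with hx
    set t := j + 40 with ht
    have hx12 : 12 ≤ x := by
      have := PP_pos j
      calc 12 ≤ G := hG
        _ ≤ G * PP j := Nat.le_mul_of_pos_right _ (by omega)
    have ht40 : 40 ≤ t := by omega
    have p3 : t ^ 3 * x * 40 ≤ t ^ 4 * x := by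
      calc t ^ 3 * x * 40 = t ^ 3 * x * 40 := rfl
        _ ≤ t ^ 3 * x * t := Nat.mul_le_mul_left _ ht40
        _ = t ^ 4 * x := by ring
    have p4 : t ^ 4 * x * 40 ≤ t ^ 5 * x := by
      calc t ^ 4 * x * 40 ≤ t ^ 4 * x * t := Nat.mul_le_mul_left _ ht40
        _ = t ^ 5 * x := by ring
    have p0 : x * 64000 ≤ t ^ 3 * x := by
      calc x * 64000 = 64000 * x := by ring
        _ ≤ t ^ 3 * x := Nat.mul_le_mul_right _ (by
          calc 64000 = 40 ^ 3 := by norm_num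
            _ ≤ t ^ 3 := Nat.pow_le_pow_left ht40 3)
    have hsum : 3 * (e.n + e.r + 19 + e.q) + 2 * (e.b + 6) ≤ 7 * (t ^ 5 * x) := by omega
    have htx : h0 + 3 ≤ t ^ 5 * x := by
      have h1 : t ≤ t ^ 5 * x := by
        calc t = t ^ 1 * 1 := by ring
          _ ≤ t ^ 5 * x := Nat.mul_le_mul (Nat.pow_le_pow_right (by omega) (by norm_num)) (by omega)
      omega
    have hexp : 3 * (1 + i * (e.n + e.r + 19 + e.q)) + 2 * (i * (e.b + 6)) + h0 ≤ μ := by
      have h1 : i * (3 * (e.n + e.r + 19 + e.q) + 2 * (e.b + 6)) ≤ i * (7 * (t ^ 5 * x)) :=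
        Nat.mul_le_mul_left _ hsum
      have h2 : h0 + 3 ≤ i * (t ^ 5 * x) := htx.trans (Nat.le_mul_of_pos_left _ hi1)
      have h3 : i * (7 * (t ^ 5 * x)) + i * (t ^ 5 * x) = i * f j := by
        simp only [hf]; ring
      have h4 : i * (3 * (e.n + e.r + 19 + e.q) + 2 * (e.b + 6)) =
          3 * (i * (e.n + e.r + 19 + e.q)) + 2 * (i * (e.b + 6)) := by ring
      omega
    set a := 1 + i * (e.n + e.r + 19 + e.q) with ha
    set c := i * (e.b + 6) with hc
    calc 2 ^ a * (24 * H₀ * 262650) * (2 ^ c * 2 ^ a) ^ 2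
        ≤ 2 ^ a * 2 ^ h0 * (2 ^ c * 2 ^ a) ^ 2 :=
          Nat.mul_le_mul_right _ (Nat.mul_le_mul_left _ hh0)
      _ = 2 ^ (3 * a + 2 * c + h0) := by
          rw [mul_pow, ← pow_mul, ← pow_mul, ← pow_add, ← pow_add, ← pow_add]
          congr 1
          ring
      _ ≤ 2 ^ μ := Nat.pow_le_pow_right (by norm_num) hexp
      _ ≤ m := hμm
  · -- the gain
    intro x hx1 hx2
    obtain ⟨hβpos, hβlog⟩ := log_beta hβ0 hβ j
    have hβ' : 0 < 2500 / 10506 * β j ^ i := by positivity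
    have hμ10 : (10 : ℝ) ≤ μ := by exact_mod_cast (by omega : 10 ≤ μ)
    have hμ0 : (0 : ℝ) < μ := by linarith
    obtain ⟨hlx1, hlx2⟩ := logx_bounds hμ10 hμm hmμ hx1 hx2
    -- `log log x`
    set S := Real.log μ with hS
    have hSκ : κ * ((j : ℝ) + 40) ≤ S := by
      refine hJ2.trans (Real.log_le_log (by exact_mod_cast PP_pos j) ?_)
      have h1 : PP j ≤ f j := by
        simp only [hf]
        calc PP j ≤ G * PP j := Nat.le_mul_of_pos_left _ (by omega)
          _ ≤ (j + 40) ^ 5 * (G * PP j) := Nat.le_mul_of_pos_left _ (by positivity)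
          _ ≤ 8 * ((j + 40) ^ 5 * (G * PP j)) := Nat.le_mul_of_pos_left _ (by norm_num)
      exact_mod_cast h1.trans hj1
    have ht40 : (40 : ℝ) ≤ (j : ℝ) + 40 := by
      have : (0 : ℝ) ≤ j := Nat.cast_nonneg _
      linarith
    have hS0 : 0 < S := lt_of_lt_of_le (by positivity) hSκ
    have hllx : S / 2 ≤ Real.log (Real.log x) := loglog_bound hμ10 hlx1
    have hratio : Real.log x / Real.log (Real.log x) ^ 5 ≤ 32 * μ / S ^ 5 := by
      have h1 : (S / 2) ^ 5 ≤ Real.log (Real.log x) ^ 5 :=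
        pow_le_pow_left₀ (by linarith) hllx 5
      calc Real.log x / Real.log (Real.log x) ^ 5 ≤ μ / (S / 2) ^ 5 :=
            div_le_div₀ hμ0.le hlx2 (by positivity) h1
        _ = 32 * μ / S ^ 5 := by
            rw [div_pow, div_div_eq_mul_div]
            ring
    -- the main estimate
    set t : ℝ := (j : ℝ) + 40 with ht
    have ht0 : 0 < t := by linarith
    have hS5 : κ * t ^ 5 ≤ S ^ 5 := by
      have h1 : (κ * t) ^ 5 ≤ S ^ 5 := pow_le_pow_left₀ (by positivity) hSκ 5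
      refine le_trans ?_ h1
      rw [mul_pow]
      refine mul_le_mul_of_nonneg_right ?_ (by positivity)
      calc κ = κ ^ 1 := (pow_one κ).symm
        _ ≤ κ ^ 5 := pow_le_pow_right₀ hκ1 (by norm_num)
    have hA : 32 * μ / S ^ 5 ≤ μ / (6400 * G * t ^ 5) := by
      calc 32 * μ / S ^ 5 ≤ 32 * μ / (κ * t ^ 5) :=
            div_le_div_of_nonneg_left (by positivity) (by positivity) hS5
        _ = μ / (6400 * G * t ^ 5) := by
            rw [hκ]
            field_simp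
            norm_num
    have hfR : (f j : ℝ) = 8 * (t ^ 5 * (G * PP j)) := by
      simp only [hf, ht]; push_cast; ring
    have hPPpos : (0 : ℝ) < PP j := by exact_mod_cast PP_pos j
    have hB : Real.log (max C 1) + 3 / 2 ≤ μ / (6400 * G * t ^ 5) := by
      rw [le_div_iff₀ (by positivity)]
      have h1 : (f j : ℝ) ≤ μ := by exact_mod_cast hj1
      rw [hfR] at h1
      have h2 : (Real.log (max C 1) + 3 / 2) * (6400 * G * t ^ 5) =
          ((Real.log (max C 1) + 3 / 2) * 800) * (8 * (G * t ^ 5)) := by ring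
      rw [h2]
      calc ((Real.log (max C 1) + 3 / 2) * 800) * (8 * (G * t ^ 5)) ≤
            PP j * (8 * (G * t ^ 5)) := mul_le_mul_of_nonneg_right hJ3 (by positivity)
        _ = 8 * (t ^ 5 * (G * PP j)) := by ring
        _ ≤ μ := h1
    have hlogβ : μ / (3200 * G * t ^ 5) - 3 / 2 ≤ Real.log (2500 / 10506 * β j ^ i) := by
      rw [Real.log_mul (by norm_num) (by positivity), Real.log_pow]
      have h3 := log_const
      have h4 : (μ : ℝ) ≤ 2 * i * f j := by exact_mod_cast hμi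
      rw [hfR] at h4
      have h5 : (i : ℝ) * ((PP j : ℝ) / 200) ≤ i * Real.log (β j) :=
        mul_le_mul_of_nonneg_left (by linarith) (Nat.cast_nonneg _)
      have h6 : (μ : ℝ) / (3200 * G * t ^ 5) ≤ i * ((PP j : ℝ) / 200) := by
        rw [div_le_iff₀ (by positivity)]
        calc (μ : ℝ) ≤ 2 * i * (8 * (t ^ 5 * (G * PP j))) := h4
          _ = i * ((PP j : ℝ) / 200) * (3200 * G * t ^ 5) := by ring
      linarith
    have hhalf : μ / (3200 * G * t ^ 5) = μ / (6400 * G * t ^ 5) + μ / (6400 * G * t ^ 5) := by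
      field_simp
      norm_num
    have hfin : Real.log (max C 1) + Real.log x / Real.log (Real.log x) ^ 5 ≤
        Real.log (2500 / 10506 * β j ^ i) := by linarith
    have hC1 : 0 < max C 1 := lt_max_of_lt_right one_pos
    calc C * Real.exp (Real.log x / Real.log (Real.log x) ^ 5) ≤
          max C 1 * Real.exp (Real.log x / Real.log (Real.log x) ^ 5) :=
          mul_le_mul_of_nonneg_right (le_max_left _ _) (Real.exp_pos _).le
      _ = Real.exp (Real.log (max C 1) + Real.log x / Real.log (Real.log x) ^ 5) := by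
          rw [Real.exp_add, Real.exp_log hC1]
      _ ≤ Real.exp (Real.log (2500 / 10506 * β j ^ i)) := Real.exp_le_exp.2 hfin
      _ = 2500 / 10506 * β j ^ i := Real.exp_log hβ'

end K9.Chain
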